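import Mathlib

/-! Definitions for the project: every rational map whose set of points not attracted to
attracting cycles has zero area is a limit of hyperbolic rational maps (MP_8f2e1c_an).
Rational maps of degree `d` are represented by homogeneous maps of `ℂ × ℂ`. -/

set_option autoImplicit false

open Topology Filter Metric Set MeasureTheory

namespace Pool.Agent.H790R3.RB

/-- coefficients of a pair of binary forms of degree `d` -/
abbrev CV (d : ℕ) : Type := Fin 2 × Fin (d + 1) → ℂ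

/-- the homogeneous map `(u, v) ↦ (P (u, v), Q (u, v))` -/
noncomputable def hF {d : ℕ} (x : CV d) (p : ℂ × ℂ) : ℂ × ℂ :=
  (∑ j : Fin (d + 1), x (0, j) * (p.1 ^ (j : ℕ) * p.2 ^ (d - (j : ℕ))),
   ∑ j : Fin (d + 1), x (1, j) * (p.1 ^ (j : ℕ) * p.2 ^ (d - (j : ℕ))))

/-- cross product; two nonzero vectors define the same point of the sphere iff it vanishes -/
def cr (p q : ℂ × ℂ) : ℂ := p.1 * q.2 - p.2 * q.1

/-- `P` and `Q` have no common zero: the map has degree exactly `d` -/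
def ND {d : ℕ} (x : CV d) : Prop := ∀ p : ℂ × ℂ, hF x p = 0 → p = 0

/-- the Jacobian determinant of `hF x`, a form of degree `2 d - 2` whose zeros are the critical
points of the rational map -/
noncomputable def wr {d : ℕ} (x : CV d) (p : ℂ × ℂ) : ℂ :=
  (∑ j : Fin (d + 1), x (0, j) * (((j : ℕ) : ℂ) * p.1 ^ ((j : ℕ) - 1) * p.2 ^ (d - (j : ℕ)))) *
    (∑ j : Fin (d + 1),
      x (1, j) * (((d - (j : ℕ) : ℕ) : ℂ) * p.1 ^ (j : ℕ) * p.2 ^ (d - (j : ℕ) - 1))) -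
  (∑ j : Fin (d + 1),
      x (0, j) * (((d - (j : ℕ) : ℕ) : ℂ) * p.1 ^ (j : ℕ) * p.2 ^ (d - (j : ℕ) - 1))) *
    (∑ j : Fin (d + 1), x (1, j) * (((j : ℕ) : ℂ) * p.1 ^ ((j : ℕ) - 1) * p.2 ^ (d - (j : ℕ))))

/-- the iterates of the rational map as a function of the affine coordinate (value at non-poles) -/
noncomputable def rt {d : ℕ} (x : CV d) (m : ℕ) (ζ : ℂ) : ℂ :=
  ((hF x)^[m] (ζ, 1)).1 / ((hF x)^[m] (ζ, 1)).2

/-- charts at marked points: `none` is the point at infinity, `some k` the finite point `b k x` -/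
noncomputable def ch {s : ℕ} {X : Type} (b : Fin s → X → ℂ) (k : Option (Fin s)) (x : X) (z : ℂ) :
    ℂ × ℂ :=
  match k with
  | none => (1, z)
  | some k => (b k x + z, 1)

/-- the local coordinates inverse to the charts -/
noncomputable def loc {s : ℕ} {X : Type} (b : Fin s → X → ℂ) (k : Option (Fin s)) (x : X)
    (p : ℂ × ℂ) : ℂ :=
  match k with
  | none => p.2 / p.1
  | some k => p.1 / p.2 - b k x

/-- A holomorphic family of rational maps of degree `d`, parametrised by a ball of `ℂⁿ`, with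
marked attracting cycles: base points `∞` (for `none`) and `b k x` (for `some k`) of periods
`per k`, and uniformly contracted discs of radius `r₀` about the base points, which belong to
different cycles. -/
structure Sys (d n s : ℕ) where
  co : (Fin n → ℂ) → CV d
  xT : Fin n → ℂ
  ρ : ℝ
  per : Option (Fin s) → ℕ
  b : Fin s → (Fin n → ℂ) → ℂ
  r₀ : ℝ
  θ : ℝ
  hd : 2 ≤ d
  hρ : 0 < ρ
  hr₀ : 0 < r₀
  hθ0 : 0 ≤ θ
  hθ : θ < 1
  hper : ∀ k, 1 ≤ per k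
  hco : DifferentiableOn ℂ co (ball xT ρ)
  hb : ∀ k, DifferentiableOn ℂ (b k) (ball xT ρ)
  nd : ∀ x ∈ ball xT ρ, ND (co x)
  contr : ∀ x ∈ ball xT ρ, ∀ k, ∀ z : ℂ, ‖z‖ < r₀ → ∃ a z' : ℂ, a ≠ 0 ∧ ‖z'‖ ≤ θ * ‖z‖ ∧
    (hF (co x))^[per k] (ch b k x z) = a • ch b k x z'
  sep : ∀ x ∈ ball xT ρ, ∀ k k', ∀ z z' a : ℂ, ∀ m : ℕ, ‖z‖ < r₀ → ‖z'‖ < r₀ →
    (hF (co x))^[m] (ch b k x z) = a • ch b k' x z' → k = k' ∧ per k ∣ m

namespace Sys

variable {d n s : ℕ} (S : Sys d n s)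

/-- the parameter ball -/
def U : Set (Fin n → ℂ) := ball S.xT S.ρ

/-- the homogeneous map with parameter `x` -/
noncomputable def F (x : Fin n → ℂ) : ℂ × ℂ → ℂ × ℂ := hF (S.co x)

/-- the chart at the base point of the cycle `k` -/
noncomputable def cht (k : Option (Fin s)) (x : Fin n → ℂ) (z : ℂ) : ℂ × ℂ := ch S.b k x z

/-- the cone over the disc of radius `r₀` about the base point of the cycle `k` -/
def InC (k : Option (Fin s)) (x : Fin n → ℂ) (p : ℂ × ℂ) : Prop :=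
  ∃ a z : ℂ, a ≠ 0 ∧ ‖z‖ < S.r₀ ∧ p = a • S.cht k x z

/-- the return map in the local coordinate -/
noncomputable def hk (k : Option (Fin s)) (x : Fin n → ℂ) (z : ℂ) : ℂ :=
  loc S.b k x ((S.F x)^[S.per k] (S.cht k x z))

/-- the multipliers -/
noncomputable def lam (k : Option (Fin s)) (x : Fin n → ℂ) : ℂ := deriv (S.hk k x) 0

/-- the second coefficient of the return map at infinity -/
noncomputable def bet (x : Fin n → ℂ) : ℂ := deriv (deriv (S.hk none x)) 0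

/-- the domain of the Koenigs map of the cycle `k` -/
def Dom (k : Option (Fin s)) : Set ((Fin n → ℂ) × (ℂ × ℂ)) :=
  {q | q.1 ∈ S.U ∧ S.lam k q.1 ≠ 0 ∧ ∃ N : ℕ, S.InC k q.1 ((S.F q.1)^[S.per k * N] q.2)}

/-- `KK` are the Koenigs maps of the marked cycles. -/
structure Koe (KK : Option (Fin s) → (Fin n → ℂ) × (ℂ × ℂ) → ℂ) : Prop where
  opn : ∀ k, IsOpen (S.Dom k)
  dif : ∀ k, DifferentiableOn ℂ (KK k) (S.Dom k)
  hom : ∀ k x p, (x, p) ∈ S.Dom k → ∀ a : ℂ, a ≠ 0 → KK k (x, a • p) = KK k (x, p)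
  fe : ∀ k x p, (x, p) ∈ S.Dom k → KK k (x, (S.F x)^[S.per k] p) = S.lam k x * KK k (x, p)
  zer : ∀ k, ∀ x ∈ S.U, S.lam k x ≠ 0 → KK k (x, S.cht k x 0) = 0
  der : ∀ k, ∀ x ∈ S.U, S.lam k x ≠ 0 → deriv (fun z => KK k (x, S.cht k x z)) 0 = 1

/-- `ω` are the local inverses of the Koenigs maps, over the open set `N` of parameters, on the
disc of radius `r`. -/
structure Lin (KK : Option (Fin s) → (Fin n → ℂ) × (ℂ × ℂ) → ℂ) (N : Set (Fin n → ℂ)) (r : ℝ)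
    (ω : Option (Fin s) → (Fin n → ℂ) × ℂ → ℂ) : Prop where
  hr : 0 < r
  No : IsOpen N
  NU : N ⊆ S.U
  lam0 : ∀ x ∈ N, ∀ k, S.lam k x ≠ 0
  ωd : ∀ k, DifferentiableOn ℂ (ω k) (N ×ˢ ball (0 : ℂ) r)
  ω0 : ∀ k, ∀ x ∈ N, ω k (x, 0) = 0
  ωr : ∀ k, ∀ x ∈ N, ∀ w : ℂ, ‖w‖ < r → ‖ω k (x, w)‖ < S.r₀ ∧
    KK k (x, S.cht k x (ω k (x, w))) = w
  fe : ∀ k, ∀ x ∈ N, ∀ w : ℂ, ‖w‖ < r → ∃ a : ℂ, a ≠ 0 ∧
    (S.F x)^[S.per k] (S.cht k x (ω k (x, w))) = a • S.cht k x (ω k (x, S.lam k x * w))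
  inv : ∃ r' r'' : ℝ, 0 < r'' ∧ r'' ≤ r' ∧ r' ≤ S.r₀ ∧ ∀ k, ∀ x ∈ N,
    (∀ w : ℂ, ‖w‖ < r → ‖ω k (x, w)‖ < r') ∧
    (∀ z : ℂ, ‖z‖ < r' → ‖KK k (x, S.cht k x z)‖ < r → ω k (x, KK k (x, S.cht k x z)) = z) ∧
    (∀ z : ℂ, ‖z‖ < r'' → ‖KK k (x, S.cht k x z)‖ < r)

/-- the linearised points of the cycle `k`, transported `l` steps along the cycle; `κ` is the
scale -/
noncomputable def pt (ω : Option (Fin s) → (Fin n → ℂ) × ℂ → ℂ) (k : Option (Fin s)) (l : ℕ)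
    (x : Fin n → ℂ) (w : ℂ) : ℂ × ℂ := (S.F x)^[l] (S.cht k x (ω k (x, w)))

/-- the points which are in the linearised discs of radius `r₁` at time `N` -/
def WN (ω : Option (Fin s) → (Fin n → ℂ) × ℂ → ℂ) (N : ℕ) (r₁ : ℝ) (x : Fin n → ℂ)
    (κ : Option (Fin s) → ℂ) : Set ℂ :=
  {ζ | ∃ k, ∃ l < S.per k, ∃ w : ℂ, ‖w‖ ≤ r₁ ∧ cr ((S.F x)^[N] (ζ, 1)) (S.pt ω k l x (κ k * w)) = 0}

/-- the area of the complement -/
noncomputable def AN (ω : Option (Fin s) → (Fin n → ℂ) × ℂ → ℂ) (N : ℕ) (r₁ : ℝ) (x : Fin n → ℂ)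
    (κ : Option (Fin s) → ℂ) : ℝ := (volume (S.WN ω N r₁ x κ)ᶜ).toReal

/-- the points of the plane which are not attracted to the marked cycles -/
def KS (x : Fin n → ℂ) : Set ℂ := {ζ | ∀ k, ∀ m : ℕ, ¬ S.InC k x ((S.F x)^[m] (ζ, 1))}

/-- A holomorphic disc of parameters along which the multipliers of the marked cycles and the
second coefficient at infinity are constant, with scales `κ`. -/
structure Disc (N : Set (Fin n → ℂ)) (r r₂ τ : ℝ) (x : ℂ → (Fin n → ℂ))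
    (κ : Option (Fin s) → ℂ → ℂ) : Prop where
  hτ : 0 < τ
  xd : DifferentiableOn ℂ x (ball 0 τ)
  xN : ∀ t ∈ ball (0 : ℂ) τ, x t ∈ N
  κd : ∀ k, DifferentiableOn ℂ (κ k) (ball 0 τ)
  κ0 : ∀ k, ∀ t ∈ ball (0 : ℂ) τ, κ k t ≠ 0
  κn : ∀ t ∈ ball (0 : ℂ) τ, κ none t = 1
  κr : ∀ k, ∀ t ∈ ball (0 : ℂ) τ, ‖κ k t‖ * r₂ < r
  lamc : ∀ k, ∀ t ∈ ball (0 : ℂ) τ, S.lam k (x t) = S.lam k (x 0)
  betc : ∀ t ∈ ball (0 : ℂ) τ, S.bet (x t) = S.bet (x 0)

end Sys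

/-- index set of the unknowns: parameters, critical points, scales -/
abbrev Ix (d n s : ℕ) : Type := Fin n ⊕ (Fin (2 * d - 2) ⊕ Fin s)

/-- the parameter part of the unknown vector -/
def yx {d n s : ℕ} (y : Ix d n s → ℂ) : Fin n → ℂ := fun i => y (Sum.inl i)

/-- the critical points -/
def yc {d n s : ℕ} (y : Ix d n s → ℂ) : Fin (2 * d - 2) → ℂ := fun i => y (Sum.inr (Sum.inl i))

/-- the scales; the scale of the cycle at infinity is `1` -/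
def yk {d n s : ℕ} (y : Ix d n s → ℂ) (k : Option (Fin s)) : ℂ :=
  match k with
  | none => 1
  | some k => y (Sum.inr (Sum.inr k))

namespace Sys

variable {d n s : ℕ} (S : Sys d n s)

/-- structural equations: they vanish iff the `yc y i` are the critical points -/
noncomputable def Er (j : Fin (2 * d - 2)) (y : Ix d n s → ℂ) : ℂ :=
  wr (S.co (yx y)) (((j : ℕ) : ℂ), 1) -
    wr (S.co (yx y)) (1, 0) * ∏ i : Fin (2 * d - 2), (((j : ℕ) : ℂ) - yc y i)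

/-- index set of the other equations, `A` is the set of marked attracted critical points -/
abbrev Rw (l d s : ℕ) (A : Finset (Fin (2 * d - 2))) : Type :=
  Fin l ⊕ (Option (Fin s) ⊕ (Unit ⊕ {i // i ∈ A}))

/-- the other equations: normalisations, multipliers, the second coefficient at infinity and the
relative positions of the attracted critical points -/
noncomputable def Gr (KK : Option (Fin s) → (Fin n → ℂ) × (ℂ × ℂ) → ℂ) {l : ℕ}
    (e : Fin l → (Fin n → ℂ) → ℂ) (A : Finset (Fin (2 * d - 2)))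
    (ks : Fin (2 * d - 2) → Option (Fin s)) (ls : Fin (2 * d - 2) → ℕ) (a : Rw l d s A)
    (y : Ix d n s → ℂ) : ℂ :=
  match a with
  | Sum.inl i => e i (yx y)
  | Sum.inr (Sum.inl k) => S.lam k (yx y)
  | Sum.inr (Sum.inr (Sum.inl _)) => S.bet (yx y)
  | Sum.inr (Sum.inr (Sum.inr i)) =>
      KK (ks i) (yx y, (S.F (yx y))^[ls i] (yc y i, 1)) / yk y (ks i)

/-- admissible configurations: all multipliers and scales are nonzero, the `yc y i` are the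
critical points and those with index in `A` are attracted -/
structure Adm (A : Finset (Fin (2 * d - 2))) (ks : Fin (2 * d - 2) → Option (Fin s))
    (ls : Fin (2 * d - 2) → ℕ) (y : Ix d n s → ℂ) : Prop where
  xU : yx y ∈ S.U
  lam0 : ∀ k, S.lam k (yx y) ≠ 0
  kap0 : ∀ k, yk y k ≠ 0
  crit : ∀ j, S.Er j y = 0
  lsp : ∀ i ∈ A, ls i < S.per (ks i)
  att : ∀ i ∈ A, (yx y, (S.F (yx y))^[ls i] (yc y i, 1)) ∈ S.Dom (ks i)

/-- the matrix of partial derivatives, all structural rows and `R` other rows -/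
noncomputable def Mx (KK : Option (Fin s) → (Fin n → ℂ) × (ℂ × ℂ) → ℂ) {l : ℕ}
    (e : Fin l → (Fin n → ℂ) → ℂ) (A : Finset (Fin (2 * d - 2)))
    (ks : Fin (2 * d - 2) → Option (Fin s)) (ls : Fin (2 * d - 2) → ℕ) {R : ℕ}
    (sel : Fin R → Rw l d s A) (col : Fin (2 * d - 2) ⊕ Fin R → Ix d n s) (y : Ix d n s → ℂ) :
    Matrix (Fin (2 * d - 2) ⊕ Fin R) (Fin (2 * d - 2) ⊕ Fin R) ℂ :=
  Matrix.of fun a c =>
    match a with
    | Sum.inl j => fderiv ℂ (S.Er j) y (Pi.single (col c) 1)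
    | Sum.inr i => fderiv ℂ (S.Gr KK e A ks ls (sel i)) y (Pi.single (col c) 1)

/-- the leaf through `y₀` -/
def Leaf (ω : Option (Fin s) → (Fin n → ℂ) × ℂ → ℂ) {l : ℕ}
    (e : Fin l → (Fin n → ℂ) → ℂ) (A : Finset (Fin (2 * d - 2)))
    (ks : Fin (2 * d - 2) → Option (Fin s)) (ls : Fin (2 * d - 2) → ℕ) (L : ℕ) (ρ₂ K : ℝ)
    (y₀ : Ix d n s → ℂ) (Fh : Fin (2 * d - 2) → ℂ) : Set (Ix d n s → ℂ) :=
  {y | yx y ∈ closedBall S.xT ρ₂ ∧ (∀ i, e i (yx y) = e i (yx y₀)) ∧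
    (∀ k, S.lam k (yx y) = S.lam k (yx y₀)) ∧ S.bet (yx y) = S.bet (yx y₀) ∧
    (∀ j, S.Er j y = 0) ∧ (∀ k, ‖yk y k‖ ≤ K) ∧
    ∀ i ∈ A, cr ((S.F (yx y))^[ls i + S.per (ks i) * L] (yc y i, 1))
      (S.cht (ks i) (yx y) (ω (ks i) (yx y, yk y (ks i) * (S.lam (ks i) (yx y₀) ^ L * Fh i)))) = 0}

/-- hypotheses of the abstract theorem -/
structure Hyp {l : ℕ} (e : Fin l → (Fin n → ℂ) → ℂ) : Prop where
  ed : ∀ i, DifferentiableOn ℂ (e i) S.U
  dim : 2 * d + l ≤ n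
  sepe : ∀ x₁ ∈ S.U, ∃ ε : ℝ, 0 < ε ∧ ∀ x ∈ S.U, ‖x - x₁‖ < ε → (∀ i, e i x = e i x₁) →
    (∀ p : ℂ × ℂ, cr ((S.F x)^[S.per none] p) ((S.F x₁)^[S.per none] p) = 0) → x = x₁
  gen : ∀ ε : ℝ, 0 < ε → ∃ x ∈ S.U, ‖x - S.xT‖ < ε ∧ (∀ k, S.lam k x ≠ 0) ∧
    ∃ c : Fin (2 * d - 2) → ℂ, Function.Injective c ∧
      ∀ ζ : ℂ, wr (S.co x) (ζ, 1) = wr (S.co x) (1, 0) * ∏ i, (ζ - c i)
  area : volume (S.KS S.xT) = 0

end Sys

end Pool.Agent.H790R3.RB
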