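import Mathlib
import Pool.Agent.H790R3.RB.Defs

set_option autoImplicit false

open Topology Filter Metric Set MeasureTheory

namespace Pool.Agent.H790R3.RB

theorem hF_smul {d : ℕ} (x : CV d) (a : ℂ) (p : ℂ × ℂ) : hF x (a • p) = a ^ d • hF x p := by
  have h : ∀ (j : Fin (d + 1)) (c u v : ℂ), c * ((a * u) ^ (j : ℕ) * (a * v) ^ (d - (j : ℕ))) =
      a ^ d * (c * (u ^ (j : ℕ) * v ^ (d - (j : ℕ)))) := by
    intro j c u v
    have hj : (j : ℕ) + (d - (j : ℕ)) = d := by have := j.2; omega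
    calc c * ((a * u) ^ (j : ℕ) * (a * v) ^ (d - (j : ℕ)))
        = a ^ ((j : ℕ) + (d - (j : ℕ))) * (c * (u ^ (j : ℕ) * v ^ (d - (j : ℕ)))) := by
          rw [mul_pow, mul_pow, pow_add]; ring
      _ = _ := by rw [hj]
  ext
  · simp only [hF, Prod.smul_fst, Prod.smul_snd, smul_eq_mul, h, Finset.mul_sum]
  · simp only [hF, Prod.smul_fst, Prod.smul_snd, smul_eq_mul, h, Finset.mul_sum]

theorem hF_iter_smul {d : ℕ} (x : CV d) (N : ℕ) (a : ℂ) (p : ℂ × ℂ) :
    (hF x)^[N] (a • p) = a ^ (d ^ N) • (hF x)^[N] p := by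
  induction N generalizing a p with
  | zero => simp
  | succ N ih =>
    rw [Function.iterate_succ_apply, hF_smul, ih, Function.iterate_succ_apply, ← pow_mul, pow_succ']

theorem ND.iter {d : ℕ} {x : CV d} (h : ND x) (N : ℕ) {p : ℂ × ℂ} (hp : (hF x)^[N] p = 0) :
    p = 0 := by
  induction N generalizing p with
  | zero => simpa using hp
  | succ N ih => rw [Function.iterate_succ_apply] at hp; exact h _ (ih hp)

theorem ND.iter_ne {d : ℕ} {x : CV d} (h : ND x) (N : ℕ) {p : ℂ × ℂ} (hp : p ≠ 0) :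
    (hF x)^[N] p ≠ 0 := fun h' => hp (h.iter N h')

theorem cr_self (p : ℂ × ℂ) : cr p p = 0 := by unfold cr; ring

theorem cr_comm (p q : ℂ × ℂ) : cr p q = - cr q p := by unfold cr; ring

theorem cr_smul_left (a : ℂ) (p q : ℂ × ℂ) : cr (a • p) q = a * cr p q := by
  simp only [cr, Prod.smul_fst, Prod.smul_snd, smul_eq_mul]; ring

theorem cr_smul_right (a : ℂ) (p q : ℂ × ℂ) : cr p (a • q) = a * cr p q := by
  simp only [cr, Prod.smul_fst, Prod.smul_snd, smul_eq_mul]; ring

theorem cr_eq_zero_iff {p q : ℂ × ℂ} (hp : p ≠ 0) (hq : q ≠ 0) :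
    cr p q = 0 ↔ ∃ a : ℂ, a ≠ 0 ∧ p = a • q := by
  constructor
  · intro h
    unfold cr at h
    by_cases hq1 : q.1 = 0
    · have hq2 : q.2 ≠ 0 := fun h2 => hq (Prod.ext hq1 h2)
      rw [hq1, mul_zero, sub_zero] at h
      have hp1 : p.1 = 0 := (mul_eq_zero.mp h).resolve_right hq2
      have hp2 : p.2 ≠ 0 := fun h2 => hp (Prod.ext hp1 h2)
      refine ⟨p.2 / q.2, div_ne_zero hp2 hq2, Prod.ext ?_ ?_⟩
      · simp [hp1, hq1]
      · simp [hq2]
    · have h1 : p = (p.1 / q.1) • q := by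
        apply Prod.ext
        · simp [hq1]
        · simp only [Prod.smul_snd, smul_eq_mul]
          field_simp
          linear_combination -h
      refine ⟨p.1 / q.1, ?_, h1⟩
      intro h0
      rw [h0, zero_smul] at h1
      exact hp h1
  · rintro ⟨a, -, rfl⟩
    rw [cr_smul_left, cr_self, mul_zero]

theorem cr_trans {p q r : ℂ × ℂ} (hq : q ≠ 0) (h1 : cr p q = 0) (h2 : cr q r = 0) : cr p r = 0 := by
  by_cases hp : p = 0
  · simp [cr, hp]
  by_cases hr : r = 0
  · simp [cr, hr]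
  obtain ⟨a, -, rfl⟩ := (cr_eq_zero_iff hp hq).mp h1
  rw [cr_smul_left, h2, mul_zero]

/-- parallel vectors have parallel images -/
theorem cr_iter {d : ℕ} (x : CV d) (N : ℕ) {p q : ℂ × ℂ} (hp : p ≠ 0) (hq : q ≠ 0)
    (h : cr p q = 0) : cr ((hF x)^[N] p) ((hF x)^[N] q) = 0 := by
  obtain ⟨a, -, rfl⟩ := (cr_eq_zero_iff hp hq).mp h
  rw [hF_iter_smul, cr_smul_left, cr_self, mul_zero]

theorem hF_contDiff (d : ℕ) (k : WithTop ℕ∞) :
    ContDiff ℂ k (fun q : CV d × (ℂ × ℂ) => hF q.1 q.2) := by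
  unfold hF
  apply ContDiff.prodMk
  · apply ContDiff.sum
    intro j _
    apply ContDiff.mul
    · exact (contDiff_apply ℂ ℂ ((0, j) : Fin 2 × Fin (d + 1))).comp contDiff_fst
    · exact (contDiff_snd.fst.pow _).mul (contDiff_snd.snd.pow _)
  · apply ContDiff.sum
    intro j _
    apply ContDiff.mul
    · exact (contDiff_apply ℂ ℂ ((1, j) : Fin 2 × Fin (d + 1))).comp contDiff_fst
    · exact (contDiff_snd.fst.pow _).mul (contDiff_snd.snd.pow _)

theorem hF_iter_contDiff (d : ℕ) (N : ℕ) (k : WithTop ℕ∞) :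
    ContDiff ℂ k (fun q : CV d × (ℂ × ℂ) => (hF q.1)^[N] q.2) := by
  induction N with
  | zero => simpa using contDiff_snd
  | succ N ih =>
    have h : (fun q : CV d × (ℂ × ℂ) => (hF q.1)^[N + 1] q.2) =
        (fun q : CV d × (ℂ × ℂ) => hF q.1 q.2) ∘ (fun q => (q.1, (hF q.1)^[N] q.2)) := by
      funext q
      simp only [Function.comp_apply, Function.iterate_succ_apply']
    rw [h]
    exact (hF_contDiff d k).comp (contDiff_fst.prodMk ih)

theorem hF_iter_continuous (d : ℕ) (N : ℕ) :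
    Continuous (fun q : CV d × (ℂ × ℂ) => (hF q.1)^[N] q.2) :=
  (hF_iter_contDiff d N 1).continuous

theorem hF_iter_differentiable (d : ℕ) (N : ℕ) :
    Differentiable ℂ (fun q : CV d × (ℂ × ℂ) => (hF q.1)^[N] q.2) :=
  (hF_iter_contDiff d N 1).differentiable (by norm_num)

theorem wr_contDiff (d : ℕ) (k : WithTop ℕ∞) :
    ContDiff ℂ k (fun q : CV d × (ℂ × ℂ) => wr q.1 q.2) := by
  unfold wr
  apply ContDiff.sub
  all_goals
    apply ContDiff.mul
    all_goals
      apply ContDiff.sum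
      intro j _
      apply ContDiff.mul
      · first
          | exact (contDiff_apply ℂ ℂ ((0, j) : Fin 2 × Fin (d + 1))).comp contDiff_fst
          | exact (contDiff_apply ℂ ℂ ((1, j) : Fin 2 × Fin (d + 1))).comp contDiff_fst
      · exact (contDiff_const.mul (contDiff_snd.fst.pow _)).mul (contDiff_snd.snd.pow _)

theorem ch_ne_zero {s : ℕ} {X : Type} (b : Fin s → X → ℂ) (k : Option (Fin s)) (x : X) (z : ℂ) :
    ch b k x z ≠ 0 := by
  cases k with
  | none => intro h; have := congrArg Prod.fst h; simp [ch] at this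
  | some k => intro h; have := congrArg Prod.snd h; simp [ch] at this

theorem loc_smul_ch {s : ℕ} {X : Type} (b : Fin s → X → ℂ) (k : Option (Fin s)) (x : X) (z : ℂ)
    {a : ℂ} (ha : a ≠ 0) : loc b k x (a • ch b k x z) = z := by
  cases k with
  | none => simp [ch, loc, ha]
  | some k =>
    simp only [ch, loc, Prod.smul_fst, Prod.smul_snd, smul_eq_mul, mul_one]
    field_simp
    ring

theorem cr_ch {s : ℕ} {X : Type} (b : Fin s → X → ℂ) (k : Option (Fin s)) (x : X) {z z' : ℂ}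
    (h : cr (ch b k x z) (ch b k x z') = 0) : z = z' := by
  obtain ⟨a, ha, h1⟩ := (cr_eq_zero_iff (ch_ne_zero b k x z) (ch_ne_zero b k x z')).mp h
  have h2 := loc_smul_ch b k x z' ha
  rw [← h1] at h2
  have h3 := loc_smul_ch b k x z (one_ne_zero)
  rw [one_smul] at h3
  exact h3.symm.trans h2

end Pool.Agent.H790R3.RB
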