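import Mathlib
import Pool.Agent.H790R3.RB.Defs

/-! Statements of the tasks of the project RB (see `Defs`). -/

set_option autoImplicit false

open Topology Filter Metric Set MeasureTheory

namespace Pool.Agent.H790R3.RB

/-! ### Algebra of homogeneous maps -/

/-- Iterates are given by polynomials. -/
def StPOLY : Prop :=
  ∀ (d : ℕ) (x : CV d) (N : ℕ), 1 ≤ d → ∃ A B : Polynomial ℂ,
    A.natDegree ≤ d ^ N ∧ B.natDegree ≤ d ^ N ∧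
    (∀ ζ : ℂ, A.eval ζ = ((hF x)^[N] (ζ, 1)).1) ∧ (∀ ζ : ℂ, B.eval ζ = ((hF x)^[N] (ζ, 1)).2) ∧
    A.coeff (d ^ N) = ((hF x)^[N] (1, 0)).1 ∧ B.coeff (d ^ N) = ((hF x)^[N] (1, 0)).2

/-- The Jacobian determinant is a form of degree `2 d - 2`. -/
def StWR : Prop :=
  ∀ (d : ℕ) (x : CV d), 2 ≤ d →
    (∀ (a : ℂ) (p : ℂ × ℂ), wr x (a • p) = a ^ (2 * d - 2) * wr x p) ∧
    (∃ W : Polynomial ℂ, W.natDegree ≤ 2 * d - 2 ∧ (∀ ζ : ℂ, W.eval ζ = wr x (ζ, 1)) ∧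
      W.coeff (2 * d - 2) = wr x (1, 0)) ∧
    (∀ p v w : ℂ × ℂ, cr (fderiv ℂ (hF x) p v) (fderiv ℂ (hF x) p w) = wr x p * cr v w)

/-- Critical points of iterates. -/
def StCHAIN : Prop :=
  ∀ (d : ℕ) (x : CV d) (N : ℕ) (ζ u : ℂ), 2 ≤ d →
    ((hF x)^[N] (ζ, 1)).1 = u * ((hF x)^[N] (ζ, 1)).2 →
    deriv (fun z : ℂ => ((hF x)^[N] (z, 1)).1) ζ = u * deriv (fun z : ℂ => ((hF x)^[N] (z, 1)).2) ζ →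
    ∃ m < N, wr x ((hF x)^[m] (ζ, 1)) = 0

/-- Uniform properness. -/
def StPROP : Prop :=
  ∀ (d N : ℕ) (K : Set (CV d)), 1 ≤ d → IsCompact K →
    (∀ x ∈ K, ((hF x)^[N] (1, 0)).1 ≠ 0 ∧ ((hF x)^[N] (1, 0)).2 = 0) →
    ∀ M : ℝ, ∃ C : ℝ, ∀ x ∈ K, ∀ v z : ℂ, ‖v‖ ≤ M →
      ‖((hF x)^[N] (z, 1)).1 - v * ((hF x)^[N] (z, 1)).2‖ ≤ M → ‖z‖ ≤ C

/-! ### Function theory -/

/-- The motion of the solutions of `A t z = u j t w * B t z`. -/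
def StMOT : Prop :=
  ∀ (J : Type) [Fintype J] (τ r : ℝ) (A B : ℂ → ℂ → ℂ) (u : J → ℂ → ℂ → ℂ) (S : J → Set ℂ),
    0 < τ → 0 < r →
    DifferentiableOn ℂ (fun p : ℂ × ℂ => A p.1 p.2) (ball 0 τ ×ˢ univ) →
    DifferentiableOn ℂ (fun p : ℂ × ℂ => B p.1 p.2) (ball 0 τ ×ˢ univ) →
    (∀ j, DifferentiableOn ℂ (fun p : ℂ × ℂ => u j p.1 p.2) (ball 0 τ ×ˢ (ball 0 r \ {0}))) →
    (∀ t ∈ ball (0 : ℂ) τ, ∀ j j', ∀ w ∈ ball (0 : ℂ) r \ {0}, ∀ w' ∈ ball (0 : ℂ) r \ {0},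
      u j t w = u j' t w' → j = j' ∧ w = w') →
    (∀ j, (S j).Finite) →
    (∀ K : Set ℂ, K ⊆ ball 0 τ → IsCompact K → ∀ M : ℝ, ∃ C : ℝ, ∀ t ∈ K, ∀ v z : ℂ, ‖v‖ ≤ M →
      ‖A t z - v * B t z‖ ≤ M → ‖z‖ ≤ C) →
    (∀ t ∈ ball (0 : ℂ) τ, ∀ z, B t z = 0 → A t z ≠ 0) →
    (∀ t ∈ ball (0 : ℂ) τ, ∀ j, ∀ w ∈ ball (0 : ℂ) r \ {0}, w ∉ S j → ∀ z,
      A t z = u j t w * B t z → deriv (A t) z ≠ u j t w * deriv (B t) z) →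
    ∃ (W : Set ℂ) (Φ : ℂ → ℂ → ℂ),
      W = {z | ∃ j, ∃ w ∈ ball (0 : ℂ) r \ {0}, w ∉ S j ∧ A 0 z = u j 0 w * B 0 z} ∧ IsOpen W ∧
      DifferentiableOn ℂ (fun p : ℂ × ℂ => Φ p.1 p.2) (ball 0 τ ×ˢ W) ∧
      (∀ z ∈ W, Φ 0 z = z) ∧ (∀ t ∈ ball (0 : ℂ) τ, InjOn (Φ t) W) ∧
      ∀ j, ∀ w ∈ ball (0 : ℂ) r \ {0}, w ∉ S j → ∀ z, A 0 z = u j 0 w * B 0 z →
        (∀ t ∈ ball (0 : ℂ) τ, A t (Φ t z) = u j t w * B t (Φ t z)) ∧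
        ∀ Z' : ℂ → ℂ, ContinuousOn Z' (ball 0 τ) → (∃ t₁ ∈ ball (0 : ℂ) τ, Z' t₁ = Φ t₁ z) →
          (∀ t ∈ ball (0 : ℂ) τ, A t (Z' t) = u j t w * B t (Z' t)) →
          ∀ t ∈ ball (0 : ℂ) τ, Z' t = Φ t z

/-- Removable singularities of a univalent function near infinity. -/
def StEXT : Prop :=
  ∀ (R : ℝ) (E : Set ℂ) (Φ : ℂ → ℂ), 0 < R → E.Finite →
    DifferentiableOn ℂ Φ ({z : ℂ | R < ‖z‖} \ E) → InjOn Φ ({z : ℂ | R < ‖z‖} \ E) →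
    Tendsto (fun z => Φ z - z) (cocompact ℂ) (𝓝 0) →
    ∃ Ψ : ℂ → ℂ, DifferentiableOn ℂ Ψ {z : ℂ | R < ‖z‖} ∧ InjOn Ψ {z : ℂ | R < ‖z‖} ∧
      (∀ z ∈ {z : ℂ | R < ‖z‖} \ E, Ψ z = Φ z) ∧ Tendsto (fun z => Ψ z - z) (cocompact ℂ) (𝓝 0)

/-- Area theorem with gain. -/
def StGAINA : Prop :=
  ∀ R R₁ R₂ : ℝ, 0 < R → R < R₁ → R₁ < R₂ → ∃ C : ℝ, 0 < C ∧ ∀ Φ : ℂ → ℂ,
    DifferentiableOn ℂ Φ {z : ℂ | R < ‖z‖} → InjOn Φ {z : ℂ | R < ‖z‖} →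
    Tendsto (fun z => Φ z - z) (cocompact ℂ) (𝓝 0) →
    ∃ g : ℝ, 0 ≤ g ∧ g ≤ Real.pi * R₁ ^ 2 ∧
      volume (Φ '' {z : ℂ | R₁ < ‖z‖})ᶜ ≤ ENNReal.ofReal (Real.pi * R₁ ^ 2 - g) ∧
      ∀ z : ℂ, R₂ ≤ ‖z‖ → ‖Φ z - z‖ ^ 2 ≤ C * g

/-- The gain controls the distance of two conjugate maps at finitely many points. -/
def StGAINB : Prop :=
  ∀ (R R₁ R₂ δ M : ℝ) (Z : Finset ℂ), 0 < R → R < R₁ → R₁ < R₂ → 0 < δ → 0 ≤ M →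
    (∀ ζ ∈ Z, R₂ ≤ ‖ζ‖) → ∃ c₀ : ℝ, 0 < c₀ ∧ ∀ g g' Φ : ℂ → ℂ,
      DifferentiableOn ℂ Φ {z : ℂ | R < ‖z‖} → InjOn Φ {z : ℂ | R < ‖z‖} →
      Tendsto (fun z => Φ z - z) (cocompact ℂ) (𝓝 0) →
      (∀ ζ ∈ Z, DifferentiableOn ℂ g' (ball ζ δ) ∧ ∀ w ∈ ball ζ δ, ‖g' w‖ ≤ M) →
      (∀ ζ ∈ Z, ‖g ζ‖ ≤ M ∧ R₂ ≤ ‖g ζ‖ ∧ g' (Φ ζ) = Φ (g ζ)) →
      volume (Φ '' {z : ℂ | R₁ < ‖z‖})ᶜ ≤
        ENNReal.ofReal (Real.pi * R₁ ^ 2 - c₀ * ∑ ζ ∈ Z, ‖g' ζ - g ζ‖ ^ 2)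

/-- The area inequality, integrated over a circle of parameters. -/
def StSTEP : Prop :=
  ∀ (τ r R₁ a : ℝ) (W K : Set ℂ) (Φ : ℂ → ℂ → ℂ) (X Y : ℂ → Set ℂ) (q g : ℝ → ℝ),
    0 < r → r < τ → 0 ≤ R₁ → 0 ≤ a → IsOpen W → MeasurableSet K → K ⊆ W → K ⊆ closedBall 0 R₁ →
    ENNReal.ofReal (Real.pi * R₁ ^ 2) ≤ volume K + ENNReal.ofReal a →
    DifferentiableOn ℂ (fun p : ℂ × ℂ => Φ p.1 p.2) (ball 0 τ ×ˢ W) → (∀ z ∈ W, Φ 0 z = z) →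
    (∀ t ∈ ball (0 : ℂ) τ, InjOn (Φ t) W) →
    Continuous q → Continuous g → (∀ θ, 0 ≤ q θ) →
    (∀ θ : ℝ, Disjoint (X (circleMap 0 r θ)) (Φ (circleMap 0 r θ) '' K)) →
    (∀ θ : ℝ, volume (X (circleMap 0 r θ) \ Y (circleMap 0 r θ)) = 0) →
    (∀ θ : ℝ, volume (Φ (circleMap 0 r θ) '' K \ Y (circleMap 0 r θ)) = 0) →
    (∀ θ : ℝ, volume (Y (circleMap 0 r θ)) ≤ ENNReal.ofReal (Real.pi * R₁ ^ 2 - g θ)) →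
    (∀ θ : ℝ, g θ ≤ Real.pi * R₁ ^ 2) →
    (∀ θ : ℝ, ENNReal.ofReal (q θ) ≤ volume (X (circleMap 0 r θ))) →
    ∫ θ in (0 : ℝ)..(2 * Real.pi), (q θ + g θ) ≤ 2 * Real.pi * a

/-- Koenigs linearisation with parameters. -/
def StKOEN : Prop :=
  ∀ (V : Type) [NormedAddCommGroup V] [NormedSpace ℂ V] [FiniteDimensional ℂ V]
    (B : Set V) (r₀ θ : ℝ) (h : V → ℂ → ℂ), IsOpen B → 0 < r₀ → θ < 1 →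
    DifferentiableOn ℂ (fun p : V × ℂ => h p.1 p.2) (B ×ˢ ball 0 r₀) →
    (∀ x ∈ B, ∀ z ∈ ball (0 : ℂ) r₀, ‖h x z‖ ≤ θ * ‖z‖) → (∀ x ∈ B, deriv (h x) 0 ≠ 0) →
    ∃ L : V → ℂ → ℂ, DifferentiableOn ℂ (fun p : V × ℂ => L p.1 p.2) (B ×ˢ ball 0 r₀) ∧
      ∀ x ∈ B, L x 0 = 0 ∧ deriv (L x) 0 = 1 ∧
        ∀ z ∈ ball (0 : ℂ) r₀, L x (h x z) = deriv (h x) 0 * L x z

/-- Inverse functions with parameters. -/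
def StINV : Prop :=
  ∀ (V : Type) [NormedAddCommGroup V] [NormedSpace ℂ V] [FiniteDimensional ℂ V]
    (B K : Set V) (r₀ : ℝ) (L : V → ℂ → ℂ), IsOpen B → 0 < r₀ → IsCompact K → K ⊆ B →
    DifferentiableOn ℂ (fun p : V × ℂ => L p.1 p.2) (B ×ˢ ball 0 r₀) →
    (∀ x ∈ B, L x 0 = 0 ∧ deriv (L x) 0 = 1) →
    ∃ (N : Set V) (r r' r'' : ℝ) (ω : V → ℂ → ℂ), IsOpen N ∧ K ⊆ N ∧ N ⊆ B ∧ 0 < r ∧ 0 < r'' ∧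
      r'' ≤ r' ∧ r' ≤ r₀ ∧
      DifferentiableOn ℂ (fun p : V × ℂ => ω p.1 p.2) (N ×ˢ ball 0 r) ∧
      ∀ x ∈ N, ω x 0 = 0 ∧ (∀ w : ℂ, ‖w‖ < r → ‖ω x w‖ < r' ∧ L x (ω x w) = w) ∧
        (∀ z : ℂ, ‖z‖ < r' → ‖L x z‖ < r → ω x (L x z) = z) ∧
        (∀ z : ℂ, ‖z‖ < r'' → ‖L x z‖ < r)

/-- Holomorphic discs in the fibres of maps of constant rank. -/
def StDISC : Prop :=
  ∀ (I J P : Type) [Fintype I] [DecidableEq I] [Fintype J] [DecidableEq J] [Fintype P]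
    (E : J → (I → ℂ) → ℂ) (G : P → (I → ℂ) → ℂ) (O : Set (I → ℂ)) (y : I → ℂ) (R : ℕ)
    (sel : Fin R → P) (col : J ⊕ Fin R → I), IsOpen O → y ∈ O →
    (∀ i, DifferentiableOn ℂ (E i) O) → (∀ a, DifferentiableOn ℂ (G a) O) →
    Fintype.card J + Fintype.card P < Fintype.card I → (∀ i, E i y = 0) →
    (Matrix.of fun (a c : J ⊕ Fin R) => match a with
      | Sum.inl j => fderiv ℂ (E j) y (Pi.single (col c) 1)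
      | Sum.inr i => fderiv ℂ (G (sel i)) y (Pi.single (col c) 1)).det ≠ 0 →
    (∀ z ∈ O, (∀ i, E i z = 0) → ∀ (sel' : Fin (R + 1) → P) (col' : J ⊕ Fin (R + 1) → I),
      (Matrix.of fun (a c : J ⊕ Fin (R + 1)) => match a with
        | Sum.inl j => fderiv ℂ (E j) z (Pi.single (col' c) 1)
        | Sum.inr i => fderiv ℂ (G (sel' i)) z (Pi.single (col' c) 1)).det = 0) →
    ∃ (τ : ℝ) (γ : ℂ → I → ℂ), 0 < τ ∧ DifferentiableOn ℂ γ (ball 0 τ) ∧ γ 0 = y ∧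
      deriv γ 0 ≠ 0 ∧ ∀ t ∈ ball (0 : ℂ) τ, γ t ∈ O ∧ (∀ i, E i (γ t) = 0) ∧
        ∀ a, G a (γ t) = G a y

/-! ### Dynamics -/

/-- Fatou's argument: bound of the size of a linearised disc in terms of the critical points. -/
def StFAT : Prop :=
  ∀ (d p p₀ : ℕ) (x : CV d) (ψ : ℂ → ℂ) (lam : ℂ) (r rF R : ℝ), 2 ≤ d → 1 ≤ p → 1 ≤ p₀ → ND x →
    ((hF x)^[p₀] (1, 0)).2 = 0 → 0 < r → 0 < rF → lam ≠ 0 → ‖lam‖ < 1 →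
    DifferentiableOn ℂ ψ (ball 0 r) → InjOn ψ (ball 0 r) →
    (∀ w ∈ ball (0 : ℂ) r, cr ((hF x)^[p] (ψ w, 1)) (ψ (lam * w), 1) = 0) →
    (∀ c : ℂ × ℂ, c ≠ 0 → wr x c = 0 → ∀ m : ℕ, ∀ w ∈ ball (0 : ℂ) r, w ≠ 0 →
      cr ((hF x)^[m] c) (ψ w, 1) = 0 → ‖lam‖ ^ (m / p) * rF ≤ ‖w‖) →
    (∀ ζ : ℂ, ∀ m : ℕ, ∀ w ∈ ball (0 : ℂ) r, cr ((hF x)^[m] (ζ, 1)) (ψ w, 1) = 0 → ‖ζ‖ ≤ R) →
    ‖deriv ψ 0‖ * rF ≤ 2 * R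

/-- Multipliers. -/
def StLAM : Prop :=
  ∀ (d n s : ℕ) (S : Sys d n s),
    (∀ k, DifferentiableOn ℂ (S.lam k) S.U) ∧ DifferentiableOn ℂ S.bet S.U ∧
    (∀ k, ∀ x ∈ S.U, ‖S.lam k x‖ ≤ S.θ) ∧
    (∀ x ∈ S.U, S.lam none x ≠ 0 → wr (S.co x) (1, 0) ≠ 0) ∧
    (∀ k, DifferentiableOn ℂ (fun q : (Fin n → ℂ) × ℂ => S.hk k q.1 q.2) (S.U ×ˢ ball 0 S.r₀)) ∧
    (∀ k, ∀ x ∈ S.U, ∀ z : ℂ, ‖z‖ < S.r₀ → ‖S.hk k x z‖ ≤ S.θ * ‖z‖ ∧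
      ∃ a : ℂ, a ≠ 0 ∧ (S.F x)^[S.per k] (S.cht k x z) = a • S.cht k x (S.hk k x z))

/-- Existence of the Koenigs maps. -/
def StKOE : Prop :=
  ∀ (d n s : ℕ) (S : Sys d n s), ∃ KK : Option (Fin s) → (Fin n → ℂ) × (ℂ × ℂ) → ℂ, S.Koe KK

/-- Existence of the local inverses. -/
def StLIN : Prop :=
  ∀ (d n s : ℕ) (S : Sys d n s) (KK : Option (Fin s) → (Fin n → ℂ) × (ℂ × ℂ) → ℂ), S.Koe KK →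
    ∀ K : Set (Fin n → ℂ), IsCompact K → K ⊆ {x | x ∈ S.U ∧ ∀ k, S.lam k x ≠ 0} →
    ∃ (N : Set (Fin n → ℂ)) (r : ℝ) (ω : Option (Fin s) → (Fin n → ℂ) × ℂ → ℂ), K ⊆ N ∧
      S.Lin KK N r ω

/-- Orbits of the linearised points. -/
def StORB : Prop :=
  ∀ (d n s : ℕ) (S : Sys d n s) (KK : Option (Fin s) → (Fin n → ℂ) × (ℂ × ℂ) → ℂ) (r : ℝ)
    (N : Set (Fin n → ℂ)) (ω : Option (Fin s) → (Fin n → ℂ) × ℂ → ℂ), S.Koe KK → S.Lin KK N r ω →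
    ∀ x ∈ N, ∀ k k', ∀ w w' : ℂ, ‖w‖ < r → ‖w'‖ < r → ∀ a b : ℕ,
      S.pt ω k a x w ≠ 0 ∧
      cr (S.pt ω k (S.per k + a) x w) (S.pt ω k a x (S.lam k x * w)) = 0 ∧
      (cr (S.pt ω k a x w) (S.pt ω k' b x w') = 0 → k = k' ∧ a % S.per k = b % S.per k ∧
        S.lam k x ^ (a / S.per k) * w = S.lam k x ^ (b / S.per k) * w') ∧
      (a < S.per k → (k ≠ none ∨ a ≠ 0 ∨ w ≠ 0) → (S.pt ω k a x w).2 ≠ 0)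

/-- After a long time the discs are inside the linearised discs. -/
def StCOV : Prop :=
  ∀ (d n s : ℕ) (S : Sys d n s) (KK : Option (Fin s) → (Fin n → ℂ) × (ℂ × ℂ) → ℂ) (r : ℝ)
    (N : Set (Fin n → ℂ)) (ω : Option (Fin s) → (Fin n → ℂ) × ℂ → ℂ), S.Koe KK → S.Lin KK N r ω →
    ∀ r₁ : ℝ, 0 < r₁ → ∃ N₀ : ℕ, ∀ x ∈ N, ∀ k, ∀ z : ℂ, ‖z‖ < S.r₀ → ∀ j : ℕ, N₀ ≤ j →
      ∃ w : ℂ, ‖w‖ ≤ r₁ ∧ ‖w‖ < r ∧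
        cr ((S.F x)^[S.per k * j] (S.cht k x z)) (S.cht k x (ω k (x, w))) = 0

/-- Semicontinuity of the area at `xT`. -/
def StUSC : Prop :=
  ∀ (d n s : ℕ) (S : Sys d n s), volume (S.KS S.xT) = 0 → ∀ η : ℝ, 0 < η →
    ∃ (σ : ℝ) (N₀ : ℕ), 0 < σ ∧ ∀ x ∈ S.U, ‖x - S.xT‖ < σ →
      volume {ζ : ℂ | ∀ k, ∀ m ≤ N₀, ¬ S.InC k x ((S.F x)^[m] (ζ, 1))} ≤ ENNReal.ofReal η

/-- The disc inequality. -/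
def StDI : Prop :=
  ∀ (d n s : ℕ) (S : Sys d n s) (Z : Finset ℂ) (δ M : ℝ), 0 < δ → 0 ≤ M →
    (∀ ζ ∈ Z, 1 / S.r₀ < ‖ζ‖) → ∃ c₀ : ℝ, 0 < c₀ ∧
    ∀ (KK : Option (Fin s) → (Fin n → ℂ) × (ℂ × ℂ) → ℂ) (r : ℝ) (N : Set (Fin n → ℂ))
      (ω : Option (Fin s) → (Fin n → ℂ) × ℂ → ℂ) (Nt : ℕ) (r₁ r₂ τ : ℝ) (x : ℂ → (Fin n → ℂ))
      (κ : Option (Fin s) → ℂ → ℂ) (Sx : Option (Fin s) → ℕ → Set ℂ), S.Koe KK →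
      S.Lin KK N r ω → 0 < r₁ → r₁ < r₂ → (∀ k, S.per k ∣ Nt) → S.Disc N r r₂ τ x κ →
      (∀ k l, (Sx k l).Finite) →
      (∀ t ∈ ball (0 : ℂ) τ, ∀ c : ℂ × ℂ, c ≠ 0 → wr (S.co (x t)) c = 0 → ∀ m ≤ Nt, ∀ k,
        ∀ l < S.per k, ∀ w : ℂ, w ≠ 0 → ‖w‖ < r₂ →
        cr ((S.F (x t))^[m] c) (S.pt ω k l (x t) (κ k t * w)) = 0 → w ∈ Sx k l) →
      (∀ t ∈ ball (0 : ℂ) τ, ∀ ζ : ℂ, 1 / S.r₀ < ‖ζ‖ → ζ ∈ S.WN ω Nt r₁ (x t) (fun k => κ k t)) →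
      (∀ t ∈ ball (0 : ℂ) τ, ∀ ζ ∈ Z, ∀ w ∈ ball ζ δ,
        ((S.F (x t))^[S.per none] (w, 1)).2 ≠ 0 ∧ ‖rt (S.co (x t)) (S.per none) w‖ ≤ M) →
      ∀ ρ : ℝ, 0 < ρ → ρ < τ → ∀ q : ℝ → ℝ, Continuous q → (∀ θ, 0 ≤ q θ ∧
        q θ ≤ S.AN ω Nt r₁ (x (circleMap 0 ρ θ)) (fun k => κ k (circleMap 0 ρ θ))) →
      ∫ θ in (0 : ℝ)..(2 * Real.pi), (q θ + c₀ * ∑ ζ ∈ Z,
        ‖rt (S.co (x (circleMap 0 ρ θ))) (S.per none) ζ - rt (S.co (x 0)) (S.per none) ζ‖ ^ 2) ≤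
        2 * Real.pi * S.AN ω Nt r₁ (x 0) (fun k => κ k 0)

/-! ### The leaf -/

/-- The structural equations say that the `yc y i` are the critical points. -/
def StER : Prop :=
  ∀ (d n s : ℕ) (S : Sys d n s) (y : Ix d n s → ℂ), (∀ j, S.Er j y = 0) →
    ∀ ζ : ℂ, wr (S.co (yx y)) (ζ, 1) =
      wr (S.co (yx y)) (1, 0) * ∏ i : Fin (2 * d - 2), (ζ - yc y i)

/-- Nonvanishing of a structural minor at simple critical points. -/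
def StEMIN : Prop :=
  ∀ (d n s : ℕ) (S : Sys d n s) (y : Ix d n s → ℂ), yx y ∈ S.U → wr (S.co (yx y)) (1, 0) ≠ 0 →
    Function.Injective (yc y) →
    ∃ col : Fin (2 * d - 2) → Ix d n s,
      (Matrix.of fun j c : Fin (2 * d - 2) => fderiv ℂ (S.Er j) y (Pi.single (col c) 1)).det ≠ 0

/-- Linear algebra: the first rows of an invertible matrix have a nonzero minor. -/
def StLA : Prop :=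
  ∀ (I J P : Type) [Fintype J] [DecidableEq J] [Fintype P] [DecidableEq P]
    (f : J → I → ℂ) (g : P → I → ℂ) (col : J ⊕ P → I),
    (Matrix.of fun (a c : J ⊕ P) => match a with
      | Sum.inl j => f j (col c)
      | Sum.inr i => g i (col c)).det ≠ 0 →
    ∃ col' : J → I, (Matrix.of fun j c : J => f j (col' c)).det ≠ 0

/-- The equations are holomorphic near admissible configurations. -/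
def StADO : Prop :=
  ∀ (d n s l : ℕ) (S : Sys d n s) (KK : Option (Fin s) → (Fin n → ℂ) × (ℂ × ℂ) → ℂ)
    (e : Fin l → (Fin n → ℂ) → ℂ) (A : Finset (Fin (2 * d - 2)))
    (ks : Fin (2 * d - 2) → Option (Fin s)) (ls : Fin (2 * d - 2) → ℕ), S.Koe KK →
    (∀ i, DifferentiableOn ℂ (e i) S.U) →
    ∃ O : Set (Ix d n s → ℂ), IsOpen O ∧
      O = {y | yx y ∈ S.U ∧ (∀ k, S.lam k (yx y) ≠ 0) ∧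
        ∀ i ∈ A, (yx y, (S.F (yx y))^[ls i] (yc y i, 1)) ∈ S.Dom (ks i)} ∧
      (∀ j, DifferentiableOn ℂ (S.Er j) O) ∧
      (∀ i ∈ A, DifferentiableOn ℂ
        (fun y => KK (ks i) (yx y, (S.F (yx y))^[ls i] (yc y i, 1))) O) ∧
      ∀ a, DifferentiableOn ℂ (S.Gr KK e A ks ls a) (O ∩ {y | ∀ k, yk y k ≠ 0})

/-- Points of the leaf with nonzero scales are admissible, with constant equations. -/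
def StLF : Prop :=
  ∀ (d n s l : ℕ) (S : Sys d n s) (KK : Option (Fin s) → (Fin n → ℂ) × (ℂ × ℂ) → ℂ) (r : ℝ)
    (N : Set (Fin n → ℂ)) (ω : Option (Fin s) → (Fin n → ℂ) × ℂ → ℂ)
    (e : Fin l → (Fin n → ℂ) → ℂ) (A : Finset (Fin (2 * d - 2)))
    (ks : Fin (2 * d - 2) → Option (Fin s)) (ls : Fin (2 * d - 2) → ℕ) (L : ℕ) (ρ₂ K : ℝ)
    (y₀ y : Ix d n s → ℂ) (Fh : Fin (2 * d - 2) → ℂ), S.Koe KK → S.Lin KK N r ω →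
    (∀ k, S.lam k (yx y₀) ≠ 0) → (∀ i ∈ A, ls i < S.per (ks i)) →
    (∀ i ∈ A, K * ‖S.lam (ks i) (yx y₀) ^ L * Fh i‖ < r) → yx y ∈ N →
    y ∈ S.Leaf ω e A ks ls L ρ₂ K y₀ Fh →
    (∀ i ∈ A, (yx y, (S.F (yx y))^[ls i] (yc y i, 1)) ∈ S.Dom (ks i)) ∧
    (∀ i ∈ A, KK (ks i) (yx y, (S.F (yx y))^[ls i] (yc y i, 1)) = yk y (ks i) * Fh i) ∧
    ((∀ k, yk y k ≠ 0) → S.Adm A ks ls y ∧ ∀ i ∈ A,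
      KK (ks i) (yx y, (S.F (yx y))^[ls i] (yc y i, 1)) / yk y (ks i) = Fh i)

/-- The starting point belongs to the leaf. -/
def StIN : Prop :=
  ∀ (d n s l : ℕ) (S : Sys d n s) (KK : Option (Fin s) → (Fin n → ℂ) × (ℂ × ℂ) → ℂ) (r : ℝ)
    (N : Set (Fin n → ℂ)) (ω : Option (Fin s) → (Fin n → ℂ) × ℂ → ℂ)
    (e : Fin l → (Fin n → ℂ) → ℂ) (A : Finset (Fin (2 * d - 2)))
    (ks : Fin (2 * d - 2) → Option (Fin s)) (ls : Fin (2 * d - 2) → ℕ) (ρ₂ K : ℝ)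
    (y₀ : Ix d n s → ℂ), S.Koe KK → S.Lin KK N r ω → yx y₀ ∈ N → yx y₀ ∈ closedBall S.xT ρ₂ →
    S.Adm A ks ls y₀ → (∀ k, ‖yk y₀ k‖ ≤ K) →
    ∃ L₀ : ℕ, ∀ L ≥ L₀, y₀ ∈ S.Leaf ω e A ks ls L ρ₂ K y₀
      (fun i => KK (ks i) (yx y₀, (S.F (yx y₀))^[ls i] (yc y₀ i, 1)) / yk y₀ (ks i))

/-- The leaf is compact. -/
def StCPT : Prop :=
  ∀ (d n s l : ℕ) (S : Sys d n s) (KK : Option (Fin s) → (Fin n → ℂ) × (ℂ × ℂ) → ℂ) (r : ℝ)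
    (N : Set (Fin n → ℂ)) (ω : Option (Fin s) → (Fin n → ℂ) × ℂ → ℂ)
    (e : Fin l → (Fin n → ℂ) → ℂ) (A : Finset (Fin (2 * d - 2)))
    (ks : Fin (2 * d - 2) → Option (Fin s)) (ls : Fin (2 * d - 2) → ℕ) (L : ℕ) (ρ₂ K : ℝ)
    (y₀ : Ix d n s → ℂ) (Fh : Fin (2 * d - 2) → ℂ), S.Koe KK → S.Lin KK N r ω →
    (∀ i, DifferentiableOn ℂ (e i) S.U) → ρ₂ < S.ρ → S.lam none (yx y₀) ≠ 0 →
    {x | x ∈ closedBall S.xT ρ₂ ∧ ∀ k, S.lam k x = S.lam k (yx y₀)} ⊆ N →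
    (∀ i ∈ A, K * ‖S.lam (ks i) (yx y₀) ^ L * Fh i‖ < r) →
    IsCompact (S.Leaf ω e A ks ls L ρ₂ K y₀ Fh)

/-- The leaf is invariant under small discs. -/
def StOPN : Prop :=
  ∀ (d n s l : ℕ) (S : Sys d n s) (KK : Option (Fin s) → (Fin n → ℂ) × (ℂ × ℂ) → ℂ) (r : ℝ)
    (N : Set (Fin n → ℂ)) (ω : Option (Fin s) → (Fin n → ℂ) × ℂ → ℂ)
    (e : Fin l → (Fin n → ℂ) → ℂ) (A : Finset (Fin (2 * d - 2)))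
    (ks : Fin (2 * d - 2) → Option (Fin s)) (ls : Fin (2 * d - 2) → ℕ) (L : ℕ) (ρ₂ K τ : ℝ)
    (y₀ : Ix d n s → ℂ) (Fh : Fin (2 * d - 2) → ℂ) (γ : ℂ → Ix d n s → ℂ), S.Koe KK →
    S.Lin KK N r ω → (∀ k, S.lam k (yx y₀) ≠ 0) → (∀ i ∈ A, ls i < S.per (ks i)) →
    (∀ i ∈ A, K * ‖S.lam (ks i) (yx y₀) ^ L * Fh i‖ < r) → 0 < τ →
    DifferentiableOn ℂ γ (ball 0 τ) → yx (γ 0) ∈ N → γ 0 ∈ S.Leaf ω e A ks ls L ρ₂ K y₀ Fh →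
    (∀ k, yk (γ 0) k ≠ 0) → ‖yx (γ 0) - S.xT‖ < ρ₂ → (∀ k, ‖yk (γ 0) (some k)‖ < K) → 1 ≤ K →
    (∀ t ∈ ball (0 : ℂ) τ, (∀ j, S.Er j (γ t) = 0) ∧
      ∀ a, S.Gr KK e A ks ls a (γ t) = S.Gr KK e A ks ls a (γ 0)) →
    ∃ τ' : ℝ, 0 < τ' ∧ τ' ≤ τ ∧ ∀ t ∈ ball (0 : ℂ) τ', yx (γ t) ∈ N ∧ (∀ k, yk (γ t) k ≠ 0) ∧
      γ t ∈ S.Leaf ω e A ks ls L ρ₂ K y₀ Fh

/-- Positions of the critical values in the linearised discs. -/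
def StEXC : Prop :=
  ∀ (d n s l : ℕ) (S : Sys d n s) (KK : Option (Fin s) → (Fin n → ℂ) × (ℂ × ℂ) → ℂ) (r : ℝ)
    (N : Set (Fin n → ℂ)) (ω : Option (Fin s) → (Fin n → ℂ) × ℂ → ℂ)
    (e : Fin l → (Fin n → ℂ) → ℂ) (A : Finset (Fin (2 * d - 2)))
    (ks : Fin (2 * d - 2) → Option (Fin s)) (ls : Fin (2 * d - 2) → ℕ) (L : ℕ) (ρ₂ K : ℝ)
    (y₀ y : Ix d n s → ℂ) (Fh : Fin (2 * d - 2) → ℂ), S.Koe KK → S.Lin KK N r ω →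
    (∀ i ∈ A, K * ‖S.lam (ks i) (yx y₀) ^ L * Fh i‖ < r) → yx y ∈ N →
    y ∈ S.Leaf ω e A ks ls L ρ₂ K y₀ Fh → (∀ k, yk y k ≠ 0) →
    (∀ i ∉ A, ∀ k, ∀ m : ℕ, ¬ S.InC k (yx y) ((S.F (yx y))^[m] (yc y i, 1))) →
    ∀ c : ℂ × ℂ, c ≠ 0 → wr (S.co (yx y)) c = 0 → ∀ m : ℕ, ∀ k, ∀ a : ℕ, ∀ w : ℂ,
      ‖yk y k * w‖ < r → cr ((S.F (yx y))^[m] c) (S.pt ω k a (yx y) (yk y k * w)) = 0 →
      ∃ i ∈ A, ks i = k ∧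
        S.lam k (yx y) ^ (m / S.per k) * Fh i = S.lam k (yx y) ^ ((a + ls i) / S.per k) * w

/-- Consequence of Fatou's argument for the scales. -/
def StFKB : Prop :=
  ∀ (d n s l : ℕ) (S : Sys d n s) (KK : Option (Fin s) → (Fin n → ℂ) × (ℂ × ℂ) → ℂ) (r : ℝ)
    (N : Set (Fin n → ℂ)) (ω : Option (Fin s) → (Fin n → ℂ) × ℂ → ℂ)
    (e : Fin l → (Fin n → ℂ) → ℂ) (A : Finset (Fin (2 * d - 2)))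
    (ks : Fin (2 * d - 2) → Option (Fin s)) (ls : Fin (2 * d - 2) → ℕ) (L : ℕ) (ρ₂ K rF : ℝ)
    (y₀ y : Ix d n s → ℂ) (Fh : Fin (2 * d - 2) → ℂ), S.Koe KK → S.Lin KK N r ω →
    (∀ i ∈ A, ls i < S.per (ks i)) →
    (∀ i ∈ A, K * ‖S.lam (ks i) (yx y₀) ^ L * Fh i‖ < r) → yx y ∈ N →
    y ∈ S.Leaf ω e A ks ls L ρ₂ K y₀ Fh → (∀ k, yk y k ≠ 0) →
    (∀ i ∉ A, ∀ k, ∀ m : ℕ, ¬ S.InC k (yx y) ((S.F (yx y))^[m] (yc y i, 1))) →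
    0 < rF → ∀ k : Fin s, (∀ i ∈ A, ks i = some k → Fh i ≠ 0 → rF ≤ ‖Fh i‖) →
    ‖yk y (some k)‖ * rF ≤ 2 / S.r₀ ∧ ∃ i ∈ A, ks i = some k ∧ Fh i ≠ 0

/-- Lower semicontinuity of the area functional. -/
def StLSC : Prop :=
  ∀ (d n s : ℕ) (S : Sys d n s) (KK : Option (Fin s) → (Fin n → ℂ) × (ℂ × ℂ) → ℂ) (r : ℝ)
    (N : Set (Fin n → ℂ)) (ω : Option (Fin s) → (Fin n → ℂ) × ℂ → ℂ) (Nt : ℕ) (r₁ R : ℝ),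
    S.Koe KK → S.Lin KK N r ω → 0 < r₁ →
    LowerSemicontinuousOn (fun q : (Fin n → ℂ) × (Option (Fin s) → ℂ) => S.AN ω Nt r₁ q.1 q.2)
      {q | q.1 ∈ N ∧ (∀ k, ‖q.2 k‖ * r₁ < r) ∧ ∀ ζ : ℂ, R < ‖ζ‖ → ζ ∈ S.WN ω Nt r₁ q.1 q.2}

end Pool.Agent.H790R3.RB
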