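import Mathlib
import Pool.Agent.H790R3.RB.St

/-! Statements of the second group of tasks of the project RB: the sphere, Möbius normalisation,
the universal family, genericity. -/

set_option autoImplicit false

open Topology Filter Metric Set MeasureTheory
open scoped OnePoint

namespace Pool.Agent.H790R3.RB

/-- the point of the sphere with homogeneous coordinates `p` -/
noncomputable def pr (p : ℂ × ℂ) : OnePoint ℂ :=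
  open Classical in if p.2 = 0 then ∞ else ((p.1 / p.2 : ℂ) : OnePoint ℂ)

/-- homogeneous coordinates of a point of the sphere -/
noncomputable def hc (z : OnePoint ℂ) : ℂ × ℂ :=
  match z with
  | none => (1, 0)
  | some z => (z, 1)

/-- the rational map on the sphere -/
noncomputable def sp {d : ℕ} (x : CV d) (z : OnePoint ℂ) : OnePoint ℂ := pr (hF x (hc z))

/-- all critical points are attracted by topologically attracting cycles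
(the formula of the frozen statement S03675) -/
def HypTop (f : OnePoint ℂ → OnePoint ℂ) : Prop :=
  ∀ c : OnePoint ℂ, (¬ ∃ U ∈ nhds c, Set.InjOn f U) →
    ∃ z : OnePoint ℂ, ∃ n : ℕ, 0 < n ∧ f^[n] z = z ∧
      (∃ U ∈ nhds z, ∀ w ∈ U, Filter.Tendsto (fun k : ℕ => f^[n * k] w) Filter.atTop (nhds z)) ∧
      Filter.Tendsto (fun k : ℕ => f^[n * k] c) Filter.atTop (nhds z)

/-- `a` is an attracting periodic point of period `n` : the iterates of `f^n` converge to `a`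
uniformly on a neighbourhood of `a` -/
def Sink (f : OnePoint ℂ → OnePoint ℂ) (n : ℕ) (a : OnePoint ℂ) : Prop :=
  0 < n ∧ f^[n] a = a ∧ ∃ U ∈ 𝓝 a, ∀ V ∈ 𝓝 a, ∀ᶠ k : ℕ in atTop, ∀ w ∈ U, f^[n * k] w ∈ V

/-- `z` is attracted by an attracting cycle -/
def Attd (f : OnePoint ℂ → OnePoint ℂ) (z : OnePoint ℂ) : Prop :=
  ∃ (n : ℕ) (a : OnePoint ℂ), Sink f n a ∧ Tendsto (fun k : ℕ => f^[n * k] z) atTop (𝓝 a)

/-- the polynomials with given coefficients -/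
noncomputable def pol {d : ℕ} (x : CV d) (i : Fin 2) : Polynomial ℂ :=
  ∑ j : Fin (d + 1), Polynomial.monomial (j : ℕ) (x (i, j))

/-- The sphere map. -/
def StSP : Prop :=
  ∀ (d : ℕ) (x : CV d), 1 ≤ d → ND x → Continuous (sp x) ∧
    (∀ p : ℂ × ℂ, p ≠ 0 → ∀ N : ℕ, (sp x)^[N] (pr p) = pr ((hF x)^[N] p)) ∧
    (∀ p q : ℂ × ℂ, p ≠ 0 → q ≠ 0 → (pr p = pr q ↔ cr p q = 0)) ∧
    (∀ z : OnePoint ℂ, pr (hc z) = z ∧ hc z ≠ 0) ∧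
    ContinuousOn pr {p : ℂ × ℂ | p ≠ 0}

/-- Polynomials and coefficients. -/
def StPQ : Prop :=
  ∀ (d : ℕ), 1 ≤ d →
    (∀ x : CV d, ND x → IsCoprime (pol x 0) (pol x 1) ∧
      max (pol x 0).natDegree (pol x 1).natDegree = d ∧
      (∀ i : Fin 2, ∀ j : Fin (d + 1), (pol x i).coeff (j : ℕ) = x (i, j)) ∧
      (∀ i : Fin 2, ∀ j : ℕ, d < j → (pol x i).coeff j = 0) ∧
      ∀ z : ℂ, (pol x 1).eval z ≠ 0 →
        sp x (z : OnePoint ℂ) = (((pol x 0).eval z / (pol x 1).eval z : ℂ) : OnePoint ℂ)) ∧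
    ∀ P Q : Polynomial ℂ, IsCoprime P Q → max P.natDegree Q.natDegree = d →
      ∃ x : CV d, ND x ∧ pol x 0 = P ∧ pol x 1 = Q ∧
        ∀ f : OnePoint ℂ → OnePoint ℂ, Continuous f →
          (∀ z : ℂ, Q.eval z ≠ 0 →
            f (z : OnePoint ℂ) = ((P.eval z / Q.eval z : ℂ) : OnePoint ℂ)) → f = sp x

/-- Möbius transformations are homeomorphisms of the sphere. -/
def StMOB : Prop :=
  ∀ a b c e : ℂ, a * e - b * c ≠ 0 → ∃ h : OnePoint ℂ ≃ₜ OnePoint ℂ,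
    (∀ p : ℂ × ℂ, p ≠ 0 → h (pr p) = pr (a * p.1 + b * p.2, c * p.1 + e * p.2)) ∧
    ∀ A : Set (OnePoint ℂ), volume {z : ℂ | (z : OnePoint ℂ) ∈ A} = 0 →
      volume {z : ℂ | (z : OnePoint ℂ) ∈ h '' A} = 0

/-- Conjugation by linear maps, on the level of coefficients. -/
def StCJ : Prop :=
  ∀ d : ℕ, ∃ cj : (ℂ × ℂ) × (ℂ × ℂ) → CV d → CV d,
    ContDiff ℂ 1 (fun q : ((ℂ × ℂ) × (ℂ × ℂ)) × CV d => cj q.1 q.2) ∧
    (∀ m x y, cj m (x + y) = cj m x + cj m y) ∧ (∀ m (a : ℂ) x, cj m (a • x) = a • cj m x) ∧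
    (∀ x, cj ((1, 0), (0, 1)) x = x) ∧
    ∀ (m : (ℂ × ℂ) × (ℂ × ℂ)) (x : CV d) (p : ℂ × ℂ),
      hF (cj m x) p =
        (m.1.1 * (hF x (m.2.2 * p.1 - m.1.2 * p.2, m.1.1 * p.2 - m.2.1 * p.1)).1 +
            m.1.2 * (hF x (m.2.2 * p.1 - m.1.2 * p.2, m.1.1 * p.2 - m.2.1 * p.1)).2,
         m.2.1 * (hF x (m.2.2 * p.1 - m.1.2 * p.2, m.1.1 * p.2 - m.2.1 * p.1)).1 +
            m.2.2 * (hF x (m.2.2 * p.1 - m.1.2 * p.2, m.1.1 * p.2 - m.2.1 * p.1)).2)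

/-- Noncritical points are points of local injectivity. -/
def StINJL : Prop :=
  ∀ (d : ℕ) (x : CV d) (p : ℂ × ℂ), 2 ≤ d → ND x → p ≠ 0 → wr x p ≠ 0 →
    ∃ U ∈ 𝓝 (pr p), InjOn (sp x) U

/-- If all critical points enter the marked discs then the map is hyperbolic. -/
def StTOP : Prop :=
  ∀ (d n s : ℕ) (S : Sys d n s), ∀ x ∈ S.U,
    (∀ c : ℂ × ℂ, c ≠ 0 → wr (S.co x) c = 0 → ∃ k, ∃ m : ℕ, S.InC k x ((S.F x)^[m] c)) →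
    HypTop (sp (S.co x))

/-- Uniform attraction in a chart gives a multiplier of modulus less than one. -/
def StMUL : Prop :=
  ∀ (d : ℕ) (x : CV d) (p : ℕ) (s : ℕ) (β : Fin s → Unit → ℂ) (k : Option (Fin s)),
    2 ≤ d → ND x → Sink (sp x) p (pr (ch β k () 0)) →
    ‖deriv (fun z => loc β k () ((hF x)^[p] (ch β k () z))) 0‖ < 1

/-- A rational map is isolated among the maps with the same `q`-th iterate. -/
def StISO : Prop :=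
  ∀ (d q : ℕ) (x₀ : CV d), 2 ≤ d → 1 ≤ q → ND x₀ → ∃ ε : ℝ, 0 < ε ∧ ∀ x : CV d, ‖x - x₀‖ < ε →
    (∀ p : ℂ × ℂ, cr ((hF x)^[q] p) ((hF x₀)^[q] p) = 0) →
    ∃ a : ℂ, a ≠ 0 ∧ x = a • x₀

/-- Generic maps have simple finite critical points, none of them periodic of period
dividing `q`. -/
def StGEN : Prop :=
  ∀ (d q : ℕ) (x₀ : CV d), 2 ≤ d → 1 ≤ q → ∀ ε : ℝ, 0 < ε → ∃ x : CV d, ‖x - x₀‖ < ε ∧
    wr x (1, 0) ≠ 0 ∧
    (∃ c : Fin (2 * d - 2) → ℂ, Function.Injective c ∧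
      ∀ ζ : ℂ, wr x (ζ, 1) = wr x (1, 0) * ∏ i, (ζ - c i)) ∧
    ∀ p : ℂ × ℂ, p ≠ 0 → wr x p = 0 → cr ((hF x)^[q] p) p ≠ 0

/-- the return map at a marked point of a single map -/
noncomputable def ret {d s : ℕ} (x : CV d) (β : Fin s → Unit → ℂ) (k : Option (Fin s)) (p : ℕ)
    (z : ℂ) : ℂ := loc β k () ((hF x)^[p] (ch β k () z))

/-- The universal family near a map with marked attracting cycles, normalised by a Möbius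
transformation which fixes the marked point at infinity. -/
def StFAM : Prop :=
  ∀ (d s : ℕ) (x₀ : CV d) (β : Fin s → Unit → ℂ) (per : Option (Fin s) → ℕ) (ε₀ : ℝ), 2 ≤ d →
    ND x₀ → (∀ k, 1 ≤ per k) → 0 < ε₀ →
    (∀ k, cr ((hF x₀)^[per k] (ch β k () 0)) (ch β k () 0) = 0) →
    (∀ k, ‖deriv (ret x₀ β k (per k)) 0‖ < 1) →
    (∀ k k', ∀ m : ℕ, cr ((hF x₀)^[m] (ch β k () 0)) (ch β k' () 0) = 0 → k = k' ∧ per k ∣ m) →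
    ∃ (S : Sys d (2 * d + 1) s) (v : (Fin (2 * d + 1) → ℂ) → CV d)
      (η : (Fin (2 * d + 1) → ℂ) → ℂ), S.per = per ∧ S.r₀ ≤ ε₀ ∧
      (∀ k, S.b k S.xT = β k ()) ∧ S.co S.xT = x₀ ∧ v S.xT = x₀ ∧ Continuous v ∧
      DifferentiableOn ℂ η S.U ∧ η S.xT = 0 ∧
      (∀ x ∈ S.U, ND (v x) ∧ ∀ p : ℂ × ℂ, hF (S.co x) (p.1, p.2 - η x * p.1) =
        ((hF (v x) p).1, (hF (v x) p).2 - η x * (hF (v x) p).1)) ∧
      (∀ x x₁, (∃ a : ℂ, v x = a • v x₁) → x = x₁) ∧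
      ∀ x ∈ S.U, ∀ ε : ℝ, 0 < ε → ∃ δ : ℝ, 0 < δ ∧ ∀ x' : CV d, ‖x' - v x‖ < δ →
        ∃ x'' ∈ S.U, ‖x'' - x‖ < ε ∧ ∃ a : ℂ, a ≠ 0 ∧ v x'' = a • x'

/-- The hypotheses of the abstract theorem hold for the universal family. -/
def StHYP : Prop :=
  ∀ (d s : ℕ) (S : Sys d (2 * d + 1) s) (v : (Fin (2 * d + 1) → ℂ) → CV d)
    (η : (Fin (2 * d + 1) → ℂ) → ℂ), v S.xT = S.co S.xT → Continuous v →
    DifferentiableOn ℂ η S.U →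
    (∀ x ∈ S.U, ND (v x) ∧ ∀ p : ℂ × ℂ, hF (S.co x) (p.1, p.2 - η x * p.1) =
      ((hF (v x) p).1, (hF (v x) p).2 - η x * (hF (v x) p).1)) →
    (∀ x x₁, (∃ a : ℂ, v x = a • v x₁) → x = x₁) →
    (∀ x ∈ S.U, ∀ ε : ℝ, 0 < ε → ∃ δ : ℝ, 0 < δ ∧ ∀ x' : CV d, ‖x' - v x‖ < δ →
      ∃ x'' ∈ S.U, ‖x'' - x‖ < ε ∧ ∃ a : ℂ, a ≠ 0 ∧ v x'' = a • x') →
    (∀ x₁ ∈ S.U, ∃ ε : ℝ, 0 < ε ∧ ∀ x ∈ S.U, ‖x - x₁‖ < ε → η x = η x₁ →
      (∀ p : ℂ × ℂ, cr ((S.F x)^[S.per none] p) ((S.F x₁)^[S.per none] p) = 0) → x = x₁) ∧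
    ∀ ε : ℝ, 0 < ε → ∃ x ∈ S.U, ‖x - S.xT‖ < ε ∧ (∀ k, S.lam k x ≠ 0) ∧
      ∃ c : Fin (2 * d - 2) → ℂ, Function.Injective c ∧
        ∀ ζ : ℂ, wr (S.co x) (ζ, 1) = wr (S.co x) (1, 0) * ∏ i, (ζ - c i)

/-- Every marked cycle other than the one at infinity attracts a critical point. -/
def StONE : Prop :=
  ∀ (d n s : ℕ) (S : Sys d n s) (x : Fin n → ℂ), x ∈ S.U → (∀ k, S.lam k x ≠ 0) →
    ∀ k : Fin s, ∃ c : ℂ × ℂ, c ≠ 0 ∧ wr (S.co x) c = 0 ∧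
      ∃ m : ℕ, S.InC (some k) x ((S.F x)^[m] c)

/-- There are at most `2 d - 2` marked cycles besides the one at infinity. -/
def StNUM : Prop :=
  ∀ (d n s : ℕ) (S : Sys d n s), (∀ ε : ℝ, 0 < ε → ∃ x ∈ S.U, ‖x - S.xT‖ < ε ∧
    (∀ k, S.lam k x ≠ 0) ∧ ∃ c : Fin (2 * d - 2) → ℂ, Function.Injective c ∧
      ∀ ζ : ℂ, wr (S.co x) (ζ, 1) = wr (S.co x) (1, 0) * ∏ i, (ζ - c i)) → s ≤ 2 * d - 2

/-- The abstract theorem. -/
def StABS : Prop :=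
  ∀ (d n s l : ℕ) (S : Sys d n s) (e : Fin l → (Fin n → ℂ) → ℂ), S.Hyp e →
    ∀ ε : ℝ, 0 < ε → ∃ x ∈ S.U, ‖x - S.xT‖ < ε ∧ ∀ c : ℂ × ℂ, c ≠ 0 → wr (S.co x) c = 0 →
      ∃ k, ∃ m : ℕ, S.InC k x ((S.F x)^[m] c)

/-- The theorem for a map with attracting base point at infinity. -/
def StINF : Prop :=
  ∀ (d : ℕ) (x₀ : CV d) (p : ℕ), 2 ≤ d → ND x₀ → Sink (sp x₀) p ∞ →
    volume {z : ℂ | ¬ Attd (sp x₀) (z : OnePoint ℂ)} = 0 →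
    ∀ ε : ℝ, 0 < ε → ∃ x : CV d, ‖x - x₀‖ < ε ∧ ND x ∧ HypTop (sp x)

/-- The theorem for an arbitrary map. -/
def StALL : Prop :=
  ∀ (d : ℕ) (x₀ : CV d), 2 ≤ d → ND x₀ →
    volume {z : ℂ | ¬ Attd (sp x₀) (z : OnePoint ℂ)} = 0 →
    ∀ ε : ℝ, 0 < ε → ∃ x : CV d, ‖x - x₀‖ < ε ∧ ND x ∧ HypTop (sp x)

end Pool.Agent.H790R3.RB
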