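import Mathlib
import Pool.Agent.H790R3.RB.St2

/-! Statements of the third group of tasks of the project RB: parts of the disc inequality `StDI`
and of the abstract theorem `StABS`. -/

set_option autoImplicit false

open Topology Filter Metric Set MeasureTheory

namespace Pool.Agent.H790R3.RB

/-! ### Parts of the disc inequality -/

/-- `ζ` has address `(k, l, w)` at time `t`. -/
def Ad {d n s : ℕ} (S : Sys d n s) (ω : Option (Fin s) → (Fin n → ℂ) × ℂ → ℂ) (Nt : ℕ)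
    (x : ℂ → (Fin n → ℂ)) (κ : Option (Fin s) → ℂ → ℂ) (t : ℂ) (k : Option (Fin s)) (l : ℕ) (w ζ : ℂ) :
    Prop :=
  cr ((S.F (x t))^[Nt] (ζ, 1)) (S.pt ω k l (x t) (κ k t * w)) = 0

/-- The data of the disc inequality. -/
structure DD {d n s : ℕ} (S : Sys d n s) (KK : Option (Fin s) → (Fin n → ℂ) × (ℂ × ℂ) → ℂ)
    (r : ℝ) (N : Set (Fin n → ℂ)) (ω : Option (Fin s) → (Fin n → ℂ) × ℂ → ℂ) (Nt : ℕ)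
    (r₂ τ : ℝ) (x : ℂ → (Fin n → ℂ)) (κ : Option (Fin s) → ℂ → ℂ)
    (Sx : Option (Fin s) → ℕ → Set ℂ) : Prop where
  koe : S.Koe KK
  lin : S.Lin KK N r ω
  hr₂ : 0 < r₂
  div : ∀ k, S.per k ∣ Nt
  dsc : S.Disc N r r₂ τ x κ
  fin : ∀ k l, (Sx k l).Finite
  exc : ∀ t ∈ ball (0 : ℂ) τ, ∀ c : ℂ × ℂ, c ≠ 0 → wr (S.co (x t)) c = 0 → ∀ m ≤ Nt, ∀ k,
    ∀ l < S.per k, ∀ w : ℂ, w ≠ 0 → ‖w‖ < r₂ →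
    cr ((S.F (x t))^[m] c) (S.pt ω k l (x t) (κ k t * w)) = 0 → w ∈ Sx k l

/-- The motion of the points with nonexceptional addresses. -/
structure Mo {d n s : ℕ} (S : Sys d n s) (ω : Option (Fin s) → (Fin n → ℂ) × ℂ → ℂ) (Nt : ℕ)
    (r₂ τ : ℝ) (x : ℂ → (Fin n → ℂ)) (κ : Option (Fin s) → ℂ → ℂ)
    (Sx : Option (Fin s) → ℕ → Set ℂ) (W : Set ℂ) (Φ : ℂ → ℂ → ℂ) : Prop where
  Wo : IsOpen W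
  mem : ∀ ζ : ℂ, ζ ∈ W ↔ ∃ k, ∃ l < S.per k, ∃ w : ℂ, w ≠ 0 ∧ ‖w‖ < r₂ ∧ w ∉ Sx k l ∧
    Ad S ω Nt x κ 0 k l w ζ
  Φd : DifferentiableOn ℂ (fun p : ℂ × ℂ => Φ p.1 p.2) (ball 0 τ ×ˢ W)
  Φ0 : ∀ z ∈ W, Φ 0 z = z
  Φi : ∀ t ∈ ball (0 : ℂ) τ, InjOn (Φ t) W
  ad : ∀ k, ∀ l < S.per k, ∀ w : ℂ, w ≠ 0 → ‖w‖ < r₂ → w ∉ Sx k l → ∀ ζ : ℂ,
    Ad S ω Nt x κ 0 k l w ζ → ∀ t ∈ ball (0 : ℂ) τ, Ad S ω Nt x κ t k l w (Φ t ζ)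
  unq : ∀ k, ∀ l < S.per k, ∀ w : ℂ, w ≠ 0 → ‖w‖ < r₂ → w ∉ Sx k l → ∀ ζ : ℂ,
    Ad S ω Nt x κ 0 k l w ζ → ∀ Z' : ℂ → ℂ, ContinuousOn Z' (ball 0 τ) →
    (∃ t₁ ∈ ball (0 : ℂ) τ, Z' t₁ = Φ t₁ ζ) →
    (∀ t ∈ ball (0 : ℂ) τ, Ad S ω Nt x κ t k l w (Z' t)) → ∀ t ∈ ball (0 : ℂ) τ, Z' t = Φ t ζ

/-- Existence of the motion. -/
def StMS : Prop :=
  ∀ (d n s : ℕ) (S : Sys d n s) (KK : Option (Fin s) → (Fin n → ℂ) × (ℂ × ℂ) → ℂ)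
    (r : ℝ) (N : Set (Fin n → ℂ)) (ω : Option (Fin s) → (Fin n → ℂ) × ℂ → ℂ) (Nt : ℕ)
    (r₂ τ : ℝ) (x : ℂ → (Fin n → ℂ)) (κ : Option (Fin s) → ℂ → ℂ)
    (Sx : Option (Fin s) → ℕ → Set ℂ), DD S KK r N ω Nt r₂ τ x κ Sx →
    ∃ (W : Set ℂ) (Φ : ℂ → ℂ → ℂ), Mo S ω Nt r₂ τ x κ Sx W Φ

/-- Addresses are unique; only finitely many points have exceptional addresses; the sets `WN` are
closed. -/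
def StAU : Prop :=
  ∀ (d n s : ℕ) (S : Sys d n s) (KK : Option (Fin s) → (Fin n → ℂ) × (ℂ × ℂ) → ℂ)
    (r : ℝ) (N : Set (Fin n → ℂ)) (ω : Option (Fin s) → (Fin n → ℂ) × ℂ → ℂ) (Nt : ℕ)
    (r₂ τ : ℝ) (x : ℂ → (Fin n → ℂ)) (κ : Option (Fin s) → ℂ → ℂ)
    (Sx : Option (Fin s) → ℕ → Set ℂ), DD S KK r N ω Nt r₂ τ x κ Sx →
    ∀ t ∈ ball (0 : ℂ) τ,
      (∀ k k', ∀ l < S.per k, ∀ l' < S.per k', ∀ w w' ζ : ℂ, ‖w‖ < r₂ → ‖w'‖ < r₂ →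
        Ad S ω Nt x κ t k l w ζ → Ad S ω Nt x κ t k' l' w' ζ → k = k' ∧ l = l' ∧ w = w') ∧
      {ζ : ℂ | ∃ k, ∃ l < S.per k, ∃ w : ℂ, ‖w‖ < r₂ ∧ (w = 0 ∨ w ∈ Sx k l) ∧
        Ad S ω Nt x κ t k l w ζ}.Finite ∧
      ∀ r₁ : ℝ, 0 < r₁ → r₁ < r₂ → IsClosed (S.WN ω Nt r₁ (x t) (fun k => κ k t))

/-- The motion is tangent to the identity at infinity. -/
def StTNI : Prop :=
  ∀ (d n s : ℕ) (S : Sys d n s) (KK : Option (Fin s) → (Fin n → ℂ) × (ℂ × ℂ) → ℂ)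
    (r : ℝ) (N : Set (Fin n → ℂ)) (ω : Option (Fin s) → (Fin n → ℂ) × ℂ → ℂ) (Nt : ℕ)
    (r₂ τ : ℝ) (x : ℂ → (Fin n → ℂ)) (κ : Option (Fin s) → ℂ → ℂ)
    (Sx : Option (Fin s) → ℕ → Set ℂ) (W : Set ℂ) (Φ : ℂ → ℂ → ℂ),
    DD S KK r N ω Nt r₂ τ x κ Sx → Mo S ω Nt r₂ τ x κ Sx W Φ →
    ∀ t ∈ ball (0 : ℂ) τ, (∃ R : ℝ, ∀ z : ℂ, R < ‖z‖ → z ∈ W) ∧
      Tendsto (fun z => Φ t z - z) (cocompact ℂ) (𝓝 0)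

/-- The motion is a conjugacy. -/
def StCNJ : Prop :=
  ∀ (d n s : ℕ) (S : Sys d n s) (KK : Option (Fin s) → (Fin n → ℂ) × (ℂ × ℂ) → ℂ)
    (r : ℝ) (N : Set (Fin n → ℂ)) (ω : Option (Fin s) → (Fin n → ℂ) × ℂ → ℂ) (Nt : ℕ)
    (r₂ τ : ℝ) (x : ℂ → (Fin n → ℂ)) (κ : Option (Fin s) → ℂ → ℂ)
    (Sx : Option (Fin s) → ℕ → Set ℂ) (W : Set ℂ) (Φ : ℂ → ℂ → ℂ),
    DD S KK r N ω Nt r₂ τ x κ Sx → Mo S ω Nt r₂ τ x κ Sx W Φ →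
    (∃ E : Set ℂ, E.Finite ∧ ∀ ζ : ℂ, 1 / S.r₀ < ‖ζ‖ → ζ ∉ E → ζ ∈ W) →
    ∀ t ∈ ball (0 : ℂ) τ, ∀ Ψ : ℂ → ℂ, ContinuousOn Ψ {z : ℂ | 1 / S.r₀ < ‖z‖} →
      (∃ E : Set ℂ, E.Finite ∧ ∀ ζ : ℂ, 1 / S.r₀ < ‖ζ‖ → ζ ∉ E → Ψ ζ = Φ t ζ) →
      ∀ ζ : ℂ, 1 / S.r₀ < ‖ζ‖ → ((S.F (x 0))^[S.per none] (ζ, 1)).2 ≠ 0 →
        ‖ζ‖ ≤ ‖rt (S.co (x 0)) (S.per none) ζ‖ ∧
        ((S.F (x t))^[S.per none] (Ψ ζ, 1)).2 ≠ 0 ∧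
        rt (S.co (x t)) (S.per none) (Ψ ζ) = Ψ (rt (S.co (x 0)) (S.per none) ζ)

/-! ### Parts of the abstract theorem -/

/-- nonvanishing minors at an admissible configuration -/
def Goodc {d n s l : ℕ} (S : Sys d n s) (KK : Option (Fin s) → (Fin n → ℂ) × (ℂ × ℂ) → ℂ)
    (e : Fin l → (Fin n → ℂ) → ℂ) (A : Finset (Fin (2 * d - 2)))
    (ks : Fin (2 * d - 2) → Option (Fin s)) (ls : Fin (2 * d - 2) → ℕ) (R : ℕ)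
    (y : Ix d n s → ℂ) : Prop :=
  S.Adm A ks ls y ∧ ∃ (sel : Fin R → Sys.Rw l d s A) (col : Fin (2 * d - 2) ⊕ Fin R → Ix d n s),
    (S.Mx KK e A ks ls sel col y).det ≠ 0

/-- Choice of the number of attracted critical points and of the rank. -/
def StMAXV : Prop :=
  ∀ (d n s l : ℕ) (S : Sys d n s) (KK : Option (Fin s) → (Fin n → ℂ) × (ℂ × ℂ) → ℂ)
    (e : Fin l → (Fin n → ℂ) → ℂ), S.Koe KK → S.Hyp e → ∃ (ρ' : ℝ) (m R : ℕ), 0 < ρ' ∧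
      (∀ ε : ℝ, 0 < ε → ∃ (A : Finset (Fin (2 * d - 2))) (ks : Fin (2 * d - 2) → Option (Fin s))
        (ls : Fin (2 * d - 2) → ℕ) (y : Ix d n s → ℂ), A.card = m ∧ ‖yx y - S.xT‖ < ε ∧
        Goodc S KK e A ks ls R y) ∧
      ∀ (A : Finset (Fin (2 * d - 2))) (ks : Fin (2 * d - 2) → Option (Fin s))
        (ls : Fin (2 * d - 2) → ℕ) (y : Ix d n s → ℂ), ‖yx y - S.xT‖ < ρ' →
        (m < A.card → ¬ Goodc S KK e A ks ls 0 y) ∧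
        (A.card = m → ¬ Goodc S KK e A ks ls (R + 1) y)

/-- At a good configuration with maximal number of attracted critical points the other critical
points are not attracted. -/
def StNU : Prop :=
  ∀ (d n s l : ℕ) (S : Sys d n s) (KK : Option (Fin s) → (Fin n → ℂ) × (ℂ × ℂ) → ℂ)
    (e : Fin l → (Fin n → ℂ) → ℂ) (A : Finset (Fin (2 * d - 2)))
    (ks : Fin (2 * d - 2) → Option (Fin s)) (ls : Fin (2 * d - 2) → ℕ) (R : ℕ)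
    (y : Ix d n s → ℂ), Goodc S KK e A ks ls R y →
    (∀ (A' : Finset (Fin (2 * d - 2))) (ks' : Fin (2 * d - 2) → Option (Fin s))
      (ls' : Fin (2 * d - 2) → ℕ), A.card < A'.card → ¬ Goodc S KK e A' ks' ls' 0 y) →
    ∀ i ∉ A, ∀ k, ∀ m : ℕ, ¬ S.InC k (yx y) ((S.F (yx y))^[m] (yc y i, 1))

/-- If all critical points are marked as attracted then all critical vectors are attracted. -/
def StALLC : Prop :=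
  ∀ (d n s : ℕ) (S : Sys d n s) (ks : Fin (2 * d - 2) → Option (Fin s))
    (ls : Fin (2 * d - 2) → ℕ) (y : Ix d n s → ℂ), S.Adm Finset.univ ks ls y →
    ∀ c : ℂ × ℂ, c ≠ 0 → wr (S.co (yx y)) c = 0 → ∃ k, ∃ m : ℕ, S.InC k (yx y) ((S.F (yx y))^[m] c)

/-- Choice of the test points and of the radius. -/
def StZZ : Prop :=
  ∀ (d n s l : ℕ) (S : Sys d n s) (e : Fin l → (Fin n → ℂ) → ℂ), S.Hyp e → ∀ ρ' : ℝ, 0 < ρ' →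
    ∃ (Z : Finset ℂ) (δ M ρ₂ h₀ : ℝ), 0 < δ ∧ 0 ≤ M ∧ 0 < ρ₂ ∧ ρ₂ < ρ' ∧ ρ₂ < S.ρ ∧ 0 < h₀ ∧
      (∀ ζ ∈ Z, 1 / S.r₀ < ‖ζ‖) ∧
      (∀ x ∈ closedBall S.xT ρ₂, ∀ ζ ∈ Z, ∀ w ∈ ball ζ δ, ((S.F x)^[S.per none] (w, 1)).2 ≠ 0 ∧
        ‖rt (S.co x) (S.per none) w‖ ≤ M) ∧
      (∀ x ∈ closedBall S.xT ρ₂, ∀ x' ∈ closedBall S.xT ρ₂,
        (∀ ζ ∈ Z, rt (S.co x) (S.per none) ζ = rt (S.co x') (S.per none) ζ) →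
        ∀ p : ℂ × ℂ, cr ((S.F x)^[S.per none] p) ((S.F x')^[S.per none] p) = 0) ∧
      ∀ x : Fin n → ℂ, ‖x - S.xT‖ = ρ₂ →
        h₀ ≤ ∑ ζ ∈ Z, ‖rt (S.co x) (S.per none) ζ - rt (S.co S.xT) (S.per none) ζ‖ ^ 2 +
          ∑ i, ‖e i x - e i S.xT‖ ^ 2

/-- A holomorphic function on the leaf with the same zeros as the minor. -/
def StJT : Prop :=
  ∀ (d n s l : ℕ) (S : Sys d n s) (KK : Option (Fin s) → (Fin n → ℂ) × (ℂ × ℂ) → ℂ)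
    (e : Fin l → (Fin n → ℂ) → ℂ) (A : Finset (Fin (2 * d - 2)))
    (ks : Fin (2 * d - 2) → Option (Fin s)) (ls : Fin (2 * d - 2) → ℕ) (R : ℕ)
    (sel : Fin R → Sys.Rw l d s A) (col : Fin (2 * d - 2) ⊕ Fin R → Ix d n s), S.Koe KK →
    (∀ i, DifferentiableOn ℂ (e i) S.U) →
    ∃ Jt : (Ix d n s → ℂ) → ℂ,
      DifferentiableOn ℂ Jt {y | yx y ∈ S.U ∧ (∀ k, S.lam k (yx y) ≠ 0) ∧
        ∀ i ∈ A, (yx y, (S.F (yx y))^[ls i] (yc y i, 1)) ∈ S.Dom (ks i)} ∧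
      ∀ y : Ix d n s → ℂ, yx y ∈ S.U → (∀ k, S.lam k (yx y) ≠ 0) →
        (∀ i ∈ A, (yx y, (S.F (yx y))^[ls i] (yc y i, 1)) ∈ S.Dom (ks i)) → (∀ k, yk y k ≠ 0) →
        (Jt y = 0 ↔ (S.Mx KK e A ks ls sel col y).det = 0)

/-- Choice of the time: at time `Nt` a neighbourhood of infinity and all points which are attracted
before time `N₀` are in the linearised discs. -/
def StST : Prop :=
  ∀ (d n s : ℕ) (S : Sys d n s) (KK : Option (Fin s) → (Fin n → ℂ) × (ℂ × ℂ) → ℂ) (r : ℝ)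
    (N : Set (Fin n → ℂ)) (ω : Option (Fin s) → (Fin n → ℂ) × ℂ → ℂ), S.Koe KK → S.Lin KK N r ω →
    ∀ (r₁ : ℝ) (N₀ : ℕ) (κ₀ : Option (Fin s) → ℂ), 0 < r₁ → r₁ < r → (∀ k, κ₀ k ≠ 0) →
    (∀ k, ‖κ₀ k‖ * r₁ < r) → ∃ Nt : ℕ, (∀ k, S.per k ∣ Nt) ∧
      (∀ x ∈ N, ∀ κ : Option (Fin s) → ℂ, κ none = 1 → ∀ ζ : ℂ, 1 / S.r₀ < ‖ζ‖ →
        ζ ∈ S.WN ω Nt r₁ x κ) ∧
      ∀ x ∈ N, ∀ ζ : ℂ, (∃ k, ∃ m ≤ N₀, S.InC k x ((S.F x)^[m] (ζ, 1))) → ζ ∈ S.WN ω Nt r₁ x κ₀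

/-- Nonconstancy of the parameter along a disc. -/
def StNC : Prop :=
  ∀ (d n s : ℕ) (S : Sys d n s) (KK : Option (Fin s) → (Fin n → ℂ) × (ℂ × ℂ) → ℂ)
    (A : Finset (Fin (2 * d - 2)))
    (ks : Fin (2 * d - 2) → Option (Fin s)) (ls : Fin (2 * d - 2) → ℕ) (τ : ℝ)
    (γ : ℂ → Ix d n s → ℂ) (Fh : Fin (2 * d - 2) → ℂ), 0 < τ → DifferentiableOn ℂ γ (ball 0 τ) →
    deriv γ 0 ≠ 0 → (∀ t ∈ ball (0 : ℂ) τ, S.Adm A ks ls (γ t) ∧ ∀ i ∈ A,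
      KK (ks i) (yx (γ t), (S.F (yx (γ t)))^[ls i] (yc (γ t) i, 1)) / yk (γ t) (ks i) = Fh i) →
    (∀ k : Fin s, ∃ i ∈ A, ks i = some k ∧ Fh i ≠ 0) → ∃ t ∈ ball (0 : ℂ) τ, yx (γ t) ≠ yx (γ 0)

/-- Existence of a maximal point. -/
def StMAXI : Prop :=
  ∀ (X : Type) [TopologicalSpace X] (L : Set X) (a h j : X → ℝ) (y₀ : X) (δ : ℝ), IsCompact L →
    LowerSemicontinuousOn a L → ContinuousOn h L → ContinuousOn j L → (∀ y ∈ L, 0 ≤ j y) →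
    0 < δ → y₀ ∈ L → 0 < j y₀ →
    ∃ y ∈ L, 0 < j y ∧ ∀ z ∈ L, 0 < j z →
      a y + h y - δ * Real.log (j y) ≤ a z + h z - δ * Real.log (j z)

/-- The final computation: no point can be minimal if the disc inequality holds. -/
def StCONT : Prop :=
  ∀ (P : Type) [Fintype P] (τ ρ c₀ δ a : ℝ) (f : P → ℂ → ℂ) (w : P → ℂ) (g : ℂ → ℂ) (A : ℝ → ℝ),
    0 < ρ → ρ < τ → 0 < c₀ → 0 < δ → (∀ i, DifferentiableOn ℂ (f i) (ball 0 τ)) →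
    DifferentiableOn ℂ g (ball 0 τ) → (∀ t ∈ ball (0 : ℂ) τ, g t ≠ 0) →
    (∃ θ : ℝ, ∃ i, f i (circleMap 0 ρ θ) ≠ f i 0) → (∀ θ, 0 ≤ A θ) →
    (∀ θ : ℝ, a + c₀ / 2 * ∑ i, ‖f i 0 - w i‖ ^ 2 - δ * Real.log ‖g 0‖ ≤
      A θ + c₀ / 2 * ∑ i, ‖f i (circleMap 0 ρ θ) - w i‖ ^ 2 -
        δ * Real.log ‖g (circleMap 0 ρ θ)‖) →
    (∀ q : ℝ → ℝ, Continuous q → (∀ θ, 0 ≤ q θ ∧ q θ ≤ A θ) →
      ∫ θ in (0 : ℝ)..(2 * Real.pi), (q θ + c₀ * ∑ i, ‖f i (circleMap 0 ρ θ) - f i 0‖ ^ 2) ≤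
        2 * Real.pi * a) → False

end Pool.Agent.H790R3.RB
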