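import Mathlib
import Pool.Agent.H790R3.RB.St3
import Pool.Agent.H790R3.RB.Basic

set_option autoImplicit false

open Topology Filter Metric Set MeasureTheory

namespace Pool.Agent.H790R3.RB

theorem yx_diff {d n s : ℕ} : Differentiable ℂ (yx : (Ix d n s → ℂ) → (Fin n → ℂ)) := by
  unfold yx
  rw [differentiable_pi]
  intro i
  exact differentiable_apply _

theorem yc_diff {d n s : ℕ} (i : Fin (2 * d - 2)) :
    Differentiable ℂ (fun y : Ix d n s → ℂ => yc y i) := by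
  unfold yc
  exact differentiable_apply _

theorem yk_diff {d n s : ℕ} (k : Option (Fin s)) :
    Differentiable ℂ (fun y : Ix d n s → ℂ => yk y k) := by
  cases k with
  | none => exact differentiable_const _
  | some k => exact differentiable_apply _

theorem rt_diff {d n s : ℕ} (S : Sys d n s) (m : ℕ) (ζ : ℂ) :
    DifferentiableOn ℂ (fun x => rt (S.co x) m ζ)
      {x | x ∈ S.U ∧ ((S.F x)^[m] (ζ, 1)).2 ≠ 0} := by
  have h0 : DifferentiableOn ℂ (fun x => (hF (S.co x))^[m] ((ζ, 1) : ℂ × ℂ)) S.U := by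
    have h1 : DifferentiableOn ℂ (fun x => ((S.co x, (ζ, 1)) : CV d × (ℂ × ℂ))) S.U :=
      S.hco.prodMk (differentiableOn_const _)
    exact (hF_iter_differentiable d m).comp_differentiableOn h1
  intro x hx
  have h1 : DifferentiableWithinAt ℂ (fun x => (hF (S.co x))^[m] ((ζ, 1) : ℂ × ℂ))
    {x | x ∈ S.U ∧ ((S.F x)^[m] (ζ, 1)).2 ≠ 0} x := (h0 x hx.1).mono (fun y hy => hy.1)
  have h2 : DifferentiableWithinAt ℂ (fun x => ((hF (S.co x))^[m] ((ζ, 1) : ℂ × ℂ)).1)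
    {x | x ∈ S.U ∧ ((S.F x)^[m] (ζ, 1)).2 ≠ 0} x := h1.fst
  have h3 : DifferentiableWithinAt ℂ (fun x => ((hF (S.co x))^[m] ((ζ, 1) : ℂ × ℂ)).2)
    {x | x ∈ S.U ∧ ((S.F x)^[m] (ζ, 1)).2 ≠ 0} x := h1.snd
  have h5 : (fun x => ((hF (S.co x))^[m] ((ζ, 1) : ℂ × ℂ)).2) x ≠ 0 := hx.2
  unfold rt
  simp only [div_eq_mul_inv]
  exact h2.mul (h3.inv h5)

theorem exists_low {ι : Type} [DecidableEq ι] (A : Finset ι) (F : ι → ℂ) :
    ∃ r : ℝ, 0 < r ∧ ∀ i ∈ A, F i ≠ 0 → r ≤ ‖F i‖ := by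
  induction A using Finset.induction_on with
  | empty => exact ⟨1, one_pos, by simp⟩
  | insert a A _ ih =>
    obtain ⟨r, hr, h⟩ := ih
    by_cases ha : F a = 0
    · refine ⟨r, hr, ?_⟩
      intro i hi hne
      rcases Finset.mem_insert.mp hi with rfl | hi
      · exact absurd ha hne
      · exact h i hi hne
    · refine ⟨min r ‖F a‖, lt_min hr (norm_pos_iff.mpr ha), ?_⟩
      intro i hi hne
      rcases Finset.mem_insert.mp hi with rfl | hi
      · exact min_le_right _ _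
      · exact (min_le_left _ _).trans (h i hi hne)

theorem lamset_compact (hLAM : StLAM) {d n s : ℕ} (S : Sys d n s) {ρ₂ : ℝ} (h : ρ₂ < S.ρ)
    (v : Option (Fin s) → ℂ) : IsCompact {x | x ∈ closedBall S.xT ρ₂ ∧ ∀ k, S.lam k x = v k} := by
  obtain ⟨h1, -⟩ := hLAM d n s S
  have hsub : closedBall S.xT ρ₂ ⊆ S.U := closedBall_subset_ball h
  apply (isCompact_closedBall S.xT ρ₂).of_isClosed_subset _ (fun x hx => hx.1)
  have h2 : {x | x ∈ closedBall S.xT ρ₂ ∧ ∀ k, S.lam k x = v k} =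
      closedBall S.xT ρ₂ ∩ ⋂ k, (closedBall S.xT ρ₂ ∩ S.lam k ⁻¹' {v k}) := by
    ext x
    simp only [mem_ofPred_eq, mem_inter_iff, mem_iInter, mem_preimage, mem_singleton_iff]
    constructor
    · rintro ⟨a, b⟩; exact ⟨a, fun k => ⟨a, b k⟩⟩
    · rintro ⟨a, b⟩; exact ⟨a, fun k => (b k).2⟩
  rw [h2]
  apply IsClosed.inter isClosed_closedBall
  apply isClosed_iInter
  intro k
  exact ((h1 k).continuousOn.mono hsub).preimage_isClosed_of_isClosed isClosed_closedBall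
    isClosed_singleton

theorem exists_L (hLAM : StLAM) {d n s : ℕ} (S : Sys d n s) {x : Fin n → ℂ} (hx : x ∈ S.U)
    (A : Finset (Fin (2 * d - 2))) (ks : Fin (2 * d - 2) → Option (Fin s))
    (Fh : Fin (2 * d - 2) → ℂ) (K : ℝ) {r : ℝ} (hr : 0 < r) (L₀ : ℕ) :
    ∃ L ≥ L₀, ∀ i ∈ A, K * ‖S.lam (ks i) x ^ L * Fh i‖ < r := by
  obtain ⟨-, -, h3, -⟩ := hLAM d n s S
  have h : ∀ᶠ L : ℕ in atTop, ∀ i ∈ A, K * ‖S.lam (ks i) x ^ L * Fh i‖ < r := by
    rw [Filter.eventually_all_finset]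
    intro i _
    have h1 : Tendsto (fun L : ℕ => K * ‖S.lam (ks i) x ^ L * Fh i‖) atTop (𝓝 0) := by
      have h2 : ‖S.lam (ks i) x‖ < 1 := (h3 (ks i) x hx).trans_lt S.hθ
      have h4 := tendsto_pow_atTop_nhds_zero_of_norm_lt_one h2
      have h5 := ((h4.mul_const (Fh i)).norm).const_mul K
      simpa using h5
    exact h1.eventually (gt_mem_nhds hr)
  obtain ⟨L, hL1, hL2⟩ := (h.and (eventually_ge_atTop L₀)).exists
  exact ⟨L, hL2, hL1⟩

theorem vol_le {E : Set ℂ} {a : ℝ} (ha : 0 ≤ a) (h : volume E ≤ ENNReal.ofReal a) :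
    (volume E).toReal ≤ a := ENNReal.toReal_le_of_le_ofReal ha h

theorem lsc_comp {X Y : Type} [TopologicalSpace X] [TopologicalSpace Y] {f : Y → ℝ} {t : Set Y}
    {g : X → Y} {s : Set X} (hf : LowerSemicontinuousOn f t) (hg : ContinuousOn g s)
    (h : MapsTo g s t) : LowerSemicontinuousOn (fun x => f (g x)) s := by
  intro x hx c hc
  have h1 := hf (g x) (h hx) c hc
  exact ((hg x hx).tendsto_nhdsWithin h).eventually h1

end Pool.Agent.H790R3.RB
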