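import Mathlib
import Pool.Agent.H790R3.RB.Abs1

set_option autoImplicit false

open Topology Filter Metric Set MeasureTheory

namespace Pool.Agent.H790R3.RB

theorem Mx_eq {d n s : ℕ} (S : Sys d n s) (KK : Option (Fin s) → (Fin n → ℂ) × (ℂ × ℂ) → ℂ)
    {l : ℕ} (e : Fin l → (Fin n → ℂ) → ℂ) (A : Finset (Fin (2 * d - 2)))
    (ks : Fin (2 * d - 2) → Option (Fin s)) (ls : Fin (2 * d - 2) → ℕ) {R : ℕ}
    (sel : Fin R → Sys.Rw l d s A) (col : Fin (2 * d - 2) ⊕ Fin R → Ix d n s)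
    (y : Ix d n s → ℂ) : S.Mx KK e A ks ls sel col y = (Matrix.of fun a c => match a with
      | Sum.inl j => fderiv ℂ (S.Er j) y (Pi.single (col c) 1)
      | Sum.inr i => fderiv ℂ (S.Gr KK e A ks ls (sel i)) y (Pi.single (col c) 1)) := by
  ext a c
  cases a <;> rfl

/-- the local part of the argument: there is no minimal point -/
theorem no_min (hLAM : StLAM) (hDISC : StDISC) (hADO : StADO) (hLF : StLF)
    (hOPN : StOPN) (hEXC : StEXC) (hNU : StNU) (hJT : StJT)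
    (hNC : StNC) (hCONT : StCONT)
    {d n s l : ℕ} (S : Sys d n s) (e : Fin l → (Fin n → ℂ) → ℂ) (hH : S.Hyp e)
    {KK : Option (Fin s) → (Fin n → ℂ) × (ℂ × ℂ) → ℂ} (hK : S.Koe KK)
    {ρ' : ℝ} {m R : ℕ}
    (hmax : ∀ (A : Finset (Fin (2 * d - 2))) (ks : Fin (2 * d - 2) → Option (Fin s))
        (ls : Fin (2 * d - 2) → ℕ) (y : Ix d n s → ℂ), ‖yx y - S.xT‖ < ρ' →
        (m < A.card → ¬ Goodc S KK e A ks ls 0 y) ∧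
        (A.card = m → ¬ Goodc S KK e A ks ls (R + 1) y))
    (hm : m < 2 * d - 2)
    {Z : Finset ℂ} {δ M ρ₂ c₀ : ℝ} (hδ : 0 < δ) (hρ₂ : ρ₂ < ρ')
    (hρ₂S : ρ₂ < S.ρ) (hc₀ : 0 < c₀)
    (hZ2 : ∀ x ∈ closedBall S.xT ρ₂, ∀ ζ ∈ Z, ∀ w ∈ ball ζ δ,
      ((S.F x)^[S.per none] (w, 1)).2 ≠ 0 ∧ ‖rt (S.co x) (S.per none) w‖ ≤ M)
    (hZ3 : ∀ x ∈ closedBall S.xT ρ₂, ∀ x' ∈ closedBall S.xT ρ₂,
        (∀ ζ ∈ Z, rt (S.co x) (S.per none) ζ = rt (S.co x') (S.per none) ζ) →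
        ∀ p : ℂ × ℂ, cr ((S.F x)^[S.per none] p) ((S.F x')^[S.per none] p) = 0)
    (hdi : ∀ (KK : Option (Fin s) → (Fin n → ℂ) × (ℂ × ℂ) → ℂ) (r : ℝ) (N : Set (Fin n → ℂ))
      (ω : Option (Fin s) → (Fin n → ℂ) × ℂ → ℂ) (Nt : ℕ) (r₁ r₂ τ : ℝ) (x : ℂ → (Fin n → ℂ))
      (κ : Option (Fin s) → ℂ → ℂ) (Sx : Option (Fin s) → ℕ → Set ℂ), S.Koe KK →
      S.Lin KK N r ω → 0 < r₁ → r₁ < r₂ → (∀ k, S.per k ∣ Nt) → S.Disc N r r₂ τ x κ →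
      (∀ k l, (Sx k l).Finite) →
      (∀ t ∈ ball (0 : ℂ) τ, ∀ c : ℂ × ℂ, c ≠ 0 → wr (S.co (x t)) c = 0 → ∀ m ≤ Nt, ∀ k,
        ∀ l < S.per k, ∀ w : ℂ, w ≠ 0 → ‖w‖ < r₂ →
        cr ((S.F (x t))^[m] c) (S.pt ω k l (x t) (κ k t * w)) = 0 → w ∈ Sx k l) →
      (∀ t ∈ ball (0 : ℂ) τ, ∀ ζ : ℂ, 1 / S.r₀ < ‖ζ‖ → ζ ∈ S.WN ω Nt r₁ (x t) (fun k => κ k t)) →
      (∀ t ∈ ball (0 : ℂ) τ, ∀ ζ ∈ Z, ∀ w ∈ ball ζ δ,
        ((S.F (x t))^[S.per none] (w, 1)).2 ≠ 0 ∧ ‖rt (S.co (x t)) (S.per none) w‖ ≤ M) →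
      ∀ ρ : ℝ, 0 < ρ → ρ < τ → ∀ q : ℝ → ℝ, Continuous q → (∀ θ, 0 ≤ q θ ∧
        q θ ≤ S.AN ω Nt r₁ (x (circleMap 0 ρ θ)) (fun k => κ k (circleMap 0 ρ θ))) →
      ∫ θ in (0 : ℝ)..(2 * Real.pi), (q θ + c₀ * ∑ ζ ∈ Z,
        ‖rt (S.co (x (circleMap 0 ρ θ))) (S.per none) ζ - rt (S.co (x 0)) (S.per none) ζ‖ ^ 2) ≤
        2 * Real.pi * S.AN ω Nt r₁ (x 0) (fun k => κ k 0))
    {A : Finset (Fin (2 * d - 2))} {ks : Fin (2 * d - 2) → Option (Fin s)}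
    {ls : Fin (2 * d - 2) → ℕ} (hA : A.card = m) (hls : ∀ i ∈ A, ls i < S.per (ks i))
    {y₀ : Ix d n s → ℂ} (hlam0 : ∀ k, S.lam k (yx y₀) ≠ 0)
    (sel : Fin R → Sys.Rw l d s A) (col : Fin (2 * d - 2) ⊕ Fin R → Ix d n s)
    {N : Set (Fin n → ℂ)} {r : ℝ} {ω : Option (Fin s) → (Fin n → ℂ) × ℂ → ℂ}
    (hL : S.Lin KK N r ω) {Kc r₁ r₂ : ℝ} (hKc : 1 ≤ Kc)
    (hr₁ : 0 < r₁) (hr₁₂ : r₁ < r₂) (hr₂ : Kc * r₂ < r)
    {L : ℕ} {Fh : Fin (2 * d - 2) → ℂ}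
    (hKL : ∀ i ∈ A, Kc * ‖S.lam (ks i) (yx y₀) ^ L * Fh i‖ < r)
    {Nt : ℕ} (hNt : ∀ k, S.per k ∣ Nt)
    (hcov : ∀ x ∈ N, ∀ κ : Option (Fin s) → ℂ, κ none = 1 → ∀ ζ : ℂ, 1 / S.r₀ < ‖ζ‖ →
        ζ ∈ S.WN ω Nt r₁ x κ)
    {Jt : (Ix d n s → ℂ) → ℂ}
    (hJd : DifferentiableOn ℂ Jt {y | yx y ∈ S.U ∧ (∀ k, S.lam k (yx y) ≠ 0) ∧
        ∀ i ∈ A, (yx y, (S.F (yx y))^[ls i] (yc y i, 1)) ∈ S.Dom (ks i)})
    (hJ0 : ∀ y : Ix d n s → ℂ, yx y ∈ S.U → (∀ k, S.lam k (yx y) ≠ 0) →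
        (∀ i ∈ A, (yx y, (S.F (yx y))^[ls i] (yc y i, 1)) ∈ S.Dom (ks i)) → (∀ k, yk y k ≠ 0) →
        (Jt y = 0 ↔ (S.Mx KK e A ks ls sel col y).det = 0))
    {δ₀ : ℝ} (hδ₀ : 0 < δ₀)
    (y : Ix d n s → ℂ) (hyL : y ∈ S.Leaf ω e A ks ls L ρ₂ Kc y₀ Fh)
    (hyN : yx y ∈ N) (hyρ : ‖yx y - S.xT‖ < ρ₂) (hyk : ∀ k, yk y k ≠ 0)
    (hykK : ∀ k, ‖yk y (some k)‖ < Kc) (hyF : ∀ k : Fin s, ∃ i ∈ A, ks i = some k ∧ Fh i ≠ 0)
    (hyJ : Jt y ≠ 0)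
    (hymin : ∀ z ∈ S.Leaf ω e A ks ls L ρ₂ Kc y₀ Fh,
      0 < ‖Jt z * ∏ k : Fin s, yk z (some k)‖ →
      S.AN ω Nt r₁ (yx y) (yk y) + c₀ / 2 * ∑ ζ ∈ Z,
          ‖rt (S.co (yx y)) (S.per none) ζ - rt (S.co S.xT) (S.per none) ζ‖ ^ 2 -
        δ₀ * Real.log ‖Jt y * ∏ k : Fin s, yk y (some k)‖ ≤
      S.AN ω Nt r₁ (yx z) (yk z) + c₀ / 2 * ∑ ζ ∈ Z,
          ‖rt (S.co (yx z)) (S.per none) ζ - rt (S.co S.xT) (S.per none) ζ‖ ^ 2 -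
        δ₀ * Real.log ‖Jt z * ∏ k : Fin s, yk z (some k)‖) : False := by
  classical
  obtain ⟨hlamd, hbetd, hlamθ, hwr0, -⟩ := hLAM d n s S
  obtain ⟨Oo, hOo, hOe, hErd, -, hGrd⟩ := hADO d n s l S KK e A ks ls hK hH.ed
  -- facts on the leaf
  have hleaf : ∀ z ∈ S.Leaf ω e A ks ls L ρ₂ Kc y₀ Fh, yx z ∈ N → z ∈ Oo := by
    intro z hz hzN
    obtain ⟨h1, -, -⟩ := hLF d n s l S KK r N ω e A ks ls L ρ₂ Kc y₀ z Fh hK hL hlam0 hls hKL hzN hz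
    rw [hOe]
    exact ⟨hL.NU hzN, fun k => hL.lam0 _ hzN k, h1⟩
  have hadm : ∀ z ∈ S.Leaf ω e A ks ls L ρ₂ Kc y₀ Fh, yx z ∈ N → (∀ k, yk z k ≠ 0) →
      S.Adm A ks ls z ∧ ∀ i ∈ A,
        KK (ks i) (yx z, (S.F (yx z))^[ls i] (yc z i, 1)) / yk z (ks i) = Fh i := by
    intro z hz hzN hzk
    exact (hLF d n s l S KK r N ω e A ks ls L ρ₂ Kc y₀ z Fh hK hL hlam0 hls hKL hzN hz).2.2 hzk
  have hyO : y ∈ Oo := hleaf y hyL hyN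
  have hyA := (hadm y hyL hyN hyk).1
  have hdet : (S.Mx KK e A ks ls sel col y).det ≠ 0 := by
    intro h
    exact hyJ ((hJ0 y hyA.xU hyA.lam0 hyA.att hyk).mpr h)
  -- the open set for the disc lemma
  have hyxc : Continuous (yx : (Ix d n s → ℂ) → (Fin n → ℂ)) := yx_diff.continuous
  set O : Set (Ix d n s → ℂ) := (Oo ∩ {z | ∀ k, yk z k ≠ 0}) ∩ {z | ‖yx z - S.xT‖ < ρ₂} with hO
  have hkopen : IsOpen {z : Ix d n s → ℂ | ∀ k, yk z k ≠ 0} := by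
    have : {z : Ix d n s → ℂ | ∀ k, yk z k ≠ 0} = ⋂ k, {z | yk z k ≠ 0} := by ext; simp
    rw [this]
    exact isOpen_iInter_of_finite fun k =>
      isOpen_ne_fun (yk_diff k).continuous continuous_const
  have hOopen : IsOpen O := (hOo.inter hkopen).inter
    (isOpen_lt ((hyxc.sub continuous_const).norm) continuous_const)
  have hcard : Fintype.card (Fin (2 * d - 2)) + Fintype.card (Sys.Rw l d s A) <
      Fintype.card (Ix d n s) := by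
    have h1 : Fintype.card (Sys.Rw l d s A) = l + ((s + 1) + (1 + m)) := by
      simp [Sys.Rw, Fintype.card_sum, Fintype.card_option, Fintype.card_coe, hA]
    have h2 : Fintype.card (Ix d n s) = n + ((2 * d - 2) + s) := by
      simp [Ix, Fintype.card_sum]
    rw [h1, h2, Fintype.card_fin]
    have := hH.dim
    omega
  obtain ⟨τ, γ, hτ, hγd, hγ0, hγ', hγ⟩ := hDISC (Ix d n s) (Fin (2 * d - 2)) (Sys.Rw l d s A)
    S.Er (S.Gr KK e A ks ls) O y R sel col hOopen ⟨⟨hyO, hyk⟩, hyρ⟩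
    (fun i => (hErd i).mono (fun z hz => hz.1.1)) (fun a => (hGrd a).mono (fun z hz => hz.1))
    hcard (fun i => hyA.crit i) (by
      refine mt (fun h => ?_) hdet
      convert h using 2
      ext a c
      rcases a with a | a
      · rfl
      · rfl) (by
      intro z hz hEz sel' col'
      by_contra hne
      have hne' : (S.Mx KK e A ks ls sel' col' z).det ≠ 0 := by
        refine mt (fun h => ?_) hne
        convert h using 2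
        ext a c
        rcases a with a | a
        · rfl
        · rfl
      have hz' := hz.1.1
      rw [hOe] at hz'
      refine (hmax A ks ls z (hz.2.trans hρ₂)).2 hA ⟨⟨hz'.1, hz'.2.1, hz.1.2, hEz, hls, hz'.2.2⟩,
        sel', col', hne'⟩)
  -- the disc stays in the leaf
  have h0 : (0 : ℂ) ∈ ball (0 : ℂ) τ := mem_ball_self hτ
  obtain ⟨τ₁, hτ₁, hτ₁τ, hγ1⟩ := hOPN d n s l S KK r N ω e A ks ls L ρ₂ Kc τ y₀ Fh γ hK hL hlam0 hls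
    hKL hτ hγd (by rw [hγ0]; exact hyN) (by rw [hγ0]; exact hyL) (by rw [hγ0]; exact hyk)
    (by rw [hγ0]; exact hyρ) (by rw [hγ0]; exact hykK) hKc
    (fun t ht => ⟨(hγ t ht).2.1, fun a => by rw [(hγ t ht).2.2 a, hγ0]⟩)
  have hγc : ContinuousOn γ (ball (0 : ℂ) τ) := hγd.continuousOn
  have hγc0 : ContinuousAt γ 0 := hγc.continuousAt (isOpen_ball.mem_nhds h0)
  -- a smaller disc
  obtain ⟨εs, hεs, hsep⟩ := hH.sepe (yx y) (hL.NU hyN)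
  have hJc : ContinuousAt (fun t => Jt (γ t)) 0 := by
    have h1 : ContinuousAt Jt (γ 0) := by
      rw [hγ0]
      apply hJd.continuousOn.continuousAt
      rw [← hOe]
      exact hOo.mem_nhds hyO
    exact h1.comp hγc0
  have hev : ∀ᶠ t in 𝓝 (0 : ℂ), Jt (γ t) ≠ 0 ∧ ‖yx (γ t) - yx y‖ < εs ∧ ‖yx (γ t) - S.xT‖ < ρ₂ := by
    have h1 : ∀ᶠ t in 𝓝 (0 : ℂ), Jt (γ t) ≠ 0 := hJc.eventually_ne (by rw [hγ0]; exact hyJ)
    have h2 : ContinuousAt (fun t => yx (γ t)) 0 := hyxc.continuousAt.comp hγc0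
    have h3 : ∀ᶠ t in 𝓝 (0 : ℂ), ‖yx (γ t) - yx y‖ < εs := by
      have h4 : ContinuousAt (fun t => ‖yx (γ t) - yx y‖) 0 := (h2.sub continuousAt_const).norm
      apply h4.eventually_lt continuousAt_const
      rw [hγ0, sub_self, norm_zero]; exact hεs
    have h5 : ∀ᶠ t in 𝓝 (0 : ℂ), ‖yx (γ t) - S.xT‖ < ρ₂ := by
      have h4 : ContinuousAt (fun t => ‖yx (γ t) - S.xT‖) 0 := (h2.sub continuousAt_const).norm
      apply h4.eventually_lt continuousAt_const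
      rw [hγ0]; exact hyρ
    filter_upwards [h1, h3, h5] with t a b c
    exact ⟨a, b, c⟩
  obtain ⟨τ₂', hτ₂', hball⟩ := Metric.eventually_nhds_iff_ball.mp hev
  set τ₂ : ℝ := min τ₁ τ₂' with hτ₂
  have hτ₂0 : 0 < τ₂ := lt_min hτ₁ hτ₂'
  have hb1 : ball (0 : ℂ) τ₂ ⊆ ball 0 τ₁ := ball_subset_ball (min_le_left _ _)
  have hb2 : ball (0 : ℂ) τ₂ ⊆ ball 0 τ₂' := ball_subset_ball (min_le_right _ _)
  have hb : ball (0 : ℂ) τ₂ ⊆ ball 0 τ := hb1.trans (ball_subset_ball hτ₁τ)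
  have hLt : ∀ t ∈ ball (0 : ℂ) τ₂, yx (γ t) ∈ N ∧ (∀ k, yk (γ t) k ≠ 0) ∧
      γ t ∈ S.Leaf ω e A ks ls L ρ₂ Kc y₀ Fh := fun t ht => hγ1 t (hb1 ht)
  have hAt : ∀ t ∈ ball (0 : ℂ) τ₂, S.Adm A ks ls (γ t) ∧ ∀ i ∈ A,
      KK (ks i) (yx (γ t), (S.F (yx (γ t)))^[ls i] (yc (γ t) i, 1)) / yk (γ t) (ks i) = Fh i :=
    fun t ht => hadm _ (hLt t ht).2.2 (hLt t ht).1 (hLt t ht).2.1
  have hJt : ∀ t ∈ ball (0 : ℂ) τ₂, Jt (γ t) ≠ 0 := fun t ht => (hball t (hb2 ht)).1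
  -- the other critical points are not attracted
  have hnon : ∀ t ∈ ball (0 : ℂ) τ₂, ∀ i ∉ A, ∀ k, ∀ m : ℕ,
      ¬ S.InC k (yx (γ t)) ((S.F (yx (γ t)))^[m] (yc (γ t) i, 1)) := by
    intro t ht
    have hAd := (hAt t ht).1
    apply hNU d n s l S KK e A ks ls R (γ t)
    · refine ⟨hAd, sel, col, ?_⟩
      intro h
      exact hJt t ht ((hJ0 _ hAd.xU hAd.lam0 hAd.att hAd.kap0).mpr h)
    · intro A' ks' ls' hcA'
      exact (hmax A' ks' ls' (γ t) ((hball t (hb2 ht)).2.2.trans hρ₂)).1 (by rw [← hA]; exact hcA')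
  -- exceptional values
  have hlamt : ∀ t ∈ ball (0 : ℂ) τ₂, ∀ k, S.lam k (yx (γ t)) = S.lam k (yx y₀) := fun t ht k =>
    (hLt t ht).2.2.2.2.1 k
  set Sx : Option (Fin s) → ℕ → Set ℂ := fun k l' =>
    ((((A ×ˢ Finset.range (Nt + 1)).image (fun p : Fin (2 * d - 2) × ℕ =>
      S.lam k (yx y₀) ^ p.2 * Fh p.1 / S.lam k (yx y₀) ^ ((l' + ls p.1) / S.per k)) :
        Finset ℂ)) : Set ℂ) with hSx
  set x : ℂ → (Fin n → ℂ) := fun t => yx (γ t) with hx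
  set κ : Option (Fin s) → ℂ → ℂ := fun k t => yk (γ t) k with hκ
  have hxd : DifferentiableOn ℂ x (ball 0 τ₂) := yx_diff.comp_differentiableOn (hγd.mono hb)
  have hκd : ∀ k, DifferentiableOn ℂ (κ k) (ball 0 τ₂) := fun k =>
    (yk_diff k).comp_differentiableOn (hγd.mono hb)
  have h02 : (0 : ℂ) ∈ ball (0 : ℂ) τ₂ := mem_ball_self hτ₂0
  have hr₂0 : 0 < r₂ := hr₁.trans hr₁₂
  have hKκ : ∀ t ∈ ball (0 : ℂ) τ₂, ∀ k, ‖κ k t‖ ≤ Kc := fun t ht k =>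
    (hLt t ht).2.2.2.2.2.2.2.1 k
  have hκr : ∀ k, ∀ t ∈ ball (0 : ℂ) τ₂, ‖κ k t‖ * r₂ < r := fun k t ht =>
    (mul_le_mul_of_nonneg_right (hKκ t ht k) hr₂0.le).trans_lt hr₂
  have hdisc : S.Disc N r r₂ τ₂ x κ := by
    refine ⟨hτ₂0, hxd, fun t ht => (hLt t ht).1, hκd, fun k t ht => (hLt t ht).2.1 k,
      fun t _ => rfl, hκr, fun k t ht => ?_, fun t ht => ?_⟩
    · rw [hlamt t ht k, hlamt 0 h02 k]
    · have a1 := (hLt t ht).2.2.2.2.2.1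
      have a2 := (hLt 0 h02).2.2.2.2.2.1
      show S.bet (yx (γ t)) = S.bet (yx (γ 0))
      rw [a1, a2]
  have hexc : ∀ t ∈ ball (0 : ℂ) τ₂, ∀ c : ℂ × ℂ, c ≠ 0 → wr (S.co (x t)) c = 0 → ∀ m ≤ Nt, ∀ k,
        ∀ l < S.per k, ∀ w : ℂ, w ≠ 0 → ‖w‖ < r₂ →
        cr ((S.F (x t))^[m] c) (S.pt ω k l (x t) (κ k t * w)) = 0 → w ∈ Sx k l := by
    intro t ht c hc hwc m' hm' k l' _ w _ hw hcr
    have hn : ‖yk (γ t) k * w‖ < r := by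
      rw [norm_mul]
      exact (mul_le_mul_of_nonneg_left hw.le (norm_nonneg _)).trans_lt (hκr k t ht)
    obtain ⟨i, hi, -, hrel⟩ := hEXC d n s l S KK r N ω e A ks ls L ρ₂ Kc y₀ (γ t) Fh hK hL hKL
      (hLt t ht).1 (hLt t ht).2.2 (hLt t ht).2.1 (hnon t ht) c hc hwc m' k l' w hn hcr
    rw [hlamt t ht k] at hrel
    simp only [hSx, Finset.coe_image, mem_image, Finset.mem_coe]
    refine ⟨(i, m' / S.per k), Finset.mem_product.mpr ⟨hi, Finset.mem_range.mpr ?_⟩, ?_⟩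
    · have := Nat.div_le_self m' (S.per k)
      omega
    · simp only
      rw [hrel, mul_div_assoc, mul_comm, div_mul_cancel₀]
      exact pow_ne_zero _ (hlam0 k)
  have hcov' : ∀ t ∈ ball (0 : ℂ) τ₂, ∀ ζ : ℂ, 1 / S.r₀ < ‖ζ‖ →
      ζ ∈ S.WN ω Nt r₁ (x t) (fun k => κ k t) := fun t ht ζ hζ =>
    hcov (x t) (hLt t ht).1 _ rfl ζ hζ
  have hxcl : ∀ t ∈ ball (0 : ℂ) τ₂, x t ∈ closedBall S.xT ρ₂ := fun t ht => (hLt t ht).2.2.1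
  -- nonconstancy
  obtain ⟨t₁, ht₁, hxt₁⟩ := hNC d n s S KK A ks ls τ₂ γ Fh hτ₂0 (hγd.mono hb) hγ' hAt hyF
  have ht₁0 : t₁ ≠ 0 := by
    rintro rfl; exact hxt₁ rfl
  have hρc : 0 < ‖t₁‖ := norm_pos_iff.mpr ht₁0
  have hρcτ : ‖t₁‖ < τ₂ := mem_ball_zero_iff.mp ht₁
  have hcirc : ∀ θ : ℝ, circleMap 0 ‖t₁‖ θ ∈ ball (0 : ℂ) τ₂ := by
    intro θ
    rw [mem_ball_zero_iff, norm_circleMap_zero, abs_of_pos hρc]
    exact hρcτ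
  have hθ₁ : circleMap 0 ‖t₁‖ (Complex.arg t₁) = t₁ := by
    rw [circleMap_zero]
    exact Complex.norm_mul_exp_arg_mul_I t₁
  have hx0 : x 0 = yx y := by simp only [hx, hγ0]
  have hdiff : ∃ ζ ∈ Z, rt (S.co (x t₁)) (S.per none) ζ ≠ rt (S.co (x 0)) (S.per none) ζ := by
    by_contra hcon
    push Not at hcon
    have h1 := hZ3 (x t₁) (hxcl t₁ ht₁) (x 0) (hxcl 0 h02) hcon
    apply hxt₁
    show x t₁ = x 0
    rw [hx0]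
    apply hsep (x t₁) (hL.NU (hLt t₁ ht₁).1) (hball t₁ (hb2 ht₁)).2.1
    · intro i
      have a1 := (hLt t₁ ht₁).2.2.2.1 i
      have a2 := hyL.2.1 i
      rw [a2]; exact a1
    · rw [← hx0]; exact h1
  -- the functions on the disc
  have hfd : ∀ i : {ζ // ζ ∈ Z}, DifferentiableOn ℂ
      (fun t => rt (S.co (x t)) (S.per none) i.1) (ball 0 τ₂) := by
    intro i
    apply (rt_diff S (S.per none) i.1).comp hxd
    intro t ht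
    exact ⟨hL.NU (hLt t ht).1, (hZ2 (x t) (hxcl t ht) i.1 i.2 i.1 (mem_ball_self hδ)).1⟩
  have hgd : DifferentiableOn ℂ (fun t => Jt (γ t) * ∏ k : Fin s, yk (γ t) (some k))
      (ball 0 τ₂) := by
    apply DifferentiableOn.mul
    · apply hJd.comp (hγd.mono hb)
      intro t ht
      have := hleaf _ (hLt t ht).2.2 (hLt t ht).1
      rw [hOe] at this
      exact this
    · apply DifferentiableOn.fun_finsetProd
      intro k _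
      exact (yk_diff (some k)).comp_differentiableOn (hγd.mono hb)
  have hg0 : ∀ t ∈ ball (0 : ℂ) τ₂, Jt (γ t) * ∏ k : Fin s, yk (γ t) (some k) ≠ 0 := by
    intro t ht
    exact mul_ne_zero (hJt t ht) (Finset.prod_ne_zero_iff.mpr fun k _ => (hLt t ht).2.1 _)
  refine hCONT {ζ // ζ ∈ Z} τ₂ ‖t₁‖ c₀ δ₀ (S.AN ω Nt r₁ (yx y) (yk y))
    (fun i t => rt (S.co (x t)) (S.per none) i.1)
    (fun i => rt (S.co S.xT) (S.per none) i.1)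
    (fun t => Jt (γ t) * ∏ k : Fin s, yk (γ t) (some k))
    (fun θ => S.AN ω Nt r₁ (x (circleMap 0 ‖t₁‖ θ)) (fun k => κ k (circleMap 0 ‖t₁‖ θ)))
    hρc hρcτ hc₀ hδ₀ hfd hgd hg0 ?_ (fun θ => ENNReal.toReal_nonneg) ?_ ?_
  · obtain ⟨ζ, hζ, hne⟩ := hdiff
    refine ⟨Complex.arg t₁, ⟨ζ, hζ⟩, ?_⟩
    simp only [hθ₁]
    exact hne
  · intro θ
    have h1 := hymin (γ (circleMap 0 ‖t₁‖ θ)) (hLt _ (hcirc θ)).2.2
      (norm_pos_iff.mpr (hg0 _ (hcirc θ)))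
    have e1 : ∀ F : ℂ → ℝ, ∑ i : {ζ // ζ ∈ Z}, F i.1 = ∑ ζ ∈ Z, F ζ := fun F =>
      Finset.sum_coe_sort Z F
    simp only [e1 (fun ζ => ‖rt (S.co (yx y)) (S.per none) ζ - rt (S.co S.xT) (S.per none) ζ‖ ^ 2),
      e1 (fun ζ => ‖rt (S.co (x (circleMap 0 ‖t₁‖ θ))) (S.per none) ζ -
        rt (S.co S.xT) (S.per none) ζ‖ ^ 2), hx0, hγ0]
    exact h1
  · intro q hq hqA
    have h1 := hdi KK r N ω Nt r₁ r₂ τ₂ x κ Sx hK hL hr₁ hr₁₂ hNt hdisc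
      (fun k l => Finset.finite_toSet _) hexc hcov'
      (fun t ht ζ hζ w hw => hZ2 (x t) (hxcl t ht) ζ hζ w hw) ‖t₁‖ hρc hρcτ q hq hqA
    have e1 : ∀ F : ℂ → ℝ, ∑ i : {ζ // ζ ∈ Z}, F i.1 = ∑ ζ ∈ Z, F ζ := fun F =>
      Finset.sum_coe_sort Z F
    have e2 : ∀ θ : ℝ, ∑ i : {ζ // ζ ∈ Z}, ‖rt (S.co (x (circleMap 0 ‖t₁‖ θ))) (S.per none) i.1 -
        rt (S.co (x 0)) (S.per none) i.1‖ ^ 2 = ∑ ζ ∈ Z,
          ‖rt (S.co (x (circleMap 0 ‖t₁‖ θ))) (S.per none) ζ -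
            rt (S.co (x 0)) (S.per none) ζ‖ ^ 2 := fun θ =>
      e1 (fun ζ => ‖rt (S.co (x (circleMap 0 ‖t₁‖ θ))) (S.per none) ζ -
        rt (S.co (x 0)) (S.per none) ζ‖ ^ 2)
    simp only [e2]
    have e3 : (fun k => κ k 0) = yk y := by
      funext k
      simp only [hκ, hγ0]
    rw [hx0, e3] at h1
    rw [hx0]
    exact h1

end Pool.Agent.H790R3.RB
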