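import Mathlib
import Pool.Agent.H790R3.RB.Abs2

set_option autoImplicit false

open Topology Filter Metric Set MeasureTheory

namespace Pool.Agent.H790R3.RB

/-- The abstract theorem. -/
theorem ABS (hLAM : StLAM) (hKOE : StKOE) (hLIN : StLIN) (hDI : StDI) (hUSC : StUSC)
    (hDISC : StDISC) (hADO : StADO) (hLF : StLF) (hIN : StIN) (hCPT : StCPT) (hOPN : StOPN)
    (hEXC : StEXC) (hFKB : StFKB) (hLSC : StLSC) (hMAXV : StMAXV) (hNU : StNU) (hALLC : StALLC)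
    (hZZ : StZZ) (hJT : StJT) (hST : StST) (hNC : StNC) (hMAXI : StMAXI) (hCONT : StCONT) :
    StABS := by
  intro d n s l S e hH ε hε
  by_contra hcon
  push Not at hcon
  obtain ⟨KK, hK⟩ := hKOE d n s S
  obtain ⟨ρ', m, R, hρ', hex, hmax⟩ := hMAXV d n s l S KK e hK hH
  obtain ⟨hlamd, hbetd, hlamθ, hwr0, -⟩ := hLAM d n s S
  -- not all critical points are attracted
  have hm : m < 2 * d - 2 := by
    by_contra hmm
    obtain ⟨A, ks, ls, y, hA, hy, hG⟩ := hex ε hε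
    have hA' : A = Finset.univ := by
      apply Finset.eq_univ_of_card
      have h1 := A.card_le_univ
      rw [Fintype.card_fin] at h1 ⊢
      omega
    subst hA'
    obtain ⟨c, hc, hw, hna⟩ := hcon (yx y) hG.1.xU hy
    obtain ⟨k, m', hk⟩ := hALLC d n s S ks ls y hG.1 c hc hw
    exact hna k m' hk
  obtain ⟨Z, δ, M, ρ₂, h₀, hδ, hM, hρ₂0, hρ₂, hρ₂S, hh₀, hZ1, hZ2, hZ3, hZ4⟩ :=
    hZZ d n s l S e hH ρ' hρ'
  obtain ⟨c₀, hc₀, hdi⟩ := hDI d n s S Z δ M hδ hM hZ1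
  set a₀ : ℝ := c₀ * h₀ / 32 with ha₀
  have ha₀0 : 0 < a₀ := by positivity
  obtain ⟨σ, N₀, hσ, hUSC'⟩ := hUSC d n s S hH.area a₀ ha₀0
  have hclU : closedBall S.xT ρ₂ ⊆ S.U := closedBall_subset_ball hρ₂S
  -- continuity of the distance functions
  have hrtc : ∀ ζ ∈ Z, ContinuousOn (fun x => rt (S.co x) (S.per none) ζ)
      (closedBall S.xT ρ₂) := by
    intro ζ hζ
    apply (rt_diff S (S.per none) ζ).continuousOn.mono
    intro x hx
    exact ⟨hclU hx, (hZ2 x hx ζ hζ ζ (mem_ball_self hδ)).1⟩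
  set Hf : (Fin n → ℂ) → ℝ := fun x => ∑ ζ ∈ Z,
    ‖rt (S.co x) (S.per none) ζ - rt (S.co S.xT) (S.per none) ζ‖ ^ 2 with hHf
  have hHfc : ContinuousOn Hf (closedBall S.xT ρ₂) := by
    apply continuousOn_finset_sum
    intro ζ hζ
    exact (((hrtc ζ hζ).sub continuousOn_const).norm).pow 2
  have hHf0 : Hf S.xT = 0 := by simp [hHf]
  have hnh : closedBall S.xT ρ₂ ∈ 𝓝 S.xT := closedBall_mem_nhds _ hρ₂0
  have hev : ∀ᶠ x in 𝓝 S.xT, c₀ / 2 * Hf x < a₀ ∧ ∑ i, ‖e i x - e i S.xT‖ ^ 2 < h₀ / 2 := by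
    have h1 : ContinuousAt (fun x => c₀ / 2 * Hf x) S.xT :=
      continuousAt_const.mul (hHfc.continuousAt hnh)
    have h2 : ContinuousAt (fun x => ∑ i, ‖e i x - e i S.xT‖ ^ 2) S.xT := by
      apply tendsto_finset_sum
      intro i _
      have h3 : ContinuousAt (e i) S.xT :=
        (hH.ed i).continuousOn.continuousAt (ball_mem_nhds _ S.hρ)
      exact ((h3.sub continuousAt_const).norm).pow 2
    have h3 : ∀ᶠ x in 𝓝 S.xT, c₀ / 2 * Hf x < a₀ := by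
      apply h1.eventually_lt continuousAt_const
      rw [hHf0, mul_zero]; exact ha₀0
    have h4 : ∀ᶠ x in 𝓝 S.xT, ∑ i, ‖e i x - e i S.xT‖ ^ 2 < h₀ / 2 := by
      apply h2.eventually_lt continuousAt_const
      simp only [sub_self, norm_zero]
      rw [Finset.sum_eq_zero (fun i _ => by ring)]
      positivity
    exact h3.and h4
  obtain ⟨σ₂, hσ₂, hball⟩ := Metric.eventually_nhds_iff.mp hev
  -- the starting point
  obtain ⟨A, ks, ls, y₀, hA, hy₀, hG₀⟩ := hex (min (min σ σ₂) ρ₂)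
    (lt_min (lt_min hσ hσ₂) hρ₂0)
  have hy₀σ : ‖yx y₀ - S.xT‖ < σ := hy₀.trans_le ((min_le_left _ _).trans (min_le_left _ _))
  have hy₀σ₂ : ‖yx y₀ - S.xT‖ < σ₂ := hy₀.trans_le ((min_le_left _ _).trans (min_le_right _ _))
  have hy₀ρ : ‖yx y₀ - S.xT‖ < ρ₂ := hy₀.trans_le (min_le_right _ _)
  obtain ⟨hAdm₀, sel, col, hdet₀⟩ := hG₀
  have hball₀ := hball (show dist (yx y₀) S.xT < σ₂ by rw [dist_eq_norm]; exact hy₀σ₂)
  have hls : ∀ i ∈ A, ls i < S.per (ks i) := hAdm₀.lsp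
  have hlam0 : ∀ k, S.lam k (yx y₀) ≠ 0 := hAdm₀.lam0
  have hy₀cl : yx y₀ ∈ closedBall S.xT ρ₂ := by
    rw [mem_closedBall, dist_eq_norm]; exact hy₀ρ.le
  -- the linearised discs
  have hcomp := lamset_compact hLAM S hρ₂S (fun k => S.lam k (yx y₀))
  obtain ⟨N, r, ω, hKN, hL⟩ := hLIN d n s S KK hK _ hcomp (by
    intro x hx
    refine ⟨hclU hx.1, fun k => ?_⟩
    rw [hx.2 k]; exact hlam0 k)
  have hy₀N : yx y₀ ∈ N := hKN ⟨hy₀cl, fun k => rfl⟩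
  set Fh : Fin (2 * d - 2) → ℂ := fun i =>
    KK (ks i) (yx y₀, (S.F (yx y₀))^[ls i] (yc y₀ i, 1)) / yk y₀ (ks i) with hFh
  obtain ⟨rF, hrF, hlow⟩ := exists_low A Fh
  have hr₀ := S.hr₀
  have hr := hL.hr
  set Kc : ℝ := 2 / (S.r₀ * rF) + 1 + ∑ k : Fin s, ‖yk y₀ (some k)‖ with hKcdef
  have hsum0 : 0 ≤ ∑ k : Fin s, ‖yk y₀ (some k)‖ := Finset.sum_nonneg fun k _ => norm_nonneg _
  have hq0 : 0 < 2 / (S.r₀ * rF) := by positivity
  have hKc1 : 1 ≤ Kc := by rw [hKcdef]; linarith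
  have hKcq : 2 / (S.r₀ * rF) < Kc := by rw [hKcdef]; linarith
  have hKc0 : 0 < Kc := by linarith
  have hKcy : ∀ k, ‖yk y₀ k‖ ≤ Kc := by
    intro k
    cases k with
    | none =>
      have : yk y₀ none = 1 := rfl
      rw [this, norm_one]; exact hKc1
    | some k =>
      have h1 : ‖yk y₀ (some k)‖ ≤ ∑ k : Fin s, ‖yk y₀ (some k)‖ :=
        Finset.single_le_sum (f := fun k : Fin s => ‖yk y₀ (some k)‖)
          (fun k _ => norm_nonneg _) (Finset.mem_univ k)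
      rw [hKcdef]; linarith
  set r₁ : ℝ := r / (4 * Kc) with hr₁def
  set r₂ : ℝ := r / (2 * Kc) with hr₂def
  have hr₁0 : 0 < r₁ := by positivity
  have hr₁₂ : r₁ < r₂ := by
    rw [hr₁def, hr₂def]
    apply div_lt_div_of_pos_left hr (by positivity)
    linarith
  have hKr₁ : Kc * r₁ < r := by
    have : Kc * r₁ = r / 4 := by rw [hr₁def]; field_simp
    rw [this]; linarith
  have hKr₂ : Kc * r₂ < r := by
    have : Kc * r₂ = r / 2 := by rw [hr₂def]; field_simp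
    rw [this]; linarith
  have hr₁r : r₁ < r := by
    have : r₁ ≤ Kc * r₁ := le_mul_of_one_le_left hr₁0.le hKc1
    linarith
  obtain ⟨L₀, hL₀⟩ := hIN d n s l S KK r N ω e A ks ls ρ₂ Kc y₀ hK hL hy₀N hy₀cl hAdm₀ hKcy
  obtain ⟨L, hLL₀, hKL⟩ := exists_L hLAM S hAdm₀.xU A ks Fh Kc hr L₀
  have hy₀L : y₀ ∈ S.Leaf ω e A ks ls L ρ₂ Kc y₀ Fh := hL₀ L hLL₀
  have hcompL := hCPT d n s l S KK r N ω e A ks ls L ρ₂ Kc y₀ Fh hK hL hH.ed hρ₂S (hlam0 none)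
    hKN hKL
  have hleafN : ∀ z ∈ S.Leaf ω e A ks ls L ρ₂ Kc y₀ Fh, yx z ∈ N := by
    intro z hz
    exact hKN ⟨hz.1, hz.2.2.1⟩
  obtain ⟨Jt, hJd, hJ0⟩ := hJT d n s l S KK e A ks ls R sel col hK hH.ed
  obtain ⟨Nt, hNt, hcov, hst⟩ := hST d n s S KK r N ω hK hL r₁ N₀ (yk y₀) hr₁0 hr₁r hAdm₀.kap0
    (fun k => (mul_le_mul_of_nonneg_right (hKcy k) hr₁0.le).trans_lt hKr₁)
  -- the area at the starting point
  have hAN₀ : S.AN ω Nt r₁ (yx y₀) (yk y₀) ≤ a₀ := by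
    apply vol_le ha₀0.le
    refine (measure_mono ?_).trans (hUSC' (yx y₀) hAdm₀.xU hy₀σ)
    intro ζ hζ k m' hm' hin
    exact hζ (hst (yx y₀) hy₀N ζ ⟨k, m', hm', hin⟩)
  -- the functions on the leaf
  have hlsc : LowerSemicontinuousOn (fun z : Ix d n s → ℂ => S.AN ω Nt r₁ (yx z) (yk z))
      (S.Leaf ω e A ks ls L ρ₂ Kc y₀ Fh) := by
    refine lsc_comp (g := fun z : Ix d n s → ℂ => (yx z, yk z))
      (hLSC d n s S KK r N ω Nt r₁ (1 / S.r₀) hK hL hr₁0) ?_ ?_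
    · apply Continuous.continuousOn
      exact yx_diff.continuous.prodMk (continuous_pi fun k => (yk_diff k).continuous)
    · intro z hz
      refine ⟨hleafN z hz, fun k => ?_, fun ζ hζ => hcov (yx z) (hleafN z hz) (yk z) rfl ζ hζ⟩
      exact (mul_le_mul_of_nonneg_right (hz.2.2.2.2.2.1 k) hr₁0.le).trans_lt hKr₁
  have hhc : ContinuousOn (fun z : Ix d n s → ℂ => c₀ / 2 * ∑ ζ ∈ Z,
      ‖rt (S.co (yx z)) (S.per none) ζ - rt (S.co S.xT) (S.per none) ζ‖ ^ 2)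
      (S.Leaf ω e A ks ls L ρ₂ Kc y₀ Fh) := by
    have h1 : ContinuousOn (fun z : Ix d n s → ℂ => Hf (yx z))
        (S.Leaf ω e A ks ls L ρ₂ Kc y₀ Fh) :=
      hHfc.comp yx_diff.continuous.continuousOn (fun z hz => hz.1)
    exact continuousOn_const.mul h1
  have hatt : ∀ z ∈ S.Leaf ω e A ks ls L ρ₂ Kc y₀ Fh,
      ∀ i ∈ A, (yx z, (S.F (yx z))^[ls i] (yc z i, 1)) ∈ S.Dom (ks i) := by
    intro z hz
    exact (hLF d n s l S KK r N ω e A ks ls L ρ₂ Kc y₀ z Fh hK hL hlam0 hls hKL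
      (hleafN z hz) hz).1
  have hjc : ContinuousOn (fun z : Ix d n s → ℂ => ‖Jt z * ∏ k : Fin s, yk z (some k)‖)
      (S.Leaf ω e A ks ls L ρ₂ Kc y₀ Fh) := by
    apply ContinuousOn.norm
    apply ContinuousOn.mul
    · apply hJd.continuousOn.mono
      intro z hz
      exact ⟨hL.NU (hleafN z hz), fun k => hL.lam0 _ (hleafN z hz) k, hatt z hz⟩
    · apply continuousOn_finset_prod
      intro k _
      exact (yk_diff (some k)).continuous.continuousOn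
  have hj₀ : 0 < ‖Jt y₀ * ∏ k : Fin s, yk y₀ (some k)‖ := by
    rw [norm_pos_iff]
    refine mul_ne_zero ?_ (Finset.prod_ne_zero_iff.mpr fun k _ => hAdm₀.kap0 _)
    intro h
    exact hdet₀ ((hJ0 y₀ hAdm₀.xU hAdm₀.lam0 hAdm₀.att hAdm₀.kap0).mp h)
  obtain ⟨B, hB⟩ := hcompL.bddAbove_image hjc
  have hB' : ∀ z ∈ S.Leaf ω e A ks ls L ρ₂ Kc y₀ Fh,
      ‖Jt z * ∏ k : Fin s, yk z (some k)‖ ≤ max B 1 := fun z hz =>
    (hB (mem_image_of_mem _ hz)).trans (le_max_left _ _)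
  set lj : ℝ := |Real.log ‖Jt y₀ * ∏ k : Fin s, yk y₀ (some k)‖| with hlj
  set lB : ℝ := |Real.log (max B 1)| with hlB
  have hlj0 : 0 ≤ lj := abs_nonneg _
  have hlB0 : 0 ≤ lB := abs_nonneg _
  set δ₀ : ℝ := a₀ / (1 + lB + lj) with hδ₀def
  have hδ₀ : 0 < δ₀ := by positivity
  have hδ₀le : δ₀ * (lB + lj) ≤ a₀ := by
    rw [hδ₀def, div_mul_eq_mul_div, div_le_iff₀ (by positivity)]
    nlinarith
  obtain ⟨y, hyL, hjy, hymin⟩ := hMAXI (Ix d n s → ℂ) _ _ _ _ y₀ δ₀ hcompL hlsc hhc hjc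
    (fun z _ => norm_nonneg _) hδ₀ hy₀L hj₀
  -- the minimal point is inside
  have hyN : yx y ∈ N := hleafN y hyL
  have hHy : Hf (yx y) < h₀ / 4 := by
    have h1 := hymin y₀ hy₀L hj₀
    have h2 : 0 ≤ S.AN ω Nt r₁ (yx y) (yk y) := ENNReal.toReal_nonneg
    have h3 : Real.log ‖Jt y * ∏ k : Fin s, yk y (some k)‖ ≤ lB :=
      (Real.log_le_log hjy (hB' y hyL)).trans (le_abs_self _)
    have h4 : - lj ≤ Real.log ‖Jt y₀ * ∏ k : Fin s, yk y₀ (some k)‖ := neg_abs_le _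
    have h5 : c₀ / 2 * Hf (yx y₀) < a₀ := hball₀.1
    have h6 : c₀ / 2 * Hf (yx y) ≤ 3 * a₀ := by
      have h7 : S.AN ω Nt r₁ (yx y) (yk y) + c₀ / 2 * Hf (yx y) -
          δ₀ * Real.log ‖Jt y * ∏ k : Fin s, yk y (some k)‖ ≤
          S.AN ω Nt r₁ (yx y₀) (yk y₀) + c₀ / 2 * Hf (yx y₀) -
          δ₀ * Real.log ‖Jt y₀ * ∏ k : Fin s, yk y₀ (some k)‖ := h1
      have h8 := mul_le_mul_of_nonneg_left h3 hδ₀.le
      have h9 := mul_le_mul_of_nonneg_left h4 hδ₀.le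
      nlinarith
    have h10 : c₀ / 2 * Hf (yx y) ≤ 3 * (c₀ * h₀ / 32) := h6
    have h11 : c₀ * Hf (yx y) < c₀ * (h₀ / 4) := by nlinarith [mul_pos hc₀ hh₀]
    exact lt_of_mul_lt_mul_left h11 hc₀.le
  have hyρ : ‖yx y - S.xT‖ < ρ₂ := by
    have h1 : ‖yx y - S.xT‖ ≤ ρ₂ := by
      have := hyL.1
      rwa [mem_closedBall, dist_eq_norm] at this
    rcases h1.lt_or_eq with h | h
    · exact h
    · exfalso
      have h2 := hZ4 (yx y) h
      have h3 : ∑ i, ‖e i (yx y) - e i S.xT‖ ^ 2 = ∑ i, ‖e i (yx y₀) - e i S.xT‖ ^ 2 := by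
        apply Finset.sum_congr rfl
        intro i _
        rw [hyL.2.1 i]
      have h4 := hball₀.2
      rw [h3] at h2
      have h5 : h₀ ≤ Hf (yx y) + ∑ i, ‖e i (yx y₀) - e i S.xT‖ ^ 2 := h2
      linarith
  have hne := norm_pos_iff.mp hjy
  have hyJ : Jt y ≠ 0 := (mul_ne_zero_iff.mp hne).1
  have hyk : ∀ k, yk y k ≠ 0 := by
    intro k
    cases k with
    | none => exact one_ne_zero
    | some k => exact Finset.prod_ne_zero_iff.mp (mul_ne_zero_iff.mp hne).2 k (Finset.mem_univ k)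
  have hyA : S.Adm A ks ls y := ((hLF d n s l S KK r N ω e A ks ls L ρ₂ Kc y₀ y Fh hK hL hlam0 hls
    hKL hyN hyL).2.2 hyk).1
  have hnon : ∀ i ∉ A, ∀ k, ∀ m : ℕ, ¬ S.InC k (yx y) ((S.F (yx y))^[m] (yc y i, 1)) := by
    apply hNU d n s l S KK e A ks ls R y
    · refine ⟨hyA, sel, col, fun h => hyJ ((hJ0 y hyA.xU hyA.lam0 hyA.att hyk).mpr h)⟩
    · intro A' ks' ls' hcA'
      exact (hmax A' ks' ls' y (hyρ.trans hρ₂)).1 (by rw [← hA]; exact hcA')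
  have hfkb := fun k : Fin s => hFKB d n s l S KK r N ω e A ks ls L ρ₂ Kc rF y₀ y Fh hK hL hls hKL
    hyN hyL hyk hnon hrF k (fun i hi _ hF => hlow i hi hF)
  refine no_min hLAM hDISC hADO hLF hOPN hEXC hNU hJT hNC hCONT S e hH hK hmax hm hδ hρ₂ hρ₂S hc₀
    hZ2 hZ3 hdi hA hls hlam0 sel col hL hKc1 hr₁0 hr₁₂ hKr₂ hKL hNt hcov hJd hJ0 hδ₀ y hyL hyN hyρ
    hyk ?_ (fun k => (hfkb k).2) hyJ hymin
  intro k
  have h1 := (hfkb k).1
  have h2 : ‖yk y (some k)‖ ≤ 2 / (S.r₀ * rF) := by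
    rw [le_div_iff₀ (by positivity)]
    rw [le_div_iff₀ hr₀] at h1
    linarith
  exact h2.trans_lt hKcq

end Pool.Agent.H790R3.RB
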