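import Mathlib
import Pool.Agent.H790R3.RB.St
import Pool.Agent.H790R3.RB.St2

/-! The theorem for an arbitrary map, from the theorem for a map with an attracting base point at
infinity. -/

set_option autoImplicit false

open Topology Filter Metric Set MeasureTheory
open scoped OnePoint

namespace Pool.Agent.H790R3.RB

namespace ALL

variable {d : ℕ}

/-- relation between the coefficients of conjugate maps -/
def Rel (a b c e : ℂ) (y y' : CV d) : Prop :=
  ∀ p : ℂ × ℂ, hF y' p =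
    (a * (hF y (e * p.1 - b * p.2, a * p.2 - c * p.1)).1 +
        b * (hF y (e * p.1 - b * p.2, a * p.2 - c * p.1)).2,
      c * (hF y (e * p.1 - b * p.2, a * p.2 - c * p.1)).1 +
        e * (hF y (e * p.1 - b * p.2, a * p.2 - c * p.1)).2)

theorem mul_zero' {a b c e : ℂ} (hdet : a * e - b * c = 1) {q : ℂ × ℂ}
    (h : (a * q.1 + b * q.2, c * q.1 + e * q.2) = (0 : ℂ × ℂ)) : q = 0 := by
  have h1 : a * q.1 + b * q.2 = 0 := congrArg Prod.fst h
  have h2 : c * q.1 + e * q.2 = 0 := congrArg Prod.snd h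
  have e1 : q.1 = 0 := by
    have : (a * e - b * c) * q.1 = 0 := by linear_combination e * h1 - b * h2
    rwa [hdet, one_mul] at this
  have e2 : q.2 = 0 := by
    have : (a * e - b * c) * q.2 = 0 := by linear_combination a * h2 - c * h1
    rwa [hdet, one_mul] at this
  exact Prod.ext e1 e2

theorem adj_zero {a b c e : ℂ} (hdet : a * e - b * c = 1) {q : ℂ × ℂ}
    (h : (e * q.1 - b * q.2, a * q.2 - c * q.1) = (0 : ℂ × ℂ)) : q = 0 := by
  have h1 : e * q.1 - b * q.2 = 0 := congrArg Prod.fst h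
  have h2 : a * q.2 - c * q.1 = 0 := congrArg Prod.snd h
  have e1 : q.1 = 0 := by
    have : (a * e - b * c) * q.1 = 0 := by linear_combination a * h1 + b * h2
    rwa [hdet, one_mul] at this
  have e2 : q.2 = 0 := by
    have : (a * e - b * c) * q.2 = 0 := by linear_combination e * h2 + c * h1
    rwa [hdet, one_mul] at this
  exact Prod.ext e1 e2

theorem nd_of_rel {a b c e : ℂ} (hdet : a * e - b * c = 1) {y y' : CV d} (hR : Rel a b c e y y')
    (hy : ND y) : ND y' := by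
  intro p hp
  rw [hR p] at hp
  exact adj_zero hdet (hy _ (mul_zero' hdet hp))

theorem rel_apply {a b c e : ℂ} (hdet : a * e - b * c = 1) {y y' : CV d}
    (hR : Rel a b c e y y') (p : ℂ × ℂ) :
    hF y' (a * p.1 + b * p.2, c * p.1 + e * p.2) =
      (a * (hF y p).1 + b * (hF y p).2, c * (hF y p).1 + e * (hF y p).2) := by
  have h := hR (a * p.1 + b * p.2, c * p.1 + e * p.2)
  have hp : ((e * (a * p.1 + b * p.2) - b * (c * p.1 + e * p.2),
      a * (c * p.1 + e * p.2) - c * (a * p.1 + b * p.2)) : ℂ × ℂ) = p := by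
    refine Prod.ext ?_ ?_
    · show e * (a * p.1 + b * p.2) - b * (c * p.1 + e * p.2) = p.1
      linear_combination p.1 * hdet
    · show a * (c * p.1 + e * p.2) - c * (a * p.1 + b * p.2) = p.2
      linear_combination p.2 * hdet
  rw [h]
  simp only [hp]

theorem semi (hSP : StSP) (hd : 1 ≤ d) {y y' : CV d} (hy : ND y) (hy' : ND y') {a b c e : ℂ}
    (hdet : a * e - b * c = 1) (hR : Rel a b c e y y') (h : OnePoint ℂ ≃ₜ OnePoint ℂ)
    (hh : ∀ p : ℂ × ℂ, p ≠ 0 → h (pr p) = pr (a * p.1 + b * p.2, c * p.1 + e * p.2))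
    (z : OnePoint ℂ) : sp y' (h z) = h (sp y z) := by
  obtain ⟨-, hit, -, hhc, -⟩ := hSP d y hd hy
  obtain ⟨-, hit', -, -, -⟩ := hSP d y' hd hy'
  have hp := (hhc z).2
  set p := hc z with hpdef
  have hz : z = pr p := ((hhc z).1).symm
  have hmp : ((a * p.1 + b * p.2, c * p.1 + e * p.2) : ℂ × ℂ) ≠ 0 := fun h0 =>
    hp (mul_zero' hdet h0)
  have h1 := hit' _ hmp 1
  have h2 := hit _ hp 1
  simp only [Function.iterate_one] at h1 h2
  have hFp : hF y p ≠ 0 := fun h0 => hp (hy p h0)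
  rw [hz, hh p hp, h1, rel_apply hdet hR, h2, hh _ hFp]

theorem hF_inj {x y : CV d} (h : ∀ p, hF x p = hF y p) : x = y := by
  have key : ∀ u v : Fin (d + 1) → ℂ,
      (∀ t : ℂ, ∑ j : Fin (d + 1), u j * t ^ (j : ℕ) = ∑ j : Fin (d + 1), v j * t ^ (j : ℕ)) →
      u = v := by
    intro u v huv
    have hP : (∑ j : Fin (d + 1), Polynomial.monomial (j : ℕ) (u j)) =
        (∑ j : Fin (d + 1), Polynomial.monomial (j : ℕ) (v j)) := by
      apply Polynomial.funext
      intro t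
      simp only [Polynomial.eval_finsetSum, Polynomial.eval_monomial]
      exact huv t
    funext j
    have := congrArg (fun P => Polynomial.coeff P (j : ℕ)) hP
    simp only [Polynomial.finsetSum_coeff, Polynomial.coeff_monomial, Fin.val_inj] at this
    simpa using this
  have h0 := key (fun j => x (0, j)) (fun j => y (0, j)) (fun t => by
    have := congrArg Prod.fst (h (t, 1))
    simpa [hF] using this)
  have h1 := key (fun j => x (1, j)) (fun j => y (1, j)) (fun t => by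
    have := congrArg Prod.snd (h (t, 1))
    simpa [hF] using this)
  funext ⟨i, j⟩
  fin_cases i
  · exact congrFun h0 j
  · exact congrFun h1 j

section transport

variable {f g : OnePoint ℂ → OnePoint ℂ} (h : OnePoint ℂ ≃ₜ OnePoint ℂ)

theorem iter (hs : ∀ z, g (h z) = h (f z)) (N : ℕ) (z : OnePoint ℂ) :
    g^[N] (h z) = h (f^[N] z) := by
  have : Function.Semiconj h f g := fun z => (hs z).symm
  exact (this.iterate_right N z).symm

theorem sink (hs : ∀ z, g (h z) = h (f z)) {n : ℕ} {a : OnePoint ℂ} (hS : Sink f n a) :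
    Sink g n (h a) := by
  obtain ⟨hn, hfix, U, hU, hV⟩ := hS
  refine ⟨hn, by rw [iter h hs, hfix], h '' U, h.isOpenMap.image_mem_nhds hU, ?_⟩
  intro V hVn
  have hV' : h ⁻¹' V ∈ 𝓝 a := h.continuous.continuousAt hVn
  filter_upwards [hV _ hV'] with k hk
  rintro _ ⟨w, hw, rfl⟩
  rw [iter h hs]
  exact hk w hw

theorem attd (hs : ∀ z, g (h z) = h (f z)) {z : OnePoint ℂ} (hA : Attd f z) : Attd g (h z) := by
  obtain ⟨n, a, hS, hT⟩ := hA
  refine ⟨n, h a, sink h hs hS, ?_⟩
  have := (h.continuous.tendsto a).comp hT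
  refine this.congr fun k => ?_
  simp only [Function.comp, iter h hs]

theorem hyp (hs : ∀ z, g (h z) = h (f z)) (hH : HypTop f) : HypTop g := by
  intro c hc
  obtain ⟨c', rfl⟩ := h.surjective c
  have hc' : ¬ ∃ U ∈ nhds c', Set.InjOn f U := by
    rintro ⟨U, hU, hinj⟩
    apply hc
    refine ⟨h '' U, h.isOpenMap.image_mem_nhds hU, ?_⟩
    rintro _ ⟨u, hu, rfl⟩ _ ⟨v, hv, rfl⟩ huv
    rw [hs, hs] at huv
    rw [hinj hu hv (h.injective huv)]
  obtain ⟨z, n, hn, hfix, ⟨U, hU, hUt⟩, hct⟩ := hH c' hc'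
  refine ⟨h z, n, hn, by rw [iter h hs, hfix], ⟨h '' U, h.isOpenMap.image_mem_nhds hU, ?_⟩, ?_⟩
  · rintro _ ⟨w, hw, rfl⟩
    have := (h.continuous.tendsto z).comp (hUt w hw)
    refine this.congr fun k => ?_
    simp only [Function.comp, iter h hs]
  · have := (h.continuous.tendsto z).comp hct
    refine this.congr fun k => ?_
    simp only [Function.comp, iter h hs]

end transport

end ALL

open ALL in
theorem ALL (hINF : StINF) (hCJ : StCJ) (hMOB : StMOB) (hSP : StSP) : StALL := by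
  intro d x₀ hd hx₀ hvol ε hε
  have hd1 : 1 ≤ d := by omega
  -- an attracting point
  have hex : ∃ z : ℂ, Attd (sp x₀) (z : OnePoint ℂ) := by
    by_contra hcon
    push Not at hcon
    have : {z : ℂ | ¬ Attd (sp x₀) (z : OnePoint ℂ)} = Set.univ := by
      ext z; simp [hcon z]
    rw [this] at hvol
    simp at hvol
  obtain ⟨_, n, a, hS, -⟩ := hex
  obtain ⟨cj, hcd, -, -, -, hcj⟩ := hCJ d
  obtain ⟨-, -, -, hhc, -⟩ := hSP d x₀ hd1 hx₀
  have hq := (hhc a).2
  have hqa := (hhc a).1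
  set q := hc a with hqdef
  obtain ⟨s, t, hst⟩ : ∃ s t : ℂ, s * q.1 + t * q.2 = 1 := by
    by_cases h1 : q.1 = 0
    · have h2 : q.2 ≠ 0 := fun h2 => hq (Prod.ext h1 h2)
      exact ⟨0, q.2⁻¹, by rw [zero_mul, zero_add, inv_mul_cancel₀ h2]⟩
    · exact ⟨q.1⁻¹, 0, by rw [zero_mul, add_zero, inv_mul_cancel₀ h1]⟩
  -- the matrix
  have hdet : s * q.1 - t * (-q.2) = 1 := by linear_combination hst
  set m : (ℂ × ℂ) × (ℂ × ℂ) := ((s, t), (-q.2, q.1)) with hm
  set mi : (ℂ × ℂ) × (ℂ × ℂ) := ((q.1, -t), (q.2, s)) with hmi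
  have hdet' : q.1 * s - (-t) * q.2 = 1 := by linear_combination hst
  have hR1 : Rel s t (-q.2) q.1 x₀ (cj m x₀) := fun p => by
    rw [hcj m x₀ p]
  have hND1 : ND (cj m x₀) := nd_of_rel hdet hR1 hx₀
  obtain ⟨h, hh, hnull⟩ := hMOB s t (-q.2) q.1 (by rw [hdet]; exact one_ne_zero)
  have hs1 := semi hSP hd1 hx₀ hND1 hdet hR1 h hh
  have hha : h a = ∞ := by
    rw [← hqa, hh q hq]
    have h0 : -q.2 * q.1 + q.1 * q.2 = 0 := by ring
    unfold pr
    rw [if_pos h0]
  have hS1 : Sink (sp (cj m x₀)) n ∞ := by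
    rw [← hha]; exact sink h hs1 hS
  have hvol1 : volume {z : ℂ | ¬ Attd (sp (cj m x₀)) (z : OnePoint ℂ)} = 0 := by
    have h0 := hnull {z : OnePoint ℂ | ¬ Attd (sp x₀) z} hvol
    refine measure_mono_null ?_ h0
    intro z hz
    obtain ⟨w, hw⟩ := h.surjective (z : OnePoint ℂ)
    refine ⟨w, ?_, hw⟩
    intro hA
    apply hz
    rw [← hw]
    exact attd h hs1 hA
  -- the inverse conjugation
  have hR2 : ∀ y : CV d, Rel q.1 (-t) q.2 s y (cj mi y) := fun y p => by
    rw [hcj mi y p]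
  have hback : cj mi (cj m x₀) = x₀ := by
    apply hF_inj
    intro p
    rw [hR2 (cj m x₀) p]
    have e1 := rel_apply hdet hR1 p
    have e2 : ((s * p.1 - -t * p.2, q.1 * p.2 - q.2 * p.1) : ℂ × ℂ) =
        (s * p.1 + t * p.2, -q.2 * p.1 + q.1 * p.2) := by
      refine Prod.ext ?_ ?_
      · show s * p.1 - -t * p.2 = s * p.1 + t * p.2
        ring
      · show q.1 * p.2 - q.2 * p.1 = -q.2 * p.1 + q.1 * p.2
        ring
    rw [e2, e1]
    refine Prod.ext ?_ ?_
    · show q.1 * (s * (hF x₀ p).1 + t * (hF x₀ p).2) +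
        -t * (-q.2 * (hF x₀ p).1 + q.1 * (hF x₀ p).2) = (hF x₀ p).1
      linear_combination (hF x₀ p).1 * hst
    · show q.2 * (s * (hF x₀ p).1 + t * (hF x₀ p).2) +
        s * (-q.2 * (hF x₀ p).1 + q.1 * (hF x₀ p).2) = (hF x₀ p).2
      linear_combination (hF x₀ p).2 * hst
  have hcont : Continuous (fun y : CV d => cj mi y) := by
    have h1 := hcd.continuous
    exact h1.comp (continuous_const.prodMk continuous_id)
  obtain ⟨δ, hδ, hδε⟩ := Metric.continuous_iff.1 hcont (cj m x₀) ε hε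
  obtain ⟨x₁, hx₁, hND, hHyp⟩ := hINF d (cj m x₀) n hd hND1 hS1 hvol1 δ hδ
  have hND2 : ND (cj mi x₁) := nd_of_rel hdet' (hR2 x₁) hND
  refine ⟨cj mi x₁, ?_, hND2, ?_⟩
  · have := hδε x₁ (by rw [dist_eq_norm]; exact hx₁)
    rw [hback, dist_eq_norm] at this
    exact this
  · obtain ⟨h', hh', -⟩ := hMOB q.1 (-t) q.2 s (by rw [hdet']; exact one_ne_zero)
    exact hyp h' (semi hSP hd1 hND hND2 hdet' (hR2 x₁) h' hh') hHyp

end Pool.Agent.H790R3.RB
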