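import Mathlib
import Pool.Agent.H790R3.RB.St3
import Pool.Agent.H790R3.RB.Basic

set_option autoImplicit false

open Topology Filter Metric Set MeasureTheory

namespace Pool.Agent.H790R3.RB

theorem ALLC (hLAM : StLAM) (hER : StER) (hWR : StWR) : StALLC := by
  intro d n s S ks ls y hA c hc hwr
  obtain ⟨-, -, -, hl, -, -⟩ := hLAM d n s S
  have hw0 : wr (S.co (yx y)) (1, 0) ≠ 0 := hl _ hA.xU (hA.lam0 none)
  obtain ⟨hhom, -, -⟩ := hWR d (S.co (yx y)) S.hd
  by_cases h2 : c.2 = 0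
  · exfalso
    have h1 : c.1 ≠ 0 := fun h => hc (Prod.ext h h2)
    have e : c = c.1 • ((1, 0) : ℂ × ℂ) := by
      apply Prod.ext
      · simp
      · simp [h2]
    rw [e, hhom] at hwr
    exact mul_ne_zero (pow_ne_zero _ h1) hw0 hwr
  · set ζ : ℂ := c.1 / c.2 with hζ
    have e : c = c.2 • ((ζ, 1) : ℂ × ℂ) := by
      apply Prod.ext
      · simp [hζ, mul_div_cancel₀ _ h2]
      · simp
    have hwr' : wr (S.co (yx y)) (ζ, 1) = 0 := by
      rw [e, hhom] at hwr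
      exact (mul_eq_zero.mp hwr).resolve_left (pow_ne_zero _ h2)
    rw [hER d n s S y hA.crit ζ] at hwr'
    have hprod := (mul_eq_zero.mp hwr').resolve_left hw0
    obtain ⟨i, -, hi⟩ := Finset.prod_eq_zero_iff.mp hprod
    have hζi : ζ = yc y i := sub_eq_zero.mp hi
    obtain ⟨-, -, N, a, z, ha, hz, hN⟩ := hA.att i (Finset.mem_univ i)
    refine ⟨ks i, S.per (ks i) * N + ls i, c.2 ^ (d ^ (S.per (ks i) * N + ls i)) * a, z,
      mul_ne_zero (pow_ne_zero _ h2) ha, hz, ?_⟩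
    have h3 : (S.F (yx y))^[S.per (ks i) * N + ls i] (ζ, 1) = a • S.cht (ks i) (yx y) z := by
      rw [Function.iterate_add_apply, hζi]
      exact hN
    have h4 : (S.F (yx y))^[S.per (ks i) * N + ls i] (c.2 • ((ζ, 1) : ℂ × ℂ)) =
        c.2 ^ (d ^ (S.per (ks i) * N + ls i)) • (S.F (yx y))^[S.per (ks i) * N + ls i] (ζ, 1) :=
      hF_iter_smul _ _ _ _
    calc (S.F (yx y))^[S.per (ks i) * N + ls i] c
        = (S.F (yx y))^[S.per (ks i) * N + ls i] (c.2 • ((ζ, 1) : ℂ × ℂ)) := by rw [← e]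
      _ = _ := by rw [h4, h3, smul_smul]

end Pool.Agent.H790R3.RB
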