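import Mathlib
import Pool.Agent.H790R3.RB.St
import Pool.Agent.H790R3.RB.Basic

/-! Critical points of iterates (task CHAIN of the project RB). -/

set_option autoImplicit false

open Topology Filter Metric Set MeasureTheory

namespace Pool.Agent.H790R3.RB

namespace CHAIN

theorem iter_diff {d : ℕ} (x : CV d) (N : ℕ) : Differentiable ℂ (fun p => (hF x)^[N] p) := by
  have h := hF_iter_differentiable d N
  exact h.comp (differentiable_const x |>.prodMk differentiable_id)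

theorem one_diff {d : ℕ} (x : CV d) : Differentiable ℂ (hF x) := by
  have := iter_diff x 1
  simpa using this

theorem iter_cr (hWR : StWR) {d : ℕ} (hd : 2 ≤ d) (x : CV d) (N : ℕ) (p v w : ℂ × ℂ) :
    cr (fderiv ℂ (fun q => (hF x)^[N] q) p v) (fderiv ℂ (fun q => (hF x)^[N] q) p w) =
      (∏ m ∈ Finset.range N, wr x ((hF x)^[m] p)) * cr v w := by
  induction N generalizing v w with
  | zero =>
    have : (fun q : ℂ × ℂ => (hF x)^[0] q) = id := by funext q; simp
    rw [this]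
    simp
  | succ N ih =>
    have hfun : (fun q : ℂ × ℂ => (hF x)^[N + 1] q) = (hF x) ∘ (fun q => (hF x)^[N] q) := by
      funext q
      simp only [Function.comp_apply, Function.iterate_succ_apply']
    have hfd : fderiv ℂ (fun q : ℂ × ℂ => (hF x)^[N + 1] q) p =
        (fderiv ℂ (hF x) ((hF x)^[N] p)).comp (fderiv ℂ (fun q => (hF x)^[N] q) p) := by
      rw [hfun]
      exact fderiv_comp p (one_diff x _) (iter_diff x N p)
    rw [hfd]
    simp only [ContinuousLinearMap.comp_apply]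
    rw [((hWR d x hd).2.2 _ _ _), ih, Finset.prod_range_succ]
    ring

theorem euler {d : ℕ} (x : CV d) (N : ℕ) (p : ℂ × ℂ) :
    fderiv ℂ (fun q => (hF x)^[N] q) p p = ((d ^ N : ℕ) : ℂ) • (hF x)^[N] p := by
  have h1 : HasDerivAt (fun a : ℂ => a • p) p 1 := by
    simpa using (hasDerivAt_id (1 : ℂ)).smul_const p
  have h2 : HasFDerivAt (fun q => (hF x)^[N] q) (fderiv ℂ (fun q => (hF x)^[N] q) p)
      ((fun a : ℂ => a • p) 1) := by
    simpa using (iter_diff x N p).hasFDerivAt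
  have h3 := h2.comp_hasDerivAt (1 : ℂ) h1
  have h4 : HasDerivAt (fun a : ℂ => a ^ (d ^ N) • (hF x)^[N] p)
      (((d ^ N : ℕ) : ℂ) • (hF x)^[N] p) 1 := by
    have := (hasDerivAt_pow (d ^ N) (1 : ℂ)).smul_const ((hF x)^[N] p)
    simpa using this
  have h5 : ((fun q => (hF x)^[N] q) ∘ fun a : ℂ => a • p) =
      fun a : ℂ => a ^ (d ^ N) • (hF x)^[N] p := by
    funext a
    simp only [Function.comp_apply, hF_iter_smul]
  rw [h5] at h3
  exact h3.unique h4

end CHAIN

theorem CHAIN (hWR : StWR) : StCHAIN := by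
  intro d x N ζ u hd h1 h2
  by_contra hcon
  push Not at hcon
  have hp : (∏ m ∈ Finset.range N, wr x ((hF x)^[m] (ζ, 1))) ≠ 0 :=
    Finset.prod_ne_zero_iff.mpr (fun m hm => hcon m (Finset.mem_range.mp hm))
  set p : ℂ × ℂ := (ζ, 1) with hpdef
  set G := fun q : ℂ × ℂ => (hF x)^[N] q with hG
  have hGd : DifferentiableAt ℂ G p := CHAIN.iter_diff x N p
  have hline : HasDerivAt (fun z : ℂ => ((z, 1) : ℂ × ℂ)) (1, 0) ζ :=
    (hasDerivAt_id ζ).prodMk (hasDerivAt_const ζ (1 : ℂ))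
  have hcomp : HasDerivAt (fun z : ℂ => G (z, 1)) (fderiv ℂ G p (1, 0)) ζ :=
    HasFDerivAt.comp_hasDerivAt ζ (f := fun z : ℂ => ((z, 1) : ℂ × ℂ)) hGd.hasFDerivAt hline
  have hA : deriv (fun z : ℂ => ((hF x)^[N] (z, 1)).1) ζ = (fderiv ℂ G p (1, 0)).1 := by
    have h := HasFDerivAt.comp_hasDerivAt ζ
      ((ContinuousLinearMap.fst ℂ ℂ ℂ).hasFDerivAt (x := G (ζ, 1))) hcomp
    exact h.deriv
  have hB : deriv (fun z : ℂ => ((hF x)^[N] (z, 1)).2) ζ = (fderiv ℂ G p (1, 0)).2 := by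
    have h := HasFDerivAt.comp_hasDerivAt ζ
      ((ContinuousLinearMap.snd ℂ ℂ ℂ).hasFDerivAt (x := G (ζ, 1))) hcomp
    exact h.deriv
  have hE : fderiv ℂ G p p = ((d ^ N : ℕ) : ℂ) • (hF x)^[N] p := CHAIN.euler x N p
  have hcr := CHAIN.iter_cr hWR hd x N p p (1, 0)
  have h0 : cr (fderiv ℂ G p p) (fderiv ℂ G p (1, 0)) = 0 := by
    rw [hE, cr_smul_left]
    have : cr ((hF x)^[N] p) (fderiv ℂ G p (1, 0)) = 0 := by
      unfold cr
      rw [← hA, ← hB, h2, h1]
      ring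
    rw [this, mul_zero]
  have h6 : (∏ m ∈ Finset.range N, wr x ((hF x)^[m] p)) * cr p (1, 0) = 0 := by
    rw [← hcr]; exact h0
  rcases mul_eq_zero.mp h6 with h | h
  · exact hp h
  · simp [cr, hpdef] at h

end Pool.Agent.H790R3.RB
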