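import Mathlib
import Pool.Agent.H790R3.RB.St2
import Pool.Agent.H790R3.RB.Basic

/-! Task CJ (helper771): linear change of variables on coefficients. -/

set_option autoImplicit false

open Topology Filter Metric Set MeasureTheory
open scoped OnePoint

namespace Pool.Agent.H790R3.RB

namespace CJ

/-- coefficient of `u ^ i v ^ (d - i)` in `(e u - b v) ^ j (a v - c u) ^ (d - j)` -/
noncomputable def co (d j i : ℕ) (m : (ℂ × ℂ) × (ℂ × ℂ)) : ℂ :=
  ∑ k ∈ Finset.range (j + 1), ∑ l ∈ Finset.range (d - j + 1),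
    if k + l = i then (m.2.2 ^ k * (-m.1.2) ^ (j - k) * (j.choose k : ℂ)) *
      ((-m.2.1) ^ l * m.1.1 ^ (d - j - l) * ((d - j).choose l : ℂ)) else 0

theorem co_contDiff (d j i : ℕ) : ContDiff ℂ 1 (fun m : (ℂ × ℂ) × (ℂ × ℂ) => co d j i m) := by
  unfold co
  refine ContDiff.sum fun k _ => ContDiff.sum fun l _ => ?_
  split_ifs
  · fun_prop
  · fun_prop

theorem sum_co {d j : ℕ} (hj : j ≤ d) (m : (ℂ × ℂ) × (ℂ × ℂ)) (u v : ℂ) :
    ∑ i : Fin (d + 1), co d j i m * (u ^ (i : ℕ) * v ^ (d - (i : ℕ))) =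
      (m.2.2 * u - m.1.2 * v) ^ j * (m.1.1 * v - m.2.1 * u) ^ (d - j) := by
  have h1 : ∑ i : Fin (d + 1), co d j i m * (u ^ (i : ℕ) * v ^ (d - (i : ℕ))) =
      ∑ i ∈ Finset.range (d + 1), co d j i m * (u ^ i * v ^ (d - i)) :=
    Fin.sum_univ_eq_sum_range (fun i => co d j i m * (u ^ i * v ^ (d - i))) (d + 1)
  rw [h1]
  have h2 : (m.2.2 * u - m.1.2 * v) ^ j = (m.2.2 * u + (-m.1.2) * v) ^ j := by ring_nf
  have h3 : (m.1.1 * v - m.2.1 * u) ^ (d - j) = ((-m.2.1) * u + m.1.1 * v) ^ (d - j) := by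
    congr 1
    ring
  rw [h2, h3, add_pow, add_pow, Finset.sum_mul_sum]
  unfold co
  simp only [Finset.sum_mul]
  rw [Finset.sum_comm]
  refine Finset.sum_congr rfl fun k hk => ?_
  rw [Finset.sum_comm]
  refine Finset.sum_congr rfl fun l hl => ?_
  rw [Finset.mem_range] at hk hl
  rw [Finset.sum_eq_single_of_mem (k + l) (by rw [Finset.mem_range]; omega)]
  · rw [if_pos rfl]
    have h4 : d - (k + l) = (j - k) + (d - j - l) := by omega
    rw [h4, pow_add, pow_add, mul_pow, mul_pow, mul_pow, mul_pow]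
    ring
  · intro i _ hi
    rw [if_neg (Ne.symm hi), zero_mul]

theorem co_one {d j i : ℕ} :
    co d j i ((1, 0), (0, 1)) = if j = i then 1 else 0 := by
  unfold co
  rw [Finset.sum_eq_single_of_mem j (Finset.self_mem_range_succ j)]
  · rw [Finset.sum_eq_single_of_mem 0 (Finset.mem_range.2 (Nat.succ_pos _))]
    · simp
    · intro l _ hl
      simp [hl]
  · intro k hk hkj
    rw [Finset.mem_range] at hk
    refine Finset.sum_eq_zero fun l _ => ?_
    have : j - k ≠ 0 := by omega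
    simp [this]

/-- the coefficients of the conjugated map -/
noncomputable def cj (d : ℕ) (m : (ℂ × ℂ) × (ℂ × ℂ)) (x : CV d) : CV d := fun r =>
  ∑ j : Fin (d + 1), co d j r.2 m *
    (if r.1 = 0 then m.1.1 * x (0, j) + m.1.2 * x (1, j) else m.2.1 * x (0, j) + m.2.2 * x (1, j))

end CJ

theorem CJ : StCJ := by
  intro d
  refine ⟨CJ.cj d, ?_, ?_, ?_, ?_, ?_⟩
  · rw [contDiff_pi]
    intro r
    unfold CJ.cj
    refine ContDiff.sum fun j _ => ContDiff.mul ((CJ.co_contDiff d j r.2).comp contDiff_fst) ?_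
    have h : ∀ i : Fin 2, ContDiff ℂ 1 (fun q : ((ℂ × ℂ) × (ℂ × ℂ)) × CV d => q.2 (i, j)) :=
      fun i => (contDiff_apply ℂ ℂ (i, j)).comp contDiff_snd
    have h0 := h 0
    have h1 := h 1
    split_ifs
    · exact ContDiff.add (ContDiff.mul (by fun_prop) h0) (ContDiff.mul (by fun_prop) h1)
    · exact ContDiff.add (ContDiff.mul (by fun_prop) h0) (ContDiff.mul (by fun_prop) h1)
  · intro m x y
    ext r
    unfold CJ.cj
    simp only [Pi.add_apply]
    rw [← Finset.sum_add_distrib]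
    refine Finset.sum_congr rfl fun j _ => ?_
    split_ifs <;> ring
  · intro m a x
    ext r
    unfold CJ.cj
    simp only [Pi.smul_apply, smul_eq_mul]
    rw [Finset.mul_sum]
    refine Finset.sum_congr rfl fun j _ => ?_
    split_ifs <;> ring
  · intro x
    ext r
    unfold CJ.cj
    rw [Finset.sum_eq_single_of_mem r.2 (Finset.mem_univ _)]
    · rw [CJ.co_one, if_pos rfl]
      obtain ⟨i, j⟩ := r
      fin_cases i <;> simp
    · intro j _ hj
      rw [CJ.co_one, if_neg (fun h => hj (Fin.ext h)), zero_mul]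
  · intro m x p
    have key : ∀ y : Fin (d + 1) → ℂ,
        ∑ i : Fin (d + 1), (∑ j : Fin (d + 1), CJ.co d j i m * y j) *
          (p.1 ^ (i : ℕ) * p.2 ^ (d - (i : ℕ))) =
        ∑ j : Fin (d + 1), y j * ((m.2.2 * p.1 - m.1.2 * p.2) ^ (j : ℕ) *
          (m.1.1 * p.2 - m.2.1 * p.1) ^ (d - (j : ℕ))) := by
      intro y
      simp only [Finset.sum_mul]
      rw [Finset.sum_comm]
      refine Finset.sum_congr rfl fun j _ => ?_
      rw [← CJ.sum_co (Nat.lt_succ_iff.1 j.2), Finset.mul_sum]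
      refine Finset.sum_congr rfl fun i _ => ?_
      ring
    unfold hF CJ.cj
    have h10 : ¬ ((1 : Fin 2) = 0) := by decide
    simp only [if_true, if_neg h10]
    refine Prod.ext ?_ ?_
    · simp only
      rw [key, Finset.mul_sum, Finset.mul_sum, ← Finset.sum_add_distrib]
      refine Finset.sum_congr rfl fun j _ => ?_
      ring
    · simp only
      rw [key, Finset.mul_sum, Finset.mul_sum, ← Finset.sum_add_distrib]
      refine Finset.sum_congr rfl fun j _ => ?_
      ring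

end Pool.Agent.H790R3.RB
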