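import Mathlib
import Pool.Agent.H790R3.RB.St3
import Pool.Agent.H713R3.ZA.Circ

set_option autoImplicit false

/-! The final computation. -/

open Topology Filter Metric Set MeasureTheory

namespace Pool.Agent.H790R3.RB

namespace CONT

open Pool.Agent.H713R3.ZA

theorem log_cont {ρ r : ℝ} {g : ℂ → ℂ} (hr : 0 < r) (hρ : r < ρ)
    (hd : DifferentiableOn ℂ g (ball (0 : ℂ) ρ)) (hg : ∀ t ∈ ball (0 : ℂ) ρ, g t ≠ 0) :
    Continuous fun θ : ℝ => Real.log ‖g (circleMap 0 r θ)‖ := by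
  refine Continuous.log (circ_cont hr hρ hd.continuousOn).norm fun θ => ?_
  exact norm_ne_zero_iff.2 (hg _ (circ_mem hr hρ θ))

theorem sum_cont {P : Type} [Fintype P] {ρ r : ℝ} {f : P → ℂ → ℂ} (hr : 0 < r) (hρ : r < ρ)
    (hd : ∀ i, DifferentiableOn ℂ (f i) (ball (0 : ℂ) ρ)) (b : P → ℂ) :
    Continuous fun θ : ℝ => ∑ i, ‖f i (circleMap 0 r θ) - b i‖ ^ 2 := by
  refine continuous_finsetSum _ fun i _ => ?_
  exact ((circ_cont hr hρ (hd i).continuousOn).sub continuous_const).norm.pow 2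

theorem sum_int {P : Type} [Fintype P] {ρ r : ℝ} {f : P → ℂ → ℂ} (hr : 0 < r) (hρ : r < ρ)
    (hd : ∀ i, DifferentiableOn ℂ (f i) (ball (0 : ℂ) ρ)) (b : P → ℂ) :
    ∫ θ in (0 : ℝ)..(2 * Real.pi), ∑ i, ‖f i (circleMap 0 r θ) - b i‖ ^ 2 =
      2 * Real.pi * ∑ i, ‖f i 0 - b i‖ ^ 2 +
        ∫ θ in (0 : ℝ)..(2 * Real.pi), ∑ i, ‖f i (circleMap 0 r θ) - f i 0‖ ^ 2 := by
  have hint : ∀ c : P → ℂ, ∀ i, IntervalIntegrable
      (fun θ : ℝ => ‖f i (circleMap 0 r θ) - c i‖ ^ 2) volume 0 (2 * Real.pi) := fun c i =>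
    (((circ_cont hr hρ (hd i).continuousOn).sub continuous_const).norm.pow 2).intervalIntegrable _ _
  rw [intervalIntegral.integral_finsetSum fun i _ => hint b i,
    intervalIntegral.integral_finsetSum fun i _ => hint (fun i => f i 0) i, Finset.mul_sum,
    ← Finset.sum_add_distrib]
  exact Finset.sum_congr rfl fun i _ => circ_sq hr hρ (hd i) (b i)

end CONT

open CONT Pool.Agent.H713R3.ZA in
theorem CONT : StCONT := by
  intro P _ τ ρ c₀ δ a f w g A hρ hτ hc hδ hf hg hg0 hne hA hm hq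
  obtain ⟨θ₀, i₀, hne⟩ := hne
  have hpi := Real.pi_pos
  set G : ℝ → ℝ := fun θ => ∑ i, ‖f i (circleMap 0 ρ θ) - f i 0‖ ^ 2 with hG
  set K : ℝ → ℝ := fun θ => ∑ i, ‖f i (circleMap 0 ρ θ) - w i‖ ^ 2 with hK
  set L : ℝ → ℝ := fun θ => Real.log ‖g (circleMap 0 ρ θ)‖ with hL
  have cG : Continuous G := sum_cont hρ hτ hf (fun i => f i 0)
  have cK : Continuous K := sum_cont hρ hτ hf w
  have cL : Continuous L := log_cont hρ hτ hg hg0
  have iK : ∫ θ in (0 : ℝ)..(2 * Real.pi), K θ = 2 * Real.pi * ∑ i, ‖f i 0 - w i‖ ^ 2 +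
      ∫ θ in (0 : ℝ)..(2 * Real.pi), G θ := sum_int hρ hτ hf w
  have iL : ∫ θ in (0 : ℝ)..(2 * Real.pi), L θ = 2 * Real.pi * Real.log ‖g 0‖ :=
    circ_log hρ hτ hg hg0
  set B : ℝ := a + c₀ / 2 * ∑ i, ‖f i 0 - w i‖ ^ 2 - δ * Real.log ‖g 0‖ with hB
  set m : ℝ → ℝ := fun θ => B - c₀ / 2 * K θ + δ * L θ with hmdef
  have cm : Continuous m := (continuous_const.sub (continuous_const.mul cK)).add
    (continuous_const.mul cL)
  have im : ∫ θ in (0 : ℝ)..(2 * Real.pi), m θ = 2 * Real.pi * a -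
      c₀ / 2 * ∫ θ in (0 : ℝ)..(2 * Real.pi), G θ := by
    have i1 : IntervalIntegrable (fun θ : ℝ => B - c₀ / 2 * K θ) volume 0 (2 * Real.pi) :=
      (continuous_const.sub (continuous_const.mul cK)).intervalIntegrable _ _
    have i2 : IntervalIntegrable (fun θ : ℝ => δ * L θ) volume 0 (2 * Real.pi) :=
      (continuous_const.mul cL).intervalIntegrable _ _
    have i3 : IntervalIntegrable (fun _ : ℝ => B) volume 0 (2 * Real.pi) :=
      continuous_const.intervalIntegrable _ _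
    have i4 : IntervalIntegrable (fun θ : ℝ => c₀ / 2 * K θ) volume 0 (2 * Real.pi) :=
      (continuous_const.mul cK).intervalIntegrable _ _
    simp only [hmdef]
    rw [intervalIntegral.integral_add i1 i2, intervalIntegral.integral_sub i3 i4,
      intervalIntegral.integral_const_mul, intervalIntegral.integral_const_mul,
      intervalIntegral.integral_const, iK, iL, smul_eq_mul, sub_zero, hB]
    ring
  have h1 := hq (fun θ => max (m θ) 0) (cm.max continuous_const) (fun θ => by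
    refine ⟨le_max_right _ _, max_le ?_ (hA θ)⟩
    have := hm θ
    simp only [hmdef, hB, hK, hL]
    linarith)
  have h2 : ∫ θ in (0 : ℝ)..(2 * Real.pi), (m θ + c₀ * G θ) ≤
      ∫ θ in (0 : ℝ)..(2 * Real.pi), (max (m θ) 0 + c₀ * G θ) := by
    apply intervalIntegral.integral_mono_on (by positivity)
    · exact (cm.add (continuous_const.mul cG)).intervalIntegrable _ _
    · exact ((cm.max continuous_const).add (continuous_const.mul cG)).intervalIntegrable _ _
    · intro θ _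
      have := le_max_left (m θ) 0
      linarith
  have h3 : ∫ θ in (0 : ℝ)..(2 * Real.pi), (m θ + c₀ * G θ) =
      (∫ θ in (0 : ℝ)..(2 * Real.pi), m θ) + c₀ * ∫ θ in (0 : ℝ)..(2 * Real.pi), G θ := by
    have i5 : IntervalIntegrable (fun θ : ℝ => c₀ * G θ) volume 0 (2 * Real.pi) :=
      (continuous_const.mul cG).intervalIntegrable _ _
    rw [intervalIntegral.integral_add (cm.intervalIntegrable _ _) i5,
      intervalIntegral.integral_const_mul]
  have hper : Function.Periodic G (2 * Real.pi) := by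
    intro θ
    simp only [hG]
    rw [periodic_circleMap 0 ρ θ]
  have hGpos : 0 < ∫ θ in (0 : ℝ)..(2 * Real.pi), G θ := by
    have h4 := hper.intervalIntegral_add_eq 0 θ₀
    rw [zero_add] at h4
    rw [h4]
    apply intervalIntegral.integral_pos (by linarith) cG.continuousOn
    · intro θ _
      exact Finset.sum_nonneg fun i _ => by positivity
    · refine ⟨θ₀, ⟨le_rfl, by linarith⟩, ?_⟩
      apply Finset.sum_pos' (fun i _ => by positivity)
      refine ⟨i₀, Finset.mem_univ _, ?_⟩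
      have : 0 < ‖f i₀ (circleMap 0 ρ θ₀) - f i₀ 0‖ := norm_pos_iff.2 (sub_ne_zero.2 hne)
      positivity
  have h5 := h2.trans h1
  rw [h3, im] at h5
  have h6 : 0 < c₀ * ∫ θ in (0 : ℝ)..(2 * Real.pi), G θ := mul_pos hc hGpos
  linarith

end Pool.Agent.H790R3.RB
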