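import Mathlib
import Pool.Agent.H790R3.RB.St
import Pool.Agent.H790R3.RB.Basic

set_option autoImplicit false

open Topology Filter Metric Set MeasureTheory

namespace Pool.Agent.H790R3.RB

namespace CPT

theorem closed_eq {X : Type} [TopologicalSpace X] {C : Set X} (hC : IsClosed C) {f : X → ℂ}
    (hf : ContinuousOn f C) (c : ℂ) : IsClosed (C ∩ {y | f y = c}) :=
  hf.preimage_isClosed_of_isClosed hC isClosed_singleton

theorem yx_continuous {d n s : ℕ} : Continuous (fun y : Ix d n s → ℂ => yx y) :=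
  continuous_pi fun _ => continuous_apply _

theorem yc_continuous {d n s : ℕ} (i : Fin (2 * d - 2)) :
    Continuous (fun y : Ix d n s → ℂ => yc y i) := continuous_apply _

theorem yk_continuous {d n s : ℕ} (k : Option (Fin s)) :
    Continuous (fun y : Ix d n s → ℂ => yk y k) := by
  cases k with
  | none => exact continuous_const
  | some k => exact continuous_apply _

theorem wr_cont {d : ℕ} {X : Type} [TopologicalSpace X] {f : X → CV d} {g : X → ℂ × ℂ} {C : Set X}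
    (hf : ContinuousOn f C) (hg : ContinuousOn g C) : ContinuousOn (fun x => wr (f x) (g x)) C := by
  have h : Continuous (fun q : CV d × (ℂ × ℂ) => wr q.1 q.2) := (wr_contDiff d 1).continuous
  have h2 : ContinuousOn (fun x => (f x, g x)) C := hf.prodMk hg
  have h3 := h.comp_continuousOn h2
  exact h3

theorem iter_cont {d : ℕ} {X : Type} [TopologicalSpace X] {f : X → CV d} {g : X → ℂ × ℂ} {C : Set X}
    (m : ℕ) (hf : ContinuousOn f C) (hg : ContinuousOn g C) :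
    ContinuousOn (fun x => (hF (f x))^[m] (g x)) C := by
  have h := hF_iter_continuous d m
  have h2 : ContinuousOn (fun x => (f x, g x)) C := hf.prodMk hg
  have h3 := h.comp_continuousOn h2
  exact h3

theorem cr_cont {X : Type} [TopologicalSpace X] {f g : X → ℂ × ℂ} {C : Set X}
    (hf : ContinuousOn f C) (hg : ContinuousOn g C) : ContinuousOn (fun x => cr (f x) (g x)) C := by
  unfold cr
  exact (hf.fst.mul hg.snd).sub (hf.snd.mul hg.fst)

theorem cht_continuousOn {d n s : ℕ} (S : Sys d n s) (k : Option (Fin s)) :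
    ContinuousOn (fun q : (Fin n → ℂ) × ℂ => S.cht k q.1 q.2) (S.U ×ˢ univ) := by
  cases k with
  | none =>
    have : (fun q : (Fin n → ℂ) × ℂ => S.cht none q.1 q.2) = fun q => ((1 : ℂ), q.2) := rfl
    rw [this]
    exact (continuous_const.prodMk continuous_snd).continuousOn
  | some k =>
    have : (fun q : (Fin n → ℂ) × ℂ => S.cht (some k) q.1 q.2) =
        fun q => (S.b k q.1 + q.2, (1 : ℂ)) := rfl
    rw [this]
    refine ContinuousOn.prodMk (ContinuousOn.add ?_ continuous_snd.continuousOn)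
      continuousOn_const
    exact (S.hb k).continuousOn.comp continuous_fst.continuousOn (fun q hq => hq.1)

theorem X0_closed (hLAM : StLAM) {d n s : ℕ} (S : Sys d n s) {ρ₂ : ℝ} (hρ : ρ₂ < S.ρ)
    (c : Option (Fin s) → ℂ) :
    IsClosed {x | x ∈ closedBall S.xT ρ₂ ∧ ∀ k, S.lam k x = c k} := by
  have hsub : closedBall S.xT ρ₂ ⊆ S.U := closedBall_subset_ball hρ
  have h1 : {x | x ∈ closedBall S.xT ρ₂ ∧ ∀ k, S.lam k x = c k} =
      closedBall S.xT ρ₂ ∩ ⋂ k, (closedBall S.xT ρ₂ ∩ {x | S.lam k x = c k}) := by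
    ext x
    simp only [mem_setOf_eq, mem_inter_iff, mem_iInter]
    constructor
    · rintro ⟨h, h'⟩
      exact ⟨h, fun k => ⟨h, h' k⟩⟩
    · rintro ⟨h, h'⟩
      exact ⟨h, fun k => (h' k).2⟩
  rw [h1]
  refine isClosed_closedBall.inter (isClosed_iInter fun k => ?_)
  exact closed_eq isClosed_closedBall (((hLAM d n s S).1 k).continuousOn.mono hsub) _

theorem bound (hLAM : StLAM) (hWR : StWR) {d n s : ℕ} (S : Sys d n s) {X₀ : Set (Fin n → ℂ)}
    (hX : IsCompact X₀) (hXU : X₀ ⊆ S.U) (hl : ∀ x ∈ X₀, S.lam none x ≠ 0) :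
    ∃ C : ℝ, ∀ x ∈ X₀, ∀ ζ : ℂ, wr (S.co x) (ζ, 1) = 0 → ‖ζ‖ ≤ C := by
  have hcont : ContinuousOn (fun q : (Fin n → ℂ) × ℂ => wr (S.co q.1) (1, q.2))
      (S.U ×ˢ univ) := by
    have h1 : ContinuousOn (fun q : (Fin n → ℂ) × ℂ => S.co q.1) (S.U ×ˢ univ) :=
      S.hco.continuousOn.comp continuous_fst.continuousOn (fun q hq => hq.1)
    have h2 : ContinuousOn (fun q : (Fin n → ℂ) × ℂ => ((1 : ℂ), q.2)) (S.U ×ˢ univ) :=
      (continuous_const.prodMk continuous_snd).continuousOn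
    exact wr_cont h1 h2
  have hUo : IsOpen S.U := isOpen_ball
  have hop : IsOpen ((S.U ×ˢ (univ : Set ℂ)) ∩
      (fun q : (Fin n → ℂ) × ℂ => wr (S.co q.1) (1, q.2)) ⁻¹' {0}ᶜ) :=
    hcont.isOpen_inter_preimage (hUo.prod isOpen_univ) isOpen_compl_singleton
  obtain ⟨u, v, -, hv, hXu, h0v, huv⟩ := generalized_tube_lemma hX
    (isCompact_singleton (x := (0 : ℂ))) hop (by
      rintro ⟨x, z⟩ ⟨hx, hz⟩
      have hz' : z = 0 := hz
      subst hz'
      exact ⟨⟨hXU hx, mem_univ _⟩, (hLAM d n s S).2.2.2.1 x (hXU hx) (hl x hx)⟩)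
  obtain ⟨ε, hε, hball⟩ := Metric.isOpen_iff.mp hv 0 (h0v rfl)
  refine ⟨1 / ε, fun x hx ζ hζ => ?_⟩
  by_contra hlt
  push Not at hlt
  have hζ0 : ζ ≠ 0 := by
    rintro rfl
    rw [norm_zero] at hlt
    have : 0 < 1 / ε := by positivity
    linarith
  have hm : ζ⁻¹ ∈ v := by
    apply hball
    rw [mem_ball_zero_iff, norm_inv]
    rw [inv_lt_comm₀ (by positivity) hε]
    simpa using hlt
  have h2 := (huv (show ((x, ζ⁻¹) : (Fin n → ℂ) × ℂ) ∈ u ×ˢ v from ⟨hXu hx, hm⟩)).2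
  apply h2
  have h3 : ((1 : ℂ), ζ⁻¹) = ζ⁻¹ • ((ζ, 1) : ℂ × ℂ) := by
    ext
    · simp [hζ0]
    · simp
  show wr (S.co x) (1, ζ⁻¹) ∈ ({0} : Set ℂ)
  rw [h3, (hWR d (S.co x) S.hd).1, hζ, mul_zero]
  rfl

end CPT

open CPT in
theorem CPT (hLAM : StLAM) (hWR : StWR) (hER : StER) : StCPT := by
  intro d n s l S KK r N ω e A ks ls L ρ₂ K y₀ Fh hK hL he hρ hl0 hXN hKr
  set X₀ : Set (Fin n → ℂ) := {x | x ∈ closedBall S.xT ρ₂ ∧ ∀ k, S.lam k x = S.lam k (yx y₀)}
    with hX₀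
  have hXcl : IsClosed X₀ := X0_closed hLAM S hρ _
  have hsub : closedBall S.xT ρ₂ ⊆ S.U := closedBall_subset_ball hρ
  have hXU : X₀ ⊆ S.U := fun x hx => hsub hx.1
  have hXc : IsCompact X₀ := (isCompact_closedBall S.xT ρ₂).of_isClosed_subset hXcl (fun x hx => hx.1)
  obtain ⟨C, hC⟩ := bound hLAM hWR S hXc hXU (fun x hx => by rw [hx.2 none]; exact hl0)
  -- the closed set on which everything is continuous
  set C₂ : Set (Ix d n s → ℂ) := {y | yx y ∈ X₀ ∧ ∀ k, ‖yk y k‖ ≤ K} with hC₂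
  have hC₂cl : IsClosed C₂ := by
    have h1 : C₂ = (fun y : Ix d n s → ℂ => yx y) ⁻¹' X₀ ∩ ⋂ k, {y | ‖yk y k‖ ≤ K} := by
      ext y
      simp [hC₂]
    rw [h1]
    refine (hXcl.preimage yx_continuous).inter (isClosed_iInter fun k => ?_)
    exact isClosed_le (yk_continuous k).norm continuous_const
  have hyx : ContinuousOn (fun y : Ix d n s → ℂ => yx y) C₂ := yx_continuous.continuousOn
  have hyxU : MapsTo (fun y : Ix d n s → ℂ => yx y) C₂ S.U := fun y hy => hXU hy.1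
  have hco : ContinuousOn (fun y : Ix d n s → ℂ => S.co (yx y)) C₂ :=
    S.hco.continuousOn.comp hyx hyxU
  have hEr : ∀ j, ContinuousOn (fun y => S.Er j y) C₂ := by
    intro j
    unfold Sys.Er
    refine ContinuousOn.sub ?_ (ContinuousOn.mul ?_ ?_)
    · exact wr_cont hco continuousOn_const
    · exact wr_cont hco continuousOn_const
    · exact continuousOn_finsetProd _ fun i _ => (continuous_const.sub (yc_continuous i)).continuousOn
  have hpos : ∀ i ∈ A, ContinuousOn (fun y : Ix d n s → ℂ =>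
      cr ((S.F (yx y))^[ls i + S.per (ks i) * L] (yc y i, 1))
      (S.cht (ks i) (yx y) (ω (ks i) (yx y, yk y (ks i) * (S.lam (ks i) (yx y₀) ^ L * Fh i))))) C₂ := by
    intro i hi
    have h1 : ContinuousOn (fun y : Ix d n s → ℂ =>
        (S.F (yx y))^[ls i + S.per (ks i) * L] (yc y i, 1)) C₂ :=
      iter_cont (ls i + S.per (ks i) * L) hco ((yc_continuous i).continuousOn.prodMk continuousOn_const)
    have h2 : ContinuousOn (fun y : Ix d n s → ℂ =>
        ω (ks i) (yx y, yk y (ks i) * (S.lam (ks i) (yx y₀) ^ L * Fh i))) C₂ := by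
      refine (hL.ωd (ks i)).continuousOn.comp
        (hyx.prodMk (((yk_continuous (ks i)).mul continuous_const).continuousOn)) ?_
      intro y hy
      refine ⟨hXN hy.1, ?_⟩
      rw [mem_ball_zero_iff, norm_mul]
      exact lt_of_le_of_lt (mul_le_mul_of_nonneg_right (hy.2 _) (norm_nonneg _)) (hKr i hi)
    have h3 : ContinuousOn (fun y : Ix d n s → ℂ =>
        S.cht (ks i) (yx y) (ω (ks i) (yx y, yk y (ks i) * (S.lam (ks i) (yx y₀) ^ L * Fh i)))) C₂ :=
      (cht_continuousOn S (ks i)).comp (hyx.prodMk h2) (fun y hy => ⟨hyxU hy, mem_univ _⟩)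
    exact cr_cont h1 h3
  have hLeaf : S.Leaf ω e A ks ls L ρ₂ K y₀ Fh =
      C₂ ∩ (⋂ i, (C₂ ∩ {y | e i (yx y) = e i (yx y₀)})) ∩ (C₂ ∩ {y | S.bet (yx y) = S.bet (yx y₀)}) ∩
      (⋂ j, (C₂ ∩ {y | S.Er j y = 0})) ∩ (⋂ i, ⋂ (_ : i ∈ A), (C₂ ∩ {y |
        cr ((S.F (yx y))^[ls i + S.per (ks i) * L] (yc y i, 1))
      (S.cht (ks i) (yx y) (ω (ks i) (yx y, yk y (ks i) * (S.lam (ks i) (yx y₀) ^ L * Fh i)))) = 0})) := by
    ext y
    simp only [Sys.Leaf, hC₂, hX₀, mem_setOf_eq, mem_inter_iff, mem_iInter]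
    constructor
    · rintro ⟨h1, h2, h3, h4, h5, h6, h7⟩
      exact ⟨⟨⟨⟨⟨⟨h1, h3⟩, h6⟩, fun i => ⟨⟨⟨h1, h3⟩, h6⟩, h2 i⟩⟩, ⟨⟨⟨h1, h3⟩, h6⟩, h4⟩⟩,
        fun j => ⟨⟨⟨h1, h3⟩, h6⟩, h5 j⟩⟩, fun i hi => ⟨⟨⟨h1, h3⟩, h6⟩, h7 i hi⟩⟩
    · rintro ⟨⟨⟨⟨⟨⟨h1, h3⟩, h6⟩, h2⟩, ⟨-, h4⟩⟩, h5⟩, h7⟩
      exact ⟨h1, fun i => (h2 i).2, h3, h4, fun j => (h5 j).2, h6, fun i hi => (h7 i hi).2⟩
  have hclosed : IsClosed (S.Leaf ω e A ks ls L ρ₂ K y₀ Fh) := by
    rw [hLeaf]
    refine ((((hC₂cl.inter (isClosed_iInter fun i => ?_)).inter ?_).inter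
      (isClosed_iInter fun j => ?_)).inter (isClosed_iInter fun i => isClosed_iInter fun hi => ?_))
    · exact closed_eq hC₂cl ((he i).continuousOn.comp hyx hyxU) _
    · exact closed_eq hC₂cl ((hLAM d n s S).2.1.continuousOn.comp hyx hyxU) _
    · exact closed_eq hC₂cl (hEr j) _
    · exact closed_eq hC₂cl (hpos i hi) _
  -- boundedness
  refine Metric.isCompact_of_isClosed_isBounded hclosed ?_
  refine (isBounded_closedBall (x := (0 : Ix d n s → ℂ))
    (r := max 0 (max (‖S.xT‖ + ρ₂) (max C K)))).subset ?_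
  rintro y ⟨h1, h2, h3, h4, h5, h6, h7⟩
  rw [mem_closedBall_zero_iff, pi_norm_le_iff_of_nonneg (le_max_left _ _)]
  rintro (i | i | k)
  · refine le_trans ?_ (le_max_right _ _)
    refine le_trans ?_ (le_max_left _ _)
    calc ‖y (Sum.inl i)‖ = ‖yx y i‖ := rfl
      _ ≤ ‖yx y‖ := norm_le_pi_norm _ _
      _ ≤ ‖S.xT‖ + ‖yx y - S.xT‖ := by
          have := norm_add_le S.xT (yx y - S.xT)
          simpa using this
      _ ≤ ‖S.xT‖ + ρ₂ := by
          have := mem_closedBall_iff_norm.mp h1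
          linarith
  · refine le_trans ?_ (le_max_right _ _)
    refine le_trans ?_ (le_max_right _ _)
    refine le_trans ?_ (le_max_left _ _)
    refine hC (yx y) ⟨h1, h3⟩ (yc y i) ?_
    rw [hER d n s S y h5]
    rw [Finset.prod_eq_zero (Finset.mem_univ i) (sub_self _), mul_zero]
  · refine le_trans ?_ (le_max_right _ _)
    refine le_trans ?_ (le_max_right _ _)
    refine le_trans ?_ (le_max_right _ _)
    exact h6 (some k)

end Pool.Agent.H790R3.RB
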