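import Mathlib
import Pool.Agent.H790R3.RB.St3
import Pool.Agent.H790R3.RB.Basic

/-! The disc inequality `StDI`, from its parts. -/

set_option autoImplicit false

open Topology Filter Metric Set MeasureTheory

namespace Pool.Agent.H790R3.RB

namespace DI

/-- radius below the test points -/
theorem exR (Z : Finset ℂ) (R : ℝ) (h : ∀ ζ ∈ Z, R < ‖ζ‖) : ∃ R₂ : ℝ, R < R₂ ∧ ∀ ζ ∈ Z, R₂ ≤ ‖ζ‖ := by
  rcases Z.eq_empty_or_nonempty with he | hne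
  · exact ⟨R + 1, by linarith, by simp [he]⟩
  · obtain ⟨ζ₀, h0, hmin⟩ := Finset.exists_min_image Z (fun ζ => ‖ζ‖) hne
    exact ⟨‖ζ₀‖, h ζ₀ h0, hmin⟩

theorem rt_diff {d : ℕ} (c : CV d) (m : ℕ) (B : Set ℂ)
    (h : ∀ w ∈ B, ((hF c)^[m] (w, 1)).2 ≠ 0) : DifferentiableOn ℂ (rt c m) B := by
  have h1 : Differentiable ℂ (fun w : ℂ => (hF c)^[m] (w, 1)) := by
    have h2 : Differentiable ℂ (fun w : ℂ => ((c, (w, 1)) : CV d × (ℂ × ℂ))) := by fun_prop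
    exact (hF_iter_differentiable d m).comp h2
  have h3 : Differentiable ℂ (fun w : ℂ => ((hF c)^[m] (w, 1)).1) := h1.fst
  have h4 : Differentiable ℂ (fun w : ℂ => ((hF c)^[m] (w, 1)).2) := h1.snd
  intro w hw
  exact ((h3 w).div (h4 w) (h w hw)).differentiableWithinAt

theorem rt_cont {d : ℕ} (c : ℝ → CV d) (m : ℕ) (ζ : ℂ) (hc : Continuous c)
    (h : ∀ θ, ((hF (c θ))^[m] (ζ, 1)).2 ≠ 0) : Continuous (fun θ => rt (c θ) m ζ) := by
  have h1 : Continuous (fun θ : ℝ => (hF (c θ))^[m] (ζ, 1)) := by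
    have h2 : Continuous (fun θ : ℝ => ((c θ, (ζ, 1)) : CV d × (ℂ × ℂ))) := by fun_prop
    exact (hF_iter_continuous d m).comp h2
  exact h1.fst.div h1.snd h

/-- the complement of the image of a smaller exterior has positive area -/
theorem pos (R R₁ : ℝ) (hR : 0 < R) (hR₁ : R < R₁) (Ψ : ℂ → ℂ)
    (hd : DifferentiableOn ℂ Ψ {z : ℂ | R < ‖z‖}) (hi : InjOn Ψ {z : ℂ | R < ‖z‖}) :
    0 < volume (Ψ '' {z : ℂ | R₁ < ‖z‖})ᶜ := by
  set z₀ : ℂ := (((R + R₁) / 2 : ℝ) : ℂ) with hz₀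
  have hn : ‖z₀‖ = (R + R₁) / 2 := by
    rw [hz₀, Complex.norm_real, Real.norm_eq_abs, abs_of_pos (by linarith)]
  have hsub : ball z₀ ((R₁ - R) / 2) ⊆ {z : ℂ | R < ‖z‖} ∩ {z : ℂ | ‖z‖ < R₁} := by
    intro z hz
    rw [mem_ball, dist_eq_norm] at hz
    have h1 : ‖z‖ ≤ ‖z₀‖ + ‖z - z₀‖ := by
      calc ‖z‖ = ‖z₀ + (z - z₀)‖ := by congr 1; ring
        _ ≤ _ := norm_add_le _ _
    have h2 : ‖z₀‖ ≤ ‖z‖ + ‖z - z₀‖ := by
      calc ‖z₀‖ = ‖z - (z - z₀)‖ := by congr 1; ring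
        _ ≤ _ := norm_sub_le _ _
    rw [hn] at h1 h2
    constructor
    · show R < ‖z‖; linarith
    · show ‖z‖ < R₁; linarith
  have hε : 0 < (R₁ - R) / 2 := by linarith
  have hopen : IsOpen {z : ℂ | R < ‖z‖} := isOpen_lt continuous_const continuous_norm
  have han : AnalyticOnNhd ℂ Ψ (ball z₀ ((R₁ - R) / 2)) :=
    (hd.mono (fun z hz => (hsub hz).1)).analyticOnNhd isOpen_ball
  have hpre : IsPreconnected (ball z₀ ((R₁ - R) / 2)) := (convex_ball _ _).isPreconnected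
  have himg : IsOpen (Ψ '' ball z₀ ((R₁ - R) / 2)) := by
    rcases han.is_constant_or_isOpen hpre with ⟨w, hw⟩ | ho
    · exfalso
      have ha : z₀ ∈ ball z₀ ((R₁ - R) / 2) := mem_ball_self hε
      have hb : z₀ + (((R₁ - R) / 4 : ℝ) : ℂ) ∈ ball z₀ ((R₁ - R) / 2) := by
        rw [mem_ball, dist_eq_norm, add_sub_cancel_left, Complex.norm_real, Real.norm_eq_abs,
          abs_of_pos (by linarith)]
        linarith
      have := hi (hsub ha).1 (hsub hb).1 ((hw _ ha).trans (hw _ hb).symm)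
      have h0 : (((R₁ - R) / 4 : ℝ) : ℂ) = 0 := by
        linear_combination -this
      have h1 : (R₁ - R) / 4 = 0 := by exact_mod_cast h0
      linarith
    · exact ho _ subset_rfl isOpen_ball
  have hne : (Ψ '' ball z₀ ((R₁ - R) / 2)).Nonempty := ⟨_, mem_image_of_mem _ (mem_ball_self hε)⟩
  have hle : Ψ '' ball z₀ ((R₁ - R) / 2) ⊆ (Ψ '' {z : ℂ | R₁ < ‖z‖})ᶜ := by
    rintro _ ⟨z, hz, rfl⟩ ⟨z', hz', he⟩
    have h1 := hi (show R < ‖z'‖ from lt_trans hR₁ hz') (hsub hz).1 he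
    rw [h1] at hz'
    have h2 : R₁ < ‖z‖ := hz'
    have h3 : ‖z‖ < R₁ := (hsub hz).2
    linarith
  exact lt_of_lt_of_le (himg.measure_pos volume hne) (measure_mono hle)

end DI

open DI in
theorem DI (hMS : StMS) (hAU : StAU) (hTNI : StTNI) (hCNJ : StCNJ) (hEXT : StEXT)
    (hGAINB : StGAINB) (hSTEP : StSTEP) (_hLAM : StLAM) : StDI := by
  intro d n s S Z δ M hδ hM hZ
  obtain ⟨R₂, hR₂, hZ₂⟩ := exR Z (1 / S.r₀) hZ
  set R : ℝ := 1 / S.r₀ with hRdef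
  have hR : 0 < R := by rw [hRdef]; exact div_pos one_pos S.hr₀
  set R₁ : ℝ := (R + R₂) / 2 with hR₁def
  have hR₁ : R < R₁ := by rw [hR₁def]; linarith
  have hR₁₂ : R₁ < R₂ := by rw [hR₁def]; linarith
  obtain ⟨c₀, hc₀, hgain⟩ := hGAINB R R₁ R₂ δ M Z hR hR₁ hR₁₂ hδ hM hZ₂
  refine ⟨c₀, hc₀, ?_⟩
  intro KK r N ω Nt r₁ r₂ τ x κ Sx hK hLin hr₁ hr₁₂ hdiv hdsc hfin hexc hcov htest ρ hρ hρτ q hq hqa
  have hD : DD S KK r N ω Nt r₂ τ x κ Sx :=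
    ⟨hK, hLin, lt_trans hr₁ hr₁₂, hdiv, hdsc, hfin, hexc⟩
  obtain ⟨W, Φ, hMo⟩ := hMS d n s S KK r N ω Nt r₂ τ x κ Sx hD
  have hAUt := hAU d n s S KK r N ω Nt r₂ τ x κ Sx hD
  have h0τ : (0 : ℂ) ∈ ball (0 : ℂ) τ := mem_ball_self hdsc.hτ
  obtain ⟨hu0, hfin0, hcl0⟩ := hAUt 0 h0τ
  set E : Set ℂ := {ζ : ℂ | ∃ k, ∃ l < S.per k, ∃ w : ℂ, ‖w‖ < r₂ ∧ (w = 0 ∨ w ∈ Sx k l) ∧
        Ad S ω Nt x κ 0 k l w ζ} with hE
  -- points of `WN` at time zero which are not exceptional are in `W`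
  have hWN : ∀ z ∈ S.WN ω Nt r₁ (x 0) (fun k => κ k 0), z ∉ E → z ∈ W := by
    rintro z ⟨k, l, hl, w, hw, hcr⟩ hzE
    by_cases hw0 : w = 0 ∨ w ∈ Sx k l
    · exact absurd ⟨k, l, hl, w, lt_of_le_of_lt hw hr₁₂, hw0, hcr⟩ hzE
    · push Not at hw0
      exact (hMo.mem z).mpr ⟨k, l, hl, w, hw0.1, lt_of_le_of_lt hw hr₁₂, hw0.2, hcr⟩
  have hW : ∀ z : ℂ, R < ‖z‖ → z ∉ E → z ∈ W := fun z hz hzE => hWN z (hcov 0 h0τ z hz) hzE
  -- points in `W` and in `WN` at time zero stay in `WN`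
  have hstay : ∀ z ∈ S.WN ω Nt r₁ (x 0) (fun k => κ k 0), z ∈ W → ∀ t ∈ ball (0 : ℂ) τ,
      Φ t z ∈ S.WN ω Nt r₁ (x t) (fun k => κ k t) := by
    rintro z ⟨k, l, hl, w, hw, hcr⟩ hzW t ht
    obtain ⟨k', l', hl', w', hw0', hw2', hwS', had'⟩ := (hMo.mem z).mp hzW
    obtain ⟨hk, hll, hww⟩ := hu0 k' k l' hl' l hl w' w z hw2' (lt_of_le_of_lt hw hr₁₂) had' hcr
    subst hk
    subst hll
    subst hww
    exact ⟨k', l', hl, w', hw, hMo.ad k' l' hl w' hw0' hw2' hwS' z had' t ht⟩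
  -- extension of the motion
  have hext : ∀ t ∈ ball (0 : ℂ) τ, ∃ Ψ : ℂ → ℂ, DifferentiableOn ℂ Ψ {z : ℂ | R < ‖z‖} ∧
      InjOn Ψ {z : ℂ | R < ‖z‖} ∧ (∀ z ∈ {z : ℂ | R < ‖z‖} \ E, Ψ z = Φ t z) ∧
      Tendsto (fun z => Ψ z - z) (cocompact ℂ) (𝓝 0) := by
    intro t ht
    obtain ⟨-, htn⟩ := hTNI d n s S KK r N ω Nt r₂ τ x κ Sx W Φ hD hMo t ht
    apply hEXT R E (Φ t) hR hfin0 _ _ htn
    · have h1 : DifferentiableOn ℂ (fun z : ℂ => ((t, z) : ℂ × ℂ)) ({z : ℂ | R < ‖z‖} \ E) := by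
        fun_prop
      exact hMo.Φd.comp h1 (fun z hz => ⟨ht, hW z hz.1 hz.2⟩)
    · exact (hMo.Φi t ht).mono (fun z hz => hW z hz.1 hz.2)
  choose! Ψ hΨd hΨi hΨe hΨt using hext
  have hcm : ∀ θ : ℝ, circleMap 0 ρ θ ∈ ball (0 : ℂ) τ := by
    intro θ
    rw [mem_ball, dist_zero_right, norm_circleMap_zero, abs_of_pos hρ]
    exact hρτ
  set a : ℝ := S.AN ω Nt r₁ (x 0) (fun k => κ k 0) with ha
  have ha0 : 0 ≤ a := ENNReal.toReal_nonneg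
  set K : Set ℂ := (S.WN ω Nt r₁ (x 0) (fun k => κ k 0) ∩ W) ∩ closedBall 0 R₁ with hKdef
  set g : ℝ → ℝ := fun θ => c₀ * ∑ ζ ∈ Z, ‖rt (S.co (x (circleMap 0 ρ θ))) (S.per none) ζ -
    rt (S.co (x 0)) (S.per none) ζ‖ ^ 2 with hg
  have hπ : 0 < Real.pi := Real.pi_pos
  -- area bound
  have hY : ∀ t ∈ ball (0 : ℂ) τ, volume (Ψ t '' {z : ℂ | R₁ < ‖z‖})ᶜ ≤
      ENNReal.ofReal (Real.pi * R₁ ^ 2 - c₀ * ∑ ζ ∈ Z, ‖rt (S.co (x t)) (S.per none) ζ -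
        rt (S.co (x 0)) (S.per none) ζ‖ ^ 2) := by
    intro t ht
    have hcnj := hCNJ d n s S KK r N ω Nt r₂ τ x κ Sx W Φ hD hMo ⟨E, hfin0, hW⟩ t ht (Ψ t)
      (hΨd t ht).continuousOn ⟨E, hfin0, fun ζ h1 h2 => hΨe t ht ζ ⟨h1, h2⟩⟩
    apply hgain (rt (S.co (x 0)) (S.per none)) (rt (S.co (x t)) (S.per none)) (Ψ t) (hΨd t ht)
      (hΨi t ht) (hΨt t ht)
    · intro ζ hζ
      exact ⟨rt_diff _ _ _ (fun w hw => (htest t ht ζ hζ w hw).1),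
        fun w hw => (htest t ht ζ hζ w hw).2⟩
    · intro ζ hζ
      obtain ⟨h1, h2⟩ := htest 0 h0τ ζ hζ ζ (mem_ball_self hδ)
      obtain ⟨h3, -, h5⟩ := hcnj ζ (hZ ζ hζ) h1
      exact ⟨h2, le_trans (hZ₂ ζ hζ) h3, h5⟩
  -- the complement of `WN` is bounded
  have hbd : ∀ t ∈ ball (0 : ℂ) τ, (S.WN ω Nt r₁ (x t) (fun k => κ k t))ᶜ ⊆ closedBall 0 R := by
    intro t ht z hz
    rw [mem_closedBall, dist_zero_right]
    by_contra hcon
    exact hz (hcov t ht z (not_le.mp hcon))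
  have hfinv : volume (S.WN ω Nt r₁ (x 0) (fun k => κ k 0))ᶜ ≠ ⊤ :=
    ne_top_of_le_ne_top (measure_closedBall_lt_top (μ := volume) (x := (0 : ℂ)) (r := R)).ne
      (measure_mono (hbd 0 h0τ))
  have hxU : ∀ t ∈ ball (0 : ℂ) τ, x t ∈ ball S.xT S.ρ := fun t ht => hLin.NU (hdsc.xN t ht)
  have hcoc : Continuous (fun θ : ℝ => S.co (x (circleMap 0 ρ θ))) := by
    have h1 : Continuous (fun θ : ℝ => x (circleMap 0 ρ θ)) :=
      hdsc.xd.continuousOn.comp_continuous (continuous_circleMap 0 ρ) hcm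
    exact S.hco.continuousOn.comp_continuous h1 (fun θ => hxU _ (hcm θ))
  have hgc : Continuous g := by
    apply Continuous.mul continuous_const
    apply continuous_finsetSum
    intro ζ hζ
    apply Continuous.pow
    apply Continuous.norm
    apply Continuous.sub _ continuous_const
    exact rt_cont _ _ _ hcoc (fun θ => (htest _ (hcm θ) ζ hζ ζ (mem_ball_self hδ)).1)
  have hnull : ∀ t : ℂ, volume (Ψ t '' E) = 0 := fun t => (hfin0.image _).measure_zero volume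
  have hmain := hSTEP τ ρ R₁ a W K Φ (fun t => (S.WN ω Nt r₁ (x t) (fun k => κ k t))ᶜ)
    (fun t => (Ψ t '' {z : ℂ | R₁ < ‖z‖})ᶜ) q g hρ hρτ (by linarith) ha0 hMo.Wo
    (((hcl0 r₁ hr₁ hr₁₂).measurableSet.inter hMo.Wo.measurableSet).inter
      isClosed_closedBall.measurableSet)
    (fun z hz => hz.1.2) (fun z hz => hz.2) ?_ hMo.Φd hMo.Φ0 hMo.Φi hq hgc
    (fun θ => (hqa θ).1) ?_ ?_ ?_ ?_ ?_ ?_
  · exact hmain
  · -- area of `K`
    have hsub : closedBall (0 : ℂ) R₁ ⊆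
        (K ∪ (S.WN ω Nt r₁ (x 0) (fun k => κ k 0))ᶜ) ∪ E := by
      intro z hz
      by_cases h1 : z ∈ S.WN ω Nt r₁ (x 0) (fun k => κ k 0)
      · by_cases h2 : z ∈ E
        · exact Or.inr h2
        · exact Or.inl (Or.inl ⟨⟨h1, hWN z h1 h2⟩, hz⟩)
      · exact Or.inl (Or.inr h1)
    have hvol : volume (closedBall (0 : ℂ) R₁) = ENNReal.ofReal (Real.pi * R₁ ^ 2) := by
      rw [Complex.volume_closedBall, ← ENNReal.ofReal_pow (by linarith), mul_comm Real.pi,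
        ENNReal.ofReal_mul (by positivity)]
      congr 1
      rw [← NNReal.coe_real_pi, ENNReal.ofReal_coe_nnreal]
    calc ENNReal.ofReal (Real.pi * R₁ ^ 2) = volume (closedBall (0 : ℂ) R₁) := hvol.symm
      _ ≤ volume ((K ∪ (S.WN ω Nt r₁ (x 0) (fun k => κ k 0))ᶜ) ∪ E) := measure_mono hsub
      _ ≤ volume (K ∪ (S.WN ω Nt r₁ (x 0) (fun k => κ k 0))ᶜ) + volume E := measure_union_le _ _
      _ = volume (K ∪ (S.WN ω Nt r₁ (x 0) (fun k => κ k 0))ᶜ) := by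
          rw [hfin0.measure_zero volume, add_zero]
      _ ≤ volume K + volume (S.WN ω Nt r₁ (x 0) (fun k => κ k 0))ᶜ := measure_union_le _ _
      _ = volume K + ENNReal.ofReal a := by
          rw [ha]
          unfold Sys.AN
          rw [ENNReal.ofReal_toReal hfinv]
  · intro θ
    rw [Set.disjoint_left]
    rintro _ h1 ⟨z, hz, rfl⟩
    exact h1 (hstay z hz.1.1 hz.1.2 _ (hcm θ))
  · intro θ
    apply measure_mono_null _ (hnull (circleMap 0 ρ θ))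
    rintro y ⟨h1, h2⟩
    simp only [mem_compl_iff, not_not] at h1 h2
    obtain ⟨z, hz, rfl⟩ := h2
    by_cases hzE : z ∈ E
    · exact mem_image_of_mem _ hzE
    · exfalso
      have hzR : R < ‖z‖ := lt_trans hR₁ hz
      apply h1
      rw [hΨe _ (hcm θ) z ⟨hzR, hzE⟩]
      exact hstay z (hcov 0 h0τ z hzR) (hW z hzR hzE) _ (hcm θ)
  · intro θ
    apply measure_mono_null _ (hnull (circleMap 0 ρ θ))
    rintro y ⟨⟨z, hz, hzy⟩, h2⟩
    simp only [mem_compl_iff, not_not] at h2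
    obtain ⟨z', hz', hzy'⟩ := h2
    by_cases hzE : z' ∈ E
    · exact ⟨z', hzE, hzy'⟩
    · exfalso
      have hzR : R < ‖z'‖ := lt_trans hR₁ hz'
      rw [hΨe _ (hcm θ) z' ⟨hzR, hzE⟩, ← hzy] at hzy'
      have := hMo.Φi _ (hcm θ) (hW z' hzR hzE) hz.1.2 hzy'
      rw [this] at hz'
      have h3 := hz.2
      rw [mem_closedBall, dist_zero_right] at h3
      exact absurd hz' (not_lt.mpr h3)
  · intro θ
    exact hY _ (hcm θ)
  · intro θ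
    by_contra hcon
    push Not at hcon
    have h1 := hY _ (hcm θ)
    rw [ENNReal.ofReal_of_nonpos (by simp only [hg] at hcon; linarith)] at h1
    have h2 := pos R R₁ hR hR₁ (Ψ (circleMap 0 ρ θ)) (hΨd _ (hcm θ)) (hΨi _ (hcm θ))
    exact absurd (lt_of_lt_of_le h2 h1) (lt_irrefl _)
  · intro θ
    exact ENNReal.ofReal_le_of_le_toReal (hqa θ).2

end Pool.Agent.H790R3.RB
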