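import Mathlib
import Pool.Agent.H790R3.RB.St
import Pool.Agent.Helper540.Holo

set_option autoImplicit false

open Topology Filter Metric Set MeasureTheory

namespace Pool.Agent.H790R3.RB

namespace DISC

/-- rows of the map of constant rank -/
def Hs {I J P : Type} {R : ℕ} (E : J → (I → ℂ) → ℂ) (G : P → (I → ℂ) → ℂ) (sel : Fin R → P) :
    J ⊕ Fin R → (I → ℂ) → ℂ
  | Sum.inl j => E j
  | Sum.inr k => G (sel k)

/-- minor of the derivative -/
noncomputable def Mn {I J : Type} [Fintype I] [DecidableEq I] [Fintype J] [DecidableEq J] {R : ℕ}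
    (H : J ⊕ Fin R → (I → ℂ) → ℂ) (col : J ⊕ Fin R → I) (z : I → ℂ) :
    Matrix (J ⊕ Fin R) (J ⊕ Fin R) ℂ :=
  Matrix.of fun a c => fderiv ℂ (H a) z (Pi.single (col c) 1)

/-- if all bordered minors vanish the additional row is a combination of the others -/
theorem lin {I J P : Type} [Fintype I] [DecidableEq I] [Fintype J] [DecidableEq J] {R : ℕ}
    (E : J → (I → ℂ) → ℂ) (G : P → (I → ℂ) → ℂ) (sel : Fin R → P) (col : J ⊕ Fin R → I)
    (z : I → ℂ) (hN : (Mn (Hs E G sel) col z).det ≠ 0) (a : P)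
    (hB : ∀ i : I, (Mn (Hs E G (Fin.snoc (α := fun _ => P) sel a))
      (fun c => match c with
        | Sum.inl j => col (Sum.inl j)
        | Sum.inr k => Fin.snoc (α := fun _ => I) (fun k => col (Sum.inr k)) i k) z).det = 0)
    (u : I → ℂ) (hu : ∀ s, fderiv ℂ (Hs E G sel s) z u = 0) :
    fderiv ℂ (G a) z u = 0 := by
  classical
  set r : J ⊕ Fin R → (I → ℂ) →L[ℂ] ℂ := fun s => fderiv ℂ (Hs E G sel s) z with hr
  set N := Mn (Hs E G sel) col z with hNd
  have hNu : IsUnit N.det := isUnit_iff_ne_zero.2 hN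
  set ρ : J ⊕ Fin R → ℂ := fun c => fderiv ℂ (G a) z (Pi.single (col c) 1) with hρ
  set lam : J ⊕ Fin R → ℂ := Matrix.vecMul ρ N⁻¹ with hlam
  have hlamN : Matrix.vecMul lam N = ρ := by
    rw [hlam, Matrix.vecMul_vecMul, Matrix.nonsing_inv_mul _ hNu, Matrix.vecMul_one]
  have key : ∀ i : I, fderiv ℂ (G a) z (Pi.single i 1) = ∑ s, lam s * r s (Pi.single i 1) := by
    intro i
    obtain ⟨μ, hμ0, hμ⟩ := Matrix.exists_vecMul_eq_zero_iff.2 (hB i)
    obtain ⟨μ0, hμ0d⟩ : ∃ μ0 : J ⊕ Fin R → ℂ, μ0 = fun s => match s with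
      | Sum.inl j => μ (Sum.inl j)
      | Sum.inr k => μ (Sum.inr k.castSucc) := ⟨_, rfl⟩
    obtain ⟨m, hm⟩ : ∃ m : ℂ, m = μ (Sum.inr (Fin.last R)) := ⟨_, rfl⟩
    have hexp : ∀ (e : I) (c : J ⊕ Fin (R + 1)),
        (match c with
        | Sum.inl j => col (Sum.inl j)
        | Sum.inr k => Fin.snoc (α := fun _ => I) (fun k => col (Sum.inr k)) i k) = e →
        ∑ s, μ0 s * r s (Pi.single e 1) + m * fderiv ℂ (G a) z (Pi.single e 1) = 0 := by
      intro e c hc
      have h1 := congrFun hμ c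
      simp only [Matrix.vecMul, dotProduct, Mn, Matrix.of_apply, hc, Pi.zero_apply] at h1
      rw [Fintype.sum_sum_type, Fin.sum_univ_castSucc] at h1
      rw [Fintype.sum_sum_type, hμ0d, hm]
      simp only [hr, Hs, Fin.snoc_castSucc, Fin.snoc_last] at h1 ⊢
      linear_combination h1
    have hcol : ∀ c : J ⊕ Fin R, ∑ s, μ0 s * r s (Pi.single (col c) 1) + m * ρ c = 0 := by
      intro c
      cases c with
      | inl j => exact hexp _ (Sum.inl j) rfl
      | inr k => exact hexp _ (Sum.inr k.castSucc) (by simp only [Fin.snoc_castSucc])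
    have hi : ∑ s, μ0 s * r s (Pi.single i 1) + m * fderiv ℂ (G a) z (Pi.single i 1) = 0 :=
      hexp _ (Sum.inr (Fin.last R)) (by simp only [Fin.snoc_last])
    have hμN : Matrix.vecMul μ0 N = -(m • ρ) := by
      ext c
      have := hcol c
      simp only [Matrix.vecMul, dotProduct, Pi.neg_apply, Pi.smul_apply, smul_eq_mul, hNd, Mn,
        Matrix.of_apply]
      linear_combination this
    have hμlam : μ0 = -(m • lam) := by
      have h1 : Matrix.vecMul (μ0 + m • lam) N = 0 := by
        rw [Matrix.add_vecMul, Matrix.smul_vecMul, hμN, hlamN]; simp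
      have h2 := Matrix.eq_zero_of_vecMul_eq_zero hN h1
      exact eq_neg_of_add_eq_zero_left h2
    have hm0 : m ≠ 0 := by
      intro hm0
      apply hμ0
      have h1 : μ0 = 0 := by rw [hμlam, hm0]; simp
      funext s
      cases s with
      | inl j =>
        have := congrFun h1 (Sum.inl j)
        rw [hμ0d] at this
        exact this
      | inr k =>
        refine Fin.lastCases ?_ (fun k => ?_) k
        · rw [← hm, hm0]; rfl
        · have := congrFun h1 (Sum.inr k)
          rw [hμ0d] at this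
          exact this
    rw [hμlam] at hi
    have h3 : m * (fderiv ℂ (G a) z (Pi.single i 1) - ∑ s, lam s * r s (Pi.single i 1)) = 0 := by
      rw [mul_sub, Finset.mul_sum]
      have : ∑ s, (-(m • lam)) s * r s (Pi.single i 1) =
          -∑ s, m * (lam s * r s (Pi.single i 1)) := by
        rw [← Finset.sum_neg_distrib]
        apply Finset.sum_congr rfl
        intro s _
        simp only [Pi.neg_apply, Pi.smul_apply, smul_eq_mul]; ring
      rw [this] at hi
      linear_combination hi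
    rcases mul_eq_zero.1 h3 with h | h
    · exact absurd h hm0
    · linear_combination h
  have h4 : fderiv ℂ (G a) z = ∑ s, lam s • r s := by
    apply ContinuousLinearMap.coe_injective
    apply LinearMap.pi_ext'
    intro i
    ext
    simp only [LinearMap.comp_apply, LinearMap.single_apply, ContinuousLinearMap.coe_coe,
      _root_.sum_apply, _root_.smul_apply, smul_eq_mul]
    exact key i
  rw [h4, _root_.sum_apply]
  apply Finset.sum_eq_zero
  intro s _
  rw [_root_.smul_apply, hr]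
  simp only
  rw [hu s, smul_zero]

end DISC

open DISC in
theorem DISC : StDISC := by
  classical
  intro I J P _ _ _ _ _ E G O y R sel col hO hy hE hG hcard hEy hdet hrank
  obtain ⟨H, hH⟩ : ∃ H, H = Hs E G sel := ⟨_, rfl⟩
  replace hdet : (Mn H col y).det ≠ 0 := by
    intro h
    apply hdet
    rw [← h, hH]
    congr 1
    ext a c
    cases a <;> rfl
  have hHd : ∀ s, DifferentiableOn ℂ (H s) O := by
    intro s
    rw [hH]
    cases s with
    | inl j => exact hE j
    | inr k => exact hG _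
  have hHc : ∀ s, ContDiffOn ℂ 1 (H s) O := fun s => by
    have := Helper540.contDiffOn_of_differentiableOn hO (hHd s) 1
    exact_mod_cast this
  have hHat : ∀ s, ∀ z ∈ O, DifferentiableAt ℂ (H s) z := fun s z hz =>
    (hHd s).differentiableAt (hO.mem_nhds hz)
  -- `sel` is injective
  have hsel : Function.Injective sel := by
    intro k k' hkk
    by_contra hne
    apply hdet
    apply Matrix.det_zero_of_row_eq (i := Sum.inr k) (j := Sum.inr k')
    · intro h; exact hne (Sum.inr_injective h)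
    · ext c
      simp only [Mn, Matrix.of_apply, hH, Hs, hkk]
  have hRP : R ≤ Fintype.card P := by
    have := Fintype.card_le_of_injective sel hsel
    simpa using this
  -- a kernel vector
  obtain ⟨v, hv0, hv⟩ : ∃ v : I → ℂ, v ≠ 0 ∧ ∀ s, fderiv ℂ (H s) y v = 0 := by
    let D : (I → ℂ) →ₗ[ℂ] (J ⊕ Fin R → ℂ) := LinearMap.pi (fun s => (fderiv ℂ (H s) y).toLinearMap)
    have h1 : LinearMap.ker D ≠ ⊥ := by
      apply LinearMap.ker_ne_bot_of_finrank_lt
      rw [Module.finrank_fintype_fun_eq_card, Module.finrank_fintype_fun_eq_card, Fintype.card_sum,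
        Fintype.card_fin]
      omega
    obtain ⟨v, hv, hv0⟩ := (Submodule.ne_bot_iff _).1 h1
    refine ⟨v, hv0, fun s => ?_⟩
    have := congrFun (LinearMap.mem_ker.1 hv) s
    exact this
  -- the parametrisation
  let A : ℂ × (J ⊕ Fin R → ℂ) →L[ℂ] (I → ℂ) :=
    (ContinuousLinearMap.fst ℂ ℂ (J ⊕ Fin R → ℂ)).smulRight v +
      ∑ c, (((ContinuousLinearMap.proj c).comp (ContinuousLinearMap.snd ℂ ℂ (J ⊕ Fin R → ℂ))).smulRight
        (Pi.single (col c) 1 : I → ℂ))
  have hA : ∀ x, A x = x.1 • v + ∑ c, x.2 c • (Pi.single (col c) 1 : I → ℂ) := by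
    intro x
    simp only [A, ContinuousLinearMap.add_apply, ContinuousLinearMap.smulRight_apply,
      _root_.sum_apply, ContinuousLinearMap.comp_apply, ContinuousLinearMap.proj_apply,
      ContinuousLinearMap.coe_fst', ContinuousLinearMap.coe_snd']
  have hDA : ∀ (s : J ⊕ Fin R) (z : I → ℂ) (x : ℂ × (J ⊕ Fin R → ℂ)), fderiv ℂ (H s) z (A x) =
      x.1 * fderiv ℂ (H s) z v + (Mn H col z).mulVec x.2 s := by
    intro s z x
    rw [hA, map_add, map_smul, map_sum, smul_eq_mul]
    congr 1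
    simp only [Matrix.mulVec, dotProduct, Mn, Matrix.of_apply]
    apply Finset.sum_congr rfl
    intro c _
    rw [map_smul, smul_eq_mul, mul_comm]
  let Φ : ℂ × (J ⊕ Fin R → ℂ) → ℂ × (J ⊕ Fin R → ℂ) := fun x => (x.1, fun s => H s (y + A x))
  let Φ' : ℂ × (J ⊕ Fin R → ℂ) →L[ℂ] ℂ × (J ⊕ Fin R → ℂ) :=
    (ContinuousLinearMap.fst ℂ ℂ (J ⊕ Fin R → ℂ)).prod
      (ContinuousLinearMap.pi (fun s => (fderiv ℂ (H s) y).comp A))
  have hyA : y + A 0 = y := by rw [map_zero, add_zero]
  have hΦd : HasFDerivAt Φ Φ' 0 := by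
    apply HasFDerivAt.prodMk
    · exact hasFDerivAt_fst
    · rw [hasFDerivAt_pi]
      intro s
      have h1 : HasFDerivAt (H s) (fderiv ℂ (H s) y) (y + A 0) := by
        rw [hyA]; exact (hHat s y hy).hasFDerivAt
      exact h1.comp 0 (A.hasFDerivAt.const_add y)
  have hinj : LinearMap.ker Φ'.toLinearMap = ⊥ := by
    rw [LinearMap.ker_eq_bot']
    intro x hx
    have h1 : x.1 = 0 := congrArg Prod.fst hx
    have h2 : ∀ s, fderiv ℂ (H s) y (A x) = 0 := fun s => congrFun (congrArg Prod.snd hx) s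
    have h3 : (Mn H col y).mulVec x.2 = 0 := by
      ext s
      have := h2 s
      rw [hDA, h1] at this
      simpa using this
    have h4 := Matrix.eq_zero_of_mulVec_eq_zero hdet h3
    exact Prod.ext h1 h4
  have hsurj : LinearMap.range Φ'.toLinearMap = ⊤ := by
    rw [LinearMap.range_eq_top]
    exact (LinearMap.injective_iff_surjective).1 (LinearMap.ker_eq_bot.1 hinj)
  let Ψ : (ℂ × (J ⊕ Fin R → ℂ)) ≃L[ℂ] (ℂ × (J ⊕ Fin R → ℂ)) :=
    ContinuousLinearEquiv.ofBijective Φ' hinj hsurj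
  have hΨ : (Ψ : ℂ × (J ⊕ Fin R → ℂ) →L[ℂ] ℂ × (J ⊕ Fin R → ℂ)) = Φ' :=
    ContinuousLinearEquiv.coe_ofBijective Φ' hinj hsurj
  have hΦd' : HasFDerivAt Φ (Ψ : ℂ × (J ⊕ Fin R → ℂ) →L[ℂ] ℂ × (J ⊕ Fin R → ℂ)) 0 := by
    rw [hΨ]; exact hΦd
  have hΦc : ContDiffAt ℂ 1 Φ 0 := by
    apply ContDiffAt.prodMk contDiffAt_fst
    rw [contDiffAt_pi]
    intro s
    have h1 : ContDiffAt ℂ 1 (H s) (y + A 0) := by
      rw [hyA]; exact (hHc s).contDiffAt (hO.mem_nhds hy)
    exact h1.comp (0 : ℂ × (J ⊕ Fin R → ℂ)) (contDiffAt_const.add A.contDiff.contDiffAt)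
  obtain ⟨Lc, hLc⟩ : ∃ Lc, Lc = hΦc.localInverse hΦd' one_ne_zero := ⟨_, rfl⟩
  have hL0 : Lc (Φ 0) = 0 := by rw [hLc]; exact hΦc.localInverse_apply_image hΦd' one_ne_zero
  have hLcd : ContDiffAt ℂ 1 Lc (Φ 0) := by rw [hLc]; exact hΦc.to_localInverse hΦd' one_ne_zero
  have hLinv : ∀ᶠ p in 𝓝 (Φ 0), Φ (Lc p) = p := by
    rw [hLc]
    exact (hΦc.hasStrictFDerivAt' hΦd' one_ne_zero).eventually_right_inverse
  have hΦ0 : Φ 0 = (0, fun s => H s y) := by
    simp only [Φ]; rw [hyA]; rfl
  rw [hΦ0] at hL0 hLcd hLinv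
  have hLdiff : ∀ᶠ p in 𝓝 ((0 : ℂ), fun s => H s y), DifferentiableAt ℂ Lc p :=
    (hLcd.eventually (by simp)).mono (fun p hp => hp.differentiableAt one_ne_zero)
  let γ0 : ℂ → ℂ × (J ⊕ Fin R → ℂ) := fun t => Lc (t, fun s => H s y)
  let γ : ℂ → I → ℂ := fun t => y + A (γ0 t)
  have hcont : Tendsto (fun t : ℂ => (t, fun s => H s y)) (𝓝 0) (𝓝 ((0 : ℂ), fun s => H s y)) :=
    (Continuous.prodMk continuous_id continuous_const).tendsto 0
  have e1 : ∀ᶠ t in 𝓝 (0 : ℂ), DifferentiableAt ℂ γ0 t := by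
    filter_upwards [hcont.eventually hLdiff] with t ht
    exact DifferentiableAt.comp t ht (differentiableAt_id.prodMk (differentiableAt_const _))
  have e2 : ∀ᶠ t in 𝓝 (0 : ℂ), Φ (γ0 t) = (t, fun s => H s y) := hcont.eventually hLinv
  have hγ00 : γ0 0 = 0 := hL0
  have hγ0 : γ 0 = y := by simp only [γ, hγ00]; exact hyA
  have hγc : ContinuousAt γ 0 :=
    continuousAt_const.add (A.continuous.continuousAt.comp e1.self_of_nhds.continuousAt)
  have e3 : ∀ᶠ t in 𝓝 (0 : ℂ), γ t ∈ O ∧ (Mn H col (γ t)).det ≠ 0 := by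
    have hMc : ContinuousOn (fun z => (Mn H col z).det) O := by
      apply Continuous.comp_continuousOn (g := fun M : Matrix (J ⊕ Fin R) (J ⊕ Fin R) ℂ => M.det)
      · exact Continuous.matrix_det continuous_id
      · apply continuousOn_pi.2
        intro a
        apply continuousOn_pi.2
        intro c
        have h1 := (hHc a).continuousOn_fderiv_of_isOpen hO le_rfl
        exact h1.clm_apply continuousOn_const
    have h2 : ∀ᶠ z in 𝓝 y, z ∈ O ∧ (Mn H col z).det ≠ 0 :=
      Filter.Eventually.and (hO.mem_nhds hy) ((hMc.continuousAt (hO.mem_nhds hy)).eventually_ne hdet)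
    have h3 : Tendsto γ (𝓝 0) (𝓝 y) := by
      have := hγc.tendsto
      rwa [hγ0] at this
    exact h3.eventually h2
  obtain ⟨τ, hτ, hball⟩ := Metric.eventually_nhds_iff_ball.1 (e1.and (e2.and e3))
  have hγd : ∀ t ∈ ball (0 : ℂ) τ, DifferentiableAt ℂ γ t := fun t ht =>
    (A.differentiableAt.comp t (hball t ht).1).const_add y
  have hHγ : ∀ s, ∀ t ∈ ball (0 : ℂ) τ, H s (γ t) = H s y := by
    intro s t ht
    have h1 := (hball t ht).2.1
    exact congrFun (congrArg Prod.snd h1) s
  have hEγ : ∀ t ∈ ball (0 : ℂ) τ, ∀ i, E i (γ t) = 0 := by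
    intro t ht i
    have h1 := hHγ (Sum.inl i) t ht
    rw [hH] at h1
    have h2 : E i (γ t) = E i y := h1
    rw [h2]; exact hEy i
  refine ⟨τ, γ, hτ, fun t ht => (hγd t ht).differentiableWithinAt, hγ0, ?_, ?_⟩
  · -- derivative
    have h1 : HasDerivAt γ0 (deriv γ0 0) 0 := e1.self_of_nhds.hasDerivAt
    have h2 : HasDerivAt γ (A (deriv γ0 0)) 0 := by
      have := (A.hasFDerivAt.comp_hasDerivAt (0 : ℂ) h1).const_add y
      exact this
    rw [h2.deriv]
    intro h0
    have h3 : (deriv γ0 0).1 = 1 := by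
      have h4 : HasDerivAt (fun t => (γ0 t).1) (deriv γ0 0).1 0 := by
        have := (ContinuousLinearMap.fst ℂ ℂ (J ⊕ Fin R → ℂ)).hasFDerivAt.comp_hasDerivAt (0 : ℂ) h1
        exact this
      have h5 : (fun t => (γ0 t).1) =ᶠ[𝓝 0] id := by
        filter_upwards [e2] with t ht
        exact congrArg Prod.fst ht
      have h6 := h4.congr_of_eventuallyEq h5.symm
      exact h6.unique (hasDerivAt_id 0)
    have h7 : (Mn H col y).mulVec (deriv γ0 0).2 = 0 := by
      ext s
      have h8 := hDA s y (deriv γ0 0)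
      rw [h0, map_zero, hv s, mul_zero, zero_add] at h8
      rw [← h8]; rfl
    have h9 := Matrix.eq_zero_of_mulVec_eq_zero hdet h7
    rw [hA, h3, h9] at h0
    apply hv0
    simpa using h0
  · intro t ht
    refine ⟨(hball t ht).2.2.1, hEγ t ht, fun a => ?_⟩
    have hconst : ∀ s ∈ ball (0 : ℂ) τ, deriv (fun t => G a (γ t)) s = 0 := by
      intro s hs
      have hsO := (hball s hs).2.2.1
      have hG1 : HasDerivAt (fun t => G a (γ t)) (fderiv ℂ (G a) (γ s) (deriv γ s)) s :=
        ((hG a).differentiableAt (hO.mem_nhds hsO)).hasFDerivAt.comp_hasDerivAt s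
          (hγd s hs).hasDerivAt
      rw [hG1.deriv]
      apply lin E G sel col (γ s) (by rw [← hH]; exact (hball s hs).2.2.2) a
      · intro i
        have := hrank (γ s) hsO (hEγ s hs) (Fin.snoc (α := fun _ => P) sel a)
          (fun c => match c with
            | Sum.inl j => col (Sum.inl j)
            | Sum.inr k => Fin.snoc (α := fun _ => I) (fun k => col (Sum.inr k)) i k)
        rw [← this]
        congr 1
        ext a c
        cases a <;> rfl
      · intro r
        rw [← hH]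
        have h1 : HasDerivAt (fun t => H r (γ t)) (fderiv ℂ (H r) (γ s) (deriv γ s)) s :=
          (hHat r (γ s) hsO).hasFDerivAt.comp_hasDerivAt s (hγd s hs).hasDerivAt
        have h2 : (fun t => H r (γ t)) =ᶠ[𝓝 s] fun _ => H r y := by
          filter_upwards [isOpen_ball.mem_nhds hs] with t ht
          exact hHγ r t ht
        exact (h1.congr_of_eventuallyEq h2.symm).unique (hasDerivAt_const s _)
    have hdiff : DifferentiableOn ℂ (fun t => G a (γ t)) (ball 0 τ) := by
      intro s hs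
      have hsO := (hball s hs).2.2.1
      exact (((hG a).differentiableAt (hO.mem_nhds hsO)).comp s (hγd s hs)).differentiableWithinAt
    have h5 := isOpen_ball.is_const_of_deriv_eq_zero (convex_ball (0:ℂ) τ).isPreconnected hdiff
      (fun s hs => hconst s hs) ht (mem_ball_self hτ)
    rw [hγ0] at h5
    exact h5

end Pool.Agent.H790R3.RB
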