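import Mathlib
import Pool.Agent.H790R3.RB.St

/-!
# Project RB, task EXT: removable singularities of a univalent function near infinity
-/

set_option autoImplicit false

open Set Filter Metric Topology MeasureTheory

namespace Pool.Agent.H790R3.RB

namespace EXT

/-- openness at a point of a function which is injective off a finite set -/
lemma nhds_le {f : ℂ → ℂ} {U E : Set ℂ} (hU : IsOpen U) (hE : E.Finite)
    (hf : DifferentiableOn ℂ f U) (hinj : InjOn f (U \ E)) {z : ℂ} (hz : z ∈ U) :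
    𝓝 (f z) ≤ map f (𝓝 z) := by
  have han : AnalyticAt ℂ f z := hf.analyticAt (hU.mem_nhds hz)
  rcases han.eventually_constant_or_nhds_le_map_nhds with h | h
  · exfalso
    have hS : {w | f w = f z} ∩ U ∈ 𝓝 z := inter_mem h (hU.mem_nhds hz)
    have hinf : ({w | f w = f z} ∩ U).Infinite := infinite_of_mem_nhds z hS
    obtain ⟨a, ha, b, hb, hab⟩ := (hinf.sdiff hE).nontrivial
    apply hab
    apply hinj ⟨ha.1.2, ha.2⟩ ⟨hb.1.2, hb.2⟩
    rw [ha.1.1, hb.1.1]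
  · exact h

/-- boundedness near an exceptional point -/
lemma bdd_near {R : ℝ} {E : Set ℂ} {Φ : ℂ → ℂ} (hE : E.Finite)
    (hd : DifferentiableOn ℂ Φ ({z : ℂ | R < ‖z‖} \ E))
    (hi : InjOn Φ ({z : ℂ | R < ‖z‖} \ E))
    (ht : Tendsto (fun z => Φ z - z) (cocompact ℂ) (𝓝 0)) {e : ℂ} (he : R < ‖e‖) :
    ∃ r : ℝ, 0 < r ∧ ball e r ⊆ {z : ℂ | R < ‖z‖} ∧ ball e r \ {e} ⊆ {z : ℂ | R < ‖z‖} \ E ∧
      ∃ B : ℝ, ∀ z ∈ ball e r \ {e}, ‖Φ z‖ ≤ B := by
  have hUo : IsOpen {z : ℂ | R < ‖z‖} := isOpen_lt continuous_const continuous_norm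
  have hDo : IsOpen ({z : ℂ | R < ‖z‖} \ E) := hUo.sdiff hE.isClosed
  set D : Set ℂ := {z : ℂ | R < ‖z‖} \ E with hD
  -- a ball around `e` without other exceptional points
  have h1 : ∀ᶠ z in 𝓝 e, z ∈ {z : ℂ | R < ‖z‖} ∧ z ∉ E \ {e} := by
    have h0 : ∀ᶠ z in 𝓝 e, z ∈ {z : ℂ | R < ‖z‖} := hUo.mem_nhds he
    have : (E \ {e})ᶜ ∈ 𝓝 e := (hE.sdiff.isClosed.isOpen_compl).mem_nhds (by simp)
    exact h0.and this
  obtain ⟨r₀, hr₀, hb₀⟩ := Metric.eventually_nhds_iff_ball.1 h1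
  -- the value `Φ` is large at infinity
  have hlarge : Tendsto Φ (cocompact ℂ) (cocompact ℂ) := by
    have h2 : Tendsto (fun z : ℂ => ‖Φ z‖) (cocompact ℂ) atTop := by
      have h3 : ∀ᶠ z in cocompact ℂ, ‖z‖ - 1 ≤ ‖Φ z‖ := by
        have := ht.eventually (Metric.ball_mem_nhds (0:ℂ) one_pos)
        filter_upwards [this] with z hz
        rw [dist_zero_right] at hz
        have h4 : ‖z‖ ≤ ‖Φ z‖ + ‖Φ z - z‖ := by
          calc ‖z‖ = ‖Φ z - (Φ z - z)‖ := by congr 1; ring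
            _ ≤ ‖Φ z‖ + ‖Φ z - z‖ := norm_sub_le _ _
        linarith
      refine tendsto_atTop_mono' _ h3 ?_
      exact tendsto_atTop_add_const_right _ (-1) (tendsto_norm_cocompact_atTop (E := ℂ))
    have h3 := tendsto_norm_atTop_iff_cobounded.1 h2
    rwa [Metric.cobounded_eq_cocompact] at h3
  -- another point of the domain
  obtain ⟨z₀, hz₀D, hz₀⟩ : ∃ z₀ ∈ D, r₀ < dist z₀ e := by
    have h2 : ∀ᶠ z : ℂ in cocompact ℂ, z ∈ D := by
      have h3 : ∀ᶠ z : ℂ in cocompact ℂ, R < ‖z‖ :=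
        (tendsto_norm_cocompact_atTop (E := ℂ)).eventually (eventually_gt_atTop R)
      have h4 : ∀ᶠ z : ℂ in cocompact ℂ, z ∉ E := hE.isCompact.compl_mem_cocompact
      filter_upwards [h3, h4] with z a b using ⟨a, b⟩
    have h5 : ∀ᶠ z : ℂ in cocompact ℂ, z ∉ closedBall e r₀ :=
      (isCompact_closedBall e r₀).compl_mem_cocompact
    obtain ⟨z₀, a, b⟩ := (h2.and h5).exists
    refine ⟨z₀, a, ?_⟩
    simpa [mem_closedBall] using b
  -- open mapping at `z₀`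
  have hopen : 𝓝 (Φ z₀) ≤ map Φ (𝓝 z₀) :=
    nhds_le hDo finite_empty hd (by simpa using hi) hz₀D
  have hN : D ∩ {z | r₀ < dist z e} ∈ 𝓝 z₀ :=
    inter_mem (hDo.mem_nhds hz₀D)
      ((isOpen_lt continuous_const (continuous_id.dist continuous_const)).mem_nhds hz₀)
  have hN' : Φ '' (D ∩ {z | r₀ < dist z e}) ∈ 𝓝 (Φ z₀) := hopen (image_mem_map hN)
  obtain ⟨ε, hε, hbε⟩ := Metric.mem_nhds_iff.1 hN'
  have hsub : ball e r₀ \ {e} ⊆ D := by
    intro z hz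
    have := hb₀ z hz.1
    exact ⟨this.1, fun hzE => this.2 ⟨hzE, hz.2⟩⟩
  have hfar : ∀ z ∈ ball e r₀ \ {e}, ε ≤ ‖Φ z - Φ z₀‖ := by
    intro z hz
    by_contra hlt
    push Not at hlt
    have : Φ z ∈ ball (Φ z₀) ε := by rwa [mem_ball, dist_eq_norm]
    obtain ⟨w, ⟨hwD, hwr⟩, hw⟩ := hbε this
    have : w = z := hi hwD (hsub hz) hw
    subst this
    have := hz.1
    rw [mem_ball] at this
    have hwr' : r₀ < dist w e := hwr
    linarith
  -- the function `h`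
  set h : ℂ → ℂ := fun z => (Φ z - Φ z₀)⁻¹ with hh
  have hne : ∀ z ∈ ball e r₀ \ {e}, Φ z - Φ z₀ ≠ 0 := fun z hz h0 => by
    have := hfar z hz
    rw [h0, norm_zero] at this
    linarith
  have hhd : DifferentiableOn ℂ h (ball e r₀ \ {e}) :=
    ((hd.mono hsub).sub_const _).inv hne
  have hhb : BddAbove (norm ∘ h '' (ball e r₀ \ {e})) := by
    refine ⟨ε⁻¹, ?_⟩
    rintro _ ⟨z, hz, rfl⟩
    simp only [Function.comp_apply, hh, norm_inv]
    exact inv_anti₀ hε (hfar z hz)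
  have hext := Complex.differentiableOn_update_limUnder_of_bddAbove
    (ball_mem_nhds e hr₀) hhd hhb
  set k : ℂ → ℂ := Function.update h e (limUnder (𝓝[≠] e) h) with hk
  have hkeq : ∀ z ∈ ball e r₀ \ {e}, k z = h z := fun z hz =>
    Function.update_of_ne hz.2 _ _
  have hkinj : InjOn k (ball e r₀ \ {e}) := by
    intro a ha b hb hab
    rw [hkeq a ha, hkeq b hb] at hab
    have : Φ a - Φ z₀ = Φ b - Φ z₀ := inv_injective hab
    exact hi (hsub ha) (hsub hb) (sub_left_injective this)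
  have hk0 : k e ≠ 0 := by
    intro h0
    have hop : 𝓝 (k e) ≤ map k (𝓝 e) :=
      nhds_le isOpen_ball (finite_singleton e) hext hkinj (mem_ball_self hr₀)
    have hI : k '' ball e r₀ ∈ 𝓝 (0:ℂ) := by
      rw [← h0]; exact hop (image_mem_map (ball_mem_nhds e hr₀))
    -- a large point
    have hlim : Tendsto (fun z => (Φ z - Φ z₀)⁻¹) (cocompact ℂ) (𝓝 0) := by
      have h2 : Tendsto (fun z => Φ z - Φ z₀) (cocompact ℂ) (cocompact ℂ) := by
        have := (Homeomorph.subRight (Φ z₀)).isClosedEmbedding.tendsto_cocompact.comp hlarge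
        simpa [Function.comp_def] using this
      exact (tendsto_inv₀_cobounded (α := ℂ)).comp (by rwa [Metric.cobounded_eq_cocompact])
    have e1 : ∀ᶠ z in cocompact ℂ, (Φ z - Φ z₀)⁻¹ ∈ k '' ball e r₀ := hlim.eventually hI
    have e2 : ∀ᶠ z : ℂ in cocompact ℂ, z ∈ D := by
      have h3 : ∀ᶠ z : ℂ in cocompact ℂ, R < ‖z‖ :=
        (tendsto_norm_cocompact_atTop (E := ℂ)).eventually (eventually_gt_atTop R)
      have h4 : ∀ᶠ z : ℂ in cocompact ℂ, z ∉ E := hE.isCompact.compl_mem_cocompact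
      filter_upwards [h3, h4] with z a b using ⟨a, b⟩
    have e3 : ∀ᶠ z : ℂ in cocompact ℂ, z ∉ closedBall e r₀ :=
      (isCompact_closedBall e r₀).compl_mem_cocompact
    have e4 : ∀ᶠ z : ℂ in cocompact ℂ, Φ z ≠ Φ z₀ := by
      have : ∀ᶠ z : ℂ in cocompact ℂ, Φ z ∉ ({Φ z₀} : Set ℂ) :=
        hlarge.eventually (isCompact_singleton.compl_mem_cocompact)
      simpa using this
    obtain ⟨z₁, ⟨w, hw, hwz⟩, h12, h13, h14⟩ := (e1.and (e2.and (e3.and e4))).exists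
    have hwe : w ≠ e := by
      rintro rfl
      rw [h0] at hwz
      exact (inv_ne_zero (sub_ne_zero.2 h14)) hwz.symm
    rw [hkeq w ⟨hw, hwe⟩] at hwz
    have h15 : Φ w - Φ z₀ = Φ z₁ - Φ z₀ := inv_injective hwz
    have h16 : w = z₁ := hi (hsub ⟨hw, hwe⟩) h12 (sub_left_injective h15)
    subst h16
    exact h13 (ball_subset_closedBall hw)
  -- bound
  have hkc : ContinuousAt k e := (hext.differentiableAt (ball_mem_nhds e hr₀)).continuousAt
  have hkpos : 0 < ‖k e‖ := norm_pos_iff.2 hk0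
  have h5 : ∀ᶠ z in 𝓝 e, ‖k e‖ / 2 < ‖k z‖ :=
    hkc.norm.eventually (lt_mem_nhds (by linarith))
  obtain ⟨r₁, hr₁, hb₁⟩ := Metric.eventually_nhds_iff_ball.1 h5
  refine ⟨min r₀ r₁, lt_min hr₀ hr₁, ?_, ?_, ‖Φ z₀‖ + (‖k e‖ / 2)⁻¹, ?_⟩
  · exact fun z hz => (hb₀ z (ball_subset_ball (min_le_left _ _) hz)).1
  · exact fun z hz => hsub ⟨ball_subset_ball (min_le_left _ _) hz.1, hz.2⟩
  · intro z hz
    have hz0 : z ∈ ball e r₀ \ {e} := ⟨ball_subset_ball (min_le_left _ _) hz.1, hz.2⟩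
    have hz1 := hb₁ z (ball_subset_ball (min_le_right _ _) hz.1)
    rw [hkeq z hz0] at hz1
    have h6 : Φ z - Φ z₀ = (h z)⁻¹ := by simp [hh]
    have h7 : ‖Φ z - Φ z₀‖ ≤ (‖k e‖ / 2)⁻¹ := by
      rw [h6, norm_inv]
      exact inv_anti₀ (by linarith) hz1.le
    calc ‖Φ z‖ = ‖Φ z₀ + (Φ z - Φ z₀)‖ := by congr 1; ring
      _ ≤ ‖Φ z₀‖ + ‖Φ z - Φ z₀‖ := norm_add_le _ _
      _ ≤ _ := by linarith

end EXT

open EXT in
theorem EXT : StEXT := by
  classical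
  intro R E Φ hR hE hd hi ht
  have hUo : IsOpen {z : ℂ | R < ‖z‖} := isOpen_lt continuous_const continuous_norm
  have hDo : IsOpen ({z : ℂ | R < ‖z‖} \ E) := hUo.sdiff hE.isClosed
  set Ψ : ℂ → ℂ := fun z => if z ∈ E then limUnder (𝓝[≠] z) Φ else Φ z with hΨ
  have hΨeq : ∀ z ∈ {z : ℂ | R < ‖z‖} \ E, Ψ z = Φ z := fun z hz => if_neg hz.2
  have hΨd : DifferentiableOn ℂ Ψ {z : ℂ | R < ‖z‖} := by
    intro z hz
    apply DifferentiableAt.differentiableWithinAt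
    by_cases hzE : z ∈ E
    · obtain ⟨r, hr, hb1, hb2, B, hB⟩ := bdd_near hE hd hi ht hz
      have hext := Complex.differentiableOn_update_limUnder_of_bddAbove
        (ball_mem_nhds z hr) (hd.mono hb2) (by
          refine ⟨B, ?_⟩
          rintro _ ⟨w, hw, rfl⟩
          exact hB w hw)
      have h1 := hext.differentiableAt (ball_mem_nhds z hr)
      refine h1.congr_of_eventuallyEq ?_
      filter_upwards [ball_mem_nhds z hr] with w hw
      by_cases hwz : w = z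
      · subst hwz
        simp [hΨ, hzE]
      · rw [Function.update_of_ne hwz]
        exact hΨeq w (hb2 ⟨hw, hwz⟩)
    · have h1 := hd.differentiableAt (hDo.mem_nhds ⟨hz, hzE⟩)
      refine h1.congr_of_eventuallyEq ?_
      filter_upwards [hDo.mem_nhds ⟨hz, hzE⟩] with w hw using hΨeq w hw
  have hΨinj : InjOn Ψ ({z : ℂ | R < ‖z‖} \ E) := by
    intro a ha b hb hab
    rw [hΨeq a ha, hΨeq b hb] at hab
    exact hi ha hb hab
  refine ⟨Ψ, hΨd, ?_, hΨeq, ?_⟩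
  · intro z hz z' hz' hzz
    by_contra hne
    obtain ⟨V, V', hVo, hV'o, hzV, hz'V', hdisj⟩ := t2_separation hne
    have hVn : ∀ {x : ℂ}, x ∈ {z : ℂ | R < ‖z‖} → ∀ {W : Set ℂ}, IsOpen W → x ∈ W →
        W ∩ ({z : ℂ | R < ‖z‖} ∩ (E \ {x})ᶜ) ∈ 𝓝 x := by
      intro x hx W hW hxW
      refine inter_mem (hW.mem_nhds hxW) (inter_mem (hUo.mem_nhds hx) ?_)
      exact (hE.sdiff.isClosed.isOpen_compl).mem_nhds (by simp)
    have h1 := nhds_le hUo hE hΨd hΨinj hz (image_mem_map (hVn hz hVo hzV))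
    have h2 := nhds_le hUo hE hΨd hΨinj hz' (image_mem_map (hVn hz' hV'o hz'V'))
    rw [← hzz] at h2
    have h3 := inter_mem h1 h2
    have h4 : ∃ v, v ≠ Ψ z ∧ v ∈ Ψ '' (V ∩ ({z : ℂ | R < ‖z‖} ∩ (E \ {z})ᶜ)) ∩
        Ψ '' (V' ∩ ({z : ℂ | R < ‖z‖} ∩ (E \ {z'})ᶜ)) := by
      have h5 : ∀ᶠ v in 𝓝[≠] (Ψ z), v ∈ Ψ '' (V ∩ ({z : ℂ | R < ‖z‖} ∩ (E \ {z})ᶜ)) ∩
        Ψ '' (V' ∩ ({z : ℂ | R < ‖z‖} ∩ (E \ {z'})ᶜ)) := mem_nhdsWithin_of_mem_nhds h3
      have h6 : ∀ᶠ v in 𝓝[≠] (Ψ z), v ≠ Ψ z := self_mem_nhdsWithin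
      obtain ⟨v, a, b⟩ := (h6.and h5).exists
      exact ⟨v, a, b⟩
    obtain ⟨v, hv, ⟨a, ⟨haV, haU, haE⟩, hav⟩, ⟨b, ⟨hbV, hbU, hbE⟩, hbv⟩⟩ := h4
    have haz : a ≠ z := by rintro rfl; exact hv hav.symm
    have hbz : b ≠ z' := by rintro rfl; exact hv (hbv.symm.trans hzz.symm)
    have haD : a ∈ {z : ℂ | R < ‖z‖} \ E := ⟨haU, fun h => haE ⟨h, haz⟩⟩
    have hbD : b ∈ {z : ℂ | R < ‖z‖} \ E := ⟨hbU, fun h => hbE ⟨h, hbz⟩⟩
    have hab : a = b := hΨinj haD hbD (hav.trans hbv.symm)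
    subst hab
    exact (Set.disjoint_left.1 hdisj haV) hbV
  · refine ht.congr' ?_
    have h4 : ∀ᶠ z : ℂ in cocompact ℂ, z ∉ E := hE.isCompact.compl_mem_cocompact
    filter_upwards [h4] with z hz
    simp [hΨ, hz]

end Pool.Agent.H790R3.RB
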