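import Mathlib
import Pool.Agent.H790R3.RB.St2
import Pool.Agent.H790R3.RB.Basic
import Pool.Agent.Helper540.Holo

/-! Task FAM: the universal family near a map with marked attracting cycles. -/

set_option autoImplicit false

open Topology Filter Metric Set MeasureTheory

namespace Pool.Agent.H790R3.RB

namespace FAM

/-! ### fixed points of contractions with parameters -/

section general

variable {n : ℕ}

/-- partial derivative in the last variable -/
noncomputable def pd (H : (Fin n → ℂ) × ℂ → ℂ) (q : (Fin n → ℂ) × ℂ) : ℂ :=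
  fderiv ℂ H q ((0 : Fin n → ℂ), (1 : ℂ))

theorem pd_has {H : (Fin n → ℂ) × ℂ → ℂ} {O : Set ((Fin n → ℂ) × ℂ)} (hO : IsOpen O)
    (hH : DifferentiableOn ℂ H O) (x : Fin n → ℂ) (z : ℂ) (hq : (x, z) ∈ O) :
    HasDerivAt (fun w => H (x, w)) (pd H (x, z)) z := by
  have h1 : HasFDerivAt H (fderiv ℂ H (x, z)) (x, z) :=
    (hH.differentiableAt (hO.mem_nhds hq)).hasFDerivAt
  have h2 : HasDerivAt (fun w : ℂ => (x, w)) ((0 : Fin n → ℂ), (1 : ℂ)) z :=
    (hasDerivAt_const z x).prodMk (hasDerivAt_id z)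
  exact h1.comp_hasDerivAt z h2

theorem invertible_of_ne (L : ℂ →L[ℂ] ℂ) (h : L 1 ≠ 0) : L.IsInvertible := by
  refine ⟨ContinuousLinearEquiv.unitsEquivAut ℂ (Units.mk0 (L 1) h), ?_⟩
  ext
  simp

theorem FP (G : (Fin n → ℂ) × ℂ → ℂ) (O : Set ((Fin n → ℂ) × ℂ)) (hO : IsOpen O)
    (hG : DifferentiableOn ℂ G O) (z0 : ℂ) (h0 : ((0 : Fin n → ℂ), z0) ∈ O)
    (hfix : G (0, z0) = z0) (θ : ℝ) (hθ : θ < 1) (hm : ‖deriv (fun z => G (0, z)) z0‖ < θ) :
    ∃ b : (Fin n → ℂ) → ℂ, b 0 = z0 ∧ (∀ᶠ x in 𝓝 0, DifferentiableAt ℂ b x) ∧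
      ∀ᶠ q : (Fin n → ℂ) × ℂ in 𝓝 (0, 0), (q.1, b q.1 + q.2) ∈ O ∧
        ‖G (q.1, b q.1 + q.2) - b q.1‖ ≤ θ * ‖q.2‖ := by
  have hθ0 : 0 ≤ θ := (norm_nonneg _).trans hm.le
  have hGc : ContDiffAt ℂ 1 G (0, z0) := by
    have h1 := Pool.Agent.Helper540.contDiffOn_of_differentiableOn hO hG 1
    rw [Nat.cast_one] at h1
    exact h1.contDiffAt (hO.mem_nhds h0)
  have hpd0 : deriv (fun z => G (0, z)) z0 = pd G (0, z0) := (pd_has hO hG 0 z0 h0).deriv
  rw [hpd0] at hm
  set f : (Fin n → ℂ) × ℂ → ℂ := fun q => G q - q.2 with hf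
  have hfc : ContDiffAt ℂ 1 f (0, z0) := hGc.sub contDiffAt_snd
  have hf0 : f (0, z0) = 0 := by simp [hf, hfix]
  have hinv : (fderiv ℂ f (0, z0) ∘L ContinuousLinearMap.inr ℂ (Fin n → ℂ) ℂ).IsInvertible := by
    apply invertible_of_ne
    have h1 : HasDerivAt (fun w => f (0, w)) (pd G (0, z0) - 1) z0 :=
      (pd_has hO hG 0 z0 h0).sub (hasDerivAt_id z0)
    have h2 : HasDerivAt (fun w => f (0, w)) (fderiv ℂ f (0, z0) ((0 : Fin n → ℂ), (1 : ℂ))) z0 := by
      have h3 : HasFDerivAt f (fderiv ℂ f (0, z0)) (0, z0) :=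
        (hfc.differentiableAt (by norm_num)).hasFDerivAt
      have h4 : HasDerivAt (fun w : ℂ => ((0 : Fin n → ℂ), w)) ((0 : Fin n → ℂ), (1 : ℂ)) z0 :=
        (hasDerivAt_const z0 (0 : Fin n → ℂ)).prodMk (hasDerivAt_id z0)
      exact h3.comp_hasDerivAt z0 h4
    have h5 := h1.unique h2
    intro h6
    have h7 : fderiv ℂ f (0, z0) ((0 : Fin n → ℂ), (1 : ℂ)) = 0 := h6
    rw [h7] at h5
    have h8 : pd G (0, z0) = 1 := by linear_combination h5
    rw [h8, norm_one] at hm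
    linarith
  set b := hfc.implicitFunction (by norm_num) hinv with hb
  have hb0 : b 0 = z0 := hfc.implicitFunction_apply_self (by norm_num) hinv
  have hbfix : ∀ᶠ x in 𝓝 (0 : Fin n → ℂ), G (x, b x) = b x := by
    have h1 := hfc.eventually_apply_implicitFunction (by norm_num) hinv
    filter_upwards [h1] with x hx
    rw [hf0] at hx
    have h2 : G (x, b x) - b x = 0 := hx
    linear_combination h2
  have hbd : ContDiffAt ℂ 1 b 0 := hfc.contDiffAt_implicitFunction (by norm_num) hinv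
  have hbd2 : ∀ᶠ x in 𝓝 (0 : Fin n → ℂ), DifferentiableAt ℂ b x := by
    have h1 := hbd.eventually (by simp)
    filter_upwards [h1] with x hx
    exact hx.differentiableAt (by norm_num)
  refine ⟨b, hb0, hbd2, ?_⟩
  -- a neighbourhood with small derivative
  have hpc : ContinuousOn (pd G) O :=
    (Pool.Agent.Helper540.differentiableOn_fderiv_apply hO hG _).continuousOn
  have hN : {q | q ∈ O ∧ ‖pd G q‖ < θ} ∈ 𝓝 ((0 : Fin n → ℂ), z0) := by
    have h1 : ContinuousAt (pd G) (0, z0) := hpc.continuousAt (hO.mem_nhds h0)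
    have h2 : ∀ᶠ q in 𝓝 ((0 : Fin n → ℂ), z0), ‖pd G q‖ < θ :=
      h1.norm.eventually_lt continuousAt_const hm
    have h3 : ∀ᶠ q in 𝓝 ((0 : Fin n → ℂ), z0), q ∈ O := hO.mem_nhds h0
    exact h3.and h2
  obtain ⟨τ, hτ, hball⟩ := Metric.mem_nhds_iff.1 hN
  have hbc : ContinuousAt b 0 := hbd.continuousAt
  have c1 : ∀ᶠ q : (Fin n → ℂ) × ℂ in 𝓝 (0, 0), q.1 ∈ ball (0 : Fin n → ℂ) τ :=
    (continuous_fst.tendsto ((0 : Fin n → ℂ), (0 : ℂ))).eventually (ball_mem_nhds _ hτ)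
  have c2 : ∀ᶠ q : (Fin n → ℂ) × ℂ in 𝓝 (0, 0), b q.1 ∈ ball z0 τ := by
    have h1 : ContinuousAt (fun q : (Fin n → ℂ) × ℂ => b q.1) (0, 0) :=
      ContinuousAt.comp (f := fun q : (Fin n → ℂ) × ℂ => q.1) (g := b) hbc continuousAt_fst
    have h2 : ball z0 τ ∈ 𝓝 (b ((0 : Fin n → ℂ), (0 : ℂ)).1) := by
      show ball z0 τ ∈ 𝓝 (b 0)
      rw [hb0]; exact ball_mem_nhds _ hτ
    exact h1 h2
  have c3 : ∀ᶠ q : (Fin n → ℂ) × ℂ in 𝓝 (0, 0), b q.1 + q.2 ∈ ball z0 τ := by
    have h1 : ContinuousAt (fun q : (Fin n → ℂ) × ℂ => b q.1 + q.2) (0, 0) :=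
      (ContinuousAt.comp (f := fun q : (Fin n → ℂ) × ℂ => q.1) (g := b) hbc continuousAt_fst).add
        continuousAt_snd
    have h2 : ball z0 τ ∈ 𝓝 (b ((0 : Fin n → ℂ), (0 : ℂ)).1 + ((0 : Fin n → ℂ), (0 : ℂ)).2) := by
      show ball z0 τ ∈ 𝓝 (b 0 + 0)
      rw [hb0, add_zero]; exact ball_mem_nhds _ hτ
    exact h1 h2
  have c4 : ∀ᶠ q : (Fin n → ℂ) × ℂ in 𝓝 (0, 0), G (q.1, b q.1) = b q.1 :=
    (continuous_fst.tendsto ((0 : Fin n → ℂ), (0 : ℂ))).eventually hbfix
  filter_upwards [c1, c2, c3, c4] with q h1 h2 h3 h4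
  have hmem : ∀ z ∈ ball z0 τ, (q.1, z) ∈ O ∧ ‖pd G (q.1, z)‖ < θ := by
    intro z hz
    apply hball
    rw [← ball_prod_same]
    exact ⟨h1, hz⟩
  refine ⟨(hmem _ h3).1, ?_⟩
  have h5 := (convex_ball z0 τ).norm_image_sub_le_of_norm_hasDerivWithin_le
    (f := fun z => G (q.1, z)) (f' := fun z => pd G (q.1, z)) (C := θ)
    (fun z hz => (pd_has hO hG q.1 z (hmem z hz).1).hasDerivWithinAt)
    (fun z hz => (hmem z hz).2.le) h2 h3
  rw [h4, add_sub_cancel_left] at h5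
  exact h5

end general

/-! ### charts -/

/-- the coordinate vector -/
def cp {s : ℕ} (k : Option (Fin s)) (z : ℂ) : ℂ × ℂ :=
  match k with
  | none => (1, z)
  | some _ => (z, 1)

/-- the denominator -/
def dn {s : ℕ} (k : Option (Fin s)) (p : ℂ × ℂ) : ℂ :=
  match k with
  | none => p.1
  | some _ => p.2

/-- the numerator -/
def nm {s : ℕ} (k : Option (Fin s)) (p : ℂ × ℂ) : ℂ :=
  match k with
  | none => p.2
  | some _ => p.1

/-- the affine coordinate -/
noncomputable def lc {s : ℕ} (k : Option (Fin s)) (p : ℂ × ℂ) : ℂ := nm k p * (dn k p)⁻¹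

theorem cp_ne {s : ℕ} (k : Option (Fin s)) (z : ℂ) : cp k z ≠ 0 := by
  cases k with
  | none => intro h; have := congrArg Prod.fst h; simp [cp] at this
  | some k => intro h; have := congrArg Prod.snd h; simp [cp] at this

theorem dn_smul_cp {s : ℕ} (k : Option (Fin s)) (a z : ℂ) : dn k (a • cp k z) = a := by
  cases k <;> simp [cp, dn]

theorem lc_smul_cp {s : ℕ} (k : Option (Fin s)) (a z : ℂ) (ha : a ≠ 0) :
    lc k (a • cp k z) = z := by
  cases k with
  | none => simp only [cp, lc, nm, dn, Prod.smul_snd, Prod.smul_fst, smul_eq_mul]; field_simp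
  | some k => simp only [cp, lc, nm, dn, Prod.smul_snd, Prod.smul_fst, smul_eq_mul]; field_simp

theorem eq_dn_smul {s : ℕ} (k : Option (Fin s)) (p : ℂ × ℂ) (h : dn k p ≠ 0) :
    p = dn k p • cp k (lc k p) := by
  cases k with
  | none =>
    simp only [dn] at h
    apply Prod.ext
    · simp [cp, dn]
    · simp only [cp, lc, nm, dn, Prod.smul_snd, smul_eq_mul]; field_simp
  | some k =>
    simp only [dn] at h
    apply Prod.ext
    · simp only [cp, lc, nm, dn, Prod.smul_fst, smul_eq_mul]; field_simp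
    · simp [cp, dn]

theorem cp_cont {s : ℕ} (k : Option (Fin s)) : Differentiable ℂ (cp k) := by
  cases k with
  | none => exact (differentiable_const _).prodMk differentiable_id
  | some k => exact differentiable_id.prodMk (differentiable_const _)

theorem dn_diff {s : ℕ} (k : Option (Fin s)) : Differentiable ℂ (dn k) := by
  cases k with
  | none => exact differentiable_fst
  | some k => exact differentiable_snd

theorem nm_diff {s : ℕ} (k : Option (Fin s)) : Differentiable ℂ (nm k) := by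
  cases k with
  | none => exact differentiable_snd
  | some k => exact differentiable_fst

/-- periodic points with parameters -/
theorem FPk {d n s : ℕ} (w : (Fin n → ℂ) → CV d) (hw : ∀ᶠ x in 𝓝 0, DifferentiableAt ℂ w x)
    (hND : ND (w 0)) (k : Option (Fin s)) (p : ℕ) (z0 : ℂ) (θ : ℝ) (hθ : θ < 1)
    (hcyc : cr ((hF (w 0))^[p] (cp k z0)) (cp k z0) = 0)
    (hm : ‖deriv (fun z => lc k ((hF (w 0))^[p] (cp k z))) z0‖ < θ) :
    ∃ b : (Fin n → ℂ) → ℂ, b 0 = z0 ∧ (∀ᶠ x in 𝓝 0, DifferentiableAt ℂ b x) ∧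
      ∀ᶠ q : (Fin n → ℂ) × ℂ in 𝓝 (0, 0), ∃ a z' : ℂ, a ≠ 0 ∧ ‖z'‖ ≤ θ * ‖q.2‖ ∧
        (hF (w q.1))^[p] (cp k (b q.1 + q.2)) = a • cp k (b q.1 + z') := by
  obtain ⟨V, hV, hVo, h0V⟩ := _root_.eventually_nhds_iff.1 hw
  set W : (Fin n → ℂ) × ℂ → ℂ × ℂ := fun q => (hF (w q.1))^[p] (cp k q.2) with hW
  have hVu : IsOpen (V ×ˢ (univ : Set ℂ)) := hVo.prod isOpen_univ
  have hWd : DifferentiableOn ℂ W (V ×ˢ (univ : Set ℂ)) := by
    have h1 : DifferentiableOn ℂ (fun q : (Fin n → ℂ) × ℂ => w q.1) (V ×ˢ (univ : Set ℂ)) := by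
      intro q hq
      have h2 : DifferentiableAt ℂ w q.1 := hV q.1 hq.1
      exact (DifferentiableAt.comp (f := fun q : (Fin n → ℂ) × ℂ => q.1) q h2
        differentiableAt_fst).differentiableWithinAt
    have h3 : DifferentiableOn ℂ (fun q : (Fin n → ℂ) × ℂ => cp k q.2) (V ×ˢ (univ : Set ℂ)) :=
      ((cp_cont k).comp differentiable_snd).differentiableOn
    exact (hF_iter_differentiable d p).comp_differentiableOn (h1.prodMk h3)
  set O : Set ((Fin n → ℂ) × ℂ) := (V ×ˢ (univ : Set ℂ)) ∩ W ⁻¹' {q | dn k q ≠ 0} with hOdef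
  have hOo : IsOpen O := by
    apply hWd.continuousOn.isOpen_inter_preimage hVu
    exact isOpen_ne.preimage (dn_diff k).continuous
  have hG : DifferentiableOn ℂ (fun q => lc k (W q)) O := by
    have h1 : DifferentiableOn ℂ W O := hWd.mono inter_subset_left
    unfold lc
    refine ((nm_diff k).comp_differentiableOn h1).mul
      (((dn_diff k).comp_differentiableOn h1).inv ?_)
    intro q hq
    exact hq.2
  obtain ⟨a, ha, hpar⟩ := (cr_eq_zero_iff (hND.iter_ne p (cp_ne k z0)) (cp_ne k z0)).1 hcyc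
  have hW0 : W (0, z0) = a • cp k z0 := hpar
  have h0 : ((0 : Fin n → ℂ), z0) ∈ O := by
    refine ⟨⟨h0V, mem_univ _⟩, ?_⟩
    show dn k (W (0, z0)) ≠ 0
    rw [hW0, dn_smul_cp]; exact ha
  have hfix : lc k (W (0, z0)) = z0 := by rw [hW0, lc_smul_cp k a z0 ha]
  obtain ⟨b, hb0, hbd, hb⟩ := FP (fun q => lc k (W q)) O hOo hG z0 h0 hfix θ hθ hm
  refine ⟨b, hb0, hbd, ?_⟩
  filter_upwards [hb] with q hq
  have hne : dn k (W (q.1, b q.1 + q.2)) ≠ 0 := hq.1.2
  refine ⟨dn k (W (q.1, b q.1 + q.2)), lc k (W (q.1, b q.1 + q.2)) - b q.1, hne, hq.2, ?_⟩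
  rw [add_sub_cancel]
  exact eq_dn_smul k _ hne

/-- the base point in the affine coordinate -/
def zb {s : ℕ} {X : Type} (b : Fin s → X → ℂ) (k : Option (Fin s)) (x : X) : ℂ :=
  match k with
  | none => 0
  | some k => b k x

theorem ch_eq {s : ℕ} {X : Type} (b : Fin s → X → ℂ) (k : Option (Fin s)) (x : X) (z : ℂ) :
    ch b k x z = cp k (zb b k x + z) := by
  cases k with
  | none => simp [ch, cp, zb]
  | some k => simp [ch, cp, zb]

theorem loc_eq {s : ℕ} {X : Type} (b : Fin s → X → ℂ) (k : Option (Fin s)) (x : X) (p : ℂ × ℂ) :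
    loc b k x p = lc k p - zb b k x := by
  cases k with
  | none => simp [loc, lc, nm, dn, zb, div_eq_mul_inv]
  | some k => simp [loc, lc, nm, dn, zb, div_eq_mul_inv]

theorem deriv_ret {d s : ℕ} (x : CV d) (β : Fin s → Unit → ℂ) (k : Option (Fin s)) (p : ℕ) :
    deriv (ret x β k p) 0 = deriv (fun z => lc k ((hF x)^[p] (cp k z))) (zb β k ()) := by
  have h1 : ret x β k p =
      fun z => (fun w => lc k ((hF x)^[p] (cp k w))) (zb β k () + z) - zb β k () := by
    funext z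
    simp only [ret, loc_eq, ch_eq]
  have h2 := deriv_comp_const_add (fun w => lc k ((hF x)^[p] (cp k w))) (zb β k ()) 0
  rw [add_zero] at h2
  rw [h1, deriv_sub_const]
  exact h2

/-! ### the universal family of coefficient vectors -/

theorem exists_v {d : ℕ} (x₀ : CV d) (hx₀ : ∃ i, x₀ i ≠ 0) :
    ∃ v : (Fin (2 * d + 1) → ℂ) → CV d, v 0 = x₀ ∧ Differentiable ℂ v ∧
      (∀ x x₁, (∃ a : ℂ, v x = a • v x₁) → x = x₁) ∧
      ∀ x, ∀ ε : ℝ, 0 < ε → ∃ δ : ℝ, 0 < δ ∧ ∀ x' : CV d, ‖x' - v x‖ < δ →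
        ∃ x'', ‖x'' - x‖ < ε ∧ ∃ a : ℂ, a ≠ 0 ∧ v x'' = a • x' := by
  classical
  obtain ⟨i0, hi0⟩ := hx₀
  have hcard : Fintype.card (Fin (2 * d + 1)) = Fintype.card {i : Fin 2 × Fin (d + 1) // i ≠ i0} := by
    have h1 : Fintype.card {i : Fin 2 × Fin (d + 1) // i ≠ i0} =
        Fintype.card (Fin 2 × Fin (d + 1)) - 1 := by
      rw [Fintype.card_subtype_compl, Fintype.card_subtype_eq]
    rw [h1, Fintype.card_prod, Fintype.card_fin, Fintype.card_fin, Fintype.card_fin]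
    omega
  obtain ⟨e⟩ : Nonempty (Fin (2 * d + 1) ≃ {i : Fin 2 × Fin (d + 1) // i ≠ i0}) :=
    Fintype.card_eq.1 hcard
  refine ⟨fun x i => if h : i = i0 then x₀ i0 else x₀ i + x (e.symm ⟨i, h⟩), ?_, ?_, ?_, ?_⟩
  · funext i
    by_cases h : i = i0
    · simp [h]
    · simp [h]
  · refine differentiable_pi.2 fun i => ?_
    by_cases h : i = i0
    · simp only [h, dif_pos]
      exact differentiable_const _
    · simp only [h, dif_neg, not_false_iff]
      exact (differentiable_const _).add (differentiable_apply _)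
  · rintro x x₁ ⟨a, ha⟩
    have h1 := congrFun ha i0
    simp only [dif_pos, Pi.smul_apply, smul_eq_mul] at h1
    have h2 : a = 1 := by
      have h3 : (a - 1) * x₀ i0 = 0 := by linear_combination -h1
      rcases mul_eq_zero.1 h3 with h | h
      · linear_combination h
      · exact absurd h hi0
    subst h2
    funext j
    have h4 := congrFun ha (e j).1
    have h5 : (e j).1 ≠ i0 := (e j).2
    simp only [h5, dif_neg, not_false_iff, Pi.smul_apply, smul_eq_mul, one_mul, Subtype.coe_eta,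
      Equiv.symm_apply_apply] at h4
    exact add_left_cancel h4
  · intro x ε hε
    set V : (Fin (2 * d + 1) → ℂ) → CV d :=
      fun x i => if h : i = i0 then x₀ i0 else x₀ i + x (e.symm ⟨i, h⟩) with hV
    have hVi0 : V x i0 = x₀ i0 := by simp [hV]
    have hVe : ∀ j, V x (e j).1 = x₀ (e j).1 + x j := by
      intro j
      have h5 : (e j).1 ≠ i0 := (e j).2
      simp [hV, h5]
    set g : CV d → (Fin (2 * d + 1) → ℂ) :=
      fun x' j => x₀ i0 / x' i0 * x' (e j).1 - x₀ (e j).1 with hg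
    have hgc : ContinuousAt g (V x) := by
      refine continuousAt_pi.2 fun j => ?_
      refine ContinuousAt.sub (ContinuousAt.mul (ContinuousAt.div continuousAt_const
        (continuous_apply i0).continuousAt ?_) (continuous_apply _).continuousAt)
        continuousAt_const
      rw [hVi0]; exact hi0
    have hgx : g (V x) = x := by
      funext j
      simp only [hg]
      rw [hVi0, hVe, div_self hi0]
      ring
    have h1 : ∀ᶠ x' in 𝓝 (V x), ‖g x' - x‖ < ε := by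
      have h2 : ball x ε ∈ 𝓝 (g (V x)) := by rw [hgx]; exact ball_mem_nhds _ hε
      filter_upwards [hgc h2] with x' hx'
      rw [← dist_eq_norm]
      exact hx'
    have h2 : ∀ᶠ x' in 𝓝 (V x), x' i0 ≠ 0 := by
      apply (continuous_apply i0).continuousAt.eventually_ne
      rw [hVi0]; exact hi0
    obtain ⟨δ, hδ, h3⟩ := Metric.eventually_nhds_iff.1 (h1.and h2)
    refine ⟨δ, hδ, fun x' hx' => ?_⟩
    obtain ⟨h4, h5⟩ := h3 (by rw [dist_eq_norm]; exact hx')
    refine ⟨g x', h4, x₀ i0 / x' i0, div_ne_zero hi0 h5, ?_⟩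
    funext i
    by_cases h : i = i0
    · subst h
      simp only [hV, dif_pos, Pi.smul_apply, smul_eq_mul]
      field_simp
    · simp only [hV, hg, h, dif_neg, not_false_iff, Pi.smul_apply, smul_eq_mul,
        Equiv.apply_symm_apply]
      ring

theorem ND_open {d : ℕ} {x₀ : CV d} (h : ND x₀) : ∀ᶠ x in 𝓝 x₀, ND x := by
  have hK : IsCompact (sphere (0 : ℂ × ℂ) 1) := isCompact_sphere _ _
  have h1 : ∀ᶠ x in 𝓝 x₀, ∀ y ∈ sphere (0 : ℂ × ℂ) 1, hF x y ≠ 0 := by
    apply hK.eventually_forall_of_forall_eventually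
    intro y hy
    have h2 : ContinuousAt (fun q : CV d × (ℂ × ℂ) => hF q.1 q.2) (x₀, y) :=
      (hF_contDiff d 1).continuous.continuousAt
    apply h2.eventually_ne
    intro h3
    have h4 : y = 0 := h y h3
    rw [h4] at hy
    simp at hy
  filter_upwards [h1] with x hx p hp
  by_contra hne
  have hn : ‖p‖ ≠ 0 := norm_ne_zero_iff.2 hne
  apply hx (((‖p‖⁻¹ : ℝ) : ℂ) • p)
  · rw [mem_sphere_zero_iff_norm, norm_smul]
    simp [hn]
  · rw [hF_smul, hp, smul_zero]

/-! ### the change of coordinate -/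

/-- the linear map moving the periodic point to infinity -/
def TT (η : ℂ) (p : ℂ × ℂ) : ℂ × ℂ := (p.1, p.2 - η * p.1)

theorem TT_surj (η : ℂ) (p : ℂ × ℂ) : ∃ q, TT η q = p := by
  refine ⟨(p.1, p.2 + η * p.1), ?_⟩
  simp [TT]

theorem TT_zero {η : ℂ} {p : ℂ × ℂ} (h : TT η p = 0) : p = 0 := by
  have h1 : p.1 = 0 := congrArg Prod.fst h
  have h2 : p.2 - η * p.1 = 0 := congrArg Prod.snd h
  rw [h1, mul_zero, sub_zero] at h2
  exact Prod.ext h1 h2

theorem TT_iter {d : ℕ} {x y : CV d} {η : ℂ} (h : ∀ p, hF y (TT η p) = TT η (hF x p)) (N : ℕ)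
    (p : ℂ × ℂ) : (hF y)^[N] (TT η p) = TT η ((hF x)^[N] p) := by
  have h1 : Function.Semiconj (TT η) (hF x) (hF y) := fun p => (h p).symm
  exact ((h1.iterate_right N) p).symm

theorem TT_ND {d : ℕ} {x y : CV d} {η : ℂ} (h : ∀ p, hF y (TT η p) = TT η (hF x p)) (hx : ND x) :
    ND y := by
  intro p hp
  obtain ⟨q, rfl⟩ := TT_surj η p
  rw [h] at hp
  have h1 : q = 0 := hx q (TT_zero hp)
  rw [h1]
  simp [TT]

end FAM

open FAM in
theorem FAM (hCJ : StCJ) (_hSP : StSP) : StFAM := by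
  intro d s x₀ β per ε₀ hd hND hper hε₀ hcyc hmul hsep
  obtain ⟨cj, hcjC, -, -, hid, hcj⟩ := hCJ d
  -- the universal family of coefficient vectors
  have hx₀ : ∃ i, x₀ i ≠ 0 := by
    by_contra hcon
    push Not at hcon
    have h1 : hF x₀ (1, 0) = 0 := by
      simp [hF, hcon]
    have h2 := hND _ h1
    simp at h2
  obtain ⟨v, hv0, hvd, hvinj, hvopen⟩ := exists_v x₀ hx₀
  have hvND : ∀ᶠ x in 𝓝 (0 : Fin (2 * d + 1) → ℂ), ND (v x) := by
    have h1 : ∀ᶠ y in 𝓝 (v 0), ND y := by rw [hv0]; exact ND_open hND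
    exact (hvd 0).continuousAt h1
  -- the contraction constant
  obtain ⟨θ, hθ1, hθ⟩ : ∃ θ : ℝ, θ < 1 ∧ ∀ k, ‖deriv (ret x₀ β k (per k)) 0‖ < θ := by
    obtain ⟨k0, hk0⟩ := Finite.exists_max (fun k => ‖deriv (ret x₀ β k (per k)) 0‖)
    refine ⟨(‖deriv (ret x₀ β k0 (per k0)) 0‖ + 1) / 2, by linarith [hmul k0], fun k => ?_⟩
    linarith [hk0 k, hmul k0]
  have hθ0 : 0 ≤ θ := (norm_nonneg _).trans (hθ none).le
  -- the periodic point near infinity
  obtain ⟨η, hη0, hηd, hη⟩ : ∃ η : (Fin (2 * d + 1) → ℂ) → ℂ, η 0 = 0 ∧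
      (∀ᶠ x in 𝓝 0, DifferentiableAt ℂ η x) ∧
      ∀ᶠ x in 𝓝 0, ∃ a : ℂ, a ≠ 0 ∧ (hF (v x))^[per none] (1, η x) = a • (1, η x) := by
    obtain ⟨η, h1, h2, h3⟩ := FPk (s := s) v (Eventually.of_forall fun x => hvd x)
      (by rw [hv0]; exact hND) none (per none) 0 θ hθ1
      (by
        rw [hv0]
        have h1 := hcyc none
        rw [ch_eq, zb, add_zero] at h1
        exact h1)
      (by
        rw [hv0]
        have h1 := hθ none
        rw [deriv_ret] at h1
        exact h1)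
    refine ⟨η, h1, h2, ?_⟩
    have h4 : Tendsto (fun x : Fin (2 * d + 1) → ℂ => (x, (0 : ℂ))) (𝓝 0) (𝓝 (0, 0)) :=
      (continuous_id.prodMk continuous_const).tendsto' _ _ rfl
    filter_upwards [h4.eventually h3] with x hx
    obtain ⟨a, z', ha, hz', h5⟩ := hx
    simp only [norm_zero, mul_zero, norm_le_zero_iff] at hz'
    simp only [hz', add_zero] at h5
    exact ⟨a, ha, h5⟩
  -- the normalised family
  set co : (Fin (2 * d + 1) → ℂ) → CV d := fun x => cj ((1, 0), (-η x, 1)) (v x) with hco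
  have hTT : ∀ x p, hF (co x) (TT (η x) p) = TT (η x) (hF (v x) p) := by
    intro x p
    simp only [hco]
    rw [hcj]
    have h1 : ((1 : ℂ) * (TT (η x) p).1 - 0 * (TT (η x) p).2,
        (1 : ℂ) * (TT (η x) p).2 - -η x * (TT (η x) p).1) = p := by
      simp [TT]
    simp only [h1]
    simp only [TT]
    apply Prod.ext
    · simp
    · simp only; ring
  have hco0 : co 0 = x₀ := by
    simp only [hco, hη0, neg_zero, hid, hv0]
  have hcod : ∀ x, DifferentiableAt ℂ η x → DifferentiableAt ℂ co x := by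
    intro x hx
    have h1 : Differentiable ℂ (fun q : ((ℂ × ℂ) × (ℂ × ℂ)) × CV d => cj q.1 q.2) :=
      hcjC.differentiable (by norm_num)
    have h2 : DifferentiableAt ℂ (fun x : Fin (2 * d + 1) → ℂ =>
        ((((1 : ℂ), (0 : ℂ)), (-η x, (1 : ℂ))), v x)) x :=
      ((differentiableAt_const _).prodMk (hx.neg.prodMk (differentiableAt_const _))).prodMk (hvd x)
    exact (h1 _).comp x h2
  have hcod2 : ∀ᶠ x in 𝓝 0, DifferentiableAt ℂ co x := hηd.mono hcod
  have hcoc : ContinuousAt co 0 := hcod2.self_of_nhds.continuousAt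
  have hcoinf : ∀ᶠ x in 𝓝 0, ∃ a : ℂ, a ≠ 0 ∧ (hF (co x))^[per none] (1, 0) = a • (1, 0) := by
    filter_upwards [hη] with x hx
    obtain ⟨a, ha, h1⟩ := hx
    refine ⟨a, ha, ?_⟩
    have h2 := TT_iter (hTT x) (per none) (1, η x)
    rw [h1] at h2
    have h3 : TT (η x) (1, η x) = (1, 0) := by simp [TT]
    have h4 : TT (η x) (a • (1, η x)) = a • (1, 0) := by
      simp only [TT, Prod.smul_mk, smul_eq_mul, mul_one, mul_zero]
      apply Prod.ext
      · rfl
      · simp only; ring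
    rw [h3, h4] at h2
    exact h2
  -- the marked points
  have hbex : ∀ k : Option (Fin s), ∃ b : (Fin (2 * d + 1) → ℂ) → ℂ, b 0 = zb β k () ∧
      (∀ᶠ x in 𝓝 0, DifferentiableAt ℂ b x) ∧
      ∀ᶠ q : (Fin (2 * d + 1) → ℂ) × ℂ in 𝓝 (0, 0), ∃ a z' : ℂ, a ≠ 0 ∧ ‖z'‖ ≤ θ * ‖q.2‖ ∧
        (hF (co q.1))^[per k] (cp k (b q.1 + q.2)) = a • cp k (b q.1 + z') := by
    intro k
    refine FPk co hcod2 (by rw [hco0]; exact hND) k (per k) (zb β k ()) θ hθ1 ?_ ?_
    · rw [hco0]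
      have h1 := hcyc k
      rw [ch_eq, add_zero] at h1
      exact h1
    · rw [hco0]
      have h1 := hθ k
      rw [deriv_ret] at h1
      exact h1
  choose b hb0 hbd hb using hbex
  have hbc : ∀ k, ContinuousAt (b k) 0 := fun k => (hbd k).self_of_nhds.continuousAt
  have hbnone : ∀ᶠ x in 𝓝 0, b none x = 0 := by
    have h1 : Tendsto (fun x : Fin (2 * d + 1) → ℂ => (x, -b none x)) (𝓝 0) (𝓝 (0, 0)) := by
      have h2 : ContinuousAt (fun x : Fin (2 * d + 1) → ℂ => (x, -b none x)) 0 :=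
        continuousAt_id.prodMk (hbc none).neg
      have h3 : ((0 : Fin (2 * d + 1) → ℂ), -b none 0) = (0, 0) := by
        rw [hb0]; simp [zb]
      have h4 := h2.tendsto
      rw [h3] at h4
      exact h4
    filter_upwards [h1.eventually (hb none), hcoinf] with x hx hx2
    obtain ⟨a, z', ha, hz', h3⟩ := hx
    obtain ⟨c, hc, h4⟩ := hx2
    simp only [norm_neg] at hz'
    simp only [add_neg_cancel] at h3
    have h5 : cp (none : Option (Fin s)) 0 = (1, 0) := rfl
    rw [h5, h4] at h3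
    have h6 : c = a := by
      have := congrArg Prod.fst h3
      simpa [cp] using this
    have h7 : a * (b none x + z') = 0 := by
      have := congrArg Prod.snd h3
      simpa [cp] using this.symm
    have h8 : b none x = -z' := by
      rcases mul_eq_zero.1 h7 with h | h
      · exact absurd h ha
      · linear_combination h
    have h9 : ‖b none x‖ ≤ θ * ‖b none x‖ := by
      calc ‖b none x‖ = ‖z'‖ := by rw [h8, norm_neg]
        _ ≤ _ := hz'
    have h10 : ‖b none x‖ ≤ 0 := by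
      nlinarith [norm_nonneg (b none x)]
    exact norm_le_zero_iff.1 h10
  -- separation
  have hsepev : ∀ᶠ t : (Fin (2 * d + 1) → ℂ) × (ℂ × ℂ) in 𝓝 (0, (0, 0)), ∀ k k', ∀ m : Fin (per k),
      cr ((hF (co t.1))^[(m : ℕ)] (cp k (b k t.1 + t.2.1))) (cp k' (b k' t.1 + t.2.2)) = 0 →
        k = k' ∧ per k ∣ (m : ℕ) := by
    refine eventually_all.2 fun k => eventually_all.2 fun k' => eventually_all.2 fun m => ?_
    by_cases hcase : k = k' ∧ per k ∣ (m : ℕ)
    · exact Eventually.of_forall fun t _ => hcase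
    · have h1 : ContinuousAt (fun t : (Fin (2 * d + 1) → ℂ) × (ℂ × ℂ) =>
          cr ((hF (co t.1))^[(m : ℕ)] (cp k (b k t.1 + t.2.1))) (cp k' (b k' t.1 + t.2.2)))
          (0, (0, 0)) := by
        have c1 : ContinuousAt (fun t : (Fin (2 * d + 1) → ℂ) × (ℂ × ℂ) => co t.1) (0, (0, 0)) :=
          ContinuousAt.comp (f := fun t : (Fin (2 * d + 1) → ℂ) × (ℂ × ℂ) => t.1) (g := co) hcoc
            continuousAt_fst
        have c2 : ∀ k, ContinuousAt (fun t : (Fin (2 * d + 1) → ℂ) × (ℂ × ℂ) => b k t.1)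
            (0, (0, 0)) := fun k =>
          ContinuousAt.comp (f := fun t : (Fin (2 * d + 1) → ℂ) × (ℂ × ℂ) => t.1) (g := b k)
            (hbc k) continuousAt_fst
        have c3 : ContinuousAt (fun t : (Fin (2 * d + 1) → ℂ) × (ℂ × ℂ) =>
            cp k (b k t.1 + t.2.1)) (0, (0, 0)) :=
          (cp_cont k).continuous.continuousAt.comp
            ((c2 k).add (continuous_fst.comp continuous_snd).continuousAt)
        have c4 : ContinuousAt (fun t : (Fin (2 * d + 1) → ℂ) × (ℂ × ℂ) =>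
            cp k' (b k' t.1 + t.2.2)) (0, (0, 0)) :=
          (cp_cont k').continuous.continuousAt.comp
            ((c2 k').add (continuous_snd.comp continuous_snd).continuousAt)
        have c5 : ContinuousAt (fun t : (Fin (2 * d + 1) → ℂ) × (ℂ × ℂ) =>
            (hF (co t.1))^[(m : ℕ)] (cp k (b k t.1 + t.2.1))) (0, (0, 0)) :=
          ContinuousAt.comp (f := fun t : (Fin (2 * d + 1) → ℂ) × (ℂ × ℂ) =>
            (co t.1, cp k (b k t.1 + t.2.1)))
            (g := fun q : CV d × (ℂ × ℂ) => (hF q.1)^[(m : ℕ)] q.2)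
            (hF_iter_continuous d m).continuousAt (c1.prodMk c3)
        exact (c5.fst.mul c4.snd).sub (c5.snd.mul c4.fst)
      have h2 : ∀ᶠ t : (Fin (2 * d + 1) → ℂ) × (ℂ × ℂ) in 𝓝 (0, (0, 0)),
          cr ((hF (co t.1))^[(m : ℕ)] (cp k (b k t.1 + t.2.1))) (cp k' (b k' t.1 + t.2.2)) ≠ 0 := by
        apply h1.eventually_ne
        show cr ((hF (co 0))^[(m : ℕ)] (cp k (b k 0 + 0))) (cp k' (b k' 0 + 0)) ≠ 0
        rw [hco0, hb0, hb0, ← ch_eq, ← ch_eq]
        intro h3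
        exact hcase (hsep k k' m h3)
      filter_upwards [h2] with t ht ht2
      exact absurd ht2 ht
  -- common radius
  have hAll : ∀ᶠ t : (Fin (2 * d + 1) → ℂ) × (ℂ × ℂ) in 𝓝 (0, (0, 0)),
      (ND (v t.1) ∧ DifferentiableAt ℂ η t.1 ∧ (∀ k, DifferentiableAt ℂ (b k) t.1) ∧
        b none t.1 = 0) ∧
      (∀ k, ∃ a z' : ℂ, a ≠ 0 ∧ ‖z'‖ ≤ θ * ‖t.2.1‖ ∧
        (hF (co t.1))^[per k] (cp k (b k t.1 + t.2.1)) = a • cp k (b k t.1 + z')) ∧
      (∀ k k', ∀ m : Fin (per k),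
        cr ((hF (co t.1))^[(m : ℕ)] (cp k (b k t.1 + t.2.1))) (cp k' (b k' t.1 + t.2.2)) = 0 →
          k = k' ∧ per k ∣ (m : ℕ)) := by
    have t1 : Tendsto (fun t : (Fin (2 * d + 1) → ℂ) × (ℂ × ℂ) => t.1) (𝓝 (0, (0, 0))) (𝓝 0) :=
      continuous_fst.tendsto' _ _ rfl
    have t2 : Tendsto (fun t : (Fin (2 * d + 1) → ℂ) × (ℂ × ℂ) => (t.1, t.2.1)) (𝓝 (0, (0, 0)))
        (𝓝 (0, 0)) :=
      (continuous_fst.prodMk (continuous_fst.comp continuous_snd)).tendsto' _ _ rfl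
    have e1 := t1.eventually (hvND.and (hηd.and ((eventually_all.2 hbd).and hbnone)))
    have e2 := t2.eventually (eventually_all.2 hb)
    exact e1.and (e2.and hsepev)
  obtain ⟨τ, hτ, hτall⟩ := Metric.eventually_nhds_iff_ball.1 hAll
  have hmem : ∀ x ∈ ball (0 : Fin (2 * d + 1) → ℂ) τ, ∀ z z' : ℂ, ‖z‖ < τ → ‖z'‖ < τ →
      (x, (z, z')) ∈ ball ((0 : Fin (2 * d + 1) → ℂ), ((0 : ℂ), (0 : ℂ))) τ := by
    intro x hx z z' hz hz'
    rw [← ball_prod_same, ← ball_prod_same]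
    refine ⟨hx, ?_, ?_⟩
    · simpa using hz
    · simpa using hz'
  have hA : ∀ x ∈ ball (0 : Fin (2 * d + 1) → ℂ) τ, ND (v x) ∧ DifferentiableAt ℂ η x ∧
      (∀ k, DifferentiableAt ℂ (b k) x) ∧ b none x = 0 := fun x hx =>
    (hτall _ (hmem x hx 0 0 (by simpa using hτ) (by simpa using hτ))).1
  have hzb : ∀ x ∈ ball (0 : Fin (2 * d + 1) → ℂ) τ, ∀ k,
      zb (fun k : Fin s => b (some k)) k x = b k x := by
    intro x hx k
    cases k with
    | none => exact (hA x hx).2.2.2.symm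
    | some k => rfl
  have hcontr : ∀ x ∈ ball (0 : Fin (2 * d + 1) → ℂ) τ, ∀ k, ∀ z : ℂ, ‖z‖ < τ →
      ∃ a z' : ℂ, a ≠ 0 ∧ ‖z'‖ ≤ θ * ‖z‖ ∧
        (hF (co x))^[per k] (cp k (b k x + z)) = a • cp k (b k x + z') := by
    intro x hx k z hz
    exact (hτall _ (hmem x hx z 0 hz (by simpa using hτ))).2.1 k
  have hcontrN : ∀ x ∈ ball (0 : Fin (2 * d + 1) → ℂ) τ, ∀ k, ∀ j : ℕ, ∀ z : ℂ, ‖z‖ < τ →
      ∃ a z' : ℂ, a ≠ 0 ∧ ‖z'‖ ≤ ‖z‖ ∧
        (hF (co x))^[per k * j] (cp k (b k x + z)) = a • cp k (b k x + z') := by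
    intro x hx k j
    induction j with
    | zero => intro z hz; exact ⟨1, z, one_ne_zero, le_rfl, by simp⟩
    | succ j ih =>
      intro z hz
      obtain ⟨a, z', ha, hz', h1⟩ := hcontr x hx k z hz
      have hz'' : ‖z'‖ ≤ ‖z‖ := hz'.trans (mul_le_of_le_one_left (norm_nonneg z) hθ1.le)
      obtain ⟨a2, z2, ha2, hz2, h2⟩ := ih z' (lt_of_le_of_lt hz'' hz)
      refine ⟨a ^ (d ^ (per k * j)) * a2, z2, mul_ne_zero (pow_ne_zero _ ha) ha2,
        hz2.trans hz'', ?_⟩
      rw [Nat.mul_succ, Function.iterate_add_apply, h1, hF_iter_smul, h2, smul_smul]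
  have hsepm : ∀ x ∈ ball (0 : Fin (2 * d + 1) → ℂ) τ, ∀ k k', ∀ z z' a : ℂ, ∀ m : ℕ, ‖z‖ < τ →
      ‖z'‖ < τ → (hF (co x))^[m] (cp k (b k x + z)) = a • cp k' (b k' x + z') →
      k = k' ∧ per k ∣ m := by
    intro x hx k k' z z' a m hz hz' h1
    have hmod : m % per k < per k := Nat.mod_lt _ (hper k)
    obtain ⟨a1, z1, ha1, hz1, h2⟩ := hcontrN x hx k (m / per k) z hz
    have h3 : m = m % per k + per k * (m / per k) := (Nat.mod_add_div m (per k)).symm
    rw [h3, Function.iterate_add_apply, h2, hF_iter_smul] at h1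
    have h4 : cr (a1 ^ (d ^ (m % per k)) • (hF (co x))^[m % per k] (cp k (b k x + z1)))
        (cp k' (b k' x + z')) = 0 := by
      rw [h1, cr_smul_left, cr_self, mul_zero]
    rw [cr_smul_left] at h4
    have h5 := (mul_eq_zero.1 h4).resolve_left (pow_ne_zero _ ha1)
    obtain ⟨h6, h7⟩ := (hτall _ (hmem x hx z1 z' (lt_of_le_of_lt hz1 hz) hz')).2.2 k k'
      ⟨m % per k, hmod⟩ h5
    refine ⟨h6, ?_⟩
    rw [h3]
    exact dvd_add h7 (dvd_mul_right _ _)
  refine ⟨{ co := co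
            xT := 0
            ρ := τ
            per := per
            b := fun k => b (some k)
            r₀ := min τ ε₀
            θ := θ
            hd := hd
            hρ := hτ
            hr₀ := lt_min hτ hε₀
            hθ0 := hθ0
            hθ := hθ1
            hper := hper
            hco := fun x hx => (hcod x (hA x hx).2.1).differentiableWithinAt
            hb := fun k x hx => ((hA x hx).2.2.1 (some k)).differentiableWithinAt
            nd := fun x hx => TT_ND (hTT x) (hA x hx).1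
            contr := ?_
            sep := ?_ }, v, η, rfl, min_le_right _ _, fun k => ?_, hco0, hv0, hvd.continuous,
              fun x hx => (hA x hx).2.1.differentiableWithinAt, hη0,
              fun x hx => ⟨(hA x hx).1, fun p => hTT x p⟩, hvinj, ?_⟩
  · intro x hx k z hz
    obtain ⟨a, z', ha, hz', h1⟩ := hcontr x hx k z (lt_of_lt_of_le hz (min_le_left _ _))
    refine ⟨a, z', ha, hz', ?_⟩
    rw [ch_eq, ch_eq, hzb x hx]
    exact h1
  · intro x hx k k' z z' a m hz hz' h1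
    rw [ch_eq, ch_eq, hzb x hx, hzb x hx] at h1
    exact hsepm x hx k k' z z' a m (lt_of_lt_of_le hz (min_le_left _ _))
      (lt_of_lt_of_le hz' (min_le_left _ _)) h1
  · exact hb0 (some k)
  · intro x hx ε hε
    have hx' : dist x 0 < τ := hx
    obtain ⟨δ, hδ, h1⟩ := hvopen x (min ε (τ - dist x 0)) (lt_min hε (by linarith))
    refine ⟨δ, hδ, fun x' hx'' => ?_⟩
    obtain ⟨x2, hx2, a, ha, h2⟩ := h1 x' hx''
    refine ⟨x2, ?_, lt_of_lt_of_le hx2 (min_le_left _ _), a, ha, h2⟩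
    show dist x2 0 < τ
    have h3 : dist x2 x < τ - dist x 0 := by
      rw [dist_eq_norm]; exact lt_of_lt_of_le hx2 (min_le_right _ _)
    linarith [dist_triangle x2 x 0]

end Pool.Agent.H790R3.RB
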