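import Mathlib
import Pool.Agent.H790R3.RB.St
import Pool.Agent.H790R3.RB.Basic
import Pool.Agent.H713R3.ZA.TROOT

/-! Task FAT: Fatou's argument (helper83). -/

set_option autoImplicit false

open Topology Filter Metric Set MeasureTheory

namespace Pool.Agent.H790R3.RB

namespace FAT

theorem vec_ne (z : ℂ) : ((z, 1) : ℂ × ℂ) ≠ 0 := by
  intro h; have := congrArg Prod.snd h; simp at this

/-- the point at infinity is fixed by the iterates of index a multiple of `p₀` -/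
theorem inf_fix {d p₀ : ℕ} {x : CV d} (h : ((hF x)^[p₀] (1, 0)).2 = 0) (k : ℕ) :
    ∃ a : ℂ, (hF x)^[p₀ * k] (1, 0) = a • ((1, 0) : ℂ × ℂ) := by
  induction k with
  | zero => exact ⟨1, by simp⟩
  | succ k ih =>
    obtain ⟨a, ha⟩ := ih
    have e : (hF x)^[p₀ * (k + 1)] (1, 0) = (hF x)^[p₀] ((hF x)^[p₀ * k] (1, 0)) := by
      rw [← Function.iterate_add_apply]; congr 1; ring_nf
    refine ⟨a ^ (d ^ p₀) * ((hF x)^[p₀] (1, 0)).1, ?_⟩
    rw [e, ha, hF_iter_smul]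
    apply Prod.ext
    · simp
    · simp [h]

theorem fe_iter {d p : ℕ} {x : CV d} {ψ : ℂ → ℂ} {lam : ℂ} {r : ℝ} (hx : ND x)
    (hl1 : ‖lam‖ < 1)
    (hfe : ∀ w ∈ ball (0 : ℂ) r, cr ((hF x)^[p] (ψ w, 1)) (ψ (lam * w), 1) = 0) (j : ℕ) :
    ∀ w ∈ ball (0 : ℂ) r, cr ((hF x)^[p * j] (ψ w, 1)) (ψ (lam ^ j * w), 1) = 0 := by
  induction j with
  | zero => intro w _; simp [cr]
  | succ j ih =>
    intro w hw
    have hw' : lam ^ j * w ∈ ball (0 : ℂ) r := by
      rw [mem_ball_zero_iff] at hw ⊢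
      rw [norm_mul, norm_pow]
      calc ‖lam‖ ^ j * ‖w‖ ≤ 1 * ‖w‖ :=
            mul_le_mul_of_nonneg_right (pow_le_one₀ (norm_nonneg _) hl1.le) (norm_nonneg _)
        _ < r := by rwa [one_mul]
    have e : (hF x)^[p * (j + 1)] (ψ w, 1) = (hF x)^[p] ((hF x)^[p * j] (ψ w, 1)) := by
      rw [← Function.iterate_add_apply]; congr 1; ring_nf
    rw [e]
    have h1 := cr_iter x p (hx.iter_ne (p * j) (vec_ne (ψ w))) (vec_ne (ψ (lam ^ j * w))) (ih w hw)
    have h2 := hfe _ hw'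
    have e2 : lam * (lam ^ j * w) = lam ^ (j + 1) * w := by ring
    rw [e2] at h2
    exact cr_trans (hx.iter_ne p (vec_ne _)) h1 h2

end FAT

open FAT in
theorem FAT (_hPOLY : StPOLY) (hCHAIN : StCHAIN) (hPROP : StPROP) : StFAT := by
  intro d p p₀ x ψ lam r rF R hd hp hp₀ hx hinf hr hrF hlam hlam1 hψ hinj hfe H1 H2
  have hlpos : 0 < ‖lam‖ := norm_pos_iff.mpr hlam
  -- the number of iterates
  obtain ⟨N1, hN1, hN1p, hN1r⟩ : ∃ N1 : ℕ, 1 ≤ N1 ∧ p₀ ∣ N1 ∧ ‖lam‖ ^ N1 * rF < r := by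
    obtain ⟨M, hM⟩ := exists_pow_lt_of_lt_one (div_pos hr hrF) hlam1
    refine ⟨p₀ * (M + 1), Nat.mul_pos hp₀ (Nat.succ_pos M), dvd_mul_right _ _, ?_⟩
    rw [← lt_div_iff₀ hrF]
    refine lt_of_le_of_lt (pow_le_pow_of_le_one hlpos.le hlam1.le ?_) hM
    nlinarith
  set N : ℕ := p * N1 with hN
  -- the point at infinity
  have hNinf : ((hF x)^[N] (1, 0)).2 = 0 := by
    obtain ⟨k, hk⟩ := hN1p
    obtain ⟨a, ha⟩ := inf_fix hinf (p * k)
    have : N = p₀ * (p * k) := by rw [hN, hk]; ring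
    rw [this, ha]; simp
  have hNinf1 : ((hF x)^[N] (1, 0)).1 ≠ 0 := by
    intro h
    have h10 : ((1, 0) : ℂ × ℂ) ≠ 0 := by
      intro h; have := congrArg Prod.fst h; simp at this
    exact hx.iter_ne N h10 (Prod.ext h hNinf)
  -- size of the linearising map
  have hψR : ∀ w ∈ ball (0 : ℂ) r, ‖ψ w‖ ≤ R := by
    intro w hw
    refine H2 (ψ w) 0 w hw ?_
    simp [cr]
  have h0r : (0 : ℂ) ∈ ball (0 : ℂ) r := mem_ball_self hr
  have hR0 : 0 ≤ R := (norm_nonneg _).trans (hψR 0 h0r)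
  -- the function
  set F : ℂ → ℂ → ℂ := fun τ z =>
    ((hF x)^[N] (z, 1)).1 - ψ (lam ^ N1 * Complex.exp τ) * ((hF x)^[N] (z, 1)).2 with hFdef
  have hFcr : ∀ τ z, F τ z = cr ((hF x)^[N] (z, 1)) (ψ (lam ^ N1 * Complex.exp τ), 1) := by
    intro τ z; simp only [hFdef, cr]; ring
  have hwr : ∀ τ : ℂ, τ.re < Real.log rF → lam ^ N1 * Complex.exp τ ∈ ball (0 : ℂ) r := by
    intro τ hτ
    rw [mem_ball_zero_iff, norm_mul, norm_pow, Complex.norm_exp]
    have : Real.exp τ.re < rF := by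
      rw [← Real.lt_log_iff_exp_lt hrF]; exact hτ
    calc ‖lam‖ ^ N1 * Real.exp τ.re ≤ ‖lam‖ ^ N1 * rF :=
          mul_le_mul_of_nonneg_left this.le (pow_nonneg hlpos.le _)
      _ < r := hN1r
  have hAd : Differentiable ℂ (fun z : ℂ => (hF x)^[N] (z, 1)) := by
    have h := hF_iter_differentiable d N
    exact h.comp ((differentiable_const x).prodMk (differentiable_id.prodMk (differentiable_const 1)))
  have hAc : ContDiff ℂ 1 (fun z : ℂ => (hF x)^[N] (z, 1)) := by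
    have h := hF_iter_contDiff d N 1
    exact h.comp (contDiff_const.prodMk (contDiff_id.prodMk contDiff_const))
  -- applicability of the theorem on roots
  have hroot : ∀ σ : ℝ, σ ≤ Real.log rF → ∀ τ₀ : ℂ, τ₀.re < σ → ∀ u : ℂ, F τ₀ u = 0 →
      ∃ Z : ℂ → ℂ, DifferentiableOn ℂ Z {τ : ℂ | τ.re < σ} ∧ Z τ₀ = u ∧
        (∀ τ ∈ {τ : ℂ | τ.re < σ}, F τ (Z τ) = 0) ∧
        ∀ Z' : ℂ → ℂ, ContinuousOn Z' {τ : ℂ | τ.re < σ} → (∃ s₁ ∈ {τ : ℂ | τ.re < σ}, Z' s₁ = Z s₁) →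
          (∀ τ ∈ {τ : ℂ | τ.re < σ}, F τ (Z' τ) = 0) → ∀ τ ∈ {τ : ℂ | τ.re < σ}, Z' τ = Z τ := by
    intro σ hσ τ₀ hτ₀ u hu
    have hopen : IsOpen {τ : ℂ | τ.re < σ} := isOpen_lt Complex.continuous_re continuous_const
    have hconv : Convex ℝ {τ : ℂ | τ.re < σ} := convex_halfSpace_re_lt σ
    have hwr' : ∀ τ ∈ {τ : ℂ | τ.re < σ}, lam ^ N1 * Complex.exp τ ∈ ball (0 : ℂ) r :=
      fun τ hτ => hwr τ (lt_of_lt_of_le hτ hσ)
    have hψc : ContDiffOn ℂ 1 (fun τ : ℂ => ψ (lam ^ N1 * Complex.exp τ)) {τ : ℂ | τ.re < σ} := by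
      have h1 : ContDiffOn ℂ 1 ψ (ball 0 r) := hψ.contDiffOn isOpen_ball
      exact h1.comp (contDiff_const.mul Complex.contDiff_exp).contDiffOn hwr'
    refine Pool.Agent.H713R3.ZA.root_holds ℂ {τ : ℂ | τ.re < σ} F hopen hconv ?_ ?_ ?_ τ₀ hτ₀ u hu
    · -- regularity
      have hA1 : ContDiff ℂ 1 (fun q : ℂ × ℂ => ((hF x)^[N] (q.2, 1)).1) :=
        (hAc.comp contDiff_snd).fst
      have hA2 : ContDiff ℂ 1 (fun q : ℂ × ℂ => ((hF x)^[N] (q.2, 1)).2) :=
        (hAc.comp contDiff_snd).snd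
      have hu1 : ContDiffOn ℂ 1 (fun q : ℂ × ℂ => ψ (lam ^ N1 * Complex.exp q.1))
          ({τ : ℂ | τ.re < σ} ×ˢ univ) :=
        hψc.comp contDiff_fst.contDiffOn (fun q hq => hq.1)
      exact hA1.contDiffOn.sub (hu1.mul hA2.contDiffOn)
    · -- properness
      intro K hK hKc M
      obtain ⟨C, hC⟩ := hPROP d N {x} (by omega) isCompact_singleton
        (by intro y hy; rw [mem_singleton_iff] at hy; subst hy; exact ⟨hNinf1, hNinf⟩) (max M R)
      refine ⟨C, fun s hs z hz => hC x rfl (ψ (lam ^ N1 * Complex.exp s)) z ?_ ?_⟩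
      · exact (hψR _ (hwr' s (hK hs))).trans (le_max_right _ _)
      · exact hz.trans (le_max_left _ _)
    · -- simple roots
      intro τ hτ z hz hder
      have hz1 : ((hF x)^[N] (z, 1)).1 = ψ (lam ^ N1 * Complex.exp τ) * ((hF x)^[N] (z, 1)).2 :=
        sub_eq_zero.mp hz
      have hd1 : DifferentiableAt ℂ (fun z : ℂ => ((hF x)^[N] (z, 1)).1) z := (hAd z).fst
      have hd2 : DifferentiableAt ℂ (fun z : ℂ => ((hF x)^[N] (z, 1)).2) z := (hAd z).snd
      have hder' : deriv (F τ) z = deriv (fun z : ℂ => ((hF x)^[N] (z, 1)).1) z -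
          ψ (lam ^ N1 * Complex.exp τ) * deriv (fun z : ℂ => ((hF x)^[N] (z, 1)).2) z := by
        have h3 : F τ = fun z : ℂ => ((hF x)^[N] (z, 1)).1 -
            ψ (lam ^ N1 * Complex.exp τ) * ((hF x)^[N] (z, 1)).2 := rfl
        rw [h3, deriv_fun_sub hd1 (hd2.const_mul _), deriv_const_mul _ hd2]
      rw [hder'] at hder
      obtain ⟨m, hm, hwrm⟩ := hCHAIN d x N z (ψ (lam ^ N1 * Complex.exp τ)) hd hz1
        (sub_eq_zero.mp hder)
      have hc0 : (hF x)^[m] (z, 1) ≠ 0 := hx.iter_ne m (vec_ne z)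
      have hw'0 : lam ^ N1 * Complex.exp τ ≠ 0 := mul_ne_zero (pow_ne_zero _ hlam) (Complex.exp_ne_zero _)
      have hcrm : cr ((hF x)^[N - m] ((hF x)^[m] (z, 1))) (ψ (lam ^ N1 * Complex.exp τ), 1) = 0 := by
        rw [← Function.iterate_add_apply, Nat.sub_add_cancel hm.le, ← hFcr]
        exact hz
      have h4 := H1 _ hc0 hwrm (N - m) _ (hwr' τ hτ) hw'0 hcrm
      rw [norm_mul, norm_pow, Complex.norm_exp] at h4
      have h5 : (N - m) / p ≤ N1 := by
        calc (N - m) / p ≤ N / p := Nat.div_le_div_right (Nat.sub_le _ _)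
          _ = N1 := by rw [hN]; exact Nat.mul_div_cancel_left N1 (by omega)
      have h6 : ‖lam‖ ^ N1 * rF ≤ ‖lam‖ ^ ((N - m) / p) * rF :=
        mul_le_mul_of_nonneg_right (pow_le_pow_of_le_one hlpos.le hlam1.le h5) hrF.le
      have h7 : ‖lam‖ ^ N1 * rF ≤ ‖lam‖ ^ N1 * Real.exp τ.re := h6.trans h4
      have h8 : rF ≤ Real.exp τ.re := le_of_mul_le_mul_left h7 (pow_pos hlpos _)
      have h9 : Real.exp τ.re < rF := by
        rw [← Real.lt_log_iff_exp_lt hrF]; exact lt_of_lt_of_le hτ hσ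
      linarith
  -- the small half plane
  set σ' : ℝ := Real.log (min r rF) with hσ'
  have hmin : 0 < min r rF := lt_min hr hrF
  have hσ'le : σ' ≤ Real.log rF := Real.log_le_log hmin (min_le_right _ _)
  have hexpr : ∀ τ : ℂ, τ.re < σ' → Complex.exp τ ∈ ball (0 : ℂ) r := by
    intro τ hτ
    rw [mem_ball_zero_iff, Complex.norm_exp]
    have : Real.exp τ.re < min r rF := by rw [← Real.lt_log_iff_exp_lt hmin]; exact hτ
    exact this.trans_le (min_le_left _ _)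
  have hψF : ∀ τ : ℂ, τ.re < σ' → F τ (ψ (Complex.exp τ)) = 0 := by
    intro τ hτ
    rw [hFcr, hN]
    exact fe_iter hx hlam1 hfe N1 _ (hexpr τ hτ)
  set τ₀ : ℂ := ((σ' - 1 : ℝ) : ℂ) with hτ₀
  have hτ₀re : τ₀.re = σ' - 1 := by rw [hτ₀, Complex.ofReal_re]
  have hτ₀σ : τ₀.re < σ' := by rw [hτ₀re]; linarith
  have hu0 := hψF τ₀ hτ₀σ
  obtain ⟨Z, hZd, hZ0, hZF, _⟩ := hroot (Real.log rF) le_rfl τ₀ (hτ₀σ.trans_le hσ'le) _ hu0
  obtain ⟨Z1, hZ1d, hZ10, hZ1F, hZ1u⟩ := hroot σ' hσ'le τ₀ hτ₀σ _ hu0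
  have hsub : {τ : ℂ | τ.re < σ'} ⊆ {τ : ℂ | τ.re < Real.log rF} :=
    fun τ hτ => lt_of_lt_of_le hτ hσ'le
  have hZψ : ∀ τ : ℂ, τ.re < σ' → Z τ = ψ (Complex.exp τ) := by
    have h1 := hZ1u Z (hZd.continuousOn.mono hsub) ⟨τ₀, hτ₀σ, by rw [hZ0, hZ10]⟩
      (fun τ hτ => hZF τ (hsub hτ))
    have h2 := hZ1u (fun τ => ψ (Complex.exp τ))
      (hψ.continuousOn.comp Complex.continuous_exp.continuousOn (fun τ hτ => hexpr τ hτ))
      ⟨τ₀, hτ₀σ, by rw [hZ10]⟩ (fun τ hτ => hψF τ hτ)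
    intro τ hτ
    rw [h1 τ hτ, h2 τ hτ]
  have hZR : ∀ τ : ℂ, τ.re < Real.log rF → ‖Z τ‖ ≤ R := by
    intro τ hτ
    refine H2 (Z τ) N _ (hwr τ hτ) ?_
    rw [← hFcr]
    exact hZF τ hτ
  -- the bounded function
  set h : ℂ → ℂ := fun τ => (Z τ - ψ 0) * Complex.exp (-τ) with hh
  have hhd : DifferentiableOn ℂ h {τ : ℂ | τ.re < Real.log rF} :=
    (hZd.sub_const _).mul (Complex.differentiable_exp.comp differentiable_neg).differentiableOn
  have hZ2R : ∀ τ : ℂ, τ.re < Real.log rF → ‖Z τ - ψ 0‖ ≤ 2 * R := by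
    intro τ hτ
    calc ‖Z τ - ψ 0‖ ≤ ‖Z τ‖ + ‖ψ 0‖ := norm_sub_le _ _
      _ ≤ 2 * R := by have := hZR τ hτ; have := hψR 0 h0r; linarith
  have hh1 : ∀ τ : ℂ, τ.re < Real.log rF → ‖h τ‖ ≤ 2 * R * Real.exp (-τ.re) := by
    intro τ hτ
    rw [hh]
    simp only [norm_mul, Complex.norm_exp, Complex.neg_re]
    exact mul_le_mul_of_nonneg_right (hZ2R τ hτ) (Real.exp_pos _).le
  have hSch : ∀ w ∈ ball (0 : ℂ) r, ‖ψ w - ψ 0‖ ≤ 2 * R / r * ‖w‖ := by
    intro w hw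
    have hmaps : MapsTo ψ (ball 0 r) (closedBall (ψ 0) (2 * R)) := by
      intro v hv
      rw [mem_closedBall, dist_eq_norm]
      calc ‖ψ v - ψ 0‖ ≤ ‖ψ v‖ + ‖ψ 0‖ := norm_sub_le _ _
        _ ≤ 2 * R := by have := hψR v hv; have := hψR 0 h0r; linarith
    have := Complex.dist_le_div_mul_dist_of_mapsTo_ball hψ hmaps hw
    rwa [dist_eq_norm, dist_zero_right] at this
  have hh2 : ∀ τ : ℂ, τ.re < σ' → ‖h τ‖ ≤ 2 * R / r := by
    intro τ hτ
    rw [hh]
    simp only [norm_mul]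
    rw [hZψ τ hτ]
    have h1 := hSch _ (hexpr τ hτ)
    have h2 : ‖Complex.exp τ‖ * ‖Complex.exp (-τ)‖ = 1 := by
      rw [← norm_mul, ← Complex.exp_add, add_neg_cancel, Complex.exp_zero, norm_one]
    calc ‖ψ (Complex.exp τ) - ψ 0‖ * ‖Complex.exp (-τ)‖
        ≤ (2 * R / r * ‖Complex.exp τ‖) * ‖Complex.exp (-τ)‖ :=
          mul_le_mul_of_nonneg_right h1 (norm_nonneg _)
      _ = 2 * R / r := by rw [mul_assoc, h2, mul_one]
  -- Phragmen-Lindelöf
  have hPL : ∀ σ : ℝ, σ < Real.log rF → ∀ z : ℂ, 0 ≤ z.re → ‖h ((σ : ℂ) - z)‖ ≤ 2 * R * Real.exp (-σ) := by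
    intro σ hσ z hz
    have hre : ∀ z : ℂ, 0 ≤ z.re → ((σ : ℂ) - z).re < Real.log rF := by
      intro z hz
      rw [Complex.sub_re, Complex.ofReal_re]; linarith
    have hbd : ∀ z : ℂ, 0 ≤ z.re → ‖h ((σ : ℂ) - z)‖ ≤
        max (2 * R / r) (2 * R * Real.exp (-(σ' - 1))) := by
      intro z hz
      rcases lt_or_ge ((σ : ℂ) - z).re σ' with h1 | h1
      · exact (hh2 _ h1).trans (le_max_left _ _)
      · refine (hh1 _ (hre z hz)).trans (le_trans ?_ (le_max_right _ _))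
        apply mul_le_mul_of_nonneg_left _ (by linarith)
        apply Real.exp_le_exp.mpr
        linarith
    have hdc : DiffContOnCl ℂ (fun z : ℂ => h ((σ : ℂ) - z)) {z : ℂ | 0 < z.re} := by
      have hdo : DifferentiableOn ℂ (fun z : ℂ => h ((σ : ℂ) - z)) {z : ℂ | σ - Real.log rF < z.re} := by
        refine hhd.comp ((differentiable_const _).sub differentiable_id).differentiableOn ?_
        intro z hz
        simp only [mem_setOf_eq, Complex.sub_re, Complex.ofReal_re, id] at hz ⊢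
        linarith
      have hcl : closure {z : ℂ | 0 < z.re} ⊆ {z : ℂ | σ - Real.log rF < z.re} := by
        rw [Complex.closure_setOf_lt_re]
        intro z hz
        simp only [mem_setOf_eq] at hz ⊢
        linarith
      exact ⟨hdo.mono (subset_closure.trans hcl), hdo.continuousOn.mono hcl⟩
    refine PhragmenLindelof.right_half_plane_of_bounded_on_real
      (f := fun z : ℂ => h ((σ : ℂ) - z)) hdc ?_ ?_ ?_ hz
    · refine ⟨0, by norm_num, 0, ?_⟩
      refine Asymptotics.IsBigO.of_bound (max (2 * R / r) (2 * R * Real.exp (-(σ' - 1)))) ?_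
      refine Filter.Eventually.filter_mono inf_le_right ?_
      rw [Filter.eventually_principal]
      intro z hz
      simp only [zero_mul, Real.exp_zero, norm_one, mul_one]
      exact hbd z (le_of_lt hz)
    · refine ⟨max (2 * R / r) (2 * R * Real.exp (-(σ' - 1))), ?_⟩
      rw [Filter.eventually_map]
      filter_upwards [Filter.eventually_ge_atTop (0 : ℝ)] with t ht
      exact hbd (t : ℂ) (by simpa using ht)
    · intro t
      have h1 : ((σ : ℂ) - t * Complex.I).re = σ := by simp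
      have h2 := hh1 ((σ : ℂ) - t * Complex.I) (by rw [h1]; exact hσ)
      rwa [h1] at h2
  -- the limit at `-∞`
  have hlim : Tendsto (fun n : ℕ => h (-(n : ℂ))) atTop (𝓝 (deriv ψ 0)) := by
    have hder : HasDerivAt ψ (deriv ψ 0) 0 :=
      (hψ.differentiableAt (isOpen_ball.mem_nhds h0r)).hasDerivAt
    have hexp0 : Tendsto (fun n : ℕ => Complex.exp (-(n : ℂ))) atTop (𝓝[≠] 0) := by
      rw [tendsto_nhdsWithin_iff]
      refine ⟨?_, Filter.Eventually.of_forall fun n => Complex.exp_ne_zero _⟩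
      rw [tendsto_zero_iff_norm_tendsto_zero]
      have : (fun n : ℕ => ‖Complex.exp (-(n : ℂ))‖) = fun n : ℕ => Real.exp (-(n : ℝ)) := by
        funext n; rw [Complex.norm_exp]; simp
      rw [this]
      exact (Real.tendsto_exp_neg_atTop_nhds_zero).comp tendsto_natCast_atTop_atTop
    have hs := (hasDerivAt_iff_tendsto_slope.mp hder).comp hexp0
    refine hs.congr' ?_
    have hev : ∀ᶠ n : ℕ in atTop, -(n : ℝ) < σ' := by
      have : Tendsto (fun n : ℕ => -(n : ℝ)) atTop atBot :=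
        tendsto_neg_atTop_atBot.comp tendsto_natCast_atTop_atTop
      exact this.eventually (Filter.eventually_lt_atBot σ')
    filter_upwards [hev] with n hn
    have hre : (-(n : ℂ)).re < σ' := by simpa using hn
    simp only [Function.comp_apply, slope_def_field, sub_zero]
    rw [hh]
    simp only [neg_neg]
    rw [hZψ _ hre, Complex.exp_neg]
    field_simp
  have hfin : ∀ σ : ℝ, σ < Real.log rF → ‖deriv ψ 0‖ ≤ 2 * R * Real.exp (-σ) := by
    intro σ hσ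
    refine le_of_tendsto hlim.norm ?_
    have hev : ∀ᶠ n : ℕ in atTop, -(n : ℝ) ≤ σ := by
      have : Tendsto (fun n : ℕ => -(n : ℝ)) atTop atBot :=
        tendsto_neg_atTop_atBot.comp tendsto_natCast_atTop_atTop
      exact this.eventually (Filter.eventually_le_atBot σ)
    filter_upwards [hev] with n hn
    have := hPL σ hσ ((σ : ℂ) + n) (by simp; linarith)
    simpa using this
  have hlast : ‖deriv ψ 0‖ ≤ 2 * R * Real.exp (-Real.log rF) := by
    have hc : Tendsto (fun σ : ℝ => 2 * R * Real.exp (-σ)) (𝓝[<] Real.log rF)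
        (𝓝 (2 * R * Real.exp (-Real.log rF))) := by
      have : Continuous (fun σ : ℝ => 2 * R * Real.exp (-σ)) := by fun_prop
      exact this.continuousAt.tendsto.mono_left nhdsWithin_le_nhds
    refine ge_of_tendsto hc ?_
    filter_upwards [self_mem_nhdsWithin] with σ hσ
    exact hfin σ hσ
  rw [Real.exp_neg, Real.exp_log hrF] at hlast
  calc ‖deriv ψ 0‖ * rF ≤ (2 * R * rF⁻¹) * rF := mul_le_mul_of_nonneg_right hlast hrF.le
    _ = 2 * R := by field_simp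

end Pool.Agent.H790R3.RB
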