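import Mathlib
import Pool.Agent.H790R3.RB.St
import Pool.Agent.H713R3.ZA.TGAIN

/-!
Task GAINA: the area theorem with gain (adapted from `Pool.Agent.H713R3.ZA.TGAIN` by helper790).
-/

set_option autoImplicit false

open Topology Filter Metric Set MeasureTheory Polynomial

namespace Pool.Agent.H790R3.RB

namespace GAINA

open Pool.Agent.H713R2 Pool.Agent.H713R2.AR
open Pool.Agent.H713R3.ZA.GAIN (gg gg_of_ne UU_eq)

/-- `Φ (1/x) - 1/x` -/
noncomputable def hh (Φ : ℂ → ℂ) (x : ℂ) : ℂ := if x = 0 then 0 else Φ x⁻¹ - x⁻¹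

theorem gg_eq (Φ : ℂ → ℂ) (x : ℂ) : gg Φ x = 1 + x * hh Φ x := by
  by_cases hx : x = 0
  · subst hx; simp [gg]
  · rw [gg_of_ne hx, hh, if_neg hx]
    field_simp
    ring

theorem hh_diff {Φ : ℂ → ℂ} {R : ℝ} (hR : 0 < R)
    (hd : DifferentiableOn ℂ Φ {z : ℂ | R < ‖z‖})
    (ht : Tendsto (fun z => Φ z - z) (cocompact ℂ) (𝓝 0)) :
    DifferentiableOn ℂ (hh Φ) (ball 0 R⁻¹) := by
  have hinv : ∀ x ∈ ball (0 : ℂ) R⁻¹, x ≠ 0 → R < ‖x⁻¹‖ := by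
    intro x hx hx0
    rw [mem_ball_zero_iff] at hx
    rw [norm_inv]
    exact (lt_inv_comm₀ (norm_pos_iff.2 hx0) hR).1 hx
  have hs : ball (0 : ℂ) R⁻¹ ∈ 𝓝 (0 : ℂ) := ball_mem_nhds _ (inv_pos.2 hR)
  rw [← Complex.differentiableOn_compl_singleton_and_continuousAt_iff hs]
  constructor
  · have h1 : DifferentiableOn ℂ (fun x => Φ x⁻¹ - x⁻¹) (ball (0 : ℂ) R⁻¹ \ {0}) := by
      have hi : DifferentiableOn ℂ (fun x : ℂ => x⁻¹) (ball (0 : ℂ) R⁻¹ \ {0}) := by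
        intro x hx
        exact (differentiableAt_inv hx.2).differentiableWithinAt
      apply DifferentiableOn.sub _ hi
      apply hd.comp hi
      intro x hx
      exact hinv x hx.1 hx.2
    apply h1.congr
    intro x hx
    exact if_neg hx.2
  · have h0 : hh Φ 0 = 0 := if_pos rfl
    rw [continuousAt_iff_punctured_nhds, h0]
    have h1 : Tendsto (fun x : ℂ => Φ x⁻¹ - x⁻¹) (𝓝[≠] 0) (𝓝 0) := by
      have h2 : Tendsto (fun x : ℂ => x⁻¹) (𝓝[≠] 0) (cocompact ℂ) := by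
        rw [← Metric.cobounded_eq_cocompact]
        exact tendsto_inv₀_nhdsNE_zero
      exact ht.comp h2
    apply h1.congr'
    filter_upwards [self_mem_nhdsWithin] with x hx
    exact (if_neg hx).symm

theorem gg_diff {Φ : ℂ → ℂ} {R : ℝ} (hR : 0 < R)
    (hd : DifferentiableOn ℂ Φ {z : ℂ | R < ‖z‖})
    (ht : Tendsto (fun z => Φ z - z) (cocompact ℂ) (𝓝 0)) :
    DifferentiableOn ℂ (gg Φ) (ball 0 R⁻¹) ∧ tc (gg Φ) 1 = 0 := by
  have hh1 := hh_diff hR hd ht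
  have hg : gg Φ = fun x => 1 + x * hh Φ x := funext (gg_eq Φ)
  constructor
  · rw [hg]
    exact (differentiableOn_const _).add (differentiableOn_id.mul hh1)
  · have hs : ball (0 : ℂ) R⁻¹ ∈ 𝓝 (0 : ℂ) := ball_mem_nhds _ (inv_pos.2 hR)
    have h0 : HasDerivAt (hh Φ) (deriv (hh Φ) 0) 0 :=
      (hh1.differentiableAt hs).hasDerivAt
    have h1 : HasDerivAt (gg Φ) 0 0 := by
      rw [hg]
      have h2 := ((hasDerivAt_id (0 : ℂ)).mul h0).const_add 1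
      have h3 : (1 : ℂ) * hh Φ 0 + id (0 : ℂ) * deriv (hh Φ) 0 = 0 := by
        simp [hh]
      rw [h3] at h2
      exact h2
    simp only [tc, iteratedDeriv_one, h1.deriv, mul_zero]

theorem isExt {Φ : ℂ → ℂ} {R : ℝ} (hR0 : 0 < R)
    (hd : DifferentiableOn ℂ Φ {z : ℂ | R < ‖z‖}) (hi : InjOn Φ {z : ℂ | R < ‖z‖})
    (ht : Tendsto (fun z => Φ z - z) (cocompact ℂ) (𝓝 0)) : IsExt R⁻¹ (gg Φ) := by
  have hinv : ∀ x ∈ ball (0 : ℂ) R⁻¹, x ≠ 0 → R < ‖x⁻¹‖ := by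
    intro x hx hx0
    rw [mem_ball_zero_iff] at hx
    rw [norm_inv]
    exact (lt_inv_comm₀ (norm_pos_iff.2 hx0) hR0).1 hx
  refine ⟨(gg_diff hR0 hd ht).1, by simp [gg], ?_⟩
  intro x hx y hy hx0 hy0 hxy
  rw [gg_of_ne hx0, gg_of_ne hy0, ← mul_assoc, ← mul_assoc, inv_mul_cancel₀ hx0,
    inv_mul_cancel₀ hy0, one_mul, one_mul] at hxy
  exact inv_injective (hi (hinv x hx hx0) (hinv y hy hy0) hxy)

/-- Area theorem: area of the complement and expansion of `Φ`. -/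
theorem area {Φ : ℂ → ℂ} {R S T : ℝ} (hR0 : 0 < R) (hS : R < S) (hT : S < T)
    (hd : DifferentiableOn ℂ Φ {z : ℂ | R < ‖z‖}) (hi : InjOn Φ {z : ℂ | R < ‖z‖})
    (ht : Tendsto (fun z => Φ z - z) (cocompact ℂ) (𝓝 0)) :
    ∃ σ : ℝ, 0 ≤ σ ∧ σ ≤ 1 ∧
      volume (Φ '' {z : ℂ | S < ‖z‖})ᶜ = ENNReal.ofReal (Real.pi * S ^ 2 * (1 - σ)) ∧
      ∀ z : ℂ, T ≤ ‖z‖ → ‖Φ z - z‖ ≤ S * Real.sqrt σ * (S / (T - S)) := by
  have hS0 : 0 < S := by linarith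
  have hT0 : 0 < T := by linarith
  have hext := isExt hR0 hd hi ht
  have htc1 := (gg_diff hR0 hd ht).2
  have hρ : 0 < S⁻¹ := inv_pos.2 hS0
  have hρR : S⁻¹ < R⁻¹ := (inv_lt_inv₀ hS0 hR0).2 hS
  obtain ⟨hsum, hint⟩ := area_formula hρ hρR hext (Q := X) (D := 1) (H := gg Φ) hext.diff (by
    intro x _ hx0
    rw [eval_X, pow_one, ← mul_assoc, mul_inv_cancel₀ hx0, one_mul])
  have hone : (fun z : ℂ => ‖(derivative (X : ℂ[X])).eval z‖ ^ 2) = fun _ => (1 : ℝ) := by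
    funext z; simp
  rw [hone] at hsum hint
  have hfin : volume (UU (gg Φ) S⁻¹)ᶜ < ⊤ := by
    rw [integrableOn_const_iff] at hint
    rcases hint with h | h
    · exact absurd h (by simp)
    · exact h
  set V : ℝ := (volume (UU (gg Φ) S⁻¹)ᶜ).toReal with hV
  have hVint : ∫ _ in (UU (gg Φ) S⁻¹)ᶜ, (1 : ℝ) = V := by
    rw [setIntegral_const, smul_eq_mul, mul_one]
    rfl
  rw [hVint] at hsum
  have h2 := (hasSum_nat_add_iff' 2).2 hsum
  rw [Finset.sum_range_succ, Finset.sum_range_one] at h2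
  have e0 : tc (gg Φ) 0 = 1 := by rw [tc_zero]; exact hext.zero
  rw [e0] at h2
  simp only [Nat.cast_one, Nat.cast_zero, sub_zero, norm_one, one_pow, mul_zero, pow_zero, mul_one,
    sub_self, zero_mul, add_zero] at h2
  have h3 : HasSum (fun k : ℕ => ((k : ℝ) + 1) * (‖tc (gg Φ) (k + 2)‖ ^ 2 * S⁻¹ ^ (2 * (k + 2))))
      (1 - S⁻¹ ^ (2 * 1) / Real.pi * V) := by
    have h4 := h2.neg
    have e1 : -(S⁻¹ ^ (2 * 1) / Real.pi * V - 1) = 1 - S⁻¹ ^ (2 * 1) / Real.pi * V := by ring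
    rw [e1] at h4
    refine h4.congr_fun ?_
    intro k
    push_cast
    ring
  set σ : ℝ := 1 - S⁻¹ ^ (2 * 1) / Real.pi * V with hσ
  have hterm : ∀ k : ℕ, 0 ≤ ((k : ℝ) + 1) * (‖tc (gg Φ) (k + 2)‖ ^ 2 * S⁻¹ ^ (2 * (k + 2))) :=
    fun k => by positivity
  have hσ0 : 0 ≤ σ := h3.nonneg hterm
  have hV0 : 0 ≤ V := ENNReal.toReal_nonneg
  have hσ1 : σ ≤ 1 := by
    have : 0 ≤ S⁻¹ ^ (2 * 1) / Real.pi * V := by positivity
    rw [hσ]; linarith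
  have hVeq : V = Real.pi * S ^ 2 * (1 - σ) := by
    rw [hσ]
    have hS2 : S ^ 2 * S⁻¹ ^ 2 = 1 := by rw [← mul_pow, mul_inv_cancel₀ hS0.ne', one_pow]
    have hpi : Real.pi / Real.pi = 1 := div_self Real.pi_ne_zero
    calc V = (S ^ 2 * S⁻¹ ^ 2) * V * (Real.pi / Real.pi) := by rw [hS2, hpi, one_mul, mul_one]
      _ = _ := by ring
  refine ⟨σ, hσ0, hσ1, ?_, ?_⟩
  · rw [← UU_eq hS0, ← hVeq, hV, ENNReal.ofReal_toReal hfin.ne]
  · intro z hz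
    have hz0' : 0 < ‖z‖ := by linarith
    have hz0 : z ≠ 0 := norm_pos_iff.1 hz0'
    have hzi : z⁻¹ ≠ 0 := inv_ne_zero hz0
    have hxn : ‖z⁻¹‖ ≤ T⁻¹ := by
      rw [norm_inv]
      exact inv_anti₀ hT0 hz
    have hTS : T⁻¹ < S⁻¹ := (inv_lt_inv₀ hT0 hS0).2 hT
    have hxb : z⁻¹ ∈ ball (0 : ℂ) R⁻¹ := by
      rw [mem_ball_zero_iff]
      linarith
    have h5 := hasSum_tc hext.diff hxb
    have h6 := (hasSum_nat_add_iff' 2).2 h5
    rw [Finset.sum_range_succ, Finset.sum_range_one, e0, htc1, gg_of_ne hzi, inv_inv] at h6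
    have h7 := h6.mul_left z
    have e2 : z * (z⁻¹ * Φ z - (1 * z⁻¹ ^ 0 + 0 * z⁻¹ ^ 1)) = Φ z - z := by
      field_simp
      ring
    rw [e2] at h7
    rw [← h7.tsum_eq]
    set ρ : ℝ := S / T with hρdef
    have hρ0 : 0 < ρ := div_pos hS0 hT0
    have hρ1 : ρ < 1 := (div_lt_one hT0).2 hT
    have hle : ∀ k : ℕ, ‖z * (tc (gg Φ) (k + 2) * z⁻¹ ^ (k + 2))‖ ≤
        (S * Real.sqrt σ) * ρ * ρ ^ k := by
      intro k
      have e3 : z * (tc (gg Φ) (k + 2) * z⁻¹ ^ (k + 2)) = tc (gg Φ) (k + 2) * z⁻¹ ^ (k + 1) := by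
        rw [pow_succ z⁻¹ (k + 1)]
        field_simp
      rw [e3, norm_mul, norm_pow]
      have h8 : ‖tc (gg Φ) (k + 2)‖ * S⁻¹ ^ (k + 2) ≤ Real.sqrt σ := by
        apply Real.le_sqrt_of_sq_le
        have h9 := le_hasSum h3 k (fun j _ => hterm j)
        have h10 : 0 ≤ ‖tc (gg Φ) (k + 2)‖ ^ 2 * S⁻¹ ^ (2 * (k + 2)) := by positivity
        have h11 : (‖tc (gg Φ) (k + 2)‖ * S⁻¹ ^ (k + 2)) ^ 2 =
            ‖tc (gg Φ) (k + 2)‖ ^ 2 * S⁻¹ ^ (2 * (k + 2)) := by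
          rw [mul_pow, ← pow_mul, mul_comm (k + 2) 2]
        rw [h11]
        have hk0 : (0 : ℝ) ≤ k := Nat.cast_nonneg k
        nlinarith
      calc ‖tc (gg Φ) (k + 2)‖ * ‖z⁻¹‖ ^ (k + 1)
          ≤ ‖tc (gg Φ) (k + 2)‖ * T⁻¹ ^ (k + 1) :=
            mul_le_mul_of_nonneg_left (pow_le_pow_left₀ (norm_nonneg _) hxn _) (norm_nonneg _)
        _ = S * (‖tc (gg Φ) (k + 2)‖ * S⁻¹ ^ (k + 2)) * (ρ * ρ ^ k) := by
            have e5 : S⁻¹ ^ (k + 1) * S ^ (k + 1) = 1 := by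
              rw [← mul_pow, inv_mul_cancel₀ hS0.ne', one_pow]
            have e6 : ∀ a b c d t : ℝ, S * (a * (b * t)) * (c * d) = (S * t) * (b * c) * (a * d) := by
              intro a b c d t
              ring
            rw [hρdef, ← pow_succ' (S / T) k, div_eq_mul_inv, mul_pow, pow_succ S⁻¹ (k + 1), e6,
              mul_inv_cancel₀ hS0.ne', e5, one_mul, one_mul]
        _ ≤ S * Real.sqrt σ * (ρ * ρ ^ k) := by
            apply mul_le_mul_of_nonneg_right _ (by positivity)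
            exact mul_le_mul_of_nonneg_left h8 hS0.le
        _ = S * Real.sqrt σ * ρ * ρ ^ k := by ring
    have hgeo : HasSum (fun k : ℕ => (S * Real.sqrt σ) * ρ * ρ ^ k)
        (S * Real.sqrt σ * ρ * (1 - ρ)⁻¹) := by
      apply HasSum.mul_left
      exact hasSum_geometric_of_lt_one hρ0.le hρ1
    have := tsum_of_norm_bounded hgeo hle
    have e4 : S * Real.sqrt σ * ρ * (1 - ρ)⁻¹ = S * Real.sqrt σ * (S / (T - S)) := by
      have h12 : T - S ≠ 0 := by linarith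
      have h13 : 1 - S / T = (T - S) / T := by field_simp
      rw [hρdef, h13]
      field_simp
    rwa [e4] at this

end GAINA

theorem GAINA : StGAINA := by
  intro R R₁ R₂ hR hR1 hR2
  have hR10 : 0 < R₁ := by linarith
  have hsub : 0 < R₂ - R₁ := by linarith
  refine ⟨(R₁ / (R₂ - R₁)) ^ 2 / Real.pi, by positivity, ?_⟩
  intro Φ hd hi ht
  obtain ⟨σ, hσ0, hσ1, hvol, hexp⟩ := GAINA.area hR hR1 hR2 hd hi ht
  refine ⟨Real.pi * R₁ ^ 2 * σ, by positivity, ?_, ?_, ?_⟩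
  · have : 0 ≤ Real.pi * R₁ ^ 2 := by positivity
    nlinarith
  · rw [hvol]
    apply ENNReal.ofReal_le_ofReal
    linarith
  · intro z hz
    have h1 := pow_le_pow_left₀ (norm_nonneg _) (hexp z hz) 2
    refine h1.trans (le_of_eq ?_)
    rw [mul_pow, mul_pow, Real.sq_sqrt hσ0]
    field_simp

end Pool.Agent.H790R3.RB
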