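import Mathlib
import Pool.Agent.H790R3.RB.St

/-! The gain in the area theorem controls the distance of two conjugate maps. -/

set_option autoImplicit false

open Topology Filter Metric Set MeasureTheory

namespace Pool.Agent.H790R3.RB

namespace GAINB

lemma one_point {δ M Cg : ℝ} {g g' Φ : ℂ → ℂ} {ζ : ℂ} (hδ : 0 < δ) (hM : 0 ≤ M)
    (hd : DifferentiableOn ℂ g' (ball ζ δ)) (hb : ∀ w ∈ ball ζ δ, ‖g' w‖ ≤ M)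
    (hg : ‖g ζ‖ ≤ M) (hc : g' (Φ ζ) = Φ (g ζ))
    (h1 : ‖Φ ζ - ζ‖ ^ 2 ≤ Cg) (h2 : ‖Φ (g ζ) - g ζ‖ ^ 2 ≤ Cg) :
    ‖g' ζ - g ζ‖ ^ 2 ≤ (2 * ((2 * M + 1) / δ) ^ 2 + 2) * Cg := by
  have hCg : 0 ≤ Cg := le_trans (sq_nonneg _) h1
  have hζ : ζ ∈ ball ζ δ := mem_ball_self hδ
  by_cases he : ‖Φ ζ - ζ‖ < δ
  · have hmap : MapsTo g' (ball ζ δ) (closedBall (g' ζ) (2 * M + 1)) := by
      intro w hw
      rw [mem_closedBall, dist_eq_norm]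
      have h3 := hb w hw
      have h4 := hb ζ hζ
      have h5 := norm_sub_le (g' w) (g' ζ)
      linarith
    have hz : Φ ζ ∈ ball ζ δ := by rw [mem_ball, dist_eq_norm]; exact he
    have h6 := Complex.dist_le_div_mul_dist_of_mapsTo_ball hd hmap hz
    rw [dist_eq_norm, dist_eq_norm] at h6
    have h7 : ‖g' ζ - g ζ‖ ≤ (2 * M + 1) / δ * ‖Φ ζ - ζ‖ + ‖Φ (g ζ) - g ζ‖ := by
      have h8 : g' ζ - g ζ = -(g' (Φ ζ) - g' ζ) + (Φ (g ζ) - g ζ) := by rw [hc]; ring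
      rw [h8]
      refine (norm_add_le _ _).trans ?_
      rw [norm_neg]
      linarith
    have h9 : 0 ≤ (2 * M + 1) / δ := by positivity
    have h10 : 0 ≤ ‖Φ ζ - ζ‖ := norm_nonneg _
    have h11 : 0 ≤ ‖Φ (g ζ) - g ζ‖ := norm_nonneg _
    have h12 : ‖g' ζ - g ζ‖ ^ 2 ≤ ((2 * M + 1) / δ * ‖Φ ζ - ζ‖ + ‖Φ (g ζ) - g ζ‖) ^ 2 :=
      pow_le_pow_left₀ (norm_nonneg _) h7 2
    have h13 : ((2 * M + 1) / δ * ‖Φ ζ - ζ‖) ^ 2 ≤ ((2 * M + 1) / δ) ^ 2 * Cg := by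
      rw [mul_pow]
      exact mul_le_mul_of_nonneg_left h1 (sq_nonneg _)
    nlinarith [sq_nonneg ((2 * M + 1) / δ * ‖Φ ζ - ζ‖ - ‖Φ (g ζ) - g ζ‖)]
  · push Not at he
    have h3 : δ ^ 2 ≤ Cg := (pow_le_pow_left₀ hδ.le he 2).trans h1
    have h4 : ‖g' ζ - g ζ‖ ≤ 2 * M := by
      have := norm_sub_le (g' ζ) (g ζ)
      have := hb ζ hζ
      linarith
    have h5 : ‖g' ζ - g ζ‖ ^ 2 ≤ (2 * M + 1) ^ 2 :=
      pow_le_pow_left₀ (norm_nonneg _) (by linarith) 2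
    have h6 : (2 * M + 1) ^ 2 = ((2 * M + 1) / δ) ^ 2 * δ ^ 2 := by
      field_simp
    have h7 : ((2 * M + 1) / δ) ^ 2 * δ ^ 2 ≤ ((2 * M + 1) / δ) ^ 2 * Cg :=
      mul_le_mul_of_nonneg_left h3 (sq_nonneg _)
    nlinarith [sq_nonneg ((2 * M + 1) / δ), mul_nonneg (sq_nonneg ((2 * M + 1) / δ)) hCg]

end GAINB

theorem GAINB (hGAINA : StGAINA) : StGAINB := by
  intro R R₁ R₂ δ M Z hR hR1 hR2 hδ hM hZ
  obtain ⟨C, hC, hgain⟩ := hGAINA R R₁ R₂ hR hR1 hR2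
  set B : ℝ := 2 * ((2 * M + 1) / δ) ^ 2 + 2 with hB
  have hBpos : 0 < B := by positivity
  have hden : 0 < (Z.card : ℝ) * (B * C) + 1 := by positivity
  refine ⟨1 / ((Z.card : ℝ) * (B * C) + 1), by positivity, ?_⟩
  intro g g' Φ hΦ hinj hlim h1 h2
  obtain ⟨G, hG0, hG1, hG2, hG3⟩ := hgain Φ hΦ hinj hlim
  refine hG2.trans (ENNReal.ofReal_le_ofReal ?_)
  have hsum : ∑ ζ ∈ Z, ‖g' ζ - g ζ‖ ^ 2 ≤ (Z.card : ℝ) * (B * C * G) := by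
    have h3 : ∀ ζ ∈ Z, ‖g' ζ - g ζ‖ ^ 2 ≤ B * C * G := by
      intro ζ hζ
      have := GAINB.one_point (Cg := C * G) (g := g) (g' := g') (Φ := Φ) hδ hM (h1 ζ hζ).1
        (h1 ζ hζ).2 (h2 ζ hζ).1 (h2 ζ hζ).2.2 (hG3 ζ (hZ ζ hζ)) (hG3 (g ζ) (h2 ζ hζ).2.1)
      rw [← hB] at this
      calc ‖g' ζ - g ζ‖ ^ 2 ≤ B * (C * G) := this
        _ = B * C * G := by ring
    calc ∑ ζ ∈ Z, ‖g' ζ - g ζ‖ ^ 2 ≤ ∑ ζ ∈ Z, B * C * G := Finset.sum_le_sum h3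
      _ = (Z.card : ℝ) * (B * C * G) := by rw [Finset.sum_const, nsmul_eq_mul]
  have h4 : 1 / ((Z.card : ℝ) * (B * C) + 1) * ∑ ζ ∈ Z, ‖g' ζ - g ζ‖ ^ 2 ≤ G := by
    rw [one_div, inv_mul_le_iff₀ hden]
    calc ∑ ζ ∈ Z, ‖g' ζ - g ζ‖ ^ 2 ≤ (Z.card : ℝ) * (B * C * G) := hsum
      _ ≤ ((Z.card : ℝ) * (B * C) + 1) * G := by nlinarith
  linarith

end Pool.Agent.H790R3.RB
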