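import Mathlib
import Pool.Agent.H790R3.RB.St2
import Pool.Agent.H790R3.RB.Basic

/-! Task GEN: generic maps have simple critical points, none of them periodic. -/

set_option autoImplicit false

open Topology Filter Metric Set MeasureTheory

namespace Pool.Agent.H790R3.RB

namespace GEN

open Polynomial

noncomputable section

/-- interpolation nodes -/
def nd (N : ℕ) (i : Fin (N + 1)) : ℂ := ((i : ℕ) : ℂ)

theorem nd_inj (N : ℕ) : Set.InjOn (nd N) ((Finset.univ : Finset (Fin (N + 1))) : Set _) := by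
  intro i _ j _ h
  simp only [nd, Nat.cast_inj] at h
  exact Fin.ext h

/-- the polynomial of degree at most `N` with the values of `g` at `0, …, N` -/
def ip (N : ℕ) (g : ℂ → ℂ) : ℂ[X] :=
  Lagrange.interpolate Finset.univ (nd N) (fun i => g (nd N i))

theorem ip_eq {N : ℕ} {W : ℂ[X]} {g : ℂ → ℂ} (h : W.natDegree ≤ N)
    (hg : ∀ ζ, W.eval ζ = g ζ) : ip N g = W := by
  symm
  apply Lagrange.eq_interpolate_of_eval_eq _ (nd_inj N) _ (fun i _ => hg _)
  rw [Finset.card_univ, Fintype.card_fin]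
  calc W.degree ≤ (W.natDegree : WithBot ℕ) := degree_le_natDegree
    _ ≤ (N : WithBot ℕ) := by exact_mod_cast h
    _ < ((N + 1 : ℕ) : WithBot ℕ) := by exact_mod_cast Nat.lt_succ_self N

theorem ip_coeff (N k : ℕ) (g : ℂ → ℂ) : (ip N g).coeff k =
    ∑ i : Fin (N + 1), g (nd N i) * (Lagrange.basis Finset.univ (nd N) i).coeff k := by
  unfold ip
  rw [Lagrange.interpolate_apply, finsetSum_coeff]
  simp only [coeff_C_mul]

theorem diff_coeff {d N : ℕ} (k : ℕ) {G : CV d → ℂ → ℂ}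
    (hG : ∀ ζ, Differentiable ℂ (fun x => G x ζ)) :
    Differentiable ℂ (fun x => (ip N (G x)).coeff k) := by
  simp only [ip_coeff]
  apply Differentiable.fun_sum
  intro i _
  exact (hG _).mul_const _

theorem diff_res {d : ℕ} {f g : CV d → ℂ[X]} (m n : ℕ)
    (hf : ∀ k, Differentiable ℂ (fun x => (f x).coeff k))
    (hg : ∀ k, Differentiable ℂ (fun x => (g x).coeff k)) :
    Differentiable ℂ (fun x => resultant (f x) (g x) m n) := by
  have he : ∀ i j, Differentiable ℂ (fun x => sylvester (f x) (g x) m n i j) := by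
    intro i j
    induction j using Fin.addCases with
    | left j =>
      simp only [sylvester, Matrix.of_apply, Fin.addCases_left]
      split_ifs
      · exact hg _
      · exact differentiable_const _
    | right j =>
      simp only [sylvester, Matrix.of_apply, Fin.addCases_right]
      split_ifs
      · exact hf _
      · exact differentiable_const _
  have h2 : (fun x => resultant (f x) (g x) m n) = fun x =>
      ∑ σ : Equiv.Perm (Fin (m + n)), ((Equiv.Perm.sign σ : ℤ) : ℂ) *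
        ∏ i, sylvester (f x) (g x) m n (σ i) i := by
    funext x
    rw [resultant, Matrix.det_apply']
  rw [h2]
  apply Differentiable.fun_sum
  intro σ _
  apply Differentiable.const_mul
  have hp : ∀ s : Finset (Fin (m + n)), Differentiable ℂ
      (fun x => ∏ i ∈ s, sylvester (f x) (g x) m n (σ i) i) := by
    intro s
    induction s using Finset.induction_on with
    | empty => simp
    | insert a s ha ih =>
      simp only [Finset.prod_insert ha]
      exact (he _ _).mul ih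
  exact hp _

theorem dense_ne {d : ℕ} {D : CV d → ℂ} (hD : Differentiable ℂ D) {x₁ : CV d}
    (h1 : D x₁ ≠ 0) : Dense {x | D x ≠ 0} := by
  intro x₀
  rw [mem_closure_iff_frequently]
  intro hev
  have hev : ∀ᶠ x in 𝓝 x₀, D x = 0 := by
    filter_upwards [hev] with x hx
    by_contra h; exact hx h
  set l : ℂ → CV d := fun s => x₀ + s • (x₁ - x₀) with hl
  have hld : Differentiable ℂ l := by
    rw [hl]
    exact (differentiable_const _).add (differentiable_id.smul_const _)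
  have hg : Differentiable ℂ (fun s => D (l s)) := hD.comp hld
  have hga : AnalyticOnNhd ℂ (fun s => D (l s)) Set.univ :=
    (hg.differentiableOn).analyticOnNhd isOpen_univ
  have h0 : (fun s => D (l s)) =ᶠ[𝓝 0] 0 := by
    have : Tendsto l (𝓝 0) (𝓝 x₀) := by
      have h := hld.continuous.tendsto 0
      simpa [hl] using h
    exact this.eventually hev
  have h2 := hga.eq_of_eventuallyEq (analyticOnNhd_const (v := (0 : ℂ))) (z₀ := 0) h0
  have h3 := congrFun h2 1
  apply h1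
  simpa [hl] using h3

theorem sum_pick {d k : ℕ} (hk : k ≤ d) (c : ℂ) (f : ℕ → ℂ) :
    ∑ j : Fin (d + 1), (if (j : ℕ) = k then c else 0) * f (j : ℕ) = c * f k := by
  rw [Finset.sum_eq_single (⟨k, by omega⟩ : Fin (d + 1))]
  · simp
  · intro b _ hb
    rw [if_neg, zero_mul]
    intro h
    exact hb (Fin.ext h)
  · simp

theorem sum_pick2 {d k l : ℕ} (hk : k ≤ d) (hl : l ≤ d) (c e : ℂ) (f : ℕ → ℂ) :
    ∑ j : Fin (d + 1), ((if (j : ℕ) = k then c else 0) + (if (j : ℕ) = l then e else 0)) *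
      f (j : ℕ) = c * f k + e * f l := by
  simp only [add_mul, Finset.sum_add_distrib]
  rw [sum_pick hk, sum_pick hl]

/-- test map with simple critical points -/
def x2 (d : ℕ) : CV d := fun p =>
  if p.1 = 0 then (if (p.2 : ℕ) = d then 1 else 0) + (if (p.2 : ℕ) = 1 then 1 / 2 else 0)
  else (if (p.2 : ℕ) = 0 then 1 else 0) + (if (p.2 : ℕ) = d - 1 then 1 / 2 else 0)

/-- test map whose critical points are not periodic -/
def x3 (d : ℕ) : CV d := fun p =>
  if p.1 = 0 then (if (p.2 : ℕ) = 0 then 1 else 0)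
  else (if (p.2 : ℕ) = 0 then 1 else 0) + (if (p.2 : ℕ) = d then 1 else 0)

theorem wr_x2 {d : ℕ} (hd : 2 ≤ d) (ζ : ℂ) : wr (x2 d) (ζ, 1) =
    (d : ℂ) / 2 * ζ ^ (2 * d - 2) + (d : ℂ) * (3 * d + 2) / 4 * ζ ^ (d - 1) + (d : ℂ) / 2 := by
  unfold wr
  simp only [x2, one_ne_zero, if_true, if_false, one_pow, mul_one]
  rw [sum_pick2 (le_refl d) (by omega) 1 (1 / 2) (fun j => (j : ℂ) * ζ ^ (j - 1)),
    sum_pick2 (Nat.zero_le d) (by omega) 1 (1 / 2) (fun j => ((d - j : ℕ) : ℂ) * ζ ^ j),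
    sum_pick2 (le_refl d) (by omega) 1 (1 / 2) (fun j => ((d - j : ℕ) : ℂ) * ζ ^ j),
    sum_pick2 (Nat.zero_le d) (by omega) 1 (1 / 2) (fun j => (j : ℂ) * ζ ^ (j - 1))]
  obtain ⟨e, rfl⟩ : ∃ e, d = e + 2 := ⟨d - 2, by omega⟩
  have h1 : e + 2 - (e + 2 - 1) = 1 := by omega
  have h2 : e + 2 - 1 = e + 1 := by omega
  have h3 : 2 * (e + 2) - 2 = (e + 1) + (e + 1) := by omega
  have h4 : e + 1 - 1 = e := by omega
  have h5 : e + 2 - 0 = e + 2 := by omega
  have h6 : e + 2 - (e + 1) = 1 := by omega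
  simp only [h1, h2, h3, h4, h5, h6, Nat.sub_self, Nat.cast_zero, Nat.cast_one, pow_zero]
  push_cast
  rw [pow_add]
  ring

theorem wr_x3 {d : ℕ} (hd : 2 ≤ d) (ζ : ℂ) : wr (x3 d) (ζ, 1) = -(d : ℂ) ^ 2 * ζ ^ (d - 1) := by
  unfold wr
  simp only [x3, one_ne_zero, if_true, if_false, one_pow, mul_one]
  rw [sum_pick (Nat.zero_le d) 1 (fun j => (j : ℂ) * ζ ^ (j - 1)),
    sum_pick2 (Nat.zero_le d) (le_refl d) 1 1 (fun j => ((d - j : ℕ) : ℂ) * ζ ^ j),
    sum_pick (Nat.zero_le d) 1 (fun j => ((d - j : ℕ) : ℂ) * ζ ^ j),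
    sum_pick2 (Nat.zero_le d) (le_refl d) 1 1 (fun j => (j : ℂ) * ζ ^ (j - 1))]
  simp
  ring

theorem hF_x3 {d : ℕ} (hd : 2 ≤ d) (a b : ℂ) : hF (x3 d) (a, b) = (b ^ d, b ^ d + a ^ d) := by
  unfold hF
  simp only [x3, one_ne_zero, if_true, if_false]
  rw [sum_pick (Nat.zero_le d) 1 (fun j => a ^ j * b ^ (d - j)),
    sum_pick2 (Nat.zero_le d) (le_refl d) 1 1 (fun j => a ^ j * b ^ (d - j))]
  simp

theorem iter_x3 {d : ℕ} (hd : 2 ≤ d) (a b : ℝ) (ha : 0 ≤ a) (hb : 0 < b) (q : ℕ) :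
    ∃ a' b' : ℝ, 0 ≤ a' ∧ 0 < b' ∧ (1 ≤ q → 0 < a') ∧
      (hF (x3 d))^[q] ((a : ℂ), (b : ℂ)) = ((a' : ℂ), (b' : ℂ)) := by
  induction q generalizing a b with
  | zero => exact ⟨a, b, ha, hb, fun h => by omega, rfl⟩
  | succ q ih =>
    rw [Function.iterate_succ_apply, hF_x3 hd]
    have h1 : ((b : ℂ) ^ d, (b : ℂ) ^ d + (a : ℂ) ^ d) =
        (((b ^ d : ℝ) : ℂ), ((b ^ d + a ^ d : ℝ) : ℂ)) := by push_cast; rfl
    rw [h1]
    obtain ⟨a', b', h2, h3, h4, h5⟩ := ih (b ^ d) (b ^ d + a ^ d) (by positivity) (by positivity)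
    refine ⟨a', b', h2, h3, ?_, h5⟩
    intro _
    rcases Nat.eq_zero_or_pos q with h6 | h6
    · rw [h6] at h5
      simp only [Function.iterate_zero, id_eq, Prod.mk.injEq, Complex.ofReal_inj] at h5
      rw [← h5.1]; positivity
    · exact h4 h6

theorem iter_x3' {d : ℕ} (hd : 2 ≤ d) {q : ℕ} (hq : 1 ≤ q) :
    ((hF (x3 d))^[q] (0, 1)).1 ≠ 0 ∧ ((hF (x3 d))^[q] (1, 0)).2 ≠ 0 := by
  constructor
  · obtain ⟨a', b', h2, h3, h4, h5⟩ := iter_x3 hd 0 1 le_rfl one_pos q
    have h6 : (((0 : ℝ) : ℂ), ((1 : ℝ) : ℂ)) = ((0 : ℂ), (1 : ℂ)) := by norm_num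
    rw [h6] at h5
    rw [h5]
    simpa using (h4 hq).ne'
  · obtain ⟨e, rfl⟩ : ∃ e, q = e + 1 := ⟨q - 1, by omega⟩
    rw [Function.iterate_succ_apply, hF_x3 hd]
    obtain ⟨a', b', h2, h3, h4, h5⟩ := iter_x3 hd 0 1 le_rfl one_pos e
    have h6 : (((0 : ℝ) : ℂ), ((1 : ℝ) : ℂ)) = ((0 : ℂ) ^ d, (0 : ℂ) ^ d + 1 ^ d) := by
      have : d ≠ 0 := by omega
      simp [this]
    rw [← h6, h5]
    simpa using h3.ne'

end

end GEN

open Polynomial in
theorem GEN (hPOLY : StPOLY) (hWR : StWR) : StGEN := by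
  intro d q x₀ hd hq ε hε
  -- the polynomials
  set W : CV d → ℂ[X] := fun x => GEN.ip (2 * d - 2) (fun ζ => wr x (ζ, 1)) with hWdef
  set E : CV d → ℂ[X] := fun x =>
    GEN.ip (d ^ q + 1) (fun ζ => cr ((hF x)^[q] (ζ, 1)) (ζ, 1)) with hEdef
  have hW : ∀ x, (W x).natDegree ≤ 2 * d - 2 ∧ (∀ ζ, (W x).eval ζ = wr x (ζ, 1)) ∧
      (W x).coeff (2 * d - 2) = wr x (1, 0) := by
    intro x
    obtain ⟨-, ⟨V, hV1, hV2, hV3⟩, -⟩ := hWR d x hd
    have : W x = V := GEN.ip_eq hV1 hV2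
    rw [this]
    exact ⟨hV1, hV2, hV3⟩
  have hE : ∀ x, (E x).natDegree ≤ d ^ q + 1 ∧
      (∀ ζ, (E x).eval ζ = cr ((hF x)^[q] (ζ, 1)) (ζ, 1)) ∧
      (E x).coeff (d ^ q + 1) = -((hF x)^[q] (1, 0)).2 := by
    intro x
    obtain ⟨A, B, hA, hB, hA1, hB1, hA2, hB2⟩ := hPOLY d x q (by omega)
    have h1 : (A - X * B).natDegree ≤ d ^ q + 1 := by
      apply (natDegree_sub_le _ _).trans
      apply max_le (by omega)
      apply (natDegree_mul_le).trans
      have := natDegree_X_le (R := ℂ)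
      omega
    have h2 : ∀ ζ, (A - X * B).eval ζ = cr ((hF x)^[q] (ζ, 1)) (ζ, 1) := by
      intro ζ
      rw [eval_sub, eval_mul, eval_X, hA1, hB1]
      unfold cr
      ring
    have : E x = A - X * B := GEN.ip_eq h1 h2
    rw [this]
    refine ⟨h1, h2, ?_⟩
    rw [coeff_sub, coeff_X_mul, hB2, coeff_eq_zero_of_natDegree_lt (by omega), zero_sub]
  have hWd : ∀ k, Differentiable ℂ (fun x => (W x).coeff k) := by
    intro k
    apply GEN.diff_coeff
    intro ζ
    have h := (wr_contDiff d 1).differentiable (by norm_num)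
    exact Differentiable.comp (g := fun q : CV d × (ℂ × ℂ) => wr q.1 q.2)
      (f := fun x : CV d => ((x, ((ζ, 1) : ℂ × ℂ)) : CV d × (ℂ × ℂ))) h
      (differentiable_id.prodMk (differentiable_const _))
  have hEd : ∀ k, Differentiable ℂ (fun x => (E x).coeff k) := by
    intro k
    apply GEN.diff_coeff
    intro ζ
    have h := hF_iter_differentiable d q
    have h2 : Differentiable ℂ (fun x : CV d => (hF x)^[q] (ζ, 1)) :=
      Differentiable.comp (g := fun q' : CV d × (ℂ × ℂ) => (hF q'.1)^[q] q'.2)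
        (f := fun x : CV d => ((x, ((ζ, 1) : ℂ × ℂ)) : CV d × (ℂ × ℂ))) h
        (differentiable_id.prodMk (differentiable_const _))
    unfold cr
    exact (h2.fst.mul (differentiable_const _)).sub (h2.snd.mul (differentiable_const _))
  -- the three functions
  set D1 : CV d → ℂ := fun x => (W x).coeff (2 * d - 2) with hD1
  set D2 : CV d → ℂ := fun x => resultant (W x) (derivative (W x)) (2 * d - 2) (2 * d - 3) with hD2
  set D3 : CV d → ℂ := fun x => resultant (W x) (E x) (2 * d - 2) (d ^ q + 1) with hD3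
  have hdif1 : Differentiable ℂ D1 := hWd _
  have hdif2 : Differentiable ℂ D2 := by
    apply GEN.diff_res _ _ hWd
    intro k
    simp only [coeff_derivative]
    exact (hWd _).mul_const _
  have hdif3 : Differentiable ℂ D3 := GEN.diff_res _ _ hWd hEd
  -- the first test map
  have hd0 : (d : ℂ) ≠ 0 := by
    have : d ≠ 0 := by omega
    exact_mod_cast this
  set P2 : ℂ[X] := C ((d : ℂ) / 2) * X ^ (2 * d - 2) +
    C ((d : ℂ) * (3 * d + 2) / 4) * X ^ (d - 1) + C ((d : ℂ) / 2) with hP2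
  have hP2n : P2.natDegree ≤ 2 * d - 2 := by
    rw [hP2]
    apply (natDegree_add_le _ _).trans
    apply max_le
    · apply (natDegree_add_le _ _).trans
      apply max_le
      · exact natDegree_C_mul_X_pow_le _ _
      · exact (natDegree_C_mul_X_pow_le _ _).trans (by omega)
    · simp
  have hW2 : W (GEN.x2 d) = P2 := by
    apply GEN.ip_eq hP2n
    intro ζ
    rw [GEN.wr_x2 hd, hP2]
    simp
  have hP2c : P2.coeff (2 * d - 2) = (d : ℂ) / 2 := by
    rw [hP2]
    simp only [coeff_add, coeff_C_mul, coeff_X_pow, coeff_C]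
    have h1 : ¬ (2 * d - 2 = d - 1) := by omega
    have h2 : ¬ (2 * d - 2 = 0) := by omega
    simp [h1, h2]
  have hP2c0 : P2.coeff (2 * d - 2) ≠ 0 := by
    rw [hP2c]; exact div_ne_zero hd0 two_ne_zero
  have hP2d : P2.natDegree = 2 * d - 2 := le_antisymm hP2n (le_natDegree_of_ne_zero hP2c0)
  have hD1ne : D1 (GEN.x2 d) ≠ 0 := by
    simp only [hD1]
    rw [hW2]; exact hP2c0
  have hcop2 : IsCoprime P2 (derivative P2) := by
    rw [Polynomial.isCoprime_iff_aeval_ne_zero_of_isAlgClosed ℂ ℂ]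
    intro a
    by_contra hcon
    push Not at hcon
    obtain ⟨h1, h2⟩ := hcon
    have e1 : (d : ℂ) / 2 * a ^ (2 * d - 2) + (d : ℂ) * (3 * d + 2) / 4 * a ^ (d - 1) +
        (d : ℂ) / 2 = 0 := by
      have : aeval a P2 = (d : ℂ) / 2 * a ^ (2 * d - 2) +
          (d : ℂ) * (3 * d + 2) / 4 * a ^ (d - 1) + (d : ℂ) / 2 := by
        rw [hP2]; simp
      rw [← this]; exact h1
    have e2 : (d : ℂ) / 2 * (((2 * d - 2 : ℕ) : ℂ) * a ^ (2 * d - 2 - 1)) +
        (d : ℂ) * (3 * d + 2) / 4 * (((d - 1 : ℕ) : ℂ) * a ^ (d - 1 - 1)) = 0 := by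
      have : aeval a (derivative P2) = (d : ℂ) / 2 * (((2 * d - 2 : ℕ) : ℂ) * a ^ (2 * d - 2 - 1)) +
        (d : ℂ) * (3 * d + 2) / 4 * (((d - 1 : ℕ) : ℂ) * a ^ (d - 1 - 1)) := by
        rw [hP2]
        simp only [derivative_add, derivative_C_mul, derivative_X_pow, derivative_C, add_zero,
          map_add, map_mul, aeval_C, map_pow, aeval_X, Algebra.algebraMap_self, RingHom.id_apply]
      rw [← this]; exact h2
    obtain ⟨e, rfl⟩ : ∃ e, d = e + 2 := ⟨d - 2, by omega⟩
    have i1 : 2 * (e + 2) - 2 = (e + 1) + (e + 1) := by omega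
    have i2 : 2 * (e + 2) - 2 - 1 = (e + 1) + e := by omega
    have i3 : e + 2 - 1 = e + 1 := by omega
    have i4 : e + 2 - 1 - 1 = e := by omega
    rw [i1, i3, pow_add] at e1
    rw [i2, i4, i1, i3, pow_add] at e2
    set t := a ^ (e + 1) with ht
    set u := a ^ e with hu
    have ht2 : t = u * a := by rw [ht, hu, pow_succ]
    -- u ≠ 0
    have hu0 : u ≠ 0 := by
      intro h0
      rw [h0, zero_mul] at ht2
      rw [ht2] at e1
      simp only [mul_zero, zero_add] at e1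
      exact div_ne_zero hd0 two_ne_zero e1
    have he1 : ((e : ℂ) + 1) ≠ 0 := by exact_mod_cast Nat.succ_ne_zero e
    push_cast at e1 e2 hd0
    have e3 : t + (3 * ((e : ℂ) + 2) + 2) / 4 = 0 := by
      have : ((e : ℂ) + 2) * ((e : ℂ) + 1) * u * (t + (3 * ((e : ℂ) + 2) + 2) / 4) = 0 := by
        linear_combination e2
      rcases mul_eq_zero.mp this with h | h
      · exfalso
        exact mul_ne_zero (mul_ne_zero hd0 he1) hu0 h
      · exact h
    have e4 : t = -((3 * ((e : ℂ) + 2) + 2) / 4) := by linear_combination e3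
    rw [e4] at e1
    have e5 : ((e : ℂ) + 2) * (1 - ((3 * ((e : ℂ) + 2) + 2) / 4) ^ 2) = 0 := by
      linear_combination 2 * e1
    have e6 : 1 - ((3 * ((e : ℂ) + 2) + 2) / 4) ^ 2 = 0 :=
      (mul_eq_zero.mp e5).resolve_left hd0
    have e7 : (1 : ℝ) - ((3 * ((e : ℝ) + 2) + 2) / 4) ^ 2 = 0 := by
      have h : ((1 - ((3 * ((e : ℝ) + 2) + 2) / 4) ^ 2 : ℝ) : ℂ) = 0 := by
        push_cast; exact e6
      exact Complex.ofReal_eq_zero.mp h
    have he0 : (0 : ℝ) ≤ e := Nat.cast_nonneg e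
    nlinarith
  have hD2ne : D2 (GEN.x2 d) ≠ 0 := by
    have h1 := resultant_ne_zero P2 (derivative P2) hcop2
    have h2 : (derivative P2).natDegree = 2 * d - 3 := by
      rw [natDegree_eq_of_degree_eq_some (degree_derivative_eq P2 (by omega)), hP2d]
      omega
    rw [hP2d, h2] at h1
    simp only [hD2]
    rw [hW2]
    exact h1
  -- the second test map
  have hW3 : W (GEN.x3 d) = C (-(d : ℂ) ^ 2) * X ^ (d - 1) := by
    apply GEN.ip_eq
    · exact (natDegree_C_mul_X_pow_le _ _).trans (by omega)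
    · intro ζ
      rw [GEN.wr_x3 hd]
      simp
  have hc0 : (-(d : ℂ) ^ 2) ≠ 0 := neg_ne_zero.mpr (pow_ne_zero _ hd0)
  have hD3ne : D3 (GEN.x3 d) ≠ 0 := by
    obtain ⟨hi1, hi2⟩ := GEN.iter_x3' hd hq
    have hE3 := hE (GEN.x3 d)
    have hlead : (E (GEN.x3 d)).coeff (d ^ q + 1) ≠ 0 := by
      rw [hE3.2.2]; exact neg_ne_zero.mpr hi2
    have hEn : (E (GEN.x3 d)).natDegree = d ^ q + 1 :=
      le_antisymm hE3.1 (le_natDegree_of_ne_zero hlead)
    have hWn : (C (-(d : ℂ) ^ 2) * X ^ (d - 1) : ℂ[X]).natDegree = d - 1 :=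
      natDegree_C_mul_X_pow _ _ hc0
    have hcop : IsCoprime (C (-(d : ℂ) ^ 2) * X ^ (d - 1) : ℂ[X]) (E (GEN.x3 d)) := by
      rw [Polynomial.isCoprime_iff_aeval_ne_zero_of_isAlgClosed ℂ ℂ]
      intro a
      by_cases ha : a = 0
      · right
        rw [ha]
        have h1 : aeval (0 : ℂ) (E (GEN.x3 d)) = (E (GEN.x3 d)).eval 0 := by simp [aeval_def, eval₂_eq_eval_map]
        rw [h1, hE3.2.1 0]
        unfold cr
        simpa using hi1
      · left
        simp only [map_mul, aeval_C, map_pow, aeval_X, Algebra.algebraMap_self, RingHom.id_apply]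
        exact mul_ne_zero hc0 (pow_ne_zero _ ha)
    have h1 := resultant_ne_zero _ _ hcop
    rw [hEn, hWn] at h1
    simp only [hD3]
    rw [hW3]
    have h2 : 2 * d - 2 = (d - 1) + (d - 1) := by omega
    rw [h2, resultant_add_left_deg _ _ _ _ _ hWn.le]
    refine mul_ne_zero (mul_ne_zero (pow_ne_zero _ (by norm_num)) (pow_ne_zero _ hlead)) h1
  -- density
  have hopen : ∀ D : CV d → ℂ, Differentiable ℂ D → IsOpen {x | D x ≠ 0} := by
    intro D hD
    exact isOpen_ne_fun hD.continuous continuous_const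
  have hdense : Dense ({x | D1 x ≠ 0} ∩ ({x | D2 x ≠ 0} ∩ {x | D3 x ≠ 0})) := by
    apply (GEN.dense_ne hdif1 hD1ne).inter_of_isOpen_left _ (hopen _ hdif1)
    exact (GEN.dense_ne hdif2 hD2ne).inter_of_isOpen_left (GEN.dense_ne hdif3 hD3ne)
      (hopen _ hdif2)
  obtain ⟨x, ⟨hx1, hx2, hx3⟩, hxε⟩ := hdense.exists_dist_lt x₀ hε
  refine ⟨x, ?_, ?_, ?_, ?_⟩
  · rw [dist_comm, dist_eq_norm] at hxε
    exact hxε
  · rw [← (hW x).2.2]; exact hx1
  · -- simple roots
    have hdeg : (W x).natDegree = 2 * d - 2 :=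
      le_antisymm (hW x).1 (le_natDegree_of_ne_zero hx1)
    have hsep : (W x).Separable := by
      obtain ⟨p, r, -, -, hpr⟩ := exists_mul_add_mul_eq_C_resultant
        (m := 2 * d - 2) (n := 2 * d - 3)
        (W x) (derivative (W x)) (hW x).1 ((natDegree_derivative_le _).trans (by have := (hW x).1; omega))
        (by omega)
      refine ⟨C (D2 x)⁻¹ * p, C (D2 x)⁻¹ * r, ?_⟩
      have : C (D2 x)⁻¹ * p * W x + C (D2 x)⁻¹ * r * derivative (W x) =
          C (D2 x)⁻¹ * (W x * p + derivative (W x) * r) := by ring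
      rw [this, hpr, ← C_mul, inv_mul_cancel₀ hx2, C_1]
    have hnod := nodup_roots hsep
    have hspl : (W x).Splits := IsAlgClosed.splits _
    have hcard : (W x).roots.card = 2 * d - 2 := by
      rw [← hdeg]; exact (splits_iff_card_roots.mp hspl)
    obtain ⟨L, hL⟩ := Quot.exists_rep (W x).roots
    have hL' : ((L : List ℂ) : Multiset ℂ) = (W x).roots := hL
    have hLl : L.length = 2 * d - 2 := by
      rw [← Multiset.coe_card, hL', hcard]
    have hLn : L.Nodup := by
      rw [← Multiset.coe_nodup, hL']; exact hnod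
    refine ⟨fun i => L.get (i.cast hLl.symm), ?_, ?_⟩
    · intro i j hij
      have := hLn.injective_get hij
      exact Fin.cast_injective _ this
    · intro ζ
      have h1 := hspl.eq_prod_roots
      have h2 : (W x).eval ζ = (W x).leadingCoeff * ((W x).roots.map (fun a => ζ - a)).prod := by
        conv_lhs => rw [h1]
        rw [eval_mul, eval_C, eval_multiset_prod, Multiset.map_map]
        simp only [Function.comp_def, eval_sub, eval_X, eval_C]
      rw [← (hW x).2.1, h2, ← (hW x).2.2, leadingCoeff, hdeg, ← hL']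
      congr 1
      rw [Multiset.map_coe, Multiset.prod_coe]
      rw [← List.prod_ofFn]
      congr 1
      apply List.ext_get
      · simp [hLl]
      · intro n h1 h2
        simp
  · intro p hp hwp
    by_cases hp2 : p.2 = 0
    · exfalso
      have h1 : p = p.1 • ((1 : ℂ), (0 : ℂ)) := by
        apply Prod.ext <;> simp [hp2]
      have hp1 : p.1 ≠ 0 := by
        intro h; apply hp; exact Prod.ext h hp2
      rw [h1, (hWR d x hd).1, ← (hW x).2.2] at hwp
      exact mul_ne_zero (pow_ne_zero _ hp1) hx1 hwp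
    · have h1 : p = p.2 • ((p.1 / p.2 : ℂ), (1 : ℂ)) := by
        apply Prod.ext
        · simp [hp2, mul_div_cancel₀]
        · simp
      rw [h1, (hWR d x hd).1] at hwp
      have h2 : wr x (p.1 / p.2, 1) = 0 := (mul_eq_zero.mp hwp).resolve_left (pow_ne_zero _ hp2)
      rw [h1, hF_iter_smul, cr_smul_left, cr_smul_right]
      refine mul_ne_zero (pow_ne_zero _ hp2) (mul_ne_zero hp2 ?_)
      intro h3
      obtain ⟨a, b, -, -, hab⟩ := exists_mul_add_mul_eq_C_resultant
        (m := 2 * d - 2) (n := d ^ q + 1) (W x) (E x) (hW x).1 (hE x).1 (by omega)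
      have h4 := congrArg (Polynomial.eval (p.1 / p.2)) hab
      rw [eval_add, eval_mul, eval_mul, (hW x).2.1, (hE x).2.1, h2, h3, eval_C] at h4
      apply hx3
      simp only [hD3]
      rw [← h4]; ring

end Pool.Agent.H790R3.RB
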