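import Mathlib
import Pool.Agent.H790R3.RB.St2
import Pool.Agent.H790R3.RB.Basic

/-! Task HYP: the universal family satisfies the hypotheses of the abstract theorem. -/

set_option autoImplicit false

open Topology Filter Metric Set MeasureTheory

namespace Pool.Agent.H790R3.RB

namespace HYP

theorem iter_diff {d : ℕ} (x : CV d) (N : ℕ) : Differentiable ℂ (fun p => (hF x)^[N] p) := by
  have h := hF_iter_differentiable d N
  exact h.comp (differentiable_const x |>.prodMk differentiable_id)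

theorem one_diff {d : ℕ} (x : CV d) : Differentiable ℂ (hF x) := by
  have := iter_diff x 1
  simpa using this

theorem iter_cr (hWR : StWR) {d : ℕ} (hd : 2 ≤ d) (x : CV d) (N : ℕ) (p v w : ℂ × ℂ) :
    cr (fderiv ℂ (fun q => (hF x)^[N] q) p v) (fderiv ℂ (fun q => (hF x)^[N] q) p w) =
      (∏ m ∈ Finset.range N, wr x ((hF x)^[m] p)) * cr v w := by
  induction N generalizing v w with
  | zero =>
    have : (fun q : ℂ × ℂ => (hF x)^[0] q) = id := by funext q; simp
    rw [this]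
    simp
  | succ N ih =>
    have hfun : (fun q : ℂ × ℂ => (hF x)^[N + 1] q) = (hF x) ∘ (fun q => (hF x)^[N] q) := by
      funext q
      simp only [Function.comp_apply, Function.iterate_succ_apply']
    have hfd : fderiv ℂ (fun q : ℂ × ℂ => (hF x)^[N + 1] q) p =
        (fderiv ℂ (hF x) ((hF x)^[N] p)).comp (fderiv ℂ (fun q => (hF x)^[N] q) p) := by
      rw [hfun]
      exact fderiv_comp p (one_diff x _) (iter_diff x N p)
    rw [hfd]
    simp only [ContinuousLinearMap.comp_apply]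
    rw [((hWR d x hd).2.2 _ _ _), ih, Finset.prod_range_succ]
    ring

theorem euler {d : ℕ} (x : CV d) (N : ℕ) (p : ℂ × ℂ) :
    fderiv ℂ (fun q => (hF x)^[N] q) p p = ((d ^ N : ℕ) : ℂ) • (hF x)^[N] p := by
  have h1 : HasDerivAt (fun a : ℂ => a • p) p 1 := by
    simpa using (hasDerivAt_id (1 : ℂ)).smul_const p
  have h2 : HasFDerivAt (fun q => (hF x)^[N] q) (fderiv ℂ (fun q => (hF x)^[N] q) p)
      ((fun a : ℂ => a • p) 1) := by
    simpa using (iter_diff x N p).hasFDerivAt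
  have h3 := h2.comp_hasDerivAt (1 : ℂ) h1
  have h4 : HasDerivAt (fun a : ℂ => a ^ (d ^ N) • (hF x)^[N] p)
      (((d ^ N : ℕ) : ℂ) • (hF x)^[N] p) 1 := by
    have := (hasDerivAt_pow (d ^ N) (1 : ℂ)).smul_const ((hF x)^[N] p)
    simpa using this
  have h5 : ((fun q => (hF x)^[N] q) ∘ fun a : ℂ => a • p) =
      fun a : ℂ => a ^ (d ^ N) • (hF x)^[N] p := by
    funext a
    simp only [Function.comp_apply, hF_iter_smul]
  rw [h5] at h3
  exact h3.unique h4

/-! ### scaling of the coefficients -/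

theorem hF_csmul {d : ℕ} (a : ℂ) (x : CV d) (p : ℂ × ℂ) : hF (a • x) p = a • hF x p := by
  ext
  · simp only [hF, Pi.smul_apply, smul_eq_mul, Prod.smul_fst, Finset.mul_sum, mul_assoc]
  · simp only [hF, Pi.smul_apply, smul_eq_mul, Prod.smul_snd, Finset.mul_sum, mul_assoc]

theorem wr_csmul {d : ℕ} (a : ℂ) (x : CV d) (p : ℂ × ℂ) : wr (a • x) p = a ^ 2 * wr x p := by
  simp only [wr, Pi.smul_apply, smul_eq_mul]
  have h : ∀ (i : Fin 2) (f : Fin (d + 1) → ℂ),
      (∑ j : Fin (d + 1), a * x (i, j) * f j) = a * ∑ j : Fin (d + 1), x (i, j) * f j := by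
    intro i f
    rw [Finset.mul_sum]
    exact Finset.sum_congr rfl fun j _ => by ring
  simp only [h]
  ring

theorem iter_csmul {d : ℕ} (a : ℂ) (ha : a ≠ 0) (x : CV d) (N : ℕ) (p : ℂ × ℂ) :
    ∃ c : ℂ, c ≠ 0 ∧ (hF (a • x))^[N] p = c • (hF x)^[N] p := by
  induction N with
  | zero => exact ⟨1, one_ne_zero, by simp⟩
  | succ N ih =>
    obtain ⟨c, hc, h⟩ := ih
    refine ⟨a * c ^ d, mul_ne_zero ha (pow_ne_zero _ hc), ?_⟩
    rw [Function.iterate_succ_apply', h, hF_csmul, hF_smul, smul_smul,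
      Function.iterate_succ_apply']

/-! ### the shear -/

/-- the shear as a continuous linear map -/
noncomputable def ML (e : ℂ) : ℂ × ℂ →L[ℂ] ℂ × ℂ :=
  (ContinuousLinearMap.fst ℂ ℂ ℂ).prod
    (ContinuousLinearMap.snd ℂ ℂ ℂ - e • ContinuousLinearMap.fst ℂ ℂ ℂ)

theorem ML_apply (e : ℂ) (p : ℂ × ℂ) : ML e p = (p.1, p.2 - e * p.1) := rfl

theorem cr_M (e : ℂ) (p q : ℂ × ℂ) : cr (ML e p) (ML e q) = cr p q := by
  rw [ML_apply, ML_apply]; unfold cr; ring

theorem ML_neg (e : ℂ) (p : ℂ × ℂ) : ML e (ML (-e) p) = p := by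
  rw [ML_apply, ML_apply]
  ext
  · rfl
  · simp

theorem ML_ne {e : ℂ} {p : ℂ × ℂ} (hp : p ≠ 0) : ML (-e) p ≠ 0 := by
  intro h
  apply hp
  rw [← ML_neg e p, h, map_zero]

section conj

variable {d : ℕ} {x y : CV d} {e : ℂ} (h : ∀ p, hF x (ML e p) = ML e (hF y p))
include h

theorem iter_M (N : ℕ) (p : ℂ × ℂ) : (hF x)^[N] (ML e p) = ML e ((hF y)^[N] p) := by
  induction N with
  | zero => simp
  | succ N ih => rw [Function.iterate_succ_apply', ih, h, Function.iterate_succ_apply']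

theorem wr_M (hWR : StWR) (hd : 2 ≤ d) (p : ℂ × ℂ) : wr x (ML e p) = wr y p := by
  have hfun : (hF x) ∘ (ML e) = (ML e) ∘ (hF y) := by
    funext q
    exact h q
  have h1 : fderiv ℂ ((hF x) ∘ (ML e)) p = (fderiv ℂ (hF x) (ML e p)).comp (ML e) := by
    rw [fderiv_comp p (one_diff x _) (ML e).differentiableAt, ContinuousLinearMap.fderiv]
  have h2 : fderiv ℂ ((ML e) ∘ (hF y)) p = (ML e).comp (fderiv ℂ (hF y) p) := by
    rw [fderiv_comp p (ML e).differentiableAt (one_diff y _), ContinuousLinearMap.fderiv]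
  have h3 : ∀ v, fderiv ℂ (hF x) (ML e p) (ML e v) = ML e (fderiv ℂ (hF y) p v) := by
    intro v
    have := congrArg (fun A : ℂ × ℂ →L[ℂ] ℂ × ℂ => A v) (h1.symm.trans ((congrArg
      (fun f => fderiv ℂ f p) hfun).trans h2))
    simpa using this
  have h4 := (hWR d x hd).2.2 (ML e p) (ML e (1, 0)) (ML e (0, 1))
  have h5 := (hWR d y hd).2.2 p (1, 0) (0, 1)
  rw [h3, h3, cr_M, cr_M, h5] at h4
  have h6 : cr ((1 : ℂ), (0 : ℂ)) (0, 1) = 1 := by simp [cr]
  rw [h6, mul_one, mul_one] at h4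
  exact h4.symm

/-- noncritical points, transported -/
theorem nc_M (hWR : StWR) (hd : 2 ≤ d) {q : ℕ}
    (hy : ∀ p : ℂ × ℂ, p ≠ 0 → wr y p = 0 → cr ((hF y)^[q] p) p ≠ 0) :
    ∀ p : ℂ × ℂ, p ≠ 0 → wr x p = 0 → cr ((hF x)^[q] p) p ≠ 0 := by
  intro p hp hw
  have h1 : wr y (ML (-e) p) = 0 := by
    rw [← wr_M h hWR hd, ML_neg]; exact hw
  have h2 := hy _ (ML_ne hp) h1
  rw [← cr_M e, ← iter_M h, ML_neg] at h2
  exact h2

end conj

/-! ### periodic points -/

theorem per_mul {d : ℕ} (x : CV d) {p : ℕ} {P : ℂ × ℂ} {a : ℂ} (ha : a ≠ 0)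
    (h : (hF x)^[p] P = a • P) (m : ℕ) : ∃ c : ℂ, c ≠ 0 ∧ (hF x)^[p * m] P = c • P := by
  induction m with
  | zero => exact ⟨1, one_ne_zero, by simp⟩
  | succ m ih =>
    obtain ⟨c, hc, hm⟩ := ih
    refine ⟨a ^ (d ^ (p * m)) * c, mul_ne_zero (pow_ne_zero _ ha) hc, ?_⟩
    rw [mul_add, mul_one, Function.iterate_add_apply, h, hF_iter_smul, hm, smul_smul]

theorem per_cr {d : ℕ} (x : CV d) {p q : ℕ} {P : ℂ × ℂ} {a : ℂ} (ha : a ≠ 0)
    (h : (hF x)^[p] P = a • P) (hpq : p ∣ q) (j : ℕ) :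
    cr ((hF x)^[q] ((hF x)^[j] P)) ((hF x)^[j] P) = 0 := by
  obtain ⟨m, rfl⟩ := hpq
  obtain ⟨c, -, hc⟩ := per_mul x ha h m
  rw [← Function.iterate_add_apply, add_comm, Function.iterate_add_apply, hc, hF_iter_smul,
    cr_smul_left, cr_self, mul_zero]

theorem base_per {d n s : ℕ} (S : Sys d n s) (x : Fin n → ℂ) (hx : x ∈ S.U) (k : Option (Fin s)) :
    ∃ a : ℂ, a ≠ 0 ∧ (hF (S.co x))^[S.per k] (ch S.b k x 0) = a • ch S.b k x 0 := by
  obtain ⟨a, z', ha, hz', h⟩ := S.contr x hx k 0 (by simpa using S.hr₀)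
  rw [norm_zero, mul_zero] at hz'
  have : z' = 0 := norm_le_zero_iff.mp hz'
  rw [this] at h
  exact ⟨a, ha, h⟩

/-- noncritical cycles have nonzero multiplier -/
theorem lam_ne {d n s : ℕ} (S : Sys d n s) (hWR : StWR) (x : Fin n → ℂ) (hx : x ∈ S.U)
    (k : Option (Fin s))
    (hnc : ∀ j, wr (S.co x) ((hF (S.co x))^[j] (ch S.b k x 0)) ≠ 0) : S.lam k x ≠ 0 := by
  obtain ⟨a, ha, hv⟩ := base_per S x hx k
  set P : ℂ × ℂ := ch S.b k x 0 with hP
  set G : ℂ × ℂ → ℂ × ℂ := fun q => (hF (S.co x))^[S.per k] q with hG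
  have hGP : G P = a • P := hv
  have hGd : DifferentiableAt ℂ G P := iter_diff (S.co x) (S.per k) P
  have hprod : (∏ m ∈ Finset.range (S.per k), wr (S.co x) ((hF (S.co x))^[m] P)) ≠ 0 :=
    Finset.prod_ne_zero_iff.mpr fun m _ => hnc m
  have hE : fderiv ℂ G P P = ((d ^ (S.per k) : ℕ) : ℂ) • (a • P) := by
    rw [← hGP]; exact euler (S.co x) (S.per k) P
  have hd0 : ((d ^ (S.per k) : ℕ) : ℂ) ≠ 0 := by
    have := S.hd
    exact Nat.cast_ne_zero.2 (pow_ne_zero _ (by omega))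
  -- direction of the chart
  have key : ∀ u : ℂ × ℂ, cr P u ≠ 0 → cr P (fderiv ℂ G P u) ≠ 0 := by
    intro u hu hzero
    have h1 := iter_cr hWR S.hd (S.co x) (S.per k) P P u
    have h2 : cr (fderiv ℂ G P P) (fderiv ℂ G P u) = 0 := by
      rw [hE, cr_smul_left, cr_smul_left, hzero, mul_zero, mul_zero]
    exact (mul_ne_zero hprod hu) (h1.symm.trans h2)
  cases k with
  | none =>
    have hPe : P = ((1 : ℂ), (0 : ℂ)) := rfl
    have hu := key (0, 1) (by rw [hPe]; simp [cr])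
    have h1 : HasDerivAt (fun z : ℂ => ((1 : ℂ), z)) ((0 : ℂ), (1 : ℂ)) 0 :=
      (hasDerivAt_const (0 : ℂ) (1 : ℂ)).prodMk (hasDerivAt_id (0 : ℂ))
    have h2 : HasFDerivAt G (fderiv ℂ G P) ((fun z : ℂ => ((1 : ℂ), z)) 0) := hGd.hasFDerivAt
    have h3 : HasDerivAt (fun z : ℂ => G (1, z)) (fderiv ℂ G P (0, 1)) 0 :=
      h2.comp_hasDerivAt (0 : ℂ) h1
    have h4 : HasDerivAt (fun z : ℂ => (G (1, z)).1) (fderiv ℂ G P (0, 1)).1 0 :=
      (ContinuousLinearMap.fst ℂ ℂ ℂ).hasFDerivAt.comp_hasDerivAt (0 : ℂ) h3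
    have h5 : HasDerivAt (fun z : ℂ => (G (1, z)).2) (fderiv ℂ G P (0, 1)).2 0 :=
      (ContinuousLinearMap.snd ℂ ℂ ℂ).hasFDerivAt.comp_hasDerivAt (0 : ℂ) h3
    have hv' : G (1, 0) = (a, 0) := by
      have : G (1, 0) = a • ((1 : ℂ), (0 : ℂ)) := hGP
      rw [this]; simp
    have h6 := h5.fun_div h4 (by rw [hv']; exact ha)
    have e1 : S.hk none x = fun z : ℂ => (G (1, z)).2 / (G (1, z)).1 := rfl
    unfold Sys.lam
    rw [e1, h6.deriv, hv']
    have hP1 : P.1 = 1 := by rw [hPe]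
    have hP2 : P.2 = 0 := by rw [hPe]
    unfold cr at hu
    rw [hP1, hP2] at hu
    simp only [one_mul, zero_mul, sub_zero] at hu
    simp only [zero_mul, sub_zero]
    exact div_ne_zero (mul_ne_zero hu ha) (pow_ne_zero _ ha)
  | some k =>
    have hPe : P = (S.b k x, (1 : ℂ)) := by
      rw [hP]; simp [ch]
    have hu := key (1, 0) (by rw [hPe]; simp [cr])
    have h1 : HasDerivAt (fun z : ℂ => (S.b k x + z, (1 : ℂ))) ((1 : ℂ), (0 : ℂ)) 0 :=
      ((hasDerivAt_id (0 : ℂ)).const_add (S.b k x)).prodMk (hasDerivAt_const (0 : ℂ) (1 : ℂ))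
    have h2 : HasFDerivAt G (fderiv ℂ G P) ((fun z : ℂ => (S.b k x + z, (1 : ℂ))) 0) :=
      hGd.hasFDerivAt
    have h3 : HasDerivAt (fun z : ℂ => G (S.b k x + z, 1)) (fderiv ℂ G P (1, 0)) 0 :=
      h2.comp_hasDerivAt (0 : ℂ) h1
    have h4 : HasDerivAt (fun z : ℂ => (G (S.b k x + z, 1)).1) (fderiv ℂ G P (1, 0)).1 0 :=
      (ContinuousLinearMap.fst ℂ ℂ ℂ).hasFDerivAt.comp_hasDerivAt (0 : ℂ) h3
    have h5 : HasDerivAt (fun z : ℂ => (G (S.b k x + z, 1)).2) (fderiv ℂ G P (1, 0)).2 0 :=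
      (ContinuousLinearMap.snd ℂ ℂ ℂ).hasFDerivAt.comp_hasDerivAt (0 : ℂ) h3
    have hv' : G (S.b k x + 0, 1) = (a * S.b k x, a) := by
      have : G (S.b k x + 0, 1) = a • P := hGP
      rw [this, hPe]; simp
    have h6 := (h4.fun_div h5 (by rw [hv']; exact ha)).sub_const (S.b k x)
    have e1 : S.hk (some k) x = fun z : ℂ => (G (S.b k x + z, 1)).1 / (G (S.b k x + z, 1)).2
        - S.b k x := rfl
    unfold Sys.lam
    rw [e1, h6.deriv, hv']
    have hP1 : P.1 = S.b k x := by rw [hPe]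
    have hP2 : P.2 = 1 := by rw [hPe]
    unfold cr at hu
    rw [hP1, hP2] at hu
    refine div_ne_zero ?_ (pow_ne_zero _ ha)
    intro h0
    have h7 : a * ((fderiv ℂ G P (1, 0)).1 - S.b k x * (fderiv ℂ G P (1, 0)).2) = 0 := by
      linear_combination h0
    rcases mul_eq_zero.mp h7 with h8 | h8
    · exact ha h8
    · apply hu
      linear_combination -h8

end HYP

open HYP in
/-- Task HYP -/
theorem HYP (hISO : StISO) (hGEN : StGEN) (_hLAM : StLAM) (hWR : StWR) : StHYP := by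
  intro d s S v η hv0 hvc _hη hND hinj hopen
  have hd := S.hd
  have hdpos : 1 ≤ 2 * d - 2 := by omega
  constructor
  · intro x₁ hx₁
    obtain ⟨ε', hε', hiso⟩ := hISO d (S.per none) (v x₁) hd (S.hper none) (hND x₁ hx₁).1
    obtain ⟨ε, hε, hcont⟩ := Metric.continuousAt_iff.mp (hvc.continuousAt (x := x₁)) ε' hε'
    refine ⟨ε, hε, ?_⟩
    intro x hx hxx₁ hηe hcr
    have h1 : ‖v x - v x₁‖ < ε' := by
      have := hcont (x := x) (by rw [dist_eq_norm]; exact hxx₁)
      rwa [dist_eq_norm] at this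
    suffices hsuf : ∀ p : ℂ × ℂ, cr ((hF (v x))^[S.per none] p) ((hF (v x₁))^[S.per none] p) = 0 by
      obtain ⟨a, -, ha⟩ := hiso (v x) h1 hsuf
      exact hinj x x₁ ⟨a, ha⟩
    intro p
    have e1 : ∀ p, hF (S.co x) (ML (η x) p) = ML (η x) (hF (v x) p) := fun p => (hND x hx).2 p
    have e2 : ∀ p, hF (S.co x₁) (ML (η x₁) p) = ML (η x₁) (hF (v x₁) p) :=
      fun p => (hND x₁ hx₁).2 p
    have h2 := hcr (ML (η x) p)
    unfold Sys.F at h2
    rw [iter_M e1, hηe, iter_M e2, cr_M] at h2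
    exact h2
  · intro ε hε
    have hxT : S.xT ∈ S.U := mem_ball_self S.hρ
    obtain ⟨δ, hδ, hop⟩ := hopen S.xT hxT ε hε
    set q : ℕ := ∏ k : Option (Fin s), S.per k with hq
    have hq1 : 1 ≤ q := Finset.one_le_prod' fun k _ => S.hper k
    obtain ⟨x', hx'δ, hw10, ⟨c, hcinj, hcw⟩, hper⟩ := hGEN d q (v S.xT) hd hq1 δ hδ
    obtain ⟨x, hxU, hxε, a, ha, hva⟩ := hop x' hx'δ
    set e : ℂ := η x with he
    have hconj : ∀ p, hF (S.co x) (ML e p) = ML e (hF (v x) p) := fun p => (hND x hxU).2 p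
    -- critical points of v x are not periodic
    have hncv : ∀ p : ℂ × ℂ, p ≠ 0 → wr (v x) p = 0 → cr ((hF (v x))^[q] p) p ≠ 0 := by
      intro p hp hw
      rw [hva, wr_csmul] at hw
      have hw' : wr x' p = 0 := (mul_eq_zero.mp hw).resolve_left (pow_ne_zero _ ha)
      obtain ⟨c', hc', hit⟩ := iter_csmul a ha x' q p
      rw [hva, hit, cr_smul_left]
      exact mul_ne_zero hc' (hper p hp hw')
    have hncx := nc_M hconj hWR hd hncv
    -- cycles are noncritical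
    have hcyc : ∀ (k : Option (Fin s)) (j : ℕ),
        wr (S.co x) ((hF (S.co x))^[j] (ch S.b k x 0)) ≠ 0 := by
      intro k j hw
      obtain ⟨b, hb, hper⟩ := base_per S x hxU k
      have hne : (hF (S.co x))^[j] (ch S.b k x 0) ≠ 0 :=
        (S.nd x hxU).iter_ne j (ch_ne_zero _ _ _ _)
      exact hncx _ hne hw (per_cr (S.co x) hb hper
        (Finset.dvd_prod_of_mem S.per (Finset.mem_univ k)) j)
    have hinf : wr (S.co x) (1, 0) ≠ 0 := hcyc none 0
    refine ⟨x, hxU, hxε, fun k => lam_ne S hWR x hxU k (hcyc k), ?_⟩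
    -- the zeros
    have hzero : ∀ i, wr (v x) (c i, 1) = 0 := by
      intro i
      rw [hva, wr_csmul, hcw, Finset.prod_eq_zero (Finset.mem_univ i) (sub_self _), mul_zero,
        mul_zero]
    have hfin : ∀ i, 1 - e * c i ≠ 0 := by
      intro i h0
      have h1 := wr_M hconj hWR hd (c i, 1)
      rw [hzero i, ML_apply] at h1
      simp only [h0] at h1
      have hci : c i ≠ 0 := by
        intro h2; rw [h2, mul_zero, sub_zero] at h0; exact one_ne_zero h0
      have h3 : ((c i, (0 : ℂ)) : ℂ × ℂ) = c i • ((1 : ℂ), (0 : ℂ)) := by simp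
      rw [h3, (hWR d (S.co x) hd).1] at h1
      exact (mul_ne_zero (pow_ne_zero _ hci) hinf) h1
    set c' : Fin (2 * d - 2) → ℂ := fun i => c i / (1 - e * c i) with hc'
    have hc'inj : Function.Injective c' := by
      intro i j hij
      simp only [hc'] at hij
      rw [div_eq_div_iff (hfin i) (hfin j)] at hij
      apply hcinj
      linear_combination hij
    have hc'zero : ∀ i, wr (S.co x) (c' i, 1) = 0 := by
      intro i
      have h1 : ((c' i, (1 : ℂ)) : ℂ × ℂ) = (1 - e * c i)⁻¹ • ML e (c i, 1) := by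
        rw [ML_apply]
        ext
        · simp only [hc', Prod.smul_fst, smul_eq_mul]; rw [div_eq_mul_inv, mul_comm]
        · simp only [Prod.smul_snd, smul_eq_mul]; rw [inv_mul_cancel₀ (hfin i)]
      rw [h1, (hWR d (S.co x) hd).1, wr_M hconj hWR hd, hzero i, mul_zero]
    refine ⟨c', hc'inj, ?_⟩
    obtain ⟨W, hWdeg, hWev, hWtop⟩ := (hWR d (S.co x) hd).2.1
    set Q : Polynomial ℂ := Polynomial.C (wr (S.co x) (1, 0)) *
      ∏ i, (Polynomial.X - Polynomial.C (c' i)) with hQ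
    have hprodm : (∏ i, (Polynomial.X - Polynomial.C (c' i))).Monic :=
      Polynomial.monic_prod_of_monic _ _ fun i _ => Polynomial.monic_X_sub_C _
    have hproddeg : (∏ i, (Polynomial.X - Polynomial.C (c' i))).natDegree = 2 * d - 2 := by
      rw [Polynomial.natDegree_prod_of_monic _ _ fun i _ => Polynomial.monic_X_sub_C _]
      simp
    have hQdeg : Q.natDegree ≤ 2 * d - 2 := by
      refine (Polynomial.natDegree_C_mul_le _ _).trans hproddeg.le
    have hQtop : Q.coeff (2 * d - 2) = wr (S.co x) (1, 0) := by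
      rw [hQ, Polynomial.coeff_C_mul]
      have h0 := hprodm.coeff_natDegree
      rw [hproddeg] at h0
      rw [h0, mul_one]
    have hQev : ∀ ζ, Q.eval ζ = wr (S.co x) (1, 0) * ∏ i, (ζ - c' i) := by
      intro ζ
      rw [hQ, Polynomial.eval_mul, Polynomial.eval_C, Polynomial.eval_prod]
      simp
    have hD : W - Q = 0 := by
      apply Polynomial.eq_zero_of_natDegree_lt_card_of_eval_eq_zero (W - Q) hc'inj
      · intro i
        rw [Polynomial.eval_sub, hWev, hc'zero, hQev,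
          Finset.prod_eq_zero (Finset.mem_univ i) (sub_self _), mul_zero, sub_zero]
      · rw [Fintype.card_fin]
        have h1 : (W - Q).natDegree ≤ 2 * d - 2 :=
          (Polynomial.natDegree_sub_le _ _).trans (max_le hWdeg hQdeg)
        rcases lt_or_eq_of_le h1 with h2 | h2
        · exact h2
        · exfalso
          have h3 : (W - Q).coeff (2 * d - 2) = 0 := by
            rw [Polynomial.coeff_sub, hWtop, hQtop, sub_self]
          rw [← h2] at h3
          have h4 : W - Q = 0 := Polynomial.leadingCoeff_eq_zero.mp h3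
          rw [h4, Polynomial.natDegree_zero] at h2
          omega
    intro ζ
    rw [← hWev, ← hQev, sub_eq_zero.mp hD]

end Pool.Agent.H790R3.RB
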