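import Mathlib
import Pool.Agent.H790R3.RB.St
import Pool.Agent.H790R3.RB.Basic

/-! IN: the starting point belongs to its leaf for `L` large -/

set_option autoImplicit false

open Topology Filter Metric Set MeasureTheory

namespace Pool.Agent.H790R3.RB

namespace IN

/-- the return map contracts the discs -/
lemma step {d n s : ℕ} (S : Sys d n s) {x : Fin n → ℂ} (hx : x ∈ S.U) (k : Option (Fin s))
    {q : ℂ × ℂ} {a z : ℂ} {ρ : ℝ} (ha : a ≠ 0) (hz : ‖z‖ < S.r₀) (hzρ : ‖z‖ ≤ ρ)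
    (hq : q = a • S.cht k x z) :
    ∃ a' z' : ℂ, a' ≠ 0 ∧ ‖z'‖ < S.r₀ ∧ ‖z'‖ ≤ S.θ * ρ ∧
      (S.F x)^[S.per k] q = a' • S.cht k x z' := by
  obtain ⟨a', z', ha', hz', h⟩ := S.contr x hx k z hz
  refine ⟨a ^ (d ^ (S.per k)) * a', z', mul_ne_zero (pow_ne_zero _ ha) ha', ?_, ?_, ?_⟩
  · refine lt_of_le_of_lt (hz'.trans ?_) hz
    have := S.hθ
    nlinarith [norm_nonneg z]
  · exact hz'.trans (mul_le_mul_of_nonneg_left hzρ S.hθ0)
  · rw [hq]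
    unfold Sys.F Sys.cht
    rw [hF_iter_smul, h, smul_smul]

/-- iterates of the return map -/
lemma iter {d n s : ℕ} (S : Sys d n s) {x : Fin n → ℂ} (hx : x ∈ S.U) (k : Option (Fin s))
    {q : ℂ × ℂ} {a z : ℂ} (ha : a ≠ 0) (hz : ‖z‖ < S.r₀) 
    (hq : q = a • S.cht k x z) (m : ℕ) :
    ∃ a' z' : ℂ, a' ≠ 0 ∧ ‖z'‖ < S.r₀ ∧ ‖z'‖ ≤ S.θ ^ m * S.r₀ ∧
      (S.F x)^[S.per k * m] q = a' • S.cht k x z' := by
  induction m with
  | zero => exact ⟨a, z, ha, hz, by simpa using hz.le, by simpa using hq⟩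
  | succ m ih =>
    obtain ⟨a', z', ha', hz', hzm, h⟩ := ih
    obtain ⟨a'', z'', ha'', hz'', hzm'', h''⟩ := step S hx k ha' hz' hzm h
    refine ⟨a'', z'', ha'', hz'', ?_, ?_⟩
    · rw [pow_succ']; linarith [hzm'']
    · rw [← h'', Nat.mul_succ, Nat.add_comm, Function.iterate_add_apply]

/-- the domain is invariant -/
lemma dom_iter {d n s : ℕ} (S : Sys d n s) {x : Fin n → ℂ} (k : Option (Fin s))
    {p : ℂ × ℂ} (hp : (x, p) ∈ S.Dom k) (m : ℕ) : (x, (S.F x)^[S.per k * m] p) ∈ S.Dom k := by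
  obtain ⟨hx, hl, N, a, z, ha, hz, h⟩ := hp
  refine ⟨hx, hl, N, ?_⟩
  obtain ⟨a', z', ha', hz', -, h'⟩ := iter S hx k ha hz h m
  refine ⟨a', z', ha', hz', ?_⟩
  rw [← h']
  simp only
  rw [← Function.iterate_add_apply, ← Function.iterate_add_apply, Nat.add_comm]

lemma fe_iter {d n s : ℕ} (S : Sys d n s) {KK : Option (Fin s) → (Fin n → ℂ) × (ℂ × ℂ) → ℂ}
    (hK : S.Koe KK) {x : Fin n → ℂ} (k : Option (Fin s))
    {p : ℂ × ℂ} (hp : (x, p) ∈ S.Dom k) (m : ℕ) : 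
    KK k (x, (S.F x)^[S.per k * m] p) = S.lam k x ^ m * KK k (x, p) := by
  induction m with
  | zero => simp
  | succ m ih =>
    rw [Nat.mul_succ, Nat.add_comm, Function.iterate_add_apply, 
      hK.fe k x _ (dom_iter S k hp m), ih, pow_succ']
    ring

lemma dom_cht {d n s : ℕ} (S : Sys d n s) {x : Fin n → ℂ} (hx : x ∈ S.U) (k : Option (Fin s))
    (hl : S.lam k x ≠ 0) {z : ℂ} (hz : ‖z‖ < S.r₀) : (x, S.cht k x z) ∈ S.Dom k := by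
  refine ⟨hx, hl, 0, 1, z, one_ne_zero, hz, ?_⟩
  simp

lemma main {d n s : ℕ} (S : Sys d n s) {KK : Option (Fin s) → (Fin n → ℂ) × (ℂ × ℂ) → ℂ} {r : ℝ}
    {N : Set (Fin n → ℂ)} {ω : Option (Fin s) → (Fin n → ℂ) × ℂ → ℂ} (hK : S.Koe KK)
    (hL : S.Lin KK N r ω) {x : Fin n → ℂ} (hxN : x ∈ N) (k : Option (Fin s)) {p : ℂ × ℂ}
    (hp : (x, p) ∈ S.Dom k) : ∃ L₀ : ℕ, ∀ L ≥ L₀, 
      cr ((S.F x)^[S.per k * L] p) 
        (S.cht k x (ω k (x, S.lam k x ^ L * KK k (x, p)))) = 0 := by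
  obtain ⟨r', r'', hr'', hr1, hr2, hinv⟩ := hL.inv
  have hp' := hp
  obtain ⟨hx, hl, N₀, a, z, ha, hz, h⟩ := hp
  -- choose m
  have hlim : Tendsto (fun m : ℕ => S.θ ^ m * S.r₀) atTop (𝓝 0) := by
    have := (tendsto_pow_atTop_nhds_zero_of_lt_one S.hθ0 S.hθ).mul_const S.r₀
    simpa using this
  obtain ⟨m₀, hm₀⟩ := (eventually_atTop.mp (hlim.eventually (gt_mem_nhds hr'')))
  refine ⟨N₀ + m₀, fun L hLL => ?_⟩
  obtain ⟨m, rfl⟩ : ∃ m, L = m + N₀ := ⟨L - N₀, by omega⟩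
  obtain ⟨a', z', ha', hz', hzm, h'⟩ := iter S hx k ha hz h m
  have hz'' : ‖z'‖ < r'' := lt_of_le_of_lt hzm (hm₀ m (by omega))
  have e1 : (S.F x)^[S.per k * (m + N₀)] p = a' • S.cht k x z' := by
    rw [← h', Nat.mul_add, Function.iterate_add_apply]
  have e2 := fe_iter S hK k hp' (m + N₀)
  rw [e1, hK.hom k x _ (dom_cht S hx k hl hz') a' ha'] at e2
  rw [← e2, e1]
  have hkk : ‖KK k (x, S.cht k x z')‖ < r := (hinv k x hxN).2.2 z' hz''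
  rw [(hinv k x hxN).2.1 z' (hz''.trans_le hr1) hkk, cr_smul_left, cr_self, mul_zero]

end IN

theorem IN : StIN := by
  intro d n s l S KK r N ω e A ks ls ρ₂ K y₀ hK hL hN hcb hA hKb
  have hmain : ∀ i : Fin (2 * d - 2), ∃ L₀ : ℕ, i ∈ A → ∀ L ≥ L₀, 
      cr ((S.F (yx y₀))^[S.per (ks i) * L] ((S.F (yx y₀))^[ls i] (yc y₀ i, 1))) 
        (S.cht (ks i) (yx y₀) (ω (ks i) (yx y₀, S.lam (ks i) (yx y₀) ^ L * 
          KK (ks i) (yx y₀, (S.F (yx y₀))^[ls i] (yc y₀ i, 1))))) = 0 := by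
    intro i
    by_cases hi : i ∈ A
    · obtain ⟨L₀, h⟩ := IN.main S hK hL hN (ks i) (hA.att i hi)
      exact ⟨L₀, fun _ => h⟩
    · exact ⟨0, fun h => absurd h hi⟩
  choose L₀ hL₀ using hmain
  refine ⟨A.sup L₀, fun L hLL => ?_⟩
  refine ⟨hcb, fun _ => rfl, fun _ => rfl, rfl, hA.crit, hKb, ?_⟩
  intro i hi
  have h1 := hL₀ i hi L ((Finset.le_sup hi).trans hLL)
  have hk := hA.kap0 (ks i)
  have e1 : yk y₀ (ks i) * (S.lam (ks i) (yx y₀) ^ L * 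
      (KK (ks i) (yx y₀, (S.F (yx y₀))^[ls i] (yc y₀ i, 1)) / yk y₀ (ks i))) = 
      S.lam (ks i) (yx y₀) ^ L * 
          KK (ks i) (yx y₀, (S.F (yx y₀))^[ls i] (yc y₀ i, 1)) := by
    field_simp
  rw [← Function.iterate_add_apply, Nat.add_comm (S.per (ks i) * L)] at h1
  simp only
  rw [e1]
  exact h1

end Pool.Agent.H790R3.RB
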