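import Mathlib
import Pool.Agent.H790R3.RB.St2
import Pool.Agent.H790R3.RB.Basic

set_option autoImplicit false

open Topology Filter Metric Set MeasureTheory
open scoped OnePoint

namespace Pool.Agent.H790R3.RB

namespace INF

/-- a sink for the period `n` is a sink for the minimal period -/
theorem sink_min {f : OnePoint ℂ → OnePoint ℂ} (hf : Continuous f) {n : ℕ} {a : OnePoint ℂ}
    (h : Sink f n a) : Sink f (Function.minimalPeriod f a) a := by
  obtain ⟨hn, hfa, U, hU, hV⟩ := h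
  have hper : Function.IsPeriodicPt f n a := hfa
  have hm : 0 < Function.minimalPeriod f a := hper.minimalPeriod_pos hn
  have hma : f^[Function.minimalPeriod f a] a = a := Function.isPeriodicPt_minimalPeriod f a
  obtain ⟨q, hq⟩ := hper.minimalPeriod_dvd
  set m := Function.minimalPeriod f a with hmdef
  have hq0 : 0 < q := by
    rcases Nat.eq_zero_or_pos q with h0 | h0
    · rw [h0, mul_zero] at hq; omega
    · exact h0
  refine ⟨hm, hma, U, hU, ?_⟩
  intro V hVa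
  have hfix : ∀ i : ℕ, f^[m * i] a = a := by
    intro i
    rw [Function.iterate_mul]
    exact Function.iterate_fixed hma i
  have hV' : (⋂ i ∈ Finset.range q, f^[m * i] ⁻¹' V) ∈ 𝓝 a := by
    rw [Filter.biInter_finset_mem]
    intro i _
    have hc : Continuous (f^[m * i]) := hf.iterate _
    apply hc.continuousAt.preimage_mem_nhds
    rw [hfix i]
    exact hVa
  have hev := hV _ hV'
  rw [eventually_atTop] at hev
  obtain ⟨k0, hk0⟩ := hev
  rw [eventually_atTop]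
  refine ⟨q * k0, ?_⟩
  intro K hK w hw
  have hdiv : k0 ≤ K / q := by
    rw [Nat.le_div_iff_mul_le hq0, mul_comm]
    exact hK
  have h1 := hk0 (K / q) hdiv w hw
  rw [mem_iInter₂] at h1
  have h2 := h1 (K % q) (Finset.mem_range.mpr (Nat.mod_lt _ hq0))
  rw [mem_preimage, ← Function.iterate_add_apply] at h2
  have h3 : m * (K % q) + n * (K / q) = m * K := by
    rw [hq, mul_assoc, ← mul_add]
    congr 1
    exact Nat.mod_add_div K q
  rwa [h3] at h2

/-- going around the cycle -/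
theorem back {f : OnePoint ℂ → OnePoint ℂ} {a b : OnePoint ℂ} {n m : ℕ} (hn : 0 < n)
    (ha : f^[n] a = a) (hab : f^[m] a = b) : ∃ m' : ℕ, f^[m'] b = a := by
  refine ⟨n * m - m, ?_⟩
  rw [← hab, ← Function.iterate_add_apply]
  have h1 : n * m - m + m = n * m := by
    apply Nat.sub_add_cancel
    exact Nat.le_mul_of_pos_left m hn
  rw [h1, Function.iterate_mul]
  exact Function.iterate_fixed ha m

/-- the marked points -/
def pt {s : ℕ} (β : Fin s → ℂ) (k : Option (Fin s)) : OnePoint ℂ :=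
  match k with
  | none => ∞
  | some k => ((β k : ℂ) : OnePoint ℂ)

/-- admissible families of marked sinks -/
def Good (f : OnePoint ℂ → OnePoint ℂ) (s : ℕ) (β : Fin s → ℂ) : Prop :=
  (∀ k, Sink f (Function.minimalPeriod f (pt β k)) (pt β k)) ∧
    ∀ k k' : Option (Fin s), ∀ m : ℕ, f^[m] (pt β k) = pt β k' → k = k'

theorem pr_ch {s : ℕ} (β : Fin s → ℂ) (k : Option (Fin s)) :
    pr (ch (fun k (_ : Unit) => β k) k () 0) = pt β k := by
  cases k with
  | none => simp [pr, ch, pt]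
  | some k => simp [pr, ch, pt]

/-- a maximal family marks all sinks -/
theorem extend {f : OnePoint ℂ → OnePoint ℂ} (hf : Continuous f) {s : ℕ} {β : Fin s → ℂ}
    (hG : Good f s β) (hmax : ∀ β' : Fin (s + 1) → ℂ, ¬ Good f (s + 1) β') {n : ℕ}
    {a : OnePoint ℂ} (ha : Sink f n a) : ∃ k, ∃ m : ℕ, f^[m] a = pt β k := by
  by_contra hno
  push Not at hno
  obtain ⟨z, rfl⟩ : ∃ z : ℂ, (z : OnePoint ℂ) = a := by
    rcases OnePoint.ne_infty_iff_exists.mp (show a ≠ ∞ from fun h => hno none 0 (by simpa [pt] using h))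
      with ⟨z, hz⟩
    exact ⟨z, hz⟩
  apply hmax (Fin.snoc (α := fun _ => ℂ) β z)
  set β' : Fin (s + 1) → ℂ := Fin.snoc (α := fun _ => ℂ) β z with hβ'
  have hold : ∀ i : Fin s, β' i.castSucc = β i := fun i => by simp [hβ']
  have hnew : β' (Fin.last s) = z := by simp [hβ']
  have hpold : ∀ k : Option (Fin s), pt β' (k.map Fin.castSucc) = pt β k := by
    intro k
    cases k with
    | none => rfl
    | some k => simp [pt, hold]
  have hpnew : pt β' (some (Fin.last s)) = (z : OnePoint ℂ) := by simp [pt, hnew]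
  have hcases : ∀ k : Option (Fin (s + 1)), (∃ k₀ : Option (Fin s), k = k₀.map Fin.castSucc) ∨
      k = some (Fin.last s) := by
    intro k
    cases k with
    | none => exact Or.inl ⟨none, rfl⟩
    | some k =>
      refine Fin.lastCases ?_ ?_ k
      · exact Or.inr rfl
      · intro i; exact Or.inl ⟨some i, rfl⟩
  have hsz := sink_min hf ha
  constructor
  · intro k
    rcases hcases k with ⟨k₀, rfl⟩ | rfl
    · rw [hpold]; exact hG.1 k₀
    · rw [hpnew]; exact hsz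
  · intro k k' m hm
    rcases hcases k with ⟨k₀, rfl⟩ | rfl
    · rcases hcases k' with ⟨k₁, rfl⟩ | rfl
      · rw [hpold, hpold] at hm
        rw [hG.2 k₀ k₁ m hm]
      · exfalso
        rw [hpold, hpnew] at hm
        obtain ⟨m', hm'⟩ := back (hG.1 k₀).1 (hG.1 k₀).2.1 hm
        exact hno k₀ m' hm'
    · rcases hcases k' with ⟨k₁, rfl⟩ | rfl
      · exfalso
        rw [hpold, hpnew] at hm
        exact hno k₁ m hm
      · rfl

/-- hyperbolicity is invariant under conjugation -/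
theorem hyp_conj {f g : OnePoint ℂ → OnePoint ℂ} (h : OnePoint ℂ ≃ₜ OnePoint ℂ)
    (hfg : ∀ z, g (h z) = h (f z)) (hg : HypTop g) : HypTop f := by
  have hit : ∀ (N : ℕ) (z : OnePoint ℂ), g^[N] (h z) = h (f^[N] z) := by
    intro N
    induction N with
    | zero => intro z; rfl
    | succ N ih =>
      intro z
      rw [Function.iterate_succ_apply, hfg, ih, Function.iterate_succ_apply]
  intro c hc
  have hc' : ¬ ∃ U ∈ 𝓝 (h c), Set.InjOn g U := by
    rintro ⟨U, hU, hinj⟩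
    apply hc
    refine ⟨h ⁻¹' U, h.continuous.continuousAt.preimage_mem_nhds hU, ?_⟩
    intro a ha b hb hab
    apply h.injective
    apply hinj ha hb
    rw [hfg, hfg, hab]
  obtain ⟨z, n, hn, hz, ⟨U, hU, hUt⟩, ht⟩ := hg (h c) hc'
  have hzz : h (h.symm z) = z := h.apply_symm_apply z
  have hback : ∀ w, Tendsto (fun k : ℕ => g^[n * k] (h w)) atTop (𝓝 z) →
      Tendsto (fun k : ℕ => f^[n * k] w) atTop (𝓝 (h.symm z)) := by
    intro w hw
    have h1 := (h.symm.continuous.tendsto z).comp hw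
    refine h1.congr ?_
    intro k
    simp only [Function.comp_apply]
    rw [hit, h.symm_apply_apply]
  refine ⟨h.symm z, n, hn, ?_, ⟨h ⁻¹' U, ?_, ?_⟩, hback c ht⟩
  · apply h.injective
    rw [← hit, hzz, hz]
  · apply h.continuous.continuousAt.preimage_mem_nhds
    rw [hzz]; exact hU
  · intro w hw
    exact hback w (hUt (h w) hw)

/-- the disc of the cycle `k`, as a subset of the sphere, is a neighbourhood of the base point -/
theorem inC_nhds {d n s : ℕ} (S : Sys d n s) (x : Fin n → ℂ) (β : Fin s → ℂ)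
    (hβ : ∀ k, S.b k x = β k) (k : Option (Fin s)) :
    {z : OnePoint ℂ | S.InC k x (hc z)} ∈ 𝓝 (pt β k) := by
  have hr := S.hr₀
  cases k with
  | none =>
    have h1 : (((↑) : ℂ → OnePoint ℂ) '' (closedBall (0 : ℂ) (1 / S.r₀)))ᶜ ∈ 𝓝 (∞ : OnePoint ℂ) := by
      apply OnePoint.isOpen_compl_image_coe.mpr ⟨isClosed_closedBall, isCompact_closedBall _ _⟩ |>.mem_nhds
      exact OnePoint.infty_notMem_image_coe
    refine mem_of_superset h1 ?_
    intro z hz
    rw [mem_ofPred_eq]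
    induction z using OnePoint.rec with
    | infty =>
      refine ⟨1, 0, one_ne_zero, by simpa using hr, ?_⟩
      show ((1, 0) : ℂ × ℂ) = (1 : ℂ) • ((1, 0) : ℂ × ℂ)
      simp
    | coe z =>
      have hz' : 1 / S.r₀ < ‖z‖ := by
        by_contra hle
        push Not at hle
        exact hz ⟨z, by simpa using hle, rfl⟩
      have hz0 : z ≠ 0 := by
        intro h0
        rw [h0, norm_zero] at hz'
        have : 0 < 1 / S.r₀ := by positivity
        linarith
      refine ⟨z, z⁻¹, hz0, ?_, ?_⟩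
      · rw [norm_inv]
        rw [inv_lt_comm₀ (norm_pos_iff.mpr hz0) hr]
        simpa using hz'
      · show ((z, 1) : ℂ × ℂ) = z • ((1, z⁻¹) : ℂ × ℂ)
        ext <;> simp [hz0]
  | some k =>
    have h1 : ((↑) : ℂ → OnePoint ℂ) '' (ball (β k) S.r₀) ∈ 𝓝 ((β k : ℂ) : OnePoint ℂ) := by
      apply (OnePoint.isOpen_image_coe.mpr isOpen_ball).mem_nhds
      exact ⟨β k, mem_ball_self hr, rfl⟩
    refine mem_of_superset h1 ?_
    rintro _ ⟨z, hz, rfl⟩
    rw [mem_ofPred_eq]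
    refine ⟨1, z - β k, one_ne_zero, by simpa [dist_eq_norm] using hz, ?_⟩
    show ((z, 1) : ℂ × ℂ) = (1 : ℂ) • ((S.b k x + (z - β k), 1) : ℂ × ℂ)
    rw [hβ k]
    ext <;> simp

/-- the universal family at a good family of sinks -/
theorem family (hFAM : StFAM) (hHYP : StHYP) (hNUM : StNUM) (hMUL : StMUL) (hSP : StSP)
    {d : ℕ} {x₀ : CV d} (hd : 2 ≤ d) (hnd : ND x₀) {s : ℕ} {β : Fin s → ℂ}
    (hG : Good (sp x₀) s β) :
    ∃ (S : Sys d (2 * d + 1) s) (v : (Fin (2 * d + 1) → ℂ) → CV d)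
      (η : (Fin (2 * d + 1) → ℂ) → ℂ), (∀ k, S.b k S.xT = β k) ∧ S.co S.xT = x₀ ∧ v S.xT = x₀ ∧
      Continuous v ∧ DifferentiableOn ℂ η S.U ∧
      (∀ x ∈ S.U, ND (v x) ∧ ∀ p : ℂ × ℂ, hF (S.co x) (p.1, p.2 - η x * p.1) =
        ((hF (v x) p).1, (hF (v x) p).2 - η x * (hF (v x) p).1)) ∧
      (∀ x₁ ∈ S.U, ∃ ε : ℝ, 0 < ε ∧ ∀ x ∈ S.U, ‖x - x₁‖ < ε → η x = η x₁ →
        (∀ p : ℂ × ℂ, cr ((S.F x)^[S.per none] p) ((S.F x₁)^[S.per none] p) = 0) → x = x₁) ∧
      (∀ ε : ℝ, 0 < ε → ∃ x ∈ S.U, ‖x - S.xT‖ < ε ∧ (∀ k, S.lam k x ≠ 0) ∧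
        ∃ c : Fin (2 * d - 2) → ℂ, Function.Injective c ∧
          ∀ ζ : ℂ, wr (S.co x) (ζ, 1) = wr (S.co x) (1, 0) * ∏ i, (ζ - c i)) ∧
      s ≤ 2 * d - 2 := by
  obtain ⟨-, hit, hcr, -, -⟩ := hSP d x₀ (by omega) hnd
  have hch0 : ∀ k, ch (fun k (_ : Unit) => β k) k () 0 ≠ 0 := fun k => ch_ne_zero _ _ _ _
  have key : ∀ (k k' : Option (Fin s)) (m : ℕ),
      cr ((hF x₀)^[m] (ch (fun k (_ : Unit) => β k) k () 0)) (ch (fun k (_ : Unit) => β k) k' () 0) = 0 ↔
        (sp x₀)^[m] (pt β k) = pt β k' := by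
    intro k k' m
    rw [← hcr _ _ (hnd.iter_ne m (hch0 k)) (hch0 k'), ← hit _ (hch0 k), pr_ch, pr_ch]
  obtain ⟨S, v, η, hper, -, hb, hco, hv, hvc, hηd, -, hid, hinj, hopen⟩ :=
    hFAM d s x₀ (fun k _ => β k) (fun k => Function.minimalPeriod (sp x₀) (pt β k)) 1 hd hnd
      (fun k => (hG.1 k).1) one_pos
      (fun k => (key k k _).mpr (hG.1 k).2.1)
      (fun k => by
        have h := hG.1 k
        have h2 := hMUL d x₀ (Function.minimalPeriod (sp x₀) (pt β k)) s (fun k _ => β k) k hd hnd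
          (by rw [pr_ch]; exact h)
        exact h2)
      (fun k k' m hm => by
        have h1 := (key k k' m).mp hm
        have h2 := hG.2 k k' m h1
        subst h2
        exact ⟨rfl, Function.IsPeriodicPt.minimalPeriod_dvd h1⟩)
  obtain ⟨hsep, hgen⟩ := hHYP d s S v η (by rw [hv, hco]) hvc hηd hid hinj hopen
  exact ⟨S, v, η, hb, hco, hv, hvc, hηd, hid, hsep, hgen, hNUM d _ s S hgen⟩

end INF

theorem INF (hABS : StABS) (hFAM : StFAM) (hHYP : StHYP) (hNUM : StNUM) (hTOP : StTOP)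
    (hMUL : StMUL) (hSP : StSP) (hMOB : StMOB) : StINF := by
  intro d x₀ p hd hnd hinf harea ε hε
  obtain ⟨hfc, hit, hcr, hhc, -⟩ := hSP d x₀ (by omega) hnd
  -- a maximal family of sinks
  have hP0 : ∃ β : Fin 0 → ℂ, INF.Good (sp x₀) 0 β := by
    refine ⟨Fin.elim0, ?_, ?_⟩
    · intro k
      cases k with
      | none => exact INF.sink_min hfc hinf
      | some k => exact k.elim0
    · intro k k' m _
      exact Subsingleton.elim _ _
  have hbd : ∀ s : ℕ, (∃ β : Fin s → ℂ, INF.Good (sp x₀) s β) → s ≤ 2 * d - 2 := by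
    rintro s ⟨β, hβ⟩
    obtain ⟨-, -, -, -, -, -, -, -, -, -, -, hs⟩ := INF.family hFAM hHYP hNUM hMUL hSP hd hnd hβ
    exact hs
  obtain ⟨s, ⟨β, hG⟩, hmax⟩ : ∃ s : ℕ, (∃ β : Fin s → ℂ, INF.Good (sp x₀) s β) ∧
      ∀ β' : Fin (s + 1) → ℂ, ¬ INF.Good (sp x₀) (s + 1) β' := by
    classical
    by_contra hno
    push Not at hno
    have hall : ∀ s : ℕ, ∃ β : Fin s → ℂ, INF.Good (sp x₀) s β := by
      intro s
      induction s with
      | zero => exact hP0
      | succ s ih => exact hno s ih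
    have := hbd (2 * d - 2 + 1) (hall _)
    omega
  obtain ⟨S, v, η, hb, hco, hv, hvc, hηd, hid, hsep, hgen, -⟩ :=
    INF.family hFAM hHYP hNUM hMUL hSP hd hnd hG
  have hxT : S.xT ∈ S.U := mem_ball_self S.hρ
  -- the area
  have hKS : volume (S.KS S.xT) = 0 := by
    refine measure_mono_null ?_ harea
    intro ζ hζ
    rw [mem_ofPred_eq]
    rintro ⟨n, a, hsink, hta⟩
    obtain ⟨k, m, hkm⟩ := INF.extend hfc hG hmax hsink
    have h1 : Tendsto (fun j : ℕ => (sp x₀)^[m] ((sp x₀)^[n * j] (ζ : OnePoint ℂ))) atTop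
        (𝓝 (INF.pt β k)) := by
      rw [← hkm]
      exact ((hfc.iterate m).tendsto a).comp hta
    obtain ⟨j, hj⟩ := (h1.eventually (INF.inC_nhds S S.xT β hb k)).exists
    rw [← Function.iterate_add_apply] at hj
    have hζ1 : ((ζ, 1) : ℂ × ℂ) ≠ 0 := by
      intro h; have := congrArg Prod.snd h; simp at this
    have hpr : pr ((ζ, 1) : ℂ × ℂ) = (ζ : OnePoint ℂ) := by simp [pr]
    rw [← hpr, hit _ hζ1] at hj
    set M := m + n * j with hM
    have hFne : (hF x₀)^[M] (ζ, 1) ≠ 0 := hnd.iter_ne M hζ1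
    obtain ⟨h2, h3⟩ := hhc (pr ((hF x₀)^[M] (ζ, 1)))
    have h4 : cr ((hF x₀)^[M] (ζ, 1)) (hc (pr ((hF x₀)^[M] (ζ, 1)))) = 0 :=
      (hcr _ _ hFne h3).mp h2.symm
    obtain ⟨a', ha', h5⟩ := (cr_eq_zero_iff hFne h3).mp h4
    obtain ⟨c, z, hc0, hz, h6⟩ := hj
    apply hζ k M
    refine ⟨a' * c, z, mul_ne_zero ha' hc0, hz, ?_⟩
    show (hF (S.co S.xT))^[M] (ζ, 1) = _
    rw [hco, h5, h6, smul_smul]
  have hH : S.Hyp (fun _ : Fin 1 => η) := by
    refine ⟨fun _ => hηd, by omega, ?_, hgen, hKS⟩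
    intro x₁ hx₁
    obtain ⟨ε', hε', h⟩ := hsep x₁ hx₁
    exact ⟨ε', hε', fun x hx hxx he hp => h x hx hxx (he 0) hp⟩
  -- a hyperbolic map nearby
  obtain ⟨δ, hδ, hvδ⟩ := Metric.continuousAt_iff.mp (hvc.continuousAt (x := S.xT)) ε hε
  obtain ⟨x, hxU, hxT', hcrit⟩ := hABS d _ s 1 S (fun _ => η) hH δ hδ
  have hTop := hTOP d _ s S x hxU hcrit
  obtain ⟨hndv, hconj⟩ := hid x hxU
  refine ⟨v x, ?_, hndv, ?_⟩
  · have := hvδ (x := x) (by rw [dist_eq_norm]; exact hxT')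
    rwa [hv, dist_eq_norm] at this
  · obtain ⟨h, hh, -⟩ := hMOB 1 0 (-η x) 1 (by norm_num)
    refine INF.hyp_conj h ?_ hTop
    intro z
    obtain ⟨-, hitv, -, hhcv, -⟩ := hSP d (v x) (by omega) hndv
    obtain ⟨-, hitc, -, -, -⟩ := hSP d (S.co x) (by omega) (S.nd x hxU)
    obtain ⟨hz1, hz2⟩ := hhcv z
    have hT : ∀ q : ℂ × ℂ, q ≠ 0 → h (pr q) = pr (q.1, q.2 - η x * q.1) := by
      intro q hq
      rw [hh q hq]
      congr 1
      ext <;> simp <;> ring
    have hTne : ∀ q : ℂ × ℂ, q ≠ 0 → ((q.1, q.2 - η x * q.1) : ℂ × ℂ) ≠ 0 := by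
      intro q hq h0
      apply hq
      have h1 : q.1 = 0 := congrArg Prod.fst h0
      have h2 : q.2 - η x * q.1 = 0 := congrArg Prod.snd h0
      rw [h1, mul_zero, sub_zero] at h2
      exact Prod.ext h1 h2
    have e1 := hitc _ (hTne _ hz2) 1
    have e2 := hitv _ hz2 1
    simp only [Function.iterate_one] at e1 e2
    rw [← hz1, e2, hT _ hz2, e1, hconj, hT _ (fun h0 => hz2 (hndv _ h0))]

end Pool.Agent.H790R3.RB
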