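import Mathlib
import Pool.Agent.H790R3.RB.St2
import Pool.Agent.H790R3.RB.Basic

/-! INJL: noncritical points are points of local injectivity -/

set_option autoImplicit false

open Topology Filter Metric Set MeasureTheory
open scoped OnePoint

namespace Pool.Agent.H790R3.RB

namespace INJL

lemma hF_cd {d : ℕ} (x : CV d) : ContDiff ℂ 1 (hF x) := by
  have h := hF_contDiff d 1
  exact h.comp (contDiff_const.prodMk contDiff_id)

lemma strict {d : ℕ} (x : CV d) (p : ℂ × ℂ) : HasStrictFDerivAt (hF x) (fderiv ℂ (hF x) p) p :=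
  (hF_cd x).contDiffAt.hasStrictFDerivAt (by norm_num)

lemma line (p e : ℂ × ℂ) (t : ℂ) : HasStrictDerivAt (fun t : ℂ => p + t • e) e t := by
  have h : HasStrictDerivAt (fun t : ℂ => t • e) ((1 : ℂ) • e) t :=
    (hasStrictDerivAt_id t).smul_const e
  simpa using h.const_add p

lemma along {d : ℕ} (x : CV d) (p e : ℂ × ℂ) :
    HasStrictDerivAt (fun t : ℂ => hF x (p + t • e)) (fderiv ℂ (hF x) p e) 0 := by
  have h1 : HasStrictFDerivAt (hF x) (fderiv ℂ (hF x) p) (p + (0 : ℂ) • e) := by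
    simpa using strict x p
  exact h1.comp_hasStrictDerivAt 0 (line p e 0)

lemma euler {d : ℕ} (x : CV d) (p : ℂ × ℂ) : fderiv ℂ (hF x) p p = (d : ℂ) • hF x p := by
  have h1 : HasDerivAt (fun t : ℂ => hF x (p + t • p)) (fderiv ℂ (hF x) p p) 0 :=
    (along x p p).hasDerivAt
  have h2 : HasDerivAt (fun t : ℂ => (1 + t) ^ d • hF x p) ((d : ℂ) • hF x p) 0 := by
    have h3 : HasDerivAt (fun t : ℂ => (1 + t) ^ d) ((d : ℂ) * (1 + 0) ^ (d - 1) * 1) 0 :=
      ((hasDerivAt_id (0 : ℂ)).const_add 1).pow d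
    have h4 := h3.smul_const (hF x p)
    simpa using h4
  have h5 : (fun t : ℂ => hF x (p + t • p)) = fun t : ℂ => (1 + t) ^ d • hF x p := by
    funext t
    rw [← hF_smul, add_smul, one_smul]
  rw [h5] at h1
  exact h1.unique h2

lemma inj_of_strict {φ : ℂ → ℂ} {a : ℂ} (h : HasStrictDerivAt φ a 0) (ha : a ≠ 0) :
    ∃ δ > 0, InjOn φ (ball 0 δ) := by
  have h1 := h.hasStrictFDerivAt_equiv ha
  have h2 := HasStrictFDerivAt.mem_toOpenPartialHomeomorph_source h1
  obtain ⟨δ, hδ, hsub⟩ := Metric.isOpen_iff.mp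
    (HasStrictFDerivAt.toOpenPartialHomeomorph φ h1).open_source 0 h2
  exact ⟨δ, hδ, (HasStrictFDerivAt.toOpenPartialHomeomorph φ h1).injOn.mono hsub⟩

/-- a direction transversal to `p` and neighbourhoods of `pr p` -/
lemma dir {p : ℂ × ℂ} (hp : p ≠ 0) : ∃ e : ℂ × ℂ, cr p e ≠ 0 ∧
    ∀ δ > 0, {z : OnePoint ℂ | ∃ t ∈ ball (0 : ℂ) δ, z = pr (p + t • e)} ∈ 𝓝 (pr p) := by
  by_cases h2 : p.2 = 0
  · have h1 : p.1 ≠ 0 := fun h => hp (Prod.ext h h2)
    refine ⟨(0, 1), by simp [cr, h1], fun δ hδ => ?_⟩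
    have e1 : pr p = ∞ := by simp [pr, h2]
    rw [e1, OnePoint.nhds_infty_eq, mem_sup, mem_map, mem_pure]
    constructor
    · rw [coclosedCompact_eq_cocompact]
      have h3 := (tendsto_norm_cocompact_atTop (E := ℂ)).eventually_gt_atTop (‖p.1‖ / δ)
      filter_upwards [h3] with z hz
      have hz0 : 0 < ‖z‖ := lt_of_le_of_lt (by positivity) hz
      have hz' : z ≠ 0 := norm_pos_iff.mp hz0
      refine ⟨p.1 / z, ?_, ?_⟩
      · rw [mem_ball, dist_zero_right, norm_div, div_lt_iff₀ hz0]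
        rw [div_lt_iff₀ hδ] at hz
        linarith [mul_comm ‖z‖ δ]
      · have h4 : (p + (p.1 / z) • ((0 : ℂ), (1 : ℂ))).2 ≠ 0 := by
          simp [h2, h1, hz']
        have h5 : (p + (p.1 / z) • ((0 : ℂ), (1 : ℂ))).1 / 
            (p + (p.1 / z) • ((0 : ℂ), (1 : ℂ))).2 = z := by
          simp only [Prod.fst_add, Prod.smul_fst, Prod.snd_add, Prod.smul_snd, smul_eq_mul,
            mul_zero, mul_one, add_zero, h2, zero_add]
          field_simp
        unfold pr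
        rw [if_neg h4, h5]
    · refine ⟨0, mem_ball_self hδ, ?_⟩
      simp [pr, h2]
  · refine ⟨(1, 0), by simp [cr, h2], fun δ hδ => ?_⟩
    have e1 : pr p = ((p.1 / p.2 : ℂ) : OnePoint ℂ) := by simp [pr, h2]
    rw [e1, OnePoint.nhds_coe_eq, mem_map]
    have hn : 0 < ‖p.2‖ := norm_pos_iff.mpr h2
    refine mem_of_superset (ball_mem_nhds _ (div_pos hδ hn)) ?_
    intro z hz
    rw [mem_ball, dist_eq_norm] at hz
    refine ⟨(z - p.1 / p.2) * p.2, ?_, ?_⟩
    · rw [mem_ball, dist_zero_right, norm_mul]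
      exact (lt_div_iff₀ hn).mp hz
    · have h4 : (p + ((z - p.1 / p.2) * p.2) • ((1 : ℂ), (0 : ℂ))).2 ≠ 0 := by
        simpa using h2
      have h5 : (p + ((z - p.1 / p.2) * p.2) • ((1 : ℂ), (0 : ℂ))).1 / 
          (p + ((z - p.1 / p.2) * p.2) • ((1 : ℂ), (0 : ℂ))).2 = z := by
        simp only [Prod.fst_add, Prod.smul_fst, Prod.snd_add, Prod.smul_snd, smul_eq_mul,
          mul_zero, mul_one, add_zero]
        field_simp
        ring
      unfold pr
      rw [if_neg h4, h5]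

lemma cr_linear (v w : ℂ × ℂ) (a : ℂ) : cr (a • v) w = a * cr v w := cr_smul_left a v w

end INJL

theorem INJL (hSP : StSP) (hWR : StWR) : StINJL := by
  intro d x p hd hND hp hw
  obtain ⟨-, hsp, hprcr, -, -⟩ := hSP d x (by omega) hND
  obtain ⟨-, -, hjac⟩ := hWR d x hd
  obtain ⟨e, he, hU⟩ := INJL.dir hp
  set P := hF x p with hP
  have hP0 : P ≠ 0 := fun h => hp (hND p h)
  obtain ⟨f, hf, -⟩ := INJL.dir hP0
  set D := fderiv ℂ (hF x) p e with hD
  have hcr : cr D P ≠ 0 := by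
    have h1 := hjac p p e
    rw [INJL.euler, cr_smul_left, ← hP, ← hD] at h1
    intro h2
    rw [cr_comm, h2] at h1
    have h3 : wr x p * cr p e = 0 := by rw [← h1]; ring
    exact (mul_ne_zero hw he) h3
  -- the local coordinate
  have hal := INJL.along x p e
  have hlin : ∀ w : ℂ × ℂ, HasStrictDerivAt (fun t : ℂ => cr (hF x (p + t • e)) w) (cr D w) 0 := by
    intro w
    have h1 : HasStrictFDerivAt (fun v : ℂ × ℂ => cr v w)
        (w.2 • ContinuousLinearMap.fst ℂ ℂ ℂ - w.1 • ContinuousLinearMap.snd ℂ ℂ ℂ) 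
        (hF x (p + (0 : ℂ) • e)) := by
      have h2 := (w.2 • ContinuousLinearMap.fst ℂ ℂ ℂ - 
        w.1 • ContinuousLinearMap.snd ℂ ℂ ℂ).hasStrictFDerivAt (x := hF x (p + (0 : ℂ) • e))
      refine h2.congr_of_eventuallyEq (Eventually.of_forall fun v => ?_)
      simp only [cr, sub_apply, smul_apply,
        ContinuousLinearMap.coe_fst', ContinuousLinearMap.coe_snd', smul_eq_mul]
      ring
    have h2 := h1.comp_hasStrictDerivAt (0 : ℂ) hal
    have h3 : (w.2 • ContinuousLinearMap.fst ℂ ℂ ℂ - w.1 • ContinuousLinearMap.snd ℂ ℂ ℂ) 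
        (fderiv ℂ (hF x) p e) = cr D w := by
      simp only [cr, sub_apply, smul_apply,
        ContinuousLinearMap.coe_fst', ContinuousLinearMap.coe_snd', smul_eq_mul, hD]
      ring
    rw [h3] at h2
    exact h2
  have e0 : p + (0 : ℂ) • e = p := by simp
  have hden : cr (hF x (p + (0 : ℂ) • e)) f ≠ 0 := by rw [e0]; exact hf
  have hφ := (hlin P).div (hlin f) hden
  have hnum0 : cr (hF x (p + (0 : ℂ) • e)) P = 0 := by rw [e0]; exact cr_self _
  rw [hnum0, zero_mul, sub_zero] at hφ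
  have hne : cr D P * cr (hF x (p + (0 : ℂ) • e)) f / cr (hF x (p + (0 : ℂ) • e)) f ^ 2 ≠ 0 :=
    div_ne_zero (mul_ne_zero hcr hden) (pow_ne_zero _ hden)
  obtain ⟨δ, hδ, hinj⟩ := INJL.inj_of_strict hφ hne
  refine ⟨_, hU δ hδ, ?_⟩
  rintro z ⟨t, ht, rfl⟩ z' ⟨t', ht', rfl⟩ hzz
  have hq0 : ∀ t : ℂ, p + t • e ≠ 0 := by
    intro t h
    have h1 : cr (p + t • e) e = cr p e := by
      simp only [cr, Prod.fst_add, Prod.snd_add, Prod.smul_fst, Prod.smul_snd, smul_eq_mul]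
      ring
    rw [h] at h1
    apply he
    rw [← h1]
    simp [cr]
  have h1 := hsp (p + t • e) (hq0 t) 1
  have h2 := hsp (p + t' • e) (hq0 t') 1
  simp only [Function.iterate_one] at h1 h2
  rw [h1, h2] at hzz
  have hF0 : ∀ t : ℂ, hF x (p + t • e) ≠ 0 := fun t h => hq0 t (hND _ h)
  rw [hprcr _ _ (hF0 t) (hF0 t')] at hzz
  obtain ⟨a, ha, hEq⟩ := (cr_eq_zero_iff (hF0 t) (hF0 t')).mp hzz
  have htt : t = t' := by
    apply hinj ht ht'
    show cr (hF x (p + t • e)) P / cr (hF x (p + t • e)) f = 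
      cr (hF x (p + t' • e)) P / cr (hF x (p + t' • e)) f
    rw [hEq, cr_smul_left, cr_smul_left, mul_div_mul_left _ _ ha]
  rw [htt]

end Pool.Agent.H790R3.RB
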