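import Mathlib
import Pool.Agent.H790R3.RB.St2
import Pool.Agent.H790R3.RB.Basic

/-! Task ISO (helper828): a rational map is isolated among the maps with the same `q`-th
iterate. -/

set_option autoImplicit false

open Topology Filter Metric Set MeasureTheory
open scoped Polynomial

namespace Pool.Agent.H790R3.RB

namespace ISO

/-- binary forms of degree `n` -/
structure BF (n : ℕ) (Φ : ℂ × ℂ → ℂ) : Prop where
  hom : ∀ (a : ℂ) (p : ℂ × ℂ), Φ (a • p) = a ^ n * Φ p
  pol : ∀ e e' : ℂ × ℂ, ∃ P : ℂ[X], P.natDegree ≤ n ∧ (∀ t : ℂ, P.eval t = Φ (e + t • e')) ∧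
    P.coeff n = Φ e'

theorem BF.fst : BF 1 Prod.fst where
  hom a p := by simp
  pol e e' := by
    refine ⟨Polynomial.C e.1 + Polynomial.C e'.1 * Polynomial.X, ?_, ?_, ?_⟩
    · compute_degree
    · intro t; simp; ring
    · simp

theorem BF.snd : BF 1 Prod.snd where
  hom a p := by simp
  pol e e' := by
    refine ⟨Polynomial.C e.2 + Polynomial.C e'.2 * Polynomial.X, ?_, ?_, ?_⟩
    · compute_degree
    · intro t; simp; ring
    · simp

theorem BF.zero (n : ℕ) : BF n (fun _ => 0) where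
  hom a p := by simp
  pol e e' := ⟨0, by simp, by simp, by simp⟩

theorem BF.one : BF 0 (fun _ => 1) where
  hom a p := by simp
  pol e e' := ⟨1, by simp, by simp, by simp⟩

theorem BF.add {n : ℕ} {Φ Ψ : ℂ × ℂ → ℂ} (h1 : BF n Φ) (h2 : BF n Ψ) :
    BF n (fun p => Φ p + Ψ p) where
  hom a p := by rw [h1.hom, h2.hom]; ring
  pol e e' := by
    obtain ⟨P, a1, a2, a3⟩ := h1.pol e e'
    obtain ⟨Q, b1, b2, b3⟩ := h2.pol e e'
    exact ⟨P + Q, (Polynomial.natDegree_add_le_of_degree_le a1 b1),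
      fun t => by rw [Polynomial.eval_add, a2, b2], by rw [Polynomial.coeff_add, a3, b3]⟩

theorem BF.smul {n : ℕ} {Φ : ℂ × ℂ → ℂ} (h1 : BF n Φ) (c : ℂ) :
    BF n (fun p => c * Φ p) where
  hom a p := by rw [h1.hom]; ring
  pol e e' := by
    obtain ⟨P, a1, a2, a3⟩ := h1.pol e e'
    exact ⟨Polynomial.C c * P, (Polynomial.natDegree_C_mul_le _ _).trans a1,
      fun t => by rw [Polynomial.eval_mul, Polynomial.eval_C, a2],
      by rw [Polynomial.coeff_C_mul, a3]⟩

theorem BF.sub {n : ℕ} {Φ Ψ : ℂ × ℂ → ℂ} (h1 : BF n Φ) (h2 : BF n Ψ) :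
    BF n (fun p => Φ p - Ψ p) := by
  have h := h1.add (h2.smul (-1))
  have he : (fun p => Φ p - Ψ p) = fun p => Φ p + -1 * Ψ p := by funext p; ring
  rw [he]; exact h

theorem BF.mul {m n : ℕ} {Φ Ψ : ℂ × ℂ → ℂ} (h1 : BF m Φ) (h2 : BF n Ψ) :
    BF (m + n) (fun p => Φ p * Ψ p) where
  hom a p := by rw [h1.hom, h2.hom]; ring
  pol e e' := by
    obtain ⟨P, a1, a2, a3⟩ := h1.pol e e'
    obtain ⟨Q, b1, b2, b3⟩ := h2.pol e e'
    exact ⟨P * Q, Polynomial.natDegree_mul_le_of_le a1 b1,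
      fun t => by rw [Polynomial.eval_mul, a2, b2],
      by rw [Polynomial.coeff_mul_add_eq_of_natDegree_le a1 b1, a3, b3]⟩

theorem BF.pow {m : ℕ} {Φ : ℂ × ℂ → ℂ} (h1 : BF m Φ) (k : ℕ) :
    BF (k * m) (fun p => Φ p ^ k) := by
  induction k with
  | zero => simpa using BF.one
  | succ k ih =>
    have h := ih.mul h1
    have e1 : (k + 1) * m = k * m + m := by ring
    rw [e1]
    have he : (fun p => Φ p ^ (k + 1)) = fun p => Φ p ^ k * Φ p := by funext p; ring
    rw [he]; exact h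

theorem BF.sum {n : ℕ} {ι : Type} (s : Finset ι) {Φ : ι → ℂ × ℂ → ℂ} (h : ∀ i ∈ s, BF n (Φ i)) :
    BF n (fun p => ∑ i ∈ s, Φ i p) := by
  classical
  induction s using Finset.induction_on with
  | empty => simpa using BF.zero n
  | insert i s hi ih =>
    have h1 := (h i (Finset.mem_insert_self i s)).add
      (ih (fun j hj => h j (Finset.mem_insert_of_mem hj)))
    have he : (fun p => ∑ j ∈ insert i s, Φ j p) = fun p => Φ i p + ∑ j ∈ s, Φ j p := by
      funext p; rw [Finset.sum_insert hi]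
    rw [he]; exact h1

theorem BF.exists_zero {n : ℕ} (hn : 1 ≤ n) {Φ : ℂ × ℂ → ℂ} (h : BF n Φ) :
    ∃ p : ℂ × ℂ, p ≠ 0 ∧ Φ p = 0 := by
  by_cases h0 : Φ (0, 1) = 0
  · exact ⟨(0, 1), by simp, h0⟩
  · obtain ⟨P, a1, a2, a3⟩ := h.pol (1, 0) (0, 1)
    have h1 : P.coeff n ≠ 0 := by rw [a3]; exact h0
    have h2 : n ≤ P.natDegree := Polynomial.le_natDegree_of_ne_zero h1
    have h3 : P.degree ≠ 0 := by
      intro h4
      have := Polynomial.natDegree_eq_zero_iff_degree_le_zero.mpr h4.le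
      omega
    obtain ⟨t, ht⟩ := IsAlgClosed.exists_root P h3
    refine ⟨(1, 0) + t • (0, 1), ?_, ?_⟩
    · intro h
      have := congrArg Prod.fst h
      simp at this
    · rw [← a2 t]; exact ht

theorem exists_cr_ne {q : ℂ × ℂ} (hq : q ≠ 0) : ∃ e : ℂ × ℂ, cr e q ≠ 0 := by
  by_cases h : q.1 = 0
  · have h2 : q.2 ≠ 0 := fun h2 => hq (Prod.ext h h2)
    exact ⟨(1, 0), by simpa [cr] using h2⟩
  · exact ⟨(0, 1), by simpa [cr] using h⟩

theorem basis {e q : ℂ × ℂ} (h : cr e q ≠ 0) (p : ℂ × ℂ) :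
    p = (cr p q / cr e q) • e + (cr e p / cr e q) • q := by
  have h1 : cr e q • p = cr p q • e + cr e p • q := by
    apply Prod.ext
    · simp only [cr, Prod.smul_fst, Prod.fst_add, smul_eq_mul]; ring
    · simp only [cr, Prod.smul_snd, Prod.snd_add, smul_eq_mul]; ring
  calc p = (cr e q)⁻¹ • (cr e q • p) := by rw [smul_smul, inv_mul_cancel₀ h, one_smul]
    _ = _ := by
      rw [h1, smul_add, smul_smul, smul_smul, div_eq_inv_mul, div_eq_inv_mul]

theorem cr_add_left (p q r : ℂ × ℂ) : cr (p + q) r = cr p r + cr q r := by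
  simp only [cr, Prod.fst_add, Prod.snd_add]; ring

theorem cr_add_right (p q r : ℂ × ℂ) : cr p (q + r) = cr p q + cr p r := by
  simp only [cr, Prod.fst_add, Prod.snd_add]; ring

/-- zeros of a nonzero form -/
theorem BF.finite_zeros {n : ℕ} {Φ : ℂ × ℂ → ℂ} (h : BF n Φ) {q : ℂ × ℂ} (hq : q ≠ 0)
    (hΦ : Φ q ≠ 0) : ∃ Z : Finset (ℂ × ℂ), Z.card ≤ n ∧ (∀ z ∈ Z, z ≠ 0 ∧ Φ z = 0) ∧
      ∀ p : ℂ × ℂ, p ≠ 0 → Φ p = 0 → ∃ z ∈ Z, cr p z = 0 := by
  classical
  obtain ⟨e, he⟩ := exists_cr_ne hq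
  obtain ⟨P, a1, a2, a3⟩ := h.pol e q
  have hP0 : P ≠ 0 := by
    rintro rfl
    rw [Polynomial.coeff_zero] at a3
    exact hΦ a3.symm
  have hne : ∀ t : ℂ, e + t • q ≠ 0 := by
    intro t ht
    have h1 : cr (e + t • q) q = 0 := by rw [ht]; simp [cr]
    rw [cr_add_left, cr_smul_left, cr_self, mul_zero, add_zero] at h1
    exact he h1
  refine ⟨P.roots.toFinset.image (fun t => e + t • q), ?_, ?_, ?_⟩
  · exact Finset.card_image_le.trans ((Multiset.toFinset_card_le _).trans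
      ((Polynomial.card_roots' P).trans a1))
  · intro z hz
    rw [Finset.mem_image] at hz
    obtain ⟨t, ht, rfl⟩ := hz
    refine ⟨hne t, ?_⟩
    rw [Multiset.mem_toFinset, Polynomial.mem_roots hP0] at ht
    rw [← a2 t]; exact ht
  · intro p hp hΦp
    have hb := basis he p
    set α := cr p q / cr e q with hα
    set β := cr e p / cr e q with hβ
    have hα0 : α ≠ 0 := by
      intro h0
      rw [h0, zero_smul, zero_add] at hb
      have hβ0 : β ≠ 0 := by
        intro h1; rw [h1, zero_smul] at hb; exact hp hb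
      rw [hb, h.hom] at hΦp
      rcases mul_eq_zero.mp hΦp with h2 | h2
      · exact pow_ne_zero n hβ0 h2
      · exact hΦ h2
    have hp2 : p = α • (e + (β / α) • q) := by
      rw [smul_add, smul_smul, mul_div_cancel₀ _ hα0]; exact hb
    refine ⟨e + (β / α) • q, ?_, ?_⟩
    · rw [Finset.mem_image]
      refine ⟨β / α, ?_, rfl⟩
      rw [Multiset.mem_toFinset, Polynomial.mem_roots hP0]
      show P.eval (β / α) = 0
      rw [a2]
      rw [hp2, h.hom] at hΦp
      exact (mul_eq_zero.mp hΦp).resolve_left (pow_ne_zero _ hα0)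
    · conv_lhs => rw [hp2]
      rw [cr_smul_left, cr_self, mul_zero]

/-- a form of degree `n` with more than `n` zeros vanishes -/
theorem BF.eq_zero {n : ℕ} {Φ : ℂ × ℂ → ℂ} (h : BF n Φ) (p : Fin (n + 1) → ℂ × ℂ)
    (h0 : ∀ i, p i ≠ 0) (h1 : ∀ i, Φ (p i) = 0) (h2 : ∀ i j, i ≠ j → cr (p i) (p j) ≠ 0)
    {q : ℂ × ℂ} (hq : q ≠ 0) : Φ q = 0 := by
  classical
  by_contra hΦ
  obtain ⟨Z, hZ, hZ1, hZ2⟩ := h.finite_zeros hq hΦ
  choose z hz1 hz2 using fun i => hZ2 (p i) (h0 i) (h1 i)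
  have hinj : Function.Injective z := by
    intro i j hij
    by_contra hne
    apply h2 i j hne
    have e1 := hz2 i
    have e2 := hz2 j
    rw [← hij] at e2
    rw [cr_comm] at e2
    exact cr_trans (hZ1 _ (hz1 i)).1 e1 (neg_eq_zero.mp e2)
  have h3 : (Finset.univ.image z).card ≤ Z.card := by
    apply Finset.card_le_card
    intro y hy
    rw [Finset.mem_image] at hy
    obtain ⟨i, -, rfl⟩ := hy
    exact hz1 i
  rw [Finset.card_image_of_injective _ hinj, Finset.card_univ, Fintype.card_fin] at h3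
  omega

/-- nondegenerate homogeneous maps -/
structure GM (D : ℕ) (G : ℂ × ℂ → ℂ × ℂ) : Prop where
  h1 : BF D (fun p => (G p).1)
  h2 : BF D (fun p => (G p).2)
  nd : ∀ p, G p = 0 → p = 0

theorem GM.smul {D : ℕ} {G : ℂ × ℂ → ℂ × ℂ} (h : GM D G) (a : ℂ) (p : ℂ × ℂ) :
    G (a • p) = a ^ D • G p := Prod.ext (h.h1.hom a p) (h.h2.hom a p)

theorem GM.cr_const {D : ℕ} {G : ℂ × ℂ → ℂ × ℂ} (h : GM D G) (e : ℂ × ℂ) :
    BF D (fun p => cr (G p) e) := by
  have h1 := (h.h1.smul e.2).sub (h.h2.smul e.1)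
  have he : (fun p => cr (G p) e) = fun p => e.2 * (G p).1 - e.1 * (G p).2 := by
    funext p; simp only [cr]; ring
  rw [he]; exact h1

theorem GM.cr_cr {D D' : ℕ} {G G' : ℂ × ℂ → ℂ × ℂ} (h : GM D G) (h' : GM D' G') :
    BF (D + D') (fun p => cr (G p) (G' p)) := (h.h1.mul h'.h2).sub (h.h2.mul h'.h1)

theorem GM.id : GM 1 (fun p => p) := ⟨BF.fst, BF.snd, fun _ h => h⟩

theorem GM.fix {D : ℕ} {G : ℂ × ℂ → ℂ × ℂ} (h : GM D G) :
    BF (D + 1) (fun p => cr (G p) p) := h.cr_cr GM.id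

/-- parallel vectors have parallel images -/
theorem GM.par {D : ℕ} {G : ℂ × ℂ → ℂ × ℂ} (h : GM D G) {p q : ℂ × ℂ} (hp : p ≠ 0) (hq : q ≠ 0)
    (hpq : cr p q = 0) : cr (G p) (G q) = 0 := by
  obtain ⟨a, -, rfl⟩ := (cr_eq_zero_iff hp hq).mp hpq
  rw [h.smul, cr_smul_left, cr_self, mul_zero]

/-- if `e` is totally ramified the form `cr (G p) e` is constant on lines parallel to `e` -/
theorem GM.total {D : ℕ} {G : ℂ × ℂ → ℂ × ℂ} (h : GM D G) {e : ℂ × ℂ}
    (he : ∀ p : ℂ × ℂ, p ≠ 0 → cr (G p) e = 0 → cr p e = 0) {u : ℂ × ℂ} (hu : cr u e ≠ 0) (t : ℂ) :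
    cr (G (u + t • e)) e = cr (G u) e := by
  obtain ⟨P, -, a2, -⟩ := (h.cr_const e).pol u e
  have hdeg : P.degree = 0 := by
    by_contra hd
    obtain ⟨s, hs⟩ := IsAlgClosed.exists_root P hd
    have h1 : cr (u + s • e) e = cr u e := by
      rw [cr_add_left, cr_smul_left, cr_self, mul_zero, add_zero]
    have h2 : u + s • e ≠ 0 := by
      intro h0
      rw [h0] at h1
      apply hu
      rw [← h1]; simp [cr]
    apply hu
    rw [← h1]
    apply he _ h2
    rw [← a2 s]; exact hs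
  have h3 := Polynomial.eq_C_of_degree_eq_zero hdeg
  have h4 := a2 t
  have h5 := a2 0
  rw [h3, Polynomial.eval_C] at h4 h5
  rw [← h4, h5, zero_smul, add_zero]

theorem GM.contra {D : ℕ} (hD : 2 ≤ D) {G : ℂ × ℂ → ℂ × ℂ} (h : GM D G)
    (hB : ∀ e : ℂ × ℂ, e ≠ 0 → cr (G e) e = 0 → ∀ p : ℂ × ℂ, p ≠ 0 → cr (G p) e = 0 →
      cr p e = 0) : False := by
  obtain ⟨e, he0, he⟩ := h.fix.exists_zero (by omega)
  obtain ⟨u, hu⟩ := exists_cr_ne he0
  have hue : cr e u ≠ 0 := by rw [cr_comm]; exact neg_ne_zero.mpr hu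
  -- a second fixed point
  obtain ⟨A, b1, b2, b3⟩ := (h.cr_const u).pol u e
  have hGe : G e ≠ 0 := fun h0 => he0 (h.nd e h0)
  obtain ⟨lam, hlam, hGe2⟩ := (cr_eq_zero_iff hGe he0).mp he
  have hA : A.coeff D ≠ 0 := by
    rw [b3, hGe2, cr_smul_left]
    exact mul_ne_zero hlam hue
  set c := cr (G u) e with hc
  set Q : ℂ[X] := A + Polynomial.C c * Polynomial.X with hQ
  have hQc : Q.coeff D ≠ 0 := by
    rw [hQ, Polynomial.coeff_add, Polynomial.coeff_C_mul, Polynomial.coeff_X,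
      if_neg (by omega : ¬ 1 = D), mul_zero, add_zero]
    exact hA
  have hQd : Q.degree ≠ 0 := by
    intro h4
    have h5 := Polynomial.natDegree_eq_zero_iff_degree_le_zero.mpr h4.le
    have h6 := Polynomial.le_natDegree_of_ne_zero hQc
    omega
  obtain ⟨s, hs⟩ := IsAlgClosed.exists_root Q hQd
  set e' := u + s • e with he'
  have hee : cr e' e ≠ 0 := by
    rw [he', cr_add_left, cr_smul_left, cr_self, mul_zero, add_zero]; exact hu
  have he'0 : e' ≠ 0 := by
    intro h0; rw [h0] at hee; exact hee (by simp [cr])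
  have hee' : cr e e' ≠ 0 := by rw [cr_comm]; exact neg_ne_zero.mpr hee
  have hfix : cr (G e') e' = 0 := by
    have h1 : cr (G e') e = c := h.total (hB e he0 he) hu s
    have h2 : cr (G e') u = A.eval s := (b2 s).symm
    have h3 : cr (G e') e' = cr (G e') u + s * cr (G e') e := by
      conv_lhs => rw [he']
      rw [← he', cr_add_right, cr_smul_right]
    rw [h3, h1, h2]
    have h4 : Q.eval s = 0 := hs
    rw [hQ, Polynomial.eval_add, Polynomial.eval_mul, Polynomial.eval_C, Polynomial.eval_X] at h4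
    rw [mul_comm s c]; exact h4
  clear_value e'
  -- the map in the basis `e, e'`
  have hGe' : G e' ≠ 0 := fun h0 => he'0 (h.nd e' h0)
  obtain ⟨mu, hmu, hGe'2⟩ := (cr_eq_zero_iff hGe' he'0).mp hfix
  have hform : ∀ t : ℂ, t ≠ 0 → G (e' + t • e) = (lam * t ^ D) • e + mu • e' := by
    intro t ht
    have h1 : cr (G (e' + t • e)) e = cr (G e') e := h.total (hB e he0 he) hee t
    have h2 : cr (G (e + t⁻¹ • e')) e' = cr (G e) e' := h.total (hB e' he'0 hfix) hee' t⁻¹
    have h3 : e' + t • e = t • (e + t⁻¹ • e') := by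
      rw [smul_add, smul_smul, mul_inv_cancel₀ ht, one_smul, add_comm]
    have h4 : cr (G (e' + t • e)) e' = t ^ D * cr (G e) e' := by
      rw [h3, h.smul, cr_smul_left, h2]
    have h5 := basis hee' (G (e' + t • e))
    have h6 : cr e (G (e' + t • e)) = -cr (G (e' + t • e)) e := cr_comm _ _
    rw [h4, h6, h1, hGe2, hGe'2, cr_smul_left, cr_smul_left] at h5
    have h7 : cr e' e = -cr e e' := cr_comm _ _
    rw [h7] at h5
    have e1 : t ^ D * (lam * cr e e') / cr e e' = lam * t ^ D := by field_simp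
    have e2 : -(mu * -cr e e') / cr e e' = mu := by field_simp
    rw [e1, e2] at h5
    exact h5
  obtain ⟨t, ht⟩ := IsAlgClosed.exists_pow_nat_eq (mu / lam) (show 0 < D - 1 by omega)
  have ht0 : t ≠ 0 := by
    rintro rfl
    rw [zero_pow (by omega)] at ht
    exact (div_ne_zero hmu hlam) ht.symm
  have htD : lam * t ^ D = mu * t := by
    have h1 : t ^ D = t ^ (D - 1) * t := by rw [← pow_succ]; congr 1; omega
    rw [h1, ht]; field_simp
  have hp1 : G (e' + t • e) = mu • (e' + t • e) := by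
    rw [hform t ht0, htD, smul_add, smul_smul, add_comm]
  set ζ := Complex.exp (2 * Real.pi * Complex.I / D) with hζ
  have hprim : IsPrimitiveRoot ζ D := Complex.isPrimitiveRoot_exp D (by omega)
  have hζ1 : ζ ≠ 1 := hprim.ne_one (by omega)
  have hζ0 : ζ ≠ 0 := Complex.exp_ne_zero _
  have hp2 : G (e' + (ζ * t) • e) = mu • (e' + t • e) := by
    rw [hform _ (mul_ne_zero hζ0 ht0), mul_pow, hprim.pow_eq_one, one_mul, htD, smul_add,
      smul_smul, add_comm]
  have hne : ∀ t : ℂ, e' + t • e ≠ 0 := by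
    intro t h0
    have h1 : cr (e' + t • e) e = cr e' e := by
      rw [cr_add_left, cr_smul_left, cr_self, mul_zero, add_zero]
    rw [h0] at h1
    apply hee
    rw [← h1]; simp [cr]
  have hfix1 : cr (G (e' + t • e)) (e' + t • e) = 0 := by
    rw [hp1, cr_smul_left, cr_self, mul_zero]
  have h8 := hB (e' + t • e) (hne t) hfix1 (e' + (ζ * t) • e) (hne _)
    (by rw [hp2, cr_smul_left, cr_self, mul_zero])
  rw [cr_add_left, cr_add_right, cr_add_right, cr_self, cr_smul_left, cr_smul_left, cr_smul_right,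
    cr_smul_right, cr_self, cr_comm e e'] at h8
  have h9 : t * (1 - ζ) * cr e' e = 0 := by linear_combination h8
  exact mul_ne_zero (mul_ne_zero ht0 (sub_ne_zero.mpr hζ1.symm)) hee h9

theorem GM.iter_ne {D : ℕ} {G : ℂ × ℂ → ℂ × ℂ} (h : GM D G) (n : ℕ) {p : ℂ × ℂ} (hp : p ≠ 0) :
    G^[n] p ≠ 0 := by
  induction n with
  | zero => simpa using hp
  | succ n ih =>
    rw [Function.iterate_succ_apply']
    exact fun h0 => ih (h.nd _ h0)

theorem GM.iter_par {D : ℕ} {G : ℂ × ℂ → ℂ × ℂ} (h : GM D G) (n : ℕ) {p q : ℂ × ℂ} (hp : p ≠ 0)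
    (hq : q ≠ 0) (hpq : cr p q = 0) : cr (G^[n] p) (G^[n] q) = 0 := by
  induction n with
  | zero => simpa using hpq
  | succ n ih =>
    rw [Function.iterate_succ_apply', Function.iterate_succ_apply']
    exact h.par (h.iter_ne n hp) (h.iter_ne n hq) ih

theorem cr_symm {p q : ℂ × ℂ} (h : cr p q = 0) : cr q p = 0 := by
  rw [cr_comm, h, neg_zero]

/-- an infinite backward orbit of a fixed point -/
theorem GM.orbit {D : ℕ} (hD : 2 ≤ D) {G : ℂ × ℂ → ℂ × ℂ} (h : GM D G) :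
    ∃ p : ℕ → ℂ × ℂ, (∀ k, p k ≠ 0) ∧ (∀ i k, i < k → cr (p i) (p k) ≠ 0) ∧
      ∀ k n, k + 1 ≤ n → cr (G^[n + 1] (p k)) (G^[n] (p k)) = 0 := by
  have hc : ∃ e : ℂ × ℂ, e ≠ 0 ∧ cr (G e) e = 0 ∧ ∃ p : ℂ × ℂ, p ≠ 0 ∧ cr (G p) e = 0 ∧
      cr p e ≠ 0 := by
    by_contra hcon
    push Not at hcon
    exact h.contra hD hcon
  obtain ⟨e, he0, he, p₁, hp10, hp1, hp1e⟩ := hc
  have hsur : ∀ w : ℂ × ℂ, w ≠ 0 → ∃ v : ℂ × ℂ, v ≠ 0 ∧ cr (G v) w = 0 := fun w _ =>
    (h.cr_const w).exists_zero (by omega)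
  choose! f hf0 hf using hsur
  set p : ℕ → ℂ × ℂ := fun k => f^[k] p₁ with hp
  have hps : ∀ k, p (k + 1) = f (p k) := fun k => Function.iterate_succ_apply' f k p₁
  have hp0 : ∀ k, p k ≠ 0 := by
    intro k
    induction k with
    | zero => exact hp10
    | succ k ih => rw [hps]; exact hf0 _ ih
  have c0 : ∀ k, cr (G^[k] (p k)) p₁ = 0 := by
    intro k
    induction k with
    | zero => exact cr_self _
    | succ k ih =>
      rw [Function.iterate_succ_apply]
      have e1 : cr (G (p (k + 1))) (p k) = 0 := by rw [hps]; exact hf _ (hp0 k)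
      have e2 : G (p (k + 1)) ≠ 0 := fun h0 => hp0 (k + 1) (h.nd _ h0)
      exact cr_trans (h.iter_ne k (hp0 k)) (h.iter_par k e2 (hp0 k) e1) ih
  have c1 : ∀ n, cr (G^[n] e) e = 0 := by
    intro n
    induction n with
    | zero => exact cr_self _
    | succ n ih =>
      rw [Function.iterate_succ_apply']
      exact cr_trans (fun h0 => he0 (h.nd _ h0)) (h.par (h.iter_ne n he0) he0 ih) he
  have c2 : ∀ k n, k + 1 ≤ n → cr (G^[n] (p k)) e = 0 := by
    intro k n hkn
    obtain ⟨m, rfl⟩ := Nat.exists_eq_add_of_le hkn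
    have e1 : G^[k + 1 + m] (p k) = G^[m] (G (G^[k] (p k))) := by
      rw [add_comm (k + 1) m, Function.iterate_add_apply, Function.iterate_succ_apply']
    rw [e1]
    have e2 : G^[k] (p k) ≠ 0 := h.iter_ne k (hp0 k)
    have e3 : cr (G (G^[k] (p k))) e = 0 :=
      cr_trans (fun h0 => hp10 (h.nd _ h0)) (h.par e2 hp10 (c0 k)) hp1
    exact cr_trans (h.iter_ne m he0) (h.iter_par m (fun h0 => e2 (h.nd _ h0)) he0 e3) (c1 m)
  refine ⟨p, hp0, ?_, ?_⟩
  · intro i k hik hpar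
    obtain ⟨m, rfl⟩ := Nat.exists_eq_add_of_le hik
    have e1 : cr (G^[i + 1] (p (i + 1 + m))) e = 0 := by
      refine cr_trans (h.iter_ne (i + 1) (hp0 i)) ?_ (c2 i (i + 1) le_rfl)
      exact h.iter_par _ (hp0 _) (hp0 _) (cr_symm hpar)
    have e2 : cr (G^[i + 1 + m] (p (i + 1 + m))) e = 0 := by
      rw [add_comm (i + 1) m, Function.iterate_add_apply, add_comm m (i + 1)]
      exact cr_trans (h.iter_ne m he0)
        (h.iter_par m (h.iter_ne _ (hp0 _)) he0 e1) (c1 m)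
    exact hp1e (cr_trans (h.iter_ne _ (hp0 _)) (cr_symm (c0 (i + 1 + m))) e2)
  · intro k n hkn
    exact cr_trans he0 (c2 k (n + 1) (by omega)) (cr_symm (c2 k n hkn))

theorem GM.hF {d k : ℕ} {x : CV d} (hx : ND x) {G : ℂ × ℂ → ℂ × ℂ} (h : GM k G) :
    GM (d * k) (fun p => hF x (G p)) := by
  have hterm : ∀ (c : ℂ) (j : Fin (d + 1)),
      BF (d * k) (fun p => c * ((G p).1 ^ (j : ℕ) * (G p).2 ^ (d - (j : ℕ)))) := by
    intro c j
    have h1 := ((h.h1.pow (j : ℕ)).mul (h.h2.pow (d - (j : ℕ)))).smul c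
    have e1 : (j : ℕ) * k + (d - (j : ℕ)) * k = d * k := by
      rw [← add_mul]; congr 1; have := j.2; omega
    rw [e1] at h1
    exact h1
  refine ⟨?_, ?_, fun p hp => h.nd p (hx _ hp)⟩
  · exact BF.sum Finset.univ (fun j _ => hterm (x (0, j)) j)
  · exact BF.sum Finset.univ (fun j _ => hterm (x (1, j)) j)

theorem GM_iter {d : ℕ} {x : CV d} (hx : ND x) (N : ℕ) : GM (d ^ N) ((hF x)^[N]) := by
  induction N with
  | zero => exact GM.id
  | succ N ih =>
    have h := GM.hF hx ih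
    rw [← pow_succ'] at h
    have he : (RB.hF x)^[N + 1] = fun p => RB.hF x ((RB.hF x)^[N] p) := by
      funext p; exact Function.iterate_succ_apply' _ _ _
    rw [he]; exact h

theorem nd_open {d : ℕ} {x₀ : CV d} (h0 : ND x₀) : ∀ᶠ x in 𝓝 x₀, ND x := by
  have hK : IsCompact (sphere (0 : ℂ × ℂ) 1) := isCompact_sphere 0 1
  have h1 : ∀ᶠ x in 𝓝 x₀, ∀ p ∈ sphere (0 : ℂ × ℂ) 1, hF x p ≠ 0 := by
    apply hK.eventually_forall_of_forall_eventually
    intro p hp
    have hc : ContinuousAt (fun q : CV d × (ℂ × ℂ) => hF q.1 q.2) (x₀, p) :=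
      (hF_contDiff d 1).continuous.continuousAt
    apply hc.eventually_ne
    intro h
    have := h0 p h
    rw [this] at hp
    simp at hp
  filter_upwards [h1] with x hx p hp
  by_contra hne
  have hn : ‖p‖ ≠ 0 := norm_ne_zero_iff.mpr hne
  have hn' : ((‖p‖ : ℝ) : ℂ) ≠ 0 := by exact_mod_cast hn
  apply hx ((((‖p‖ : ℝ) : ℂ)⁻¹) • p)
  · rw [mem_sphere_zero_iff_norm, norm_smul, norm_inv, Complex.norm_real, norm_norm,
      inv_mul_cancel₀ hn]
  · rw [hF_smul, hp, smul_zero]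

theorem pol_coeff {d : ℕ} (x : CV d) (i : Fin 2) (j : Fin (d + 1)) :
    (pol x i).coeff (j : ℕ) = x (i, j) := by
  unfold pol
  rw [Polynomial.finsetSum_coeff, Finset.sum_eq_single j]
  · rw [Polynomial.coeff_monomial, if_pos rfl]
  · intro b _ hb
    rw [Polynomial.coeff_monomial, if_neg]
    exact fun h => hb (Fin.ext h)
  · intro h; exact absurd (Finset.mem_univ j) h

theorem pol_natDegree {d : ℕ} (x : CV d) (i : Fin 2) : (pol x i).natDegree ≤ d := by
  unfold pol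
  apply Polynomial.natDegree_sum_le_of_forall_le
  intro j _
  exact (Polynomial.natDegree_monomial_le _).trans (by have := j.2; omega)

theorem pol_eval0 {d : ℕ} (x : CV d) (ζ : ℂ) : (pol x 0).eval ζ = (hF x (ζ, 1)).1 := by
  unfold pol hF
  rw [Polynomial.eval_finsetSum]
  apply Finset.sum_congr rfl
  intro j _
  rw [Polynomial.eval_monomial]
  simp

theorem pol_eval1 {d : ℕ} (x : CV d) (ζ : ℂ) : (pol x 1).eval ζ = (hF x (ζ, 1)).2 := by
  unfold pol hF
  rw [Polynomial.eval_finsetSum]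
  apply Finset.sum_congr rfl
  intro j _
  rw [Polynomial.eval_monomial]
  simp

theorem hF_one_zero {d : ℕ} (x : CV d) :
    hF x (1, 0) = (x (0, Fin.last d), x (1, Fin.last d)) := by
  have h : ∀ c : Fin (d + 1) → ℂ, ∑ j : Fin (d + 1), c j * ((1 : ℂ) ^ (j : ℕ) *
      (0 : ℂ) ^ (d - (j : ℕ))) = c (Fin.last d) := by
    intro c
    rw [Finset.sum_eq_single (Fin.last d)]
    · simp
    · intro b _ hb
      have h1 : d - (b : ℕ) ≠ 0 := by
        have h2 := b.2
        have h3 : (b : ℕ) ≠ d := fun h4 => hb (Fin.ext h4)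
        omega
      rw [zero_pow h1]; ring
    · intro h; exact absurd (Finset.mem_univ _) h
  unfold hF
  exact Prod.ext (h (fun j => x (0, j))) (h (fun j => x (1, j)))

/-- proportional maps have proportional coefficients -/
theorem prop_of_cr {d : ℕ} (hd : 1 ≤ d) {x x₀ : CV d} (h0 : ND x₀) (hx : x ≠ 0)
    (h : ∀ p, cr (hF x p) (hF x₀ p) = 0) : ∃ a : ℂ, a ≠ 0 ∧ x = a • x₀ := by
  have hcop : IsCoprime (pol x₀ 0) (pol x₀ 1) := by
    rw [Polynomial.isCoprime_iff_aeval_ne_zero_of_isAlgClosed (k := ℂ) ℂ]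
    intro a
    by_contra hcon
    push Not at hcon
    rw [Polynomial.coe_aeval_eq_eval] at hcon
    rw [pol_eval0, pol_eval1] at hcon
    have h1 := h0 (a, 1) (Prod.ext hcon.1 hcon.2)
    have := congrArg Prod.snd h1
    simp at this
  have hmul : pol x 0 * pol x₀ 1 = pol x₀ 0 * pol x 1 := by
    apply Polynomial.funext
    intro r
    rw [Polynomial.eval_mul, Polynomial.eval_mul, pol_eval0, pol_eval1, pol_eval0, pol_eval1]
    have h1 := h (r, 1)
    unfold cr at h1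
    linear_combination h1
  obtain ⟨R, hR⟩ := hcop.dvd_of_dvd_mul_right (Dvd.intro _ hmul.symm : pol x₀ 0 ∣ pol x 0 * pol x₀ 1)
  have hlast : x₀ (0, Fin.last d) ≠ 0 ∨ x₀ (1, Fin.last d) ≠ 0 := by
    by_contra hcon
    push Not at hcon
    have h1 := h0 (1, 0) (by rw [hF_one_zero]; exact Prod.ext hcon.1 hcon.2)
    have := congrArg Prod.fst h1
    simp at this
  have hP0 : pol x₀ 0 ≠ 0 := by
    intro hP
    rw [hP] at hcop
    have h1 := Polynomial.natDegree_eq_zero_of_isUnit (isCoprime_zero_left.mp hcop)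
    rcases hlast with h2 | h2
    · apply h2
      rw [← pol_coeff x₀ 0, hP, Polynomial.coeff_zero]
    · apply h2
      rw [← pol_coeff x₀ 1]
      apply Polynomial.coeff_eq_zero_of_natDegree_lt
      rw [h1, Fin.val_last]; omega
  have hR2 : pol x 1 = pol x₀ 1 * R := by
    apply mul_left_cancel₀ hP0
    rw [← hmul, hR]; ring
  have hR0 : R ≠ 0 := by
    rintro rfl
    apply hx
    funext ij
    obtain ⟨i, j⟩ := ij
    fin_cases i
    · show x (0, j) = 0
      rw [← pol_coeff x 0, hR, mul_zero, Polynomial.coeff_zero]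
    · show x (1, j) = 0
      rw [← pol_coeff x 1, hR2, mul_zero, Polynomial.coeff_zero]
  have hRd : R.natDegree = 0 := by
    rcases hlast with h2 | h2
    · rw [← pol_coeff x₀ 0, Fin.val_last] at h2
      have h3 := Polynomial.le_natDegree_of_ne_zero h2
      have h4 := pol_natDegree x 0
      rw [hR, Polynomial.natDegree_mul hP0 hR0] at h4
      omega
    · rw [← pol_coeff x₀ 1, Fin.val_last] at h2
      have h3 := Polynomial.le_natDegree_of_ne_zero h2
      have h4 := pol_natDegree x 1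
      have hQ0 : pol x₀ 1 ≠ 0 := by
        intro h5; rw [h5, Polynomial.coeff_zero] at h2; exact h2 rfl
      rw [hR2, Polynomial.natDegree_mul hQ0 hR0] at h4
      omega
  obtain ⟨a, ha⟩ := Polynomial.natDegree_eq_zero.mp hRd
  have ha0 : a ≠ 0 := by
    rintro rfl
    rw [Polynomial.C_0] at ha
    exact hR0 ha.symm
  refine ⟨a, ha0, ?_⟩
  funext ij
  obtain ⟨i, j⟩ := ij
  fin_cases i
  · show x (0, j) = a * x₀ (0, j)
    rw [← pol_coeff x 0, ← pol_coeff x₀ 0, hR, ← ha, Polynomial.coeff_mul_C, mul_comm]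
  · show x (1, j) = a * x₀ (1, j)
    rw [← pol_coeff x 1, ← pol_coeff x₀ 1, hR2, ← ha, Polynomial.coeff_mul_C, mul_comm]

end ISO

theorem ISO : StISO := by
  intro d q x₀ hd hq h0
  set G := (hF x₀)^[q] with hG
  have hGM : ISO.GM (d ^ q) G := ISO.GM_iter h0 q
  have hD : 2 ≤ d ^ q := by
    calc 2 ≤ d := hd
      _ = d ^ 1 := (pow_one d).symm
      _ ≤ d ^ q := Nat.pow_le_pow_right (by omega) hq
  have hGn : ∀ n, ISO.GM (d ^ (q * n)) (G^[n]) := by
    intro n
    rw [hG, ← Function.iterate_mul]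
    exact ISO.GM_iter h0 (q * n)
  obtain ⟨p, hp0, hpp, hpn⟩ := hGM.orbit hD
  set n := 2 * d + 1 with hn
  -- the form whose zeros are the lines mapped to fixed lines by the `n`-th iterate
  have hΨ := (hGn (n + 1)).cr_cr (hGn n)
  have hΨne : ∃ v : ℂ × ℂ, v ≠ 0 ∧ cr (G^[n + 1] v) (G^[n] v) ≠ 0 := by
    by_contra hcon
    push Not at hcon
    have hfix : ∀ w : ℂ × ℂ, w ≠ 0 → cr (G w) w = 0 := by
      intro w hw
      obtain ⟨v, hv0, hv⟩ := ((hGn n).cr_const w).exists_zero (Nat.one_le_pow _ _ (by omega))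
      have e1 := hcon v hv0
      rw [Function.iterate_succ_apply'] at e1
      have e2 : G^[n] v ≠ 0 := hGM.iter_ne n hv0
      have e3 : cr (G w) (G (G^[n] v)) = 0 := hGM.par hw e2 (ISO.cr_symm hv)
      exact cr_trans e2 (cr_trans (fun h => e2 (hGM.nd _ h)) e3 e1) hv
    apply hGM.contra hD
    intro e he0 he w hw hwe
    exact cr_trans (fun h => hw (hGM.nd _ h)) (ISO.cr_symm (hfix w hw)) hwe
  obtain ⟨v, hv0, hv⟩ := hΨne
  obtain ⟨Z, -, hZ1, hZ2⟩ := hΨ.finite_zeros hv0 hv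
  have hev1 : ∀ᶠ x in 𝓝 x₀, ∀ k : Fin (2 * d + 1), ∀ z ∈ Z,
      cr (hF x₀ (p k)) z ≠ 0 → cr (hF x (p k)) z ≠ 0 := by
    rw [Filter.eventually_all]
    intro k
    rw [Filter.eventually_all_finset]
    intro z _
    by_cases hz : cr (hF x₀ (p k)) z = 0
    · exact Filter.Eventually.of_forall (fun x h => absurd hz h)
    · have hc : ContinuousAt (fun x : CV d => cr (hF x (p k)) z) x₀ := by
        have h1 : Continuous (fun x : CV d => hF x (p k)) :=
          (hF_contDiff d 1).continuous.comp (by fun_prop : Continuous fun x : CV d => (x, p k))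
        unfold cr
        exact ((h1.fst.mul continuous_const).sub (h1.snd.mul continuous_const)).continuousAt
      filter_upwards [hc.eventually_ne hz] with x hx _
      exact hx
  have hx00 : x₀ ≠ 0 := by
    rintro rfl
    have h1 := h0 (1, 0) (by rw [ISO.hF_one_zero]; rfl)
    have := congrArg Prod.fst h1
    simp at this
  have hev2 : ∀ᶠ x in 𝓝 x₀, x ≠ 0 := eventually_ne_nhds hx00
  obtain ⟨ε, hε, hball⟩ := Metric.eventually_nhds_iff_ball.mp
    ((hev1.and hev2).and (ISO.nd_open h0))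
  refine ⟨ε, hε, fun x hx hyp => ?_⟩
  obtain ⟨⟨hx1, hx2⟩, hx3⟩ := hball x (by rw [mem_ball, dist_eq_norm]; exact hx)
  have hF1 : ISO.GM d (hF x) := by
    have := ISO.GM_iter hx3 1
    rwa [pow_one, Function.iterate_one] at this
  -- `F` commutes with `G` up to scalars
  have hcomm : ∀ w : ℂ × ℂ, w ≠ 0 → cr (G (hF x w)) (hF x (G w)) = 0 := by
    intro w hw
    have hFw : hF x w ≠ 0 := fun h => hw (hx3 w h)
    have e1 : cr (G (hF x w)) ((hF x)^[q] (hF x w)) = 0 := ISO.cr_symm (hyp (hF x w))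
    rw [← Function.iterate_succ_apply, Function.iterate_succ_apply'] at e1
    have e2 : (hF x)^[q] w ≠ 0 := hx3.iter_ne q hw
    have e3 : cr (hF x ((hF x)^[q] w)) (hF x (G w)) = 0 :=
      hF1.par e2 (fun h => hw (hGM.nd _ h)) (hyp w)
    exact cr_trans (fun h => e2 (hx3 _ h)) e1 e3
  have hcomm2 : ∀ m : ℕ, ∀ w : ℂ × ℂ, w ≠ 0 → cr (G^[m] (hF x w)) (hF x (G^[m] w)) = 0 := by
    intro m
    induction m with
    | zero => intro w _; exact cr_self _
    | succ m ih =>
      intro w hw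
      rw [Function.iterate_succ_apply', Function.iterate_succ_apply']
      have hFw : hF x w ≠ 0 := fun h => hw (hx3 w h)
      have hw' : G^[m] w ≠ 0 := hGM.iter_ne m hw
      have hFw' : hF x (G^[m] w) ≠ 0 := fun h => hw' (hx3 _ h)
      exact cr_trans (fun h => hFw' (hGM.nd _ h))
        (hGM.par (hGM.iter_ne m hFw) hFw' (ih w hw)) (hcomm _ hw')
  have hinv : ∀ w : ℂ × ℂ, w ≠ 0 → cr (G^[n + 1] w) (G^[n] w) = 0 →
      cr (G^[n + 1] (hF x w)) (G^[n] (hF x w)) = 0 := by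
    intro w hw h
    have a1 := hcomm2 (n + 1) w hw
    have a2 := hcomm2 n w hw
    have b1 : G^[n + 1] w ≠ 0 := hGM.iter_ne _ hw
    have b2 : G^[n] w ≠ 0 := hGM.iter_ne _ hw
    have a3 : cr (hF x (G^[n + 1] w)) (hF x (G^[n] w)) = 0 := hF1.par b1 b2 h
    exact cr_trans (fun h => b1 (hx3 _ h)) a1
      (cr_trans (fun h => b2 (hx3 _ h)) a3 (ISO.cr_symm a2))
  have hkey : ∀ k : Fin (2 * d + 1), cr (hF x (p k)) (hF x₀ (p k)) = 0 := by
    intro k
    have e1 : cr (G^[n + 1] (p k)) (G^[n] (p k)) = 0 := hpn k n (by have := k.2; omega)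
    have e2 : hF x (p k) ≠ 0 := fun h => hp0 k (hx3 _ h)
    obtain ⟨z, hz, hz2⟩ := hZ2 (hF x (p k)) e2 (hinv _ (hp0 k) e1)
    have e3 : cr (hF x₀ (p k)) z = 0 := by
      by_contra hcon
      exact hx1 k z hz hcon hz2
    exact cr_trans (hZ1 z hz).1 hz2 (ISO.cr_symm e3)
  have hform : ISO.BF (2 * d) (fun w => cr (hF x w) (hF x₀ w)) := by
    have hF0 : ISO.GM d (hF x₀) := by
      have := ISO.GM_iter h0 1
      rwa [pow_one, Function.iterate_one] at this
    have := hF1.cr_cr hF0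
    rwa [← two_mul] at this
  have hall : ∀ w : ℂ × ℂ, cr (hF x w) (hF x₀ w) = 0 := by
    intro w
    by_cases hw : w = 0
    · rw [hw]
      have h1 := hform.hom 0 0
      simp only [smul_zero] at h1
      rw [h1, zero_pow (by omega), zero_mul]
    · refine hform.eq_zero (fun k => p k) (fun k => hp0 k) hkey ?_ hw
      intro i j hij
      rcases lt_or_gt_of_ne (fun h => hij (Fin.ext h) : (i : ℕ) ≠ (j : ℕ)) with h | h
      · exact hpp _ _ h
      · intro h1
        exact hpp _ _ h (ISO.cr_symm h1)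
  exact ISO.prop_of_cr (by omega) h0 hx2 hall

end Pool.Agent.H790R3.RB
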