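import Mathlib
import Pool.Agent.H790R3.RB.St
import Pool.Agent.Helper540.Holo

/-! Koenigs linearisation with parameters (task KOEN). -/

set_option autoImplicit false

open Topology Filter Metric Set

namespace Pool.Agent.H790R3.RB

namespace KOEN

/-- quadratic estimate -/
theorem quad {g : ℂ → ℂ} {r₀ θ : ℝ} (hr : 0 < r₀) (hθ : θ < 1)
    (hd : DifferentiableOn ℂ g (ball 0 r₀)) (hg : ∀ z ∈ ball (0 : ℂ) r₀, ‖g z‖ ≤ θ * ‖z‖)
    {w : ℂ} (hw : w ∈ ball (0 : ℂ) r₀) : ‖g w - deriv g 0 * w‖ ≤ 4 / r₀ * ‖w‖ ^ 2 := by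
  have hg0 : g 0 = 0 := by
    have := hg 0 (mem_ball_self hr)
    simpa using this
  have hM : ∀ z ∈ ball (0 : ℂ) r₀, ‖g z‖ ≤ r₀ := by
    intro z hz
    have h1 := hg z hz
    rw [mem_ball_zero_iff] at hz
    nlinarith [norm_nonneg z]
  have h := Pool.Agent.Helper540.norm_sub_sub_fderiv_le hr hd hM hw
  rw [hg0, sub_zero, sub_zero] at h
  have h2 : fderiv ℂ g 0 w = deriv g 0 * w := by
    rw [fderiv_eq_smul_deriv, smul_eq_mul, mul_comm]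
  rw [h2] at h
  refine h.trans (le_of_eq ?_)
  field_simp

section

variable {V : Type} [NormedAddCommGroup V] [NormedSpace ℂ V]
  {B : Set V} {r₀ θ : ℝ} {h : V → ℂ → ℂ}

omit [NormedAddCommGroup V] [NormedSpace ℂ V] in
theorem iter_norm (hθ : θ < 1)
    (hh : ∀ x ∈ B, ∀ z ∈ ball (0 : ℂ) r₀, ‖h x z‖ ≤ θ * ‖z‖) {x : V} (hx : x ∈ B) {z : ℂ}
    (hz : z ∈ ball (0 : ℂ) r₀) (n : ℕ) :
    (h x)^[n] z ∈ ball (0 : ℂ) r₀ ∧ ‖(h x)^[n] z‖ ≤ |θ| ^ n * ‖z‖ := by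
  induction n with
  | zero => exact ⟨hz, by simp⟩
  | succ n ih =>
    obtain ⟨h1, h2⟩ := ih
    rw [Function.iterate_succ_apply']
    have h3 := hh x hx _ h1
    rw [mem_ball_zero_iff] at h1 ⊢
    constructor
    · nlinarith [norm_nonneg ((h x)^[n] z)]
    · calc ‖h x ((h x)^[n] z)‖ ≤ θ * ‖(h x)^[n] z‖ := h3
        _ ≤ |θ| * ‖(h x)^[n] z‖ := mul_le_mul_of_nonneg_right (le_abs_self θ) (norm_nonneg _)
        _ ≤ |θ| * (|θ| ^ n * ‖z‖) := mul_le_mul_of_nonneg_left h2 (abs_nonneg _)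
        _ = |θ| ^ (n + 1) * ‖z‖ := by ring

omit [NormedAddCommGroup V] [NormedSpace ℂ V] in
/-- if `B` is nonempty then `0 ≤ θ` -/
theorem theta_nonneg (hr : 0 < r₀)
    (hh : ∀ x ∈ B, ∀ z ∈ ball (0 : ℂ) r₀, ‖h x z‖ ≤ θ * ‖z‖) {x : V} (hx : x ∈ B) : 0 ≤ θ := by
  by_contra hcon
  push Not at hcon
  have hz : ((r₀ / 2 : ℝ) : ℂ) ∈ ball (0 : ℂ) r₀ := by
    rw [mem_ball_zero_iff, Complex.norm_real, Real.norm_eq_abs, abs_of_pos (by linarith)]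
    linarith
  have h1 := hh x hx _ hz
  rw [Complex.norm_real, Real.norm_eq_abs, abs_of_pos (by linarith)] at h1
  nlinarith [norm_nonneg (h x ((r₀ / 2 : ℝ) : ℂ))]

/-- the approximations -/
noncomputable def Ln (h : V → ℂ → ℂ) (n : ℕ) (x : V) (z : ℂ) : ℂ :=
  ((deriv (h x) 0) ^ n)⁻¹ * (h x)^[n] z

theorem slice (hB : IsOpen B) (hd : DifferentiableOn ℂ (fun p : V × ℂ => h p.1 p.2) (B ×ˢ ball 0 r₀))
    {x : V} (hx : x ∈ B) : DifferentiableOn ℂ (h x) (ball 0 r₀) := by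
  intro z hz
  have h1 : DifferentiableAt ℂ (fun p : V × ℂ => h p.1 p.2) (x, z) :=
    (hd (x, z) ⟨hx, hz⟩).differentiableAt ((hB.prod isOpen_ball).mem_nhds ⟨hx, hz⟩)
  have h2 : DifferentiableAt ℂ (fun w : ℂ => (x, w)) z := by fun_prop
  exact (h1.comp z h2).differentiableWithinAt

theorem lam_diff (hB : IsOpen B) (hr : 0 < r₀)
    (hd : DifferentiableOn ℂ (fun p : V × ℂ => h p.1 p.2) (B ×ˢ ball 0 r₀)) :
    DifferentiableOn ℂ (fun x => deriv (h x) 0) B := by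
  have h1 := Pool.Agent.Helper540.differentiableOn_fderiv_apply (hB.prod isOpen_ball) hd
    ((0 : V), (1 : ℂ))
  have h2 : DifferentiableOn ℂ (fun x => fderiv ℂ (fun p : V × ℂ => h p.1 p.2) (x, 0) (0, 1)) B := by
    refine h1.comp (f := fun x : V => (x, (0 : ℂ))) (by fun_prop) ?_
    intro x hx
    exact ⟨hx, mem_ball_self hr⟩
  refine h2.congr ?_
  intro x hx
  have h3 : HasFDerivAt (fun p : V × ℂ => h p.1 p.2)
      (fderiv ℂ (fun p : V × ℂ => h p.1 p.2) (x, 0)) (x, 0) :=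
    ((hd (x, 0) ⟨hx, mem_ball_self hr⟩).differentiableAt
      ((hB.prod isOpen_ball).mem_nhds ⟨hx, mem_ball_self hr⟩)).hasFDerivAt
  have h4 : HasDerivAt (fun w : ℂ => (x, w)) ((0 : V), (1 : ℂ)) 0 :=
    (hasDerivAt_const (0 : ℂ) x).prodMk (hasDerivAt_id (0 : ℂ))
  exact (h3.comp_hasDerivAt (0 : ℂ) h4).deriv

theorem iter_diff (hθ : θ < 1) (hd : DifferentiableOn ℂ (fun p : V × ℂ => h p.1 p.2) (B ×ˢ ball 0 r₀))
    (hh : ∀ x ∈ B, ∀ z ∈ ball (0 : ℂ) r₀, ‖h x z‖ ≤ θ * ‖z‖) (n : ℕ) :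
    DifferentiableOn ℂ (fun p : V × ℂ => (h p.1)^[n] p.2) (B ×ˢ ball 0 r₀) := by
  induction n with
  | zero => simpa using differentiableOn_snd
  | succ n ih =>
    have h1 : DifferentiableOn ℂ (fun p : V × ℂ => (p.1, (h p.1)^[n] p.2)) (B ×ˢ ball 0 r₀) :=
      differentiableOn_fst.prodMk ih
    have h2 := hd.comp h1 (fun p hp => ⟨hp.1, (iter_norm hθ hh hp.1 hp.2 n).1⟩)
    refine h2.congr ?_
    intro p _
    simp only [Function.iterate_succ_apply', Function.comp]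

theorem Ln_diff (hB : IsOpen B) (hr : 0 < r₀) (hθ : θ < 1)
    (hd : DifferentiableOn ℂ (fun p : V × ℂ => h p.1 p.2) (B ×ˢ ball 0 r₀))
    (hh : ∀ x ∈ B, ∀ z ∈ ball (0 : ℂ) r₀, ‖h x z‖ ≤ θ * ‖z‖) (h0 : ∀ x ∈ B, deriv (h x) 0 ≠ 0)
    (n : ℕ) : DifferentiableOn ℂ (fun p : V × ℂ => Ln h n p.1 p.2) (B ×ˢ ball 0 r₀) := by
  unfold Ln
  have h1 : DifferentiableOn ℂ (fun p : V × ℂ => deriv (h p.1) 0) (B ×ˢ ball 0 r₀) :=
    (lam_diff hB hr hd).comp differentiableOn_fst (fun p hp => hp.1)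
  exact ((h1.fun_pow n).fun_inv (fun p hp => pow_ne_zero _ (h0 p.1 hp.1))).mul
    (iter_diff hθ hd hh n)

/-- the step estimate -/
theorem step (hB : IsOpen B) (hr : 0 < r₀) (hθ : θ < 1)
    (hd : DifferentiableOn ℂ (fun p : V × ℂ => h p.1 p.2) (B ×ˢ ball 0 r₀))
    (hh : ∀ x ∈ B, ∀ z ∈ ball (0 : ℂ) r₀, ‖h x z‖ ≤ θ * ‖z‖) (h0 : ∀ x ∈ B, deriv (h x) 0 ≠ 0)
    {m : ℝ} (hm : 0 < m) {x : V} (hx : x ∈ B) (hmx : m ≤ ‖deriv (h x) 0‖) {z : ℂ}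
    (hz : z ∈ ball (0 : ℂ) r₀) (n : ℕ) :
    ‖Ln h (n + 1) x z - Ln h n x z‖ ≤ (4 / (r₀ * m)) * (θ ^ n * ‖z‖) * ‖Ln h n x z‖ := by
  have hθ0 := theta_nonneg hr hh hx
  obtain ⟨h1, h2⟩ := iter_norm hθ hh hx hz n
  rw [abs_of_nonneg hθ0] at h2
  have h3 := quad hr hθ (slice hB hd hx) (hh x hx) h1
  set lam := deriv (h x) 0 with hlam
  have hl0 : lam ≠ 0 := h0 x hx
  have h4 : Ln h (n + 1) x z - Ln h n x z =
      (lam ^ (n + 1))⁻¹ * (h x ((h x)^[n] z) - lam * (h x)^[n] z) := by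
    unfold Ln
    rw [← hlam, Function.iterate_succ_apply']
    field_simp
    ring
  rw [h4, norm_mul]
  unfold Ln
  rw [← hlam, norm_mul, norm_inv, norm_inv, norm_pow, norm_pow]
  have hl : 0 < ‖lam‖ := norm_pos_iff.2 hl0
  set w := (h x)^[n] z with hw
  have h5 : (4 / r₀ * ‖w‖ ^ 2) ≤ 4 / r₀ * (θ ^ n * ‖z‖) * ‖w‖ := by
    rw [pow_two, ← mul_assoc]
    exact mul_le_mul_of_nonneg_right (mul_le_mul_of_nonneg_left h2 (by positivity)) (norm_nonneg _)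
  have h6 : (‖lam‖ ^ (n + 1))⁻¹ ≤ (‖lam‖ ^ n)⁻¹ * m⁻¹ := by
    rw [pow_succ, mul_inv]
    exact mul_le_mul_of_nonneg_left (inv_anti₀ hm hmx) (by positivity)
  calc (‖lam‖ ^ (n + 1))⁻¹ * ‖h x w - lam * w‖
      ≤ ((‖lam‖ ^ n)⁻¹ * m⁻¹) * (4 / r₀ * (θ ^ n * ‖z‖) * ‖w‖) :=
        mul_le_mul h6 (h3.trans h5) (norm_nonneg _) (by positivity)
    _ = 4 / (r₀ * m) * (θ ^ n * ‖z‖) * ((‖lam‖ ^ n)⁻¹ * ‖w‖) := by
        field_simp

/-- the bound of the approximations -/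
theorem Ln_bound (hB : IsOpen B) (hr : 0 < r₀) (hθ : θ < 1)
    (hd : DifferentiableOn ℂ (fun p : V × ℂ => h p.1 p.2) (B ×ˢ ball 0 r₀))
    (hh : ∀ x ∈ B, ∀ z ∈ ball (0 : ℂ) r₀, ‖h x z‖ ≤ θ * ‖z‖) (h0 : ∀ x ∈ B, deriv (h x) 0 ≠ 0)
    {m : ℝ} (hm : 0 < m) {x : V} (hx : x ∈ B) (hmx : m ≤ ‖deriv (h x) 0‖) {z : ℂ}
    (hz : z ∈ ball (0 : ℂ) r₀) (n : ℕ) :
    ‖Ln h n x z‖ ≤ ‖z‖ * Real.exp (4 / m * (1 - θ)⁻¹) := by
  have hθ0 := theta_nonneg hr hh hx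
  have key : ∀ n, ‖Ln h n x z‖ ≤ ‖z‖ * Real.exp (4 / m * ∑ j ∈ Finset.range n, θ ^ j) := by
    intro n
    induction n with
    | zero => simp [Ln]
    | succ n ih =>
      have h1 := step hB hr hθ hd hh h0 hm hx hmx hz n
      have h2 : ‖Ln h (n + 1) x z‖ ≤ ‖Ln h (n + 1) x z - Ln h n x z‖ + ‖Ln h n x z‖ := by
        simpa using norm_add_le (Ln h (n + 1) x z - Ln h n x z) (Ln h n x z)
      have h3 : 4 / (r₀ * m) * (θ ^ n * ‖z‖) ≤ 4 / m * θ ^ n := by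
        rw [mem_ball_zero_iff] at hz
        have : 4 / (r₀ * m) * (θ ^ n * ‖z‖) ≤ 4 / (r₀ * m) * (θ ^ n * r₀) :=
          mul_le_mul_of_nonneg_left (mul_le_mul_of_nonneg_left hz.le (by positivity))
            (by positivity)
        refine this.trans (le_of_eq ?_)
        field_simp
      have h4 : 4 / m * θ ^ n + 1 ≤ Real.exp (4 / m * θ ^ n) := Real.add_one_le_exp _
      calc ‖Ln h (n + 1) x z‖ ≤ (4 / (r₀ * m) * (θ ^ n * ‖z‖)) * ‖Ln h n x z‖ + ‖Ln h n x z‖ := by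
            linarith
        _ ≤ (4 / m * θ ^ n) * ‖Ln h n x z‖ + ‖Ln h n x z‖ := by
            linarith [mul_le_mul_of_nonneg_right h3 (norm_nonneg (Ln h n x z))]
        _ = ‖Ln h n x z‖ * (4 / m * θ ^ n + 1) := by ring
        _ ≤ (‖z‖ * Real.exp (4 / m * ∑ j ∈ Finset.range n, θ ^ j)) * Real.exp (4 / m * θ ^ n) :=
            mul_le_mul ih h4 (by positivity) (by positivity)
        _ = ‖z‖ * Real.exp (4 / m * ∑ j ∈ Finset.range (n + 1), θ ^ j) := by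
            rw [mul_assoc, ← Real.exp_add, Finset.sum_range_succ]
            ring_nf
  refine (key n).trans (mul_le_mul_of_nonneg_left (Real.exp_le_exp.2 ?_) (norm_nonneg _))
  refine mul_le_mul_of_nonneg_left ?_ (by positivity)
  have h1 := (summable_geometric_of_lt_one hθ0 hθ).sum_le_tsum (Finset.range n)
    (fun j _ => pow_nonneg hθ0 j)
  rwa [tsum_geometric_of_lt_one hθ0 hθ] at h1

/-- the constant -/
noncomputable def KK0 (r₀ θ m : ℝ) : ℝ := 4 / (r₀ * m) * Real.exp (4 / m * (1 - θ)⁻¹)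

theorem diff_bound (hB : IsOpen B) (hr : 0 < r₀) (hθ : θ < 1)
    (hd : DifferentiableOn ℂ (fun p : V × ℂ => h p.1 p.2) (B ×ˢ ball 0 r₀))
    (hh : ∀ x ∈ B, ∀ z ∈ ball (0 : ℂ) r₀, ‖h x z‖ ≤ θ * ‖z‖) (h0 : ∀ x ∈ B, deriv (h x) 0 ≠ 0)
    {m : ℝ} (hm : 0 < m) {x : V} (hx : x ∈ B) (hmx : m ≤ ‖deriv (h x) 0‖) {z : ℂ}
    (hz : z ∈ ball (0 : ℂ) r₀) (n : ℕ) :
    ‖Ln h (n + 1) x z - Ln h n x z‖ ≤ KK0 r₀ θ m * ‖z‖ ^ 2 * θ ^ n := by
  have hθ0 := theta_nonneg hr hh hx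
  refine (step hB hr hθ hd hh h0 hm hx hmx hz n).trans ?_
  have h1 := Ln_bound hB hr hθ hd hh h0 hm hx hmx hz n
  calc 4 / (r₀ * m) * (θ ^ n * ‖z‖) * ‖Ln h n x z‖
      ≤ 4 / (r₀ * m) * (θ ^ n * ‖z‖) * (‖z‖ * Real.exp (4 / m * (1 - θ)⁻¹)) :=
        mul_le_mul_of_nonneg_left h1 (by positivity)
    _ = KK0 r₀ θ m * ‖z‖ ^ 2 * θ ^ n := by unfold KK0; ring

theorem KK0_pos (hr : 0 < r₀) {m : ℝ} (hm : 0 < m) : 0 < KK0 r₀ θ m := by
  unfold KK0; positivity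

/-- the Koenigs map -/
noncomputable def LL (h : V → ℂ → ℂ) (x : V) (z : ℂ) : ℂ :=
  z + ∑' n, (Ln h (n + 1) x z - Ln h n x z)

theorem summ (hB : IsOpen B) (hr : 0 < r₀) (hθ : θ < 1)
    (hd : DifferentiableOn ℂ (fun p : V × ℂ => h p.1 p.2) (B ×ˢ ball 0 r₀))
    (hh : ∀ x ∈ B, ∀ z ∈ ball (0 : ℂ) r₀, ‖h x z‖ ≤ θ * ‖z‖) (h0 : ∀ x ∈ B, deriv (h x) 0 ≠ 0)
    {x : V} (hx : x ∈ B) {z : ℂ} (hz : z ∈ ball (0 : ℂ) r₀) :
    Summable (fun n => Ln h (n + 1) x z - Ln h n x z) := by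
  have hθ0 := theta_nonneg hr hh hx
  refine Summable.of_norm_bounded
    ((summable_geometric_of_lt_one hθ0 hθ).mul_left (KK0 r₀ θ ‖deriv (h x) 0‖ * ‖z‖ ^ 2)) ?_
  intro n
  exact diff_bound hB hr hθ hd hh h0 (norm_pos_iff.2 (h0 x hx)) hx le_rfl hz n

omit [NormedAddCommGroup V] [NormedSpace ℂ V] in
theorem part (x : V) (z : ℂ) (N : ℕ) :
    z + ∑ n ∈ Finset.range N, (Ln h (n + 1) x z - Ln h n x z) = Ln h N x z := by
  rw [Finset.sum_range_sub (fun n => Ln h n x z)]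
  simp [Ln]

theorem tends (hB : IsOpen B) (hr : 0 < r₀) (hθ : θ < 1)
    (hd : DifferentiableOn ℂ (fun p : V × ℂ => h p.1 p.2) (B ×ˢ ball 0 r₀))
    (hh : ∀ x ∈ B, ∀ z ∈ ball (0 : ℂ) r₀, ‖h x z‖ ≤ θ * ‖z‖) (h0 : ∀ x ∈ B, deriv (h x) 0 ≠ 0)
    {x : V} (hx : x ∈ B) {z : ℂ} (hz : z ∈ ball (0 : ℂ) r₀) :
    Tendsto (fun n => Ln h n x z) atTop (𝓝 (LL h x z)) := by
  have h1 := ((summ hB hr hθ hd hh h0 hx hz).hasSum.tendsto_sum_nat).const_add z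
  simp only [part] at h1
  exact h1

theorem main [FiniteDimensional ℂ V] (hB : IsOpen B) (hr : 0 < r₀) (hθ : θ < 1)
    (hd : DifferentiableOn ℂ (fun p : V × ℂ => h p.1 p.2) (B ×ˢ ball 0 r₀))
    (hh : ∀ x ∈ B, ∀ z ∈ ball (0 : ℂ) r₀, ‖h x z‖ ≤ θ * ‖z‖) (h0 : ∀ x ∈ B, deriv (h x) 0 ≠ 0) :
    DifferentiableOn ℂ (fun p : V × ℂ => LL h p.1 p.2) (B ×ˢ ball 0 r₀) := by
  rintro ⟨x₁, z₁⟩ ⟨hx₁, hz₁⟩
  simp only at hx₁ hz₁
  have hθ0 := theta_nonneg hr hh hx₁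
  set m := ‖deriv (h x₁) 0‖ / 2 with hmdef
  have hpos : 0 < ‖deriv (h x₁) 0‖ := norm_pos_iff.2 (h0 x₁ hx₁)
  have hm : 0 < m := by positivity
  have hcont : ContinuousAt (fun x => ‖deriv (h x) 0‖) x₁ :=
    ((lam_diff hB hr hd).differentiableAt (hB.mem_nhds hx₁)).continuousAt.norm
  have hev : ∀ᶠ x in 𝓝 x₁, m < ‖deriv (h x) 0‖ :=
    hcont.eventually (lt_mem_nhds (show m < ‖deriv (h x₁) 0‖ by rw [hmdef]; linarith))
  obtain ⟨W, hWsub, hWo, hxW⟩ := _root_.eventually_nhds_iff.1 hev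
  have hO : IsOpen ((B ∩ W) ×ˢ ball (0 : ℂ) r₀ : Set (V × ℂ)) := (hB.inter hWo).prod isOpen_ball
  obtain ⟨R, hR, hRsub⟩ := Metric.isOpen_iff.1 hO (x₁, z₁) ⟨⟨hx₁, hxW⟩, hz₁⟩
  have hunif : TendstoUniformlyOn (fun (n : ℕ) (p : V × ℂ) => Ln h n p.1 p.2)
      (fun p : V × ℂ => LL h p.1 p.2) atTop (ball (x₁, z₁) R) := by
    have h1 : TendstoUniformlyOn
        (fun (N : ℕ) (p : V × ℂ) => ∑ n ∈ Finset.range N, (Ln h (n + 1) p.1 p.2 - Ln h n p.1 p.2))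
        (fun p : V × ℂ => ∑' n, (Ln h (n + 1) p.1 p.2 - Ln h n p.1 p.2)) atTop
        (ball (x₁, z₁) R) := by
      refine tendstoUniformlyOn_tsum_nat (u := fun n => KK0 r₀ θ m * r₀ ^ 2 * θ ^ n)
        ((summable_geometric_of_lt_one hθ0 hθ).mul_left _) ?_
      intro n p hp
      obtain ⟨⟨hpB, hpW⟩, hpz⟩ := hRsub hp
      refine (diff_bound hB hr hθ hd hh h0 hm hpB (hWsub _ hpW).le hpz n).trans ?_
      rw [mem_ball_zero_iff] at hpz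
      have : ‖p.2‖ ^ 2 ≤ r₀ ^ 2 := pow_le_pow_left₀ (norm_nonneg _) hpz.le 2
      exact mul_le_mul_of_nonneg_right
        (mul_le_mul_of_nonneg_left this (KK0_pos hr hm).le) (by positivity)
    rw [Metric.tendstoUniformlyOn_iff] at h1 ⊢
    intro ε hε
    filter_upwards [h1 ε hε] with n hn p hp
    have := hn p hp
    rw [← part (h := h) p.1 p.2 n]
    unfold LL
    rwa [dist_add_left]
  have hdn : ∀ n, DifferentiableOn ℂ (fun p : V × ℂ => Ln h n p.1 p.2) (ball (x₁, z₁) R) :=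
    fun n => (Ln_diff hB hr hθ hd hh h0 n).mono (fun p hp => ⟨(hRsub hp).1.1, (hRsub hp).2⟩)
  have h2 := Pool.Agent.Helper540.differentiableOn_of_uniform_limit hdn hunif
  exact ((h2 (x₁, z₁) (mem_ball_self (by linarith))).differentiableAt
    (ball_mem_nhds _ (by linarith))).differentiableWithinAt

end

end KOEN

theorem KOEN : StKOEN := by
  intro V _ _ _ B r₀ θ h hB hr hθ hd hh h0
  refine ⟨KOEN.LL h, KOEN.main hB hr hθ hd hh h0, ?_⟩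
  intro x hx
  have hθ0 := KOEN.theta_nonneg hr hh hx
  have hmem0 : (0 : ℂ) ∈ ball (0 : ℂ) r₀ := mem_ball_self hr
  have hh0 : h x 0 = 0 := by
    have := hh x hx 0 hmem0
    simpa using this
  have hit0 : ∀ n, (h x)^[n] 0 = 0 := fun n => Function.iterate_fixed hh0 n
  have hLL0 : KOEN.LL h x 0 = 0 := by
    unfold KOEN.LL KOEN.Ln
    simp [hit0]
  refine ⟨hLL0, ?_, ?_⟩
  · -- derivative
    have hbd : ∀ z ∈ ball (0 : ℂ) r₀, ‖KOEN.LL h x z - z‖ ≤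
        (KOEN.KK0 r₀ θ ‖deriv (h x) 0‖ * (1 - θ)⁻¹) * ‖z‖ ^ 2 := by
      intro z hz
      have hpos : 0 < ‖deriv (h x) 0‖ := norm_pos_iff.2 (h0 x hx)
      have h1 : KOEN.LL h x z - z = ∑' n, (KOEN.Ln h (n + 1) x z - KOEN.Ln h n x z) := by
        unfold KOEN.LL; ring
      rw [h1]
      have h2 := tsum_of_norm_bounded
        ((hasSum_geometric_of_lt_one hθ0 hθ).mul_left (KOEN.KK0 r₀ θ ‖deriv (h x) 0‖ * ‖z‖ ^ 2))
        (fun n => KOEN.diff_bound hB hr hθ hd hh h0 hpos hx le_rfl hz n)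
      refine h2.trans (le_of_eq ?_)
      ring
    have h3 : HasDerivAt (KOEN.LL h x) 1 0 := by
      rw [hasDerivAt_iff_isLittleO_nhds_zero]
      simp only [zero_add, hLL0, sub_zero, smul_eq_mul, mul_one]
      have h4 : (fun z : ℂ => KOEN.LL h x z - z) =O[𝓝 0] (fun z : ℂ => ‖z‖ ^ 2) := by
        refine Asymptotics.IsBigO.of_bound (KOEN.KK0 r₀ θ ‖deriv (h x) 0‖ * (1 - θ)⁻¹) ?_
        filter_upwards [ball_mem_nhds (0 : ℂ) hr] with z hz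
        rw [norm_pow, norm_norm]
        exact hbd z hz
      refine h4.trans_isLittleO ?_
      have h5 : (fun z : ℂ => ‖z‖ ^ 2) =o[𝓝 0] (fun z : ℂ => ‖z‖ ^ 1) :=
        (Asymptotics.isLittleO_pow_pow (by norm_num : 1 < 2)).comp_tendsto
          (by simpa using (continuous_norm.tendsto (0 : ℂ)))
      simp only [pow_one] at h5
      exact h5.trans_isBigO (Asymptotics.isBigO_norm_left.2 (Asymptotics.isBigO_refl _ _))
    exact h3.deriv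
  · intro z hz
    have hz' : h x z ∈ ball (0 : ℂ) r₀ := by
      simpa using (KOEN.iter_norm hθ hh hx hz 1).1
    have h1 := KOEN.tends hB hr hθ hd hh h0 hx hz'
    have h2 := ((KOEN.tends hB hr hθ hd hh h0 hx hz).comp (tendsto_add_atTop_nat 1)).const_mul
      (deriv (h x) 0)
    refine tendsto_nhds_unique h1 (h2.congr ?_)
    intro n
    simp only [Function.comp, KOEN.Ln, Function.iterate_succ_apply]
    have := h0 x hx
    field_simp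
    ring

end Pool.Agent.H790R3.RB
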