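import Mathlib
import Pool.Agent.H790R3.RB.St

/-! LA: linear algebra -/

set_option autoImplicit false

open Topology Filter Metric Set MeasureTheory

namespace Pool.Agent.H790R3.RB

theorem LA : StLA := by
  intro I J P _ _ _ _ f g col hdet
  have hrows := Matrix.linearIndependent_rows_of_det_ne_zero hdet
  have hsub : LinearIndependent ℂ (fun j : J => fun c : J ⊕ P => f j (col c)) :=
    hrows.comp Sum.inl Sum.inl_injective
  let A : Matrix J (J ⊕ P) ℂ := Matrix.of fun j c => f j (col c)
  have hrank : A.rank = Fintype.card J := LinearIndependent.rank_matrix (M := A) hsub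
  have hspan : Submodule.span ℂ (Set.range A.col) = ⊤ := by
    apply Submodule.eq_top_of_finrank_eq
    rw [← Matrix.rank_eq_finrank_span_cols, hrank, Module.finrank_fintype_fun_eq_card]
  obtain ⟨κ, a, ha, hsp, hli⟩ := exists_linearIndependent' ℂ A.col
  rw [hspan] at hsp
  let b := Module.Basis.mk hli hsp.ge
  have hfin : Finite κ := Finite.of_injective a ha
  have hft : Fintype κ := Fintype.ofFinite κ
  have hcard : Fintype.card J = Fintype.card κ := by
    have h1 := Module.finrank_eq_card_basis b
    rw [Module.finrank_fintype_fun_eq_card] at h1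
    exact h1
  let e : J ≃ κ := Fintype.equivOfCardEq hcard
  refine ⟨fun j => col (a (e j)), ?_⟩
  have hcols : LinearIndependent ℂ
      (Matrix.of fun j c : J => f j (col (a (e c)))).col := hli.comp e e.injective
  have hunit := Matrix.linearIndependent_cols_iff_isUnit.mp hcols
  exact ((Matrix.isUnit_iff_isUnit_det _).mp hunit).ne_zero

end Pool.Agent.H790R3.RB
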