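import Mathlib
import Pool.Agent.H790R3.RB.St
import Pool.Agent.H790R3.RB.Basic
import Pool.Agent.Helper540.Holo

/-! Task LAM: multipliers and return maps. -/

set_option autoImplicit false

open Topology Filter Metric Set MeasureTheory

namespace Pool.Agent.H790R3.RB

namespace LAM

section general

variable {E : Type} [NormedAddCommGroup E] [NormedSpace ℂ E]

/-- partial derivative in the last variable -/
noncomputable def pd (H : E × ℂ → ℂ) (q : E × ℂ) : ℂ := fderiv ℂ H q ((0 : E), (1 : ℂ))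

theorem pd_diff {H : E × ℂ → ℂ} {O : Set (E × ℂ)} (hO : IsOpen O) (hH : DifferentiableOn ℂ H O) :
    DifferentiableOn ℂ (pd H) O :=
  Pool.Agent.Helper540.differentiableOn_fderiv_apply hO hH _

theorem pd_eq {H : E × ℂ → ℂ} {O : Set (E × ℂ)} (hO : IsOpen O) (hH : DifferentiableOn ℂ H O)
    (x : E) (z : ℂ) (hq : (x, z) ∈ O) : deriv (fun w => H (x, w)) z = pd H (x, z) := by
  have h1 : HasFDerivAt H (fderiv ℂ H (x, z)) (x, z) :=
    (hH.differentiableAt (hO.mem_nhds hq)).hasFDerivAt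
  have h2 : HasDerivAt (fun w : ℂ => (x, w)) ((0 : E), (1 : ℂ)) z :=
    (hasDerivAt_const z x).prodMk (hasDerivAt_id z)
  exact (h1.comp_hasDerivAt z h2).deriv

end general

variable {d n s : ℕ} (S : Sys d n s)

theorem hk_eq (k : Option (Fin s)) (x : Fin n → ℂ) (hx : x ∈ S.U) (z : ℂ) (hz : ‖z‖ < S.r₀) :
    ‖S.hk k x z‖ ≤ S.θ * ‖z‖ ∧
      ∃ a : ℂ, a ≠ 0 ∧ (S.F x)^[S.per k] (S.cht k x z) = a • S.cht k x (S.hk k x z) := by
  obtain ⟨a, z', ha, hz', h⟩ := S.contr x hx k z hz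
  have e : S.hk k x z = z' := by
    unfold Sys.hk Sys.F Sys.cht
    rw [h]
    exact loc_smul_ch S.b k x z' ha
  rw [e]
  exact ⟨hz', a, ha, h⟩

theorem hk_diff (k : Option (Fin s)) :
    DifferentiableOn ℂ (fun q : (Fin n → ℂ) × ℂ => S.hk k q.1 q.2) (S.U ×ˢ ball 0 S.r₀) := by
  have hm1 : MapsTo (fun q : (Fin n → ℂ) × ℂ => q.1) (S.U ×ˢ ball (0 : ℂ) S.r₀) (ball S.xT S.ρ) :=
    fun q hq => hq.1
  have hco : DifferentiableOn ℂ (fun q : (Fin n → ℂ) × ℂ => S.co q.1) (S.U ×ˢ ball 0 S.r₀) :=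
    S.hco.comp differentiable_fst.differentiableOn hm1
  have hch : DifferentiableOn ℂ (fun q : (Fin n → ℂ) × ℂ => S.cht k q.1 q.2)
      (S.U ×ˢ ball 0 S.r₀) := by
    cases k with
    | none =>
      exact (differentiableOn_const (1 : ℂ)).prodMk differentiable_snd.differentiableOn
    | some k =>
      have hb : DifferentiableOn ℂ (fun q : (Fin n → ℂ) × ℂ => S.b k q.1) (S.U ×ˢ ball 0 S.r₀) :=
        (S.hb k).comp differentiable_fst.differentiableOn hm1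
      exact (hb.add differentiable_snd.differentiableOn).prodMk (differentiableOn_const (1 : ℂ))
  have hG : DifferentiableOn ℂ
      (fun q : (Fin n → ℂ) × ℂ => (S.F q.1)^[S.per k] (S.cht k q.1 q.2)) (S.U ×ˢ ball 0 S.r₀) :=
    (hF_iter_differentiable d (S.per k)).comp_differentiableOn (hco.prodMk hch)
  have hne : ∀ q ∈ (S.U ×ˢ ball (0 : ℂ) S.r₀), ∃ a : ℂ, a ≠ 0 ∧
      (S.F q.1)^[S.per k] (S.cht k q.1 q.2) = a • S.cht k q.1 (S.hk k q.1 q.2) := by
    intro q hq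
    have hz : ‖q.2‖ < S.r₀ := by simpa using hq.2
    exact (hk_eq S k q.1 hq.1 q.2 hz).2
  cases k with
  | none =>
    have e : (fun q : (Fin n → ℂ) × ℂ => S.hk none q.1 q.2) = fun q =>
        ((S.F q.1)^[S.per none] (S.cht none q.1 q.2)).2 /
          ((S.F q.1)^[S.per none] (S.cht none q.1 q.2)).1 := rfl
    rw [e]
    simp only [div_eq_mul_inv]
    refine hG.snd.mul (hG.fst.inv ?_)
    intro q hq
    obtain ⟨a, ha, h⟩ := hne q hq
    rw [h]
    simpa [Sys.cht, ch] using ha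
  | some k =>
    have e : (fun q : (Fin n → ℂ) × ℂ => S.hk (some k) q.1 q.2) = fun q =>
        ((S.F q.1)^[S.per (some k)] (S.cht (some k) q.1 q.2)).1 /
          ((S.F q.1)^[S.per (some k)] (S.cht (some k) q.1 q.2)).2 - S.b k q.1 := rfl
    rw [e]
    simp only [div_eq_mul_inv]
    refine (hG.fst.mul (hG.snd.inv ?_)).sub ((S.hb k).comp differentiable_fst.differentiableOn hm1)
    intro q hq
    obtain ⟨a, ha, h⟩ := hne q hq
    rw [h]
    simpa [Sys.cht, ch] using ha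

theorem opn : IsOpen (S.U ×ˢ ball (0 : ℂ) S.r₀) := isOpen_ball.prod isOpen_ball

theorem mem0 {x : Fin n → ℂ} (hx : x ∈ S.U) : (x, (0 : ℂ)) ∈ S.U ×ˢ ball (0 : ℂ) S.r₀ :=
  ⟨hx, mem_ball_self S.hr₀⟩

theorem lam_eq (k : Option (Fin s)) (x : Fin n → ℂ) (hx : x ∈ S.U) :
    S.lam k x = pd (fun q : (Fin n → ℂ) × ℂ => S.hk k q.1 q.2) (x, 0) := by
  rw [← pd_eq (opn S) (hk_diff S k) x 0 (mem0 S hx)]
  rfl

theorem lam_diff (k : Option (Fin s)) : DifferentiableOn ℂ (S.lam k) S.U := by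
  have h1 := pd_diff (opn S) (hk_diff S k)
  have h2 : DifferentiableOn ℂ (fun x : Fin n → ℂ =>
      pd (fun q : (Fin n → ℂ) × ℂ => S.hk k q.1 q.2) (x, 0)) S.U :=
    h1.comp (differentiable_id.prodMk (differentiable_const (0 : ℂ))).differentiableOn
      (fun x hx => mem0 S hx)
  exact h2.congr fun x hx => lam_eq S k x hx

theorem bet_eq (x : Fin n → ℂ) (hx : x ∈ S.U) :
    S.bet x = pd (pd (fun q : (Fin n → ℂ) × ℂ => S.hk none q.1 q.2)) (x, 0) := by
  rw [← pd_eq (opn S) (pd_diff (opn S) (hk_diff S none)) x 0 (mem0 S hx)]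
  unfold Sys.bet
  apply Filter.EventuallyEq.deriv_eq
  have h0 : ball (0 : ℂ) S.r₀ ∈ 𝓝 (0 : ℂ) := ball_mem_nhds 0 S.hr₀
  filter_upwards [h0] with z hz
  exact pd_eq (opn S) (hk_diff S none) x z ⟨hx, hz⟩

theorem bet_diff : DifferentiableOn ℂ S.bet S.U := by
  have h1 := pd_diff (opn S) (pd_diff (opn S) (hk_diff S none))
  have h2 : DifferentiableOn ℂ (fun x : Fin n → ℂ =>
      pd (pd (fun q : (Fin n → ℂ) × ℂ => S.hk none q.1 q.2)) (x, 0)) S.U :=
    h1.comp (differentiable_id.prodMk (differentiable_const (0 : ℂ))).differentiableOn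
      (fun x hx => mem0 S hx)
  exact h2.congr fun x hx => bet_eq S x hx

theorem lam_le (k : Option (Fin s)) (x : Fin n → ℂ) (hx : x ∈ S.U) : ‖S.lam k x‖ ≤ S.θ := by
  unfold Sys.lam
  refine norm_deriv_le_of_lip' S.hθ0 ?_
  have h0 : ball (0 : ℂ) S.r₀ ∈ 𝓝 (0 : ℂ) := ball_mem_nhds 0 S.hr₀
  have e0 : S.hk k x 0 = 0 := by
    have := (hk_eq S k x hx 0 (by simpa using S.hr₀)).1
    rw [norm_zero, mul_zero] at this
    exact norm_le_zero_iff.1 this
  filter_upwards [h0] with z hz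
  rw [e0, sub_zero, sub_zero]
  exact (hk_eq S k x hx z (by simpa using hz)).1

theorem cr_lin (A : ℂ × ℂ →L[ℂ] ℂ × ℂ) (u v : ℂ × ℂ) (h : cr u v = 0) : cr (A u) (A v) = 0 := by
  by_cases hu : u = 0
  · rw [hu, map_zero]; unfold cr; simp
  by_cases hv : v = 0
  · rw [hv, map_zero]; unfold cr; simp
  obtain ⟨a, _, h1⟩ := (cr_eq_zero_iff hu hv).1 h
  rw [h1, map_smul, cr_smul_left, cr_self, mul_zero]

theorem wr_ne (hWR : StWR) (x : Fin n → ℂ) (hx : x ∈ S.U) (hl : S.lam none x ≠ 0) :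
    wr (S.co x) (1, 0) ≠ 0 := by
  intro hw
  apply hl
  obtain ⟨p, hp⟩ : ∃ p, S.per none = p + 1 :=
    ⟨S.per none - 1, by have := S.hper none; omega⟩
  set G : ℂ × ℂ → ℂ × ℂ := (hF (S.co x))^[p + 1] with hG
  have hGd : ∀ (m : ℕ), Differentiable ℂ ((hF (S.co x))^[m]) := by
    intro m
    have h1 : Differentiable ℂ (fun q : ℂ × ℂ => ((S.co x, q) : CV d × (ℂ × ℂ))) :=
      (differentiable_const _).prodMk differentiable_id
    exact (hF_iter_differentiable d m).comp h1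
  have hFd : Differentiable ℂ (hF (S.co x)) := by
    have := hGd 1
    rwa [Function.iterate_one] at this
  -- the value at the base point
  obtain ⟨a, z', ha, hz', hv⟩ := S.contr x hx none 0 (by simpa using S.hr₀)
  rw [norm_zero, mul_zero] at hz'
  have hz0 : z' = 0 := norm_le_zero_iff.1 hz'
  rw [hz0, hp] at hv
  have hv' : G (1, 0) = (a, 0) := by
    have h1 : G (1, 0) = a • ((1 : ℂ), (0 : ℂ)) := hv
    rw [h1]
    simp
  -- chain rule
  have hD : fderiv ℂ G (1, 0) =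
      (fderiv ℂ ((hF (S.co x))^[p]) (hF (S.co x) (1, 0))).comp (fderiv ℂ (hF (S.co x)) (1, 0)) := by
    rw [hG, Function.iterate_succ]
    exact fderiv_comp (1, 0) (hGd p _) (hFd _)
  have hcr : cr (fderiv ℂ G (1, 0) (1, 0)) (fderiv ℂ G (1, 0) (0, 1)) = 0 := by
    rw [hD, ContinuousLinearMap.comp_apply, ContinuousLinearMap.comp_apply]
    apply cr_lin
    rw [(hWR d (S.co x) S.hd).2.2, hw, zero_mul]
  -- Euler
  have hE : fderiv ℂ G (1, 0) (1, 0) = ((d ^ (p + 1) : ℕ) : ℂ) • G (1, 0) := by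
    have h1 : HasDerivAt (fun t : ℂ => t • ((1 : ℂ), (0 : ℂ))) ((1 : ℂ), (0 : ℂ)) 1 := by
      have := (hasDerivAt_id (1 : ℂ)).smul_const ((1 : ℂ), (0 : ℂ))
      simpa using this
    have h2 : HasFDerivAt G (fderiv ℂ G (1, 0)) ((1 : ℂ) • ((1 : ℂ), (0 : ℂ))) := by
      rw [one_smul]
      exact (hGd (p + 1) _).hasFDerivAt
    have h3 := h2.comp_hasDerivAt (1 : ℂ) h1
    have h4 : (G ∘ fun t : ℂ => t • ((1 : ℂ), (0 : ℂ))) = fun t : ℂ =>
        t ^ (d ^ (p + 1)) • G (1, 0) := by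
      funext t
      exact hF_iter_smul (S.co x) (p + 1) t (1, 0)
    rw [h4] at h3
    have h5 : HasDerivAt (fun t : ℂ => t ^ (d ^ (p + 1)) • G (1, 0))
        (((d ^ (p + 1) : ℕ) : ℂ) • G (1, 0)) 1 := by
      have := (hasDerivAt_pow (d ^ (p + 1)) (1 : ℂ)).smul_const (G (1, 0))
      simpa using this
    exact h3.unique h5
  have hd0 : ((d ^ (p + 1) : ℕ) : ℂ) ≠ 0 := by
    have := S.hd
    exact Nat.cast_ne_zero.2 (pow_ne_zero _ (by omega))
  rw [hE, hv'] at hcr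
  have hsnd : (fderiv ℂ G (1, 0) (0, 1)).2 = 0 := by
    simp only [cr, Prod.smul_fst, Prod.smul_snd, smul_eq_mul, mul_zero, zero_mul, sub_zero] at hcr
    rcases mul_eq_zero.1 hcr with h | h
    · rcases mul_eq_zero.1 h with h | h
      · exact absurd h hd0
      · exact absurd h ha
    · exact h
  -- the derivative of the return map
  have h1 : HasDerivAt (fun z : ℂ => ((1 : ℂ), z)) ((0 : ℂ), (1 : ℂ)) 0 :=
    (hasDerivAt_const (0 : ℂ) (1 : ℂ)).prodMk (hasDerivAt_id (0 : ℂ))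
  have h2 : HasFDerivAt G (fderiv ℂ G (1, 0)) ((1 : ℂ), (0 : ℂ)) := (hGd (p + 1) _).hasFDerivAt
  have h3 : HasDerivAt (fun z : ℂ => G (1, z)) (fderiv ℂ G (1, 0) (0, 1)) 0 :=
    h2.comp_hasDerivAt (0 : ℂ) h1
  have h4 : HasDerivAt (fun z : ℂ => (G (1, z)).1) (fderiv ℂ G (1, 0) (0, 1)).1 0 :=
    (ContinuousLinearMap.fst ℂ ℂ ℂ).hasFDerivAt.comp_hasDerivAt (0 : ℂ) h3
  have h5 : HasDerivAt (fun z : ℂ => (G (1, z)).2) (fderiv ℂ G (1, 0) (0, 1)).2 0 :=
    (ContinuousLinearMap.snd ℂ ℂ ℂ).hasFDerivAt.comp_hasDerivAt (0 : ℂ) h3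
  have h6 := h5.div h4 (by rw [hv']; exact ha)
  have e : S.hk none x = fun z : ℂ => (G (1, z)).2 / (G (1, z)).1 := by
    funext z
    unfold Sys.hk
    rw [hp]
    rfl
  unfold Sys.lam
  rw [e]
  have h7 := h6.deriv
  rw [hsnd, hv'] at h7
  have e7 : ((fun z : ℂ => (G (1, z)).2) / fun z : ℂ => (G (1, z)).1) =
      fun z : ℂ => (G (1, z)).2 / (G (1, z)).1 := rfl
  rw [e7] at h7
  rw [h7]
  simp

end LAM

/-- Task LAM -/
theorem LAM (hWR : StWR) : StLAM := by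
  intro d n s S
  exact ⟨LAM.lam_diff S, LAM.bet_diff S, LAM.lam_le S, LAM.wr_ne S hWR, LAM.hk_diff S, LAM.hk_eq S⟩

end Pool.Agent.H790R3.RB
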