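import Mathlib
import Pool.Agent.H790R3.RB.St3

/-! MAXI: existence of a maximal point -/

set_option autoImplicit false

open Topology Filter Metric Set MeasureTheory

namespace Pool.Agent.H790R3.RB

theorem MAXI : StMAXI := by
  intro X _ L a h j y₀ δ hL ha hh hj hj0 hδ hy₀ hjy₀
  have hne : L.Nonempty := ⟨y₀, hy₀⟩
  obtain ⟨ya, -, hya⟩ := ha.exists_isMinOn hne hL
  obtain ⟨yh, -, hyh⟩ := hL.exists_isMinOn hne hh
  have hya' : ∀ y ∈ L, a ya ≤ a y := fun y hy => hya hy
  have hyh' : ∀ y ∈ L, h yh ≤ h y := fun y hy => hyh hy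
  set c := a y₀ + h y₀ - δ * Real.log (j y₀) with hc
  set ε := Real.exp ((a ya + h yh - c) / δ) with hε
  have hε0 : 0 < ε := Real.exp_pos _
  have hδε : δ * Real.log ε = a ya + h yh - c := by
    rw [hε, Real.log_exp]; field_simp
  have hK : IsCompact (L ∩ j ⁻¹' Ici ε) := by
    obtain ⟨u, hu, hu'⟩ := continuousOn_iff_isClosed.mp hj (Ici ε) isClosed_Ici
    rw [inter_comm, hu', inter_comm]
    exact hL.inter_right hu
  have hlsc : LowerSemicontinuousOn (fun y => a y + (h y - δ * Real.log (j y)))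
      (L ∩ j ⁻¹' Ici ε) := by
    refine (ha.mono inter_subset_left).add (ContinuousOn.lowerSemicontinuousOn ?_)
    refine (hh.mono inter_subset_left).sub (ContinuousOn.mul continuousOn_const ?_)
    refine (hj.mono inter_subset_left).log ?_
    intro y hy
    exact (hε0.trans_le hy.2).ne'
  have hy₀K : y₀ ∈ L ∩ j ⁻¹' Ici ε := by
    refine ⟨hy₀, ?_⟩
    show ε ≤ j y₀
    rw [← Real.log_le_log_iff hε0 hjy₀]
    have h1 := hya' y₀ hy₀
    have h2 := hyh' y₀ hy₀
    have h3 : δ * Real.log ε ≤ δ * Real.log (j y₀) := by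
      rw [hδε, hc]; linarith
    exact le_of_mul_le_mul_left h3 hδ
  obtain ⟨y, hyK, hy⟩ := hlsc.exists_isMinOn ⟨y₀, hy₀K⟩ hK
  have hy' : ∀ z ∈ L ∩ j ⁻¹' Ici ε, a y + (h y - δ * Real.log (j y)) ≤
    a z + (h z - δ * Real.log (j z)) := fun z hz => hy hz
  refine ⟨y, hyK.1, hε0.trans_le hyK.2, ?_⟩
  intro z hz hjz
  by_cases hzε : ε ≤ j z
  · have := hy' z ⟨hz, hzε⟩
    linarith
  · push Not at hzε
    have h1 := hya' z hz
    have h2 := hyh' z hz
    have h3 : δ * Real.log (j z) < δ * Real.log ε :=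
      mul_lt_mul_of_pos_left (Real.log_lt_log hjz hzε) hδ
    rw [hδε] at h3
    have h4 := hy' y₀ hy₀K
    linarith

end Pool.Agent.H790R3.RB
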