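import Mathlib
import Pool.Agent.H790R3.RB.St3
import Pool.Agent.H790R3.RB.Basic

set_option autoImplicit false

open Topology Filter Metric Set MeasureTheory

namespace Pool.Agent.H790R3.RB

namespace MAXV

/-- good configurations exist arbitrarily close to the base point -/
def P {d n s l : ℕ} (S : Sys d n s) (KK : Option (Fin s) → (Fin n → ℂ) × (ℂ × ℂ) → ℂ)
    (e : Fin l → (Fin n → ℂ) → ℂ) (m R : ℕ) : Prop :=
  ∀ ε : ℝ, 0 < ε → ∃ (A : Finset (Fin (2 * d - 2))) (ks : Fin (2 * d - 2) → Option (Fin s))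
    (ls : Fin (2 * d - 2) → ℕ) (y : Ix d n s → ℂ), A.card = m ∧ ‖yx y - S.xT‖ < ε ∧
    Goodc S KK e A ks ls R y

theorem greatest (p : ℕ → Prop) (h0 : p 0) (M : ℕ) (hM : ∀ m, p m → m ≤ M) :
    ∃ m, p m ∧ ∀ m', m < m' → ¬ p m' := by
  classical
  refine ⟨Nat.findGreatest p M, Nat.findGreatest_spec (Nat.zero_le M) h0, fun m' hm' hp => ?_⟩
  exact Nat.findGreatest_is_greatest hm' (hM m' hp) hp

theorem not_P {d n s l : ℕ} {S : Sys d n s} {KK : Option (Fin s) → (Fin n → ℂ) × (ℂ × ℂ) → ℂ}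
    {e : Fin l → (Fin n → ℂ) → ℂ} {m R : ℕ} (h : ¬ P S KK e m R) :
    ∃ ε : ℝ, 0 < ε ∧ ∀ (A : Finset (Fin (2 * d - 2))) (ks : Fin (2 * d - 2) → Option (Fin s))
      (ls : Fin (2 * d - 2) → ℕ) (y : Ix d n s → ℂ), A.card = m → ‖yx y - S.xT‖ < ε →
      ¬ Goodc S KK e A ks ls R y := by
  unfold P at h
  push Not at h
  obtain ⟨ε, hε, h⟩ := h
  exact ⟨ε, hε, fun A ks ls y hA hy => h A ks ls y hA hy⟩

theorem sel_inj {d n s l : ℕ} {S : Sys d n s} {KK : Option (Fin s) → (Fin n → ℂ) × (ℂ × ℂ) → ℂ}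
    {e : Fin l → (Fin n → ℂ) → ℂ} {A : Finset (Fin (2 * d - 2))}
    {ks : Fin (2 * d - 2) → Option (Fin s)} {ls : Fin (2 * d - 2) → ℕ} {R : ℕ}
    {y : Ix d n s → ℂ} (sel : Fin R → Sys.Rw l d s A)
    (col : Fin (2 * d - 2) ⊕ Fin R → Ix d n s) (h : (S.Mx KK e A ks ls sel col y).det ≠ 0) :
    Function.Injective sel := by
  intro i i' hii
  by_contra hne
  apply h
  have hne' : (Sum.inr i : Fin (2 * d - 2) ⊕ Fin R) ≠ Sum.inr i' := fun h => hne (Sum.inr_injective h)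
  refine Matrix.det_zero_of_row_eq hne' ?_
  funext c
  simp only [Sys.Mx, Matrix.of_apply]
  rw [hii]

theorem R_le {d n s l : ℕ} {S : Sys d n s} {KK : Option (Fin s) → (Fin n → ℂ) × (ℂ × ℂ) → ℂ}
    {e : Fin l → (Fin n → ℂ) → ℂ} {A : Finset (Fin (2 * d - 2))}
    {ks : Fin (2 * d - 2) → Option (Fin s)} {ls : Fin (2 * d - 2) → ℕ} {R : ℕ}
    {y : Ix d n s → ℂ} (h : Goodc S KK e A ks ls R y) :
    R ≤ l + ((s + 1) + (1 + (2 * d - 2))) := by
  obtain ⟨-, sel, col, h⟩ := h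
  have h1 := Fintype.card_le_of_injective sel (sel_inj sel col h)
  have h2 : A.card ≤ 2 * d - 2 := by
    have := Finset.card_le_univ A
    simpa using this
  simp only [Fintype.card_fin, Fintype.card_sum, Fintype.card_option, Fintype.card_unit,
    Fintype.card_coe] at h1
  omega

theorem P00 (hEMIN : StEMIN) (hLAM : StLAM) {d n s l : ℕ} (S : Sys d n s)
    (KK : Option (Fin s) → (Fin n → ℂ) × (ℂ × ℂ) → ℂ)
    (e : Fin l → (Fin n → ℂ) → ℂ) (hH : S.Hyp e) : P S KK e 0 0 := by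
  intro ε hε
  obtain ⟨x, hxU, hx, hlam, c, hc, hfac⟩ := hH.gen ε hε
  let y : Ix d n s → ℂ := Sum.elim x (Sum.elim c (fun _ => 1))
  have hyx : yx y = x := rfl
  have hyc : yc y = c := rfl
  have hyk : ∀ k, yk y k ≠ 0 := by
    intro k
    cases k with
    | none => exact one_ne_zero
    | some k => exact one_ne_zero
  refine ⟨∅, fun _ => none, fun _ => 0, y, rfl, hx, ?_, ?_⟩
  · refine ⟨hxU, hlam, hyk, ?_, ?_, ?_⟩
    · intro j
      unfold Sys.Er
      rw [hyx, hyc, hfac, sub_self]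
    · intro i hi; exact absurd hi (Finset.notMem_empty i)
    · intro i hi; exact absurd hi (Finset.notMem_empty i)
  · obtain ⟨-, -, -, hw, -, -⟩ := hLAM d n s S
    obtain ⟨col, hcol⟩ := hEMIN d n s S y hxU (hw x hxU (hlam none)) hc
    refine ⟨Fin.elim0, Sum.elim col Fin.elim0, ?_⟩
    have hM : S.Mx KK e ∅ (fun _ => none) (fun _ => 0) (R := 0) Fin.elim0
        (Sum.elim col Fin.elim0) y =
        (Matrix.of fun j c : Fin (2 * d - 2) =>
          fderiv ℂ (S.Er j) y (Pi.single (col c) 1)).submatrix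
          (Equiv.sumEmpty (Fin (2 * d - 2)) (Fin 0)) (Equiv.sumEmpty (Fin (2 * d - 2)) (Fin 0)) := by
      ext a b
      rcases a with a | a
      · rcases b with b | b
        · rfl
        · exact b.elim0
      · exact a.elim0
    rw [hM, Matrix.det_submatrix_equiv_self]
    exact hcol

end MAXV

theorem MAXV (hEMIN : StEMIN) (hLAM : StLAM) : StMAXV := by
  intro d n s l S KK e _ hH
  obtain ⟨m, hm, hm'⟩ := MAXV.greatest (fun m => MAXV.P S KK e m 0)
    (MAXV.P00 hEMIN hLAM S KK e hH) (2 * d - 2) (by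
      intro m hm
      obtain ⟨A, ks, ls, y, hA, -, -⟩ := hm 1 one_pos
      have := Finset.card_le_univ A
      rw [hA] at this
      simpa using this)
  obtain ⟨R, hR, hR'⟩ := MAXV.greatest (fun R => MAXV.P S KK e m R) hm
    (l + ((s + 1) + (1 + (2 * d - 2)))) (by
      intro R hR
      obtain ⟨A, ks, ls, y, hA, -, hG⟩ := hR 1 one_pos
      exact MAXV.R_le hG)
  obtain ⟨ε₁, hε₁, h₁⟩ := MAXV.not_P (hR' (R + 1) (Nat.lt_succ_self R))
  have hall : ∀ M : ℕ, ∃ ρ : ℝ, 0 < ρ ∧ ∀ m' ≤ M, m < m' →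
      ∀ (A : Finset (Fin (2 * d - 2))) (ks : Fin (2 * d - 2) → Option (Fin s))
      (ls : Fin (2 * d - 2) → ℕ) (y : Ix d n s → ℂ), A.card = m' → ‖yx y - S.xT‖ < ρ →
      ¬ Goodc S KK e A ks ls 0 y := by
    intro M
    induction M with
    | zero => exact ⟨1, one_pos, fun m' h h' => by omega⟩
    | succ M ih =>
      obtain ⟨ρ, hρ, hρ'⟩ := ih
      by_cases hM : m < M + 1
      · obtain ⟨ε₂, hε₂, h₂⟩ := MAXV.not_P (hm' (M + 1) hM)
        refine ⟨min ρ ε₂, lt_min hρ hε₂, fun m' h h' A ks ls y hA hy => ?_⟩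
        rcases Nat.lt_or_ge m' (M + 1) with h3 | h3
        · exact hρ' m' (Nat.lt_succ_iff.1 h3) h' A ks ls y hA (hy.trans_le (min_le_left _ _))
        · have : m' = M + 1 := le_antisymm h h3
          subst this
          exact h₂ A ks ls y hA (hy.trans_le (min_le_right _ _))
      · exact ⟨ρ, hρ, fun m' h h' => by omega⟩
  obtain ⟨ρ, hρ, hρ'⟩ := hall (2 * d - 2)
  refine ⟨min ρ ε₁, m, R, lt_min hρ hε₁, hR, fun A ks ls y hy => ⟨fun hA => ?_, fun hA => ?_⟩⟩
  · have hle : A.card ≤ 2 * d - 2 := by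
      have := Finset.card_le_univ A
      simpa using this
    exact hρ' A.card hle hA A ks ls y rfl (hy.trans_le (min_le_left _ _))
  · exact h₁ A ks ls y hA (hy.trans_le (min_le_right _ _))

end Pool.Agent.H790R3.RB
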