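import Mathlib
import Pool.Agent.H790R3.RB.St2
import Pool.Agent.H790R3.RB.Basic

/-! Task MOB: Möbius transformations are homeomorphisms of the sphere and preserve null sets
(helper287). -/

set_option autoImplicit false

open Topology Filter Metric Set MeasureTheory
open scoped OnePoint

namespace Pool.Agent.H790R3.RB

namespace MOB

/-- coefficients of the linear map with matrix `(a b; c e)` -/
noncomputable def cf (a b c e : ℂ) : CV 1 := fun k =>
  if k.1 = 0 then (if k.2 = 0 then b else a) else (if k.2 = 0 then e else c)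

theorem hF_cf (a b c e : ℂ) (p : ℂ × ℂ) :
    hF (cf a b c e) p = (a * p.1 + b * p.2, c * p.1 + e * p.2) := by
  unfold hF cf
  refine Prod.ext ?_ ?_
  · simp only [Fin.sum_univ_two]
    simp
    ring
  · simp only [Fin.sum_univ_two]
    simp
    ring

theorem nd_cf {a b c e : ℂ} (h : a * e - b * c ≠ 0) : ND (cf a b c e) := by
  intro p hp
  rw [hF_cf] at hp
  have h1 : a * p.1 + b * p.2 = 0 := congrArg Prod.fst hp
  have h2 : c * p.1 + e * p.2 = 0 := congrArg Prod.snd hp
  have h3 : (a * e - b * c) * p.1 = 0 := by linear_combination e * h1 - b * h2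
  have h4 : (a * e - b * c) * p.2 = 0 := by linear_combination a * h2 - c * h1
  exact Prod.ext ((mul_eq_zero.1 h3).resolve_left h) ((mul_eq_zero.1 h4).resolve_left h)

/-- composition with the adjugate -/
theorem sp_inv (hSP : StSP) {a b c e a' b' c' e' D : ℂ} (h : a * e - b * c ≠ 0)
    (h' : a' * e' - b' * c' ≠ 0)
    (hD : ∀ p : ℂ × ℂ, hF (cf a' b' c' e') (hF (cf a b c e) p) = D • p) (z : OnePoint ℂ) :
    sp (cf a' b' c' e') (sp (cf a b c e) z) = z := by
  obtain ⟨-, h2, -, h4, -⟩ := hSP 1 (cf a b c e) le_rfl (nd_cf h)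
  obtain ⟨-, h2', h3', -, -⟩ := hSP 1 (cf a' b' c' e') le_rfl (nd_cf h')
  obtain ⟨hz1, hz2⟩ := h4 z
  have hq : hF (cf a b c e) (hc z) ≠ 0 := fun h0 => hz2 (nd_cf h _ h0)
  have e1 := h2' _ hq 1
  simp only [Function.iterate_one] at e1
  have hq' : hF (cf a' b' c' e') (hF (cf a b c e) (hc z)) ≠ 0 := fun h0 => hq (nd_cf h' _ h0)
  have e2 : sp (cf a b c e) z = pr (hF (cf a b c e) (hc z)) := rfl
  rw [e2, e1]
  rw [hD] at hq' ⊢
  have e3 : pr (D • hc z) = pr (hc z) := (h3' _ _ hq' hz2).2 (by rw [cr_smul_left, cr_self, mul_zero])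
  rw [e3, hz1]

end MOB

open MOB in
theorem MOB (hSP : StSP) : StMOB := by
  intro a b c e h
  have h' : e * a - (-b) * (-c) ≠ 0 := by
    intro h0
    exact h (by linear_combination h0)
  have hx := hSP 1 (cf a b c e) le_rfl (nd_cf h)
  have hx' := hSP 1 (cf e (-b) (-c) a) le_rfl (nd_cf h')
  have hD : ∀ p : ℂ × ℂ, hF (cf e (-b) (-c) a) (hF (cf a b c e) p) = (a * e - b * c) • p := by
    intro p
    rw [hF_cf, hF_cf]
    refine Prod.ext ?_ ?_
    · show e * (a * p.1 + b * p.2) + -b * (c * p.1 + e * p.2) = (a * e - b * c) * p.1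
      ring
    · show -c * (a * p.1 + b * p.2) + a * (c * p.1 + e * p.2) = (a * e - b * c) * p.2
      ring
  have hD' : ∀ p : ℂ × ℂ, hF (cf a b c e) (hF (cf e (-b) (-c) a) p) = (a * e - b * c) • p := by
    intro p
    rw [hF_cf, hF_cf]
    refine Prod.ext ?_ ?_
    · show a * (e * p.1 + -b * p.2) + b * (-c * p.1 + a * p.2) = (a * e - b * c) * p.1
      ring
    · show c * (e * p.1 + -b * p.2) + e * (-c * p.1 + a * p.2) = (a * e - b * c) * p.2
      ring
  let H : OnePoint ℂ ≃ₜ OnePoint ℂ :=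
    { toFun := sp (cf a b c e)
      invFun := sp (cf e (-b) (-c) a)
      left_inv := sp_inv hSP h h' hD
      right_inv := sp_inv hSP h' h hD'
      continuous_toFun := hx.1
      continuous_invFun := hx'.1 }
  have hH : ∀ p : ℂ × ℂ, p ≠ 0 → H (pr p) = pr (a * p.1 + b * p.2, c * p.1 + e * p.2) := by
    intro p hp
    have e1 := hx.2.1 p hp 1
    simp only [Function.iterate_one] at e1
    show sp (cf a b c e) (pr p) = _
    rw [e1, hF_cf]
  refine ⟨H, hH, ?_⟩
  intro A hA
  set φ : ℂ → ℂ := fun ζ => (a * ζ + b) / (c * ζ + e) with hφ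
  set s : Set ℂ := {z : ℂ | (z : OnePoint ℂ) ∈ A} ∩ {ζ : ℂ | c * ζ + e ≠ 0} with hs
  have hs0 : volume s = 0 := measure_mono_null inter_subset_left hA
  have hd : DifferentiableOn ℝ φ s := by
    intro ζ hζ
    have hζ' : c * ζ + e ≠ 0 := hζ.2
    have h1 : DifferentiableAt ℂ φ ζ := by
      simp only [hφ]
      exact ((differentiableAt_id.const_mul a).add_const b).div
        ((differentiableAt_id.const_mul c).add_const e) hζ'
    exact (h1.restrictScalars ℝ).differentiableWithinAt
  have h1 : volume (φ '' s) = 0 :=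
    addHaar_image_eq_zero_of_differentiableOn_of_addHaar_eq_zero volume hd hs0
  have h2 : volume {z : ℂ | (z : OnePoint ℂ) = H ∞} = 0 := by
    refine Set.Subsingleton.measure_zero ?_ _
    intro z hz w hw
    have hz' : (z : OnePoint ℂ) = H ∞ := hz
    have hw' : (w : OnePoint ℂ) = H ∞ := hw
    exact OnePoint.coe_injective (hz'.trans hw'.symm)
  refine measure_mono_null (t := {z : ℂ | (z : OnePoint ℂ) = H ∞} ∪ φ '' s) ?_
    (measure_union_null h2 h1)
  rintro z ⟨w, hwA, hwz⟩
  induction w using OnePoint.rec with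
  | infty => exact Or.inl hwz.symm
  | coe ζ =>
    right
    have e0 : pr (ζ, 1) = (ζ : OnePoint ℂ) := by
      unfold pr
      rw [if_neg (by simp)]
      simp
    have hne : ((ζ, 1) : ℂ × ℂ) ≠ 0 := by
      intro h0
      exact one_ne_zero (congrArg Prod.snd h0)
    have e1 := hH (ζ, 1) hne
    rw [e0, hwz] at e1
    simp only [mul_one] at e1
    have hce : c * ζ + e ≠ 0 := by
      intro h0
      unfold pr at e1
      rw [if_pos h0] at e1
      exact OnePoint.coe_ne_infty _ e1
    refine ⟨ζ, ⟨hwA, hce⟩, ?_⟩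
    unfold pr at e1
    rw [if_neg hce] at e1
    exact (OnePoint.coe_injective e1).symm

end Pool.Agent.H790R3.RB
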