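import Mathlib
import Pool.Agent.H790R3.RB.St
import Pool.Agent.H713R3.ZA.TROOT
import Pool.Agent.Helper540.Holo
import Pool.Agent.Helper114.MontelSol

/-! Task MOT (helper828): the holomorphic motion of the solutions of `A t z = u j t w * B t z`. -/

set_option autoImplicit false

open Topology Filter Metric Set MeasureTheory

namespace Pool.Agent.H790R3.RB

namespace MOT

/-- local inverse of an injective holomorphic function -/
theorem locinv {f : ℂ → ℂ} {P : Set ℂ} (hP : IsOpen P) (hf : DifferentiableOn ℂ f P)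
    (hi : InjOn f P) {w : ℂ} (hw : w ∈ P) :
    ∃ g : ℂ → ℂ, g (f w) = w ∧ ∀ᶠ c in 𝓝 (f w), DifferentiableAt ℂ g c ∧ f (g c) = c := by
  have h0 : deriv f w ≠ 0 :=
    Pool.Agent.Helper114.Montel.deriv_ne_zero_of_injOn hP f hf hi hw
  have hc : ContDiffAt ℂ 1 f w := (hf.contDiffOn hP).contDiffAt (hP.mem_nhds hw)
  have hs : HasStrictDerivAt f (deriv f w) w := (hf.analyticAt (hP.mem_nhds hw)).hasStrictDerivAt
  have hse := hs.hasStrictFDerivAt_equiv h0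
  have hfe := hse.hasFDerivAt
  refine ⟨hse.localInverse f _ w, hse.localInverse_apply_image, ?_⟩
  have h1 : ContDiffAt ℂ 1 (hc.localInverse hfe (by norm_num)) (f w) :=
    hc.to_localInverse hfe (by norm_num)
  have h2 : ∀ᶠ c in 𝓝 (f w), ContDiffAt ℂ 1 (hc.localInverse hfe (by norm_num)) c :=
    h1.eventually (by norm_num)
  filter_upwards [h2, hse.eventually_right_inverse] with c h3 h4
  exact ⟨h3.differentiableAt (by norm_num), h4⟩

section
variable {J : Type} {τ r : ℝ} {A B : ℂ → ℂ → ℂ} {u : J → ℂ → ℂ → ℂ} {S : J → Set ℂ}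

/-- roots of `A t z = u j t w * B t z` along a family of parameters -/
theorem root
    (hA : DifferentiableOn ℂ (fun p : ℂ × ℂ => A p.1 p.2) (ball 0 τ ×ˢ univ))
    (hB : DifferentiableOn ℂ (fun p : ℂ × ℂ => B p.1 p.2) (ball 0 τ ×ˢ univ))
    (hu : ∀ j, DifferentiableOn ℂ (fun p : ℂ × ℂ => u j p.1 p.2) (ball 0 τ ×ˢ (ball 0 r \ {0})))
    (hP : ∀ K : Set ℂ, K ⊆ ball 0 τ → IsCompact K → ∀ M : ℝ, ∃ C : ℝ, ∀ t ∈ K, ∀ v z : ℂ, ‖v‖ ≤ M →
      ‖A t z - v * B t z‖ ≤ M → ‖z‖ ≤ C)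
    (hD : ∀ t ∈ ball (0 : ℂ) τ, ∀ j, ∀ w ∈ ball (0 : ℂ) r \ {0}, w ∉ S j → ∀ z,
      A t z = u j t w * B t z → deriv (A t) z ≠ u j t w * deriv (B t) z)
    (j : J) {V : Type} [NormedAddCommGroup V] [NormedSpace ℂ V] [FiniteDimensional ℂ V]
    {U : Set V} (hUo : IsOpen U) (hUc : Convex ℝ U) {T σ : V → ℂ} (hT : DifferentiableOn ℂ T U)
    (hσ : DifferentiableOn ℂ σ U) (hTm : ∀ s ∈ U, T s ∈ ball (0 : ℂ) τ)
    (hσm : ∀ s ∈ U, σ s ∈ ball (0 : ℂ) r \ {0}) (hσS : ∀ s ∈ U, σ s ∉ S j)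
    {s₀ : V} (hs₀ : s₀ ∈ U) {z : ℂ} (hz : A (T s₀) z = u j (T s₀) (σ s₀) * B (T s₀) z) :
    ∃ Z : V → ℂ, DifferentiableOn ℂ Z U ∧ Z s₀ = z ∧
      (∀ s ∈ U, A (T s) (Z s) = u j (T s) (σ s) * B (T s) (Z s)) ∧
      ∀ Z' : V → ℂ, ContinuousOn Z' U → (∃ s₁ ∈ U, Z' s₁ = Z s₁) →
        (∀ s ∈ U, A (T s) (Z' s) = u j (T s) (σ s) * B (T s) (Z' s)) →
        ∀ s ∈ U, Z' s = Z s := by
  have hud : DifferentiableOn ℂ (fun s => u j (T s) (σ s)) U :=
    (hu j).comp (hT.prodMk hσ) (fun s hs => ⟨hTm s hs, hσm s hs⟩)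
  set G : V → ℂ → ℂ := fun s z => A (T s) z - u j (T s) (σ s) * B (T s) z with hG
  have h1 : DifferentiableOn ℂ (fun p : V × ℂ => ((T p.1, p.2) : ℂ × ℂ)) (U ×ˢ univ) := by
    apply DifferentiableOn.prodMk _ differentiable_snd.differentiableOn
    exact hT.comp differentiable_fst.differentiableOn (fun p hp => hp.1)
  have hAd : DifferentiableOn ℂ (fun p : V × ℂ => A (T p.1) p.2) (U ×ˢ univ) :=
    hA.comp h1 (fun p hp => ⟨hTm _ hp.1, mem_univ _⟩)
  have hBd : DifferentiableOn ℂ (fun p : V × ℂ => B (T p.1) p.2) (U ×ˢ univ) :=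
    hB.comp h1 (fun p hp => ⟨hTm _ hp.1, mem_univ _⟩)
  have hGd : DifferentiableOn ℂ (fun p : V × ℂ => G p.1 p.2) (U ×ˢ univ) := by
    have h3 : DifferentiableOn ℂ (fun p : V × ℂ => u j (T p.1) (σ p.1)) (U ×ˢ univ) :=
      hud.comp differentiable_fst.differentiableOn (fun p hp => hp.1)
    exact hAd.sub (h3.mul hBd)
  have hGc : ContDiffOn ℂ 1 (fun p : V × ℂ => G p.1 p.2) (U ×ˢ univ) := by
    exact_mod_cast Pool.Agent.Helper540.contDiffOn_of_differentiableOn (hUo.prod isOpen_univ) hGd 1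
  have hAt : ∀ t ∈ ball (0 : ℂ) τ, ∀ z, DifferentiableAt ℂ (A t) z := by
    intro t ht z
    have e1 : DifferentiableAt ℂ (fun p : ℂ × ℂ => A p.1 p.2) (t, z) :=
      hA.differentiableAt ((isOpen_ball.prod isOpen_univ).mem_nhds ⟨ht, mem_univ _⟩)
    have e2 : DifferentiableAt ℂ (fun z : ℂ => ((t, z) : ℂ × ℂ)) z :=
      (differentiableAt_const t).prodMk differentiableAt_id
    exact e1.comp z e2
  have hBt : ∀ t ∈ ball (0 : ℂ) τ, ∀ z, DifferentiableAt ℂ (B t) z := by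
    intro t ht z
    have e1 : DifferentiableAt ℂ (fun p : ℂ × ℂ => B p.1 p.2) (t, z) :=
      hB.differentiableAt ((isOpen_ball.prod isOpen_univ).mem_nhds ⟨ht, mem_univ _⟩)
    have e2 : DifferentiableAt ℂ (fun z : ℂ => ((t, z) : ℂ × ℂ)) z :=
      (differentiableAt_const t).prodMk differentiableAt_id
    exact e1.comp z e2
  obtain ⟨Z, hZd, hZ0, hZr, hZu⟩ := Pool.Agent.H713R3.ZA.root_holds V U G hUo hUc hGc (by
    intro K hKU hK M
    obtain ⟨M', hM'⟩ := hK.exists_bound_of_continuousOn (hud.continuousOn.mono hKU)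
    obtain ⟨C, hC⟩ := hP (T '' K) (by rintro _ ⟨s, hs, rfl⟩; exact hTm s (hKU hs))
      (hK.image_of_continuousOn (hT.continuousOn.mono hKU)) (max M M')
    refine ⟨C, fun s hs z hz => ?_⟩
    exact hC (T s) ⟨s, hs, rfl⟩ (u j (T s) (σ s)) z ((hM' s hs).trans (le_max_right _ _))
      (hz.trans (le_max_left _ _))) (by
    intro s hs z hz
    have ht := hTm s hs
    have h1 : deriv (G s) z = deriv (A (T s)) z - u j (T s) (σ s) * deriv (B (T s)) z := by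
      have e1 := (hAt _ ht z).hasDerivAt
      have e2 := ((hBt _ ht z).hasDerivAt).const_mul (u j (T s) (σ s))
      exact (e1.sub e2).deriv
    rw [h1]
    exact sub_ne_zero.mpr (hD _ ht j _ (hσm s hs) (hσS s hs) z (sub_eq_zero.mp hz))) s₀ hs₀ z
    (by simp only [hG]; rw [hz, sub_self])
  refine ⟨Z, hZd, hZ0, fun s hs => sub_eq_zero.mp (hZr s hs), ?_⟩
  intro Z' h1 h2 h3
  exact hZu Z' h1 h2 (fun s hs => by simp only [hG]; rw [h3 s hs, sub_self])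

end

end MOT

theorem MOT : StMOT := by
  classical
  intro J _ τ r A B u S hτ hr hA hB hu hI hS hP hAB hD
  set W : Set ℂ := {z | ∃ j, ∃ w ∈ ball (0 : ℂ) r \ {0}, w ∉ S j ∧ A 0 z = u j 0 w * B 0 z} with hW
  rcases isEmpty_or_nonempty J with hJ | hJ
  · have hWe : W = ∅ := by
      rw [Set.eq_empty_iff_forall_notMem]
      rintro z ⟨j, -⟩
      exact hJ.elim j
    refine ⟨W, fun _ z => z, rfl, ?_, ?_, fun z _ => rfl, fun t _ z _ z' _ h => h,
      fun j => hJ.elim j⟩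
    · rw [hWe]; exact isOpen_empty
    · exact differentiable_snd.differentiableOn
  have hP0 : IsOpen (ball (0 : ℂ) r \ {0}) := isOpen_ball.sdiff (finite_singleton 0).isClosed
  have h0τ : (0 : ℂ) ∈ ball (0 : ℂ) τ := mem_ball_self hτ
  -- uniqueness of the label
  have huniq : ∀ t ∈ ball (0 : ℂ) τ, ∀ z, ∀ j j', ∀ w ∈ ball (0 : ℂ) r \ {0},
      ∀ w' ∈ ball (0 : ℂ) r \ {0}, A t z = u j t w * B t z → A t z = u j' t w' * B t z →
      j = j' ∧ w = w' := by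
    intro t ht z j j' w hw w' hw' h1 h2
    have hB0 : B t z ≠ 0 := by
      intro h
      apply hAB t ht z h
      rw [h1, h, mul_zero]
    apply hI t ht j j' w hw w' hw'
    exact mul_right_cancel₀ hB0 (h1.symm.trans h2)
  have hex : ∀ z ∈ W, ∃ j, ∃ w ∈ ball (0 : ℂ) r \ {0}, w ∉ S j ∧ A 0 z = u j 0 w * B 0 z :=
    fun z hz => hz
  choose! jj ww hww1 hww2 hww3 using hex
  have hlab : ∀ z ∈ W, ∀ j, ∀ w ∈ ball (0 : ℂ) r \ {0}, A 0 z = u j 0 w * B 0 z →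
      jj z = j ∧ ww z = w := fun z hz j w hw h =>
    huniq 0 h0τ z (jj z) j (ww z) (hww1 z hz) w hw (hww3 z hz) h
  -- local holomorphic choice of the label
  have hAt : ∀ z, DifferentiableAt ℂ (A 0) z := by
    intro z
    have e1 : DifferentiableAt ℂ (fun p : ℂ × ℂ => A p.1 p.2) (0, z) :=
      hA.differentiableAt ((isOpen_ball.prod isOpen_univ).mem_nhds ⟨h0τ, mem_univ _⟩)
    have e2 : DifferentiableAt ℂ (fun z : ℂ => ((0, z) : ℂ × ℂ)) z :=
      (differentiableAt_const _).prodMk differentiableAt_id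
    exact e1.comp z e2
  have hBt : ∀ z, DifferentiableAt ℂ (B 0) z := by
    intro z
    have e1 : DifferentiableAt ℂ (fun p : ℂ × ℂ => B p.1 p.2) (0, z) :=
      hB.differentiableAt ((isOpen_ball.prod isOpen_univ).mem_nhds ⟨h0τ, mem_univ _⟩)
    have e2 : DifferentiableAt ℂ (fun z : ℂ => ((0, z) : ℂ × ℂ)) z :=
      (differentiableAt_const _).prodMk differentiableAt_id
    exact e1.comp z e2
  have hloc : ∀ z₁ ∈ W, ∃ δ > 0, ∃ σ : ℂ → ℂ, DifferentiableOn ℂ σ (ball z₁ δ) ∧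
      ∀ z ∈ ball z₁ δ, σ z ∈ ball (0 : ℂ) r \ {0} ∧ σ z ∉ S (jj z₁) ∧
        A 0 z = u (jj z₁) 0 (σ z) * B 0 z := by
    intro z₁ hz₁
    set j := jj z₁ with hj
    set w₁ := ww z₁ with hw₁
    have hud : DifferentiableOn ℂ (u j 0) (ball (0 : ℂ) r \ {0}) := by
      exact (hu j).comp (f := fun w : ℂ => ((0, w) : ℂ × ℂ)) (by fun_prop)
        (fun w hw => ⟨h0τ, hw⟩)
    have hui : InjOn (u j 0) (ball (0 : ℂ) r \ {0}) := fun w hw w' hw' h =>
      (hI 0 h0τ j j w hw w' hw' h).2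
    obtain ⟨g, hg0, hg⟩ := MOT.locinv hP0 hud hui (hww1 z₁ hz₁)
    have hB0 : B 0 z₁ ≠ 0 := by
      intro h
      apply hAB 0 h0τ z₁ h
      rw [hww3 z₁ hz₁, h, mul_zero]
    set q : ℂ → ℂ := fun z => A 0 z / B 0 z with hq
    have hq1 : q z₁ = u j 0 w₁ := by
      simp only [hq]
      rw [hww3 z₁ hz₁, mul_div_assoc, div_self hB0, mul_one]
    have hBne : ∀ᶠ z in 𝓝 z₁, B 0 z ≠ 0 := (hBt z₁).continuousAt.eventually_ne hB0
    have hqc : ContinuousAt q z₁ := (hAt z₁).continuousAt.div (hBt z₁).continuousAt hB0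
    have hgq : ∀ᶠ z in 𝓝 z₁, DifferentiableAt ℂ g (q z) ∧ u j 0 (g (q z)) = q z := by
      have h1 := hqc.eventually (p := fun c => DifferentiableAt ℂ g c ∧ u j 0 (g c) = c)
        (by rw [hq1]; exact hg)
      exact h1
    have hgc : ContinuousAt (fun z => g (q z)) z₁ := by
      have h1 : ContinuousAt g (q z₁) := by
        rw [hq1]; exact hg.self_of_nhds.1.continuousAt
      exact ContinuousAt.comp (g := g) h1 hqc
    have hgq1 : g (q z₁) = w₁ := by rw [hq1]; exact hg0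
    have hopen : IsOpen ((ball (0 : ℂ) r \ {0}) \ S j) := hP0.sdiff (hS j).isClosed
    have hmem : ∀ᶠ z in 𝓝 z₁, g (q z) ∈ (ball (0 : ℂ) r \ {0}) \ S j := by
      apply hgc.eventually_mem
      apply hopen.mem_nhds
      show g (q z₁) ∈ (ball (0 : ℂ) r \ {0}) \ S j
      rw [hgq1]
      exact ⟨hww1 z₁ hz₁, hww2 z₁ hz₁⟩
    obtain ⟨δ, hδ, hball⟩ := Metric.eventually_nhds_iff_ball.mp ((hBne.and hgq).and hmem)
    refine ⟨δ, hδ, fun z => g (q z), ?_, ?_⟩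
    · intro z hz
      obtain ⟨⟨h1, h2⟩, h3⟩ := hball z hz
      apply DifferentiableAt.differentiableWithinAt
      have h4 : DifferentiableAt ℂ q z := (hAt z).div (hBt z) h1
      exact DifferentiableAt.comp z h2.1 h4
    · intro z hz
      obtain ⟨⟨h1, h2⟩, h3⟩ := hball z hz
      refine ⟨h3.1, h3.2, ?_⟩
      show A 0 z = u j 0 (g (q z)) * B 0 z
      rw [h2.2]
      simp only [hq]
      field_simp
  have hWo : IsOpen W := by
    rw [Metric.isOpen_iff]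
    intro z₁ hz₁
    obtain ⟨δ, hδ, σ, -, h⟩ := hloc z₁ hz₁
    exact ⟨δ, hδ, fun z hz => ⟨jj z₁, σ z, (h z hz).1, (h z hz).2.1, (h z hz).2.2⟩⟩
  -- the motion
  have h1 : ∀ z ∈ W, ∃ Z : ℂ → ℂ, DifferentiableOn ℂ Z (ball 0 τ) ∧ Z 0 = z ∧
      (∀ t ∈ ball (0 : ℂ) τ, A t (Z t) = u (jj z) t (ww z) * B t (Z t)) ∧
      ∀ Z' : ℂ → ℂ, ContinuousOn Z' (ball 0 τ) → (∃ s₁ ∈ ball (0 : ℂ) τ, Z' s₁ = Z s₁) →
        (∀ t ∈ ball (0 : ℂ) τ, A t (Z' t) = u (jj z) t (ww z) * B t (Z' t)) →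
        ∀ t ∈ ball (0 : ℂ) τ, Z' t = Z t := by
    intro z hz
    exact MOT.root hA hB hu hP hD (jj z) (V := ℂ) (U := ball 0 τ) (T := id) (σ := fun _ => ww z)
      isOpen_ball (convex_ball 0 τ) differentiableOn_id (differentiableOn_const _)
      (fun s hs => hs) (fun _ _ => hww1 z hz) (fun _ _ => hww2 z hz) h0τ (hww3 z hz)
  choose! Z hZd hZ0 hZr hZu using h1
  have hfin : ∀ j, ∀ w ∈ ball (0 : ℂ) r \ {0}, w ∉ S j → ∀ z, A 0 z = u j 0 w * B 0 z →
      z ∈ W ∧ jj z = j ∧ ww z = w := by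
    intro j w hw hwS z h
    have hz : z ∈ W := ⟨j, w, hw, hwS, h⟩
    exact ⟨hz, hlab z hz j w hw h⟩
  refine ⟨W, fun t z => Z z t, rfl, hWo, ?_, hZ0, ?_, ?_⟩
  · rintro ⟨t₁, z₁⟩ ⟨ht₁, hz₁⟩
    apply DifferentiableAt.differentiableWithinAt
    obtain ⟨δ, hδ, σ, hσd, hσ⟩ := hloc z₁ hz₁
    have hball : ball z₁ δ ⊆ W := fun z hz =>
      ⟨jj z₁, σ z, (hσ z hz).1, (hσ z hz).2.1, (hσ z hz).2.2⟩
    have hlabel : ∀ z ∈ ball z₁ δ, jj z = jj z₁ ∧ ww z = σ z := fun z hz =>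
      hlab z (hball hz) (jj z₁) (σ z) (hσ z hz).1 (hσ z hz).2.2
    have hU : IsOpen (ball (0 : ℂ) τ ×ˢ ball z₁ δ) := isOpen_ball.prod isOpen_ball
    obtain ⟨Y, hYd, hY0, hYr, hYu⟩ := MOT.root hA hB hu hP hD (jj z₁) (V := ℂ × ℂ)
      (U := ball (0 : ℂ) τ ×ˢ ball z₁ δ) (T := Prod.fst) (σ := fun p => σ p.2) hU
      ((convex_ball 0 τ).prod (convex_ball z₁ δ)) differentiable_fst.differentiableOn
      (hσd.comp differentiable_snd.differentiableOn (fun p hp => hp.2)) (fun s hs => hs.1)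
      (fun s hs => (hσ _ hs.2).1) (fun s hs => (hσ _ hs.2).2.1)
      (s₀ := (0, z₁)) ⟨h0τ, mem_ball_self hδ⟩ (hσ z₁ (mem_ball_self hδ)).2.2
    -- at time zero `Y` is the identity
    obtain ⟨Y₀, -, hY₀0, -, hY₀u⟩ := MOT.root hA hB hu hP hD (jj z₁) (V := ℂ)
      (U := ball z₁ δ) (T := fun _ => 0) (σ := σ) isOpen_ball
      (convex_ball z₁ δ) (differentiableOn_const 0)
      hσd (fun s hs => h0τ) (fun s hs => (hσ _ hs).1) (fun s hs => (hσ _ hs).2.1)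
      (s₀ := z₁) (mem_ball_self hδ) (hσ z₁ (mem_ball_self hδ)).2.2
    have hid : ∀ z ∈ ball z₁ δ, Y (0, z) = z := by
      have e0 : ∀ z ∈ ball z₁ δ, id z = Y₀ z := hY₀u id continuousOn_id
        ⟨z₁, mem_ball_self hδ, hY₀0.symm⟩ (fun z hz => (hσ z hz).2.2)
      have e1 : ∀ z ∈ ball z₁ δ, (fun z => Y (0, z)) z = Y₀ z := by
        apply hY₀u
        · exact hYd.continuousOn.comp (by fun_prop) (fun z hz => ⟨h0τ, hz⟩)
        · exact ⟨z₁, mem_ball_self hδ, by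
            have := e0 z₁ (mem_ball_self hδ)
            simp only [id] at this
            rw [← this]; exact hY0⟩
        · intro z hz
          exact hYr (0, z) ⟨h0τ, hz⟩
      intro z hz
      have := (e1 z hz).trans (e0 z hz).symm
      simpa using this
    have heq : ∀ p ∈ ball (0 : ℂ) τ ×ˢ ball z₁ δ, Y p = Z p.2 p.1 := by
      rintro ⟨t, z⟩ ⟨ht, hz⟩
      have hzW := hball hz
      refine hZu z hzW (fun t => Y (t, z)) ?_ ⟨0, h0τ, ?_⟩ ?_ t ht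
      · exact hYd.continuousOn.comp (by fun_prop) (fun t ht => ⟨ht, hz⟩)
      · rw [hid z hz, hZ0 z hzW]
      · intro t ht
        rw [(hlabel z hz).1, (hlabel z hz).2]
        exact hYr (t, z) ⟨ht, hz⟩
    have hmem : ((t₁, z₁) : ℂ × ℂ) ∈ ball (0 : ℂ) τ ×ˢ ball z₁ δ := ⟨ht₁, mem_ball_self hδ⟩
    refine (hYd.differentiableAt (hU.mem_nhds hmem)).congr_of_eventuallyEq ?_
    filter_upwards [hU.mem_nhds hmem] with p hp
    exact (heq p hp).symm
  · intro t ht z hz z' hz' h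
    simp only at h
    have e1 := hZr z hz t ht
    have e2 := hZr z' hz' t ht
    rw [← h] at e2
    obtain ⟨e3, e4⟩ := huniq t ht (Z z t) _ _ _ (hww1 z hz) _ (hww1 z' hz') e1 e2
    have e5 := hZu z hz (Z z') ((hZd z' hz').continuousOn) ⟨t, ht, h.symm⟩
      (fun s hs => by rw [e3, e4]; exact hZr z' hz' s hs) 0 h0τ
    rw [hZ0 z hz, hZ0 z' hz'] at e5
    exact e5.symm
  · intro j w hw hwS z h
    obtain ⟨hz, hj, hw'⟩ := hfin j w hw hwS z h
    subst hj hw'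
    exact ⟨fun t ht => hZr z hz t ht, fun Z' h2 h3 h4 => hZu z hz Z' h2 h3 h4⟩

end Pool.Agent.H790R3.RB
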