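import Mathlib
import Pool.Agent.H790R3.RB.St3
import Pool.Agent.H790R3.RB.Basic

/-! Existence of the motion (task MS). -/

set_option autoImplicit false

open Topology Filter Metric Set MeasureTheory

namespace Pool.Agent.H790R3.RB

namespace MS

variable {d n s : ℕ} {S : Sys d n s} {KK : Option (Fin s) → (Fin n → ℂ) × (ℂ × ℂ) → ℂ}
  {r : ℝ} {N : Set (Fin n → ℂ)} {ω : Option (Fin s) → (Fin n → ℂ) × ℂ → ℂ} {Nt : ℕ}
  {r₂ τ : ℝ} {x : ℂ → (Fin n → ℂ)} {κ : Option (Fin s) → ℂ → ℂ}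
  {Sx : Option (Fin s) → ℕ → Set ℂ}

theorem xU (D : DD S KK r N ω Nt r₂ τ x κ Sx) {t : ℂ} (ht : t ∈ ball (0 : ℂ) τ) :
    x t ∈ ball S.xT S.ρ := D.lin.NU (D.dsc.xN t ht)

theorem kr (D : DD S KK r N ω Nt r₂ τ x κ Sx) {t : ℂ} (ht : t ∈ ball (0 : ℂ) τ)
    (k : Option (Fin s)) {w : ℂ} (hw : ‖w‖ < r₂) : ‖κ k t * w‖ < r := by
  rw [norm_mul]
  exact lt_of_le_of_lt (mul_le_mul_of_nonneg_left hw.le (norm_nonneg _)) (D.dsc.κr k t ht)

theorem F_ne (D : DD S KK r N ω Nt r₂ τ x κ Sx) {t : ℂ} (ht : t ∈ ball (0 : ℂ) τ) (z : ℂ)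
    (m : ℕ) : (S.F (x t))^[m] (z, 1) ≠ 0 := by
  have h := (S.nd (x t) (xU D ht)).iter_ne m (p := (z, 1))
    (fun h => one_ne_zero (congrArg Prod.snd h : (1 : ℂ) = 0))
  exact h

theorem cod (D : DD S KK r N ω Nt r₂ τ x κ Sx) :
    DifferentiableOn ℂ (fun t => S.co (x t)) (ball 0 τ) :=
  S.hco.comp D.dsc.xd (fun _ ht => xU D ht)

theorem FNd (D : DD S KK r N ω Nt r₂ τ x κ Sx) :
    DifferentiableOn ℂ (fun p : ℂ × ℂ => (S.F (x p.1))^[Nt] (p.2, 1)) (ball 0 τ ×ˢ univ) := by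
  have h1 : DifferentiableOn ℂ (fun p : ℂ × ℂ => S.co (x p.1)) (ball 0 τ ×ˢ univ) :=
    (cod D).comp differentiableOn_fst (fun p hp => hp.1)
  have h2 : DifferentiableOn ℂ (fun p : ℂ × ℂ => (S.co (x p.1), ((p.2, 1) : ℂ × ℂ)))
      (ball 0 τ ×ˢ univ) :=
    h1.prodMk (differentiableOn_snd.prodMk (differentiableOn_const _))
  exact (hF_iter_differentiable d Nt).comp_differentiableOn h2

theorem ptd (D : DD S KK r N ω Nt r₂ τ x κ Sx) (k : Option (Fin s)) (l : ℕ) :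
    DifferentiableOn ℂ (fun p : ℂ × ℂ => S.pt ω k l (x p.1) (κ k p.1 * p.2))
      (ball 0 τ ×ˢ ball 0 r₂) := by
  have hx : DifferentiableOn ℂ (fun p : ℂ × ℂ => x p.1) (ball 0 τ ×ˢ ball 0 r₂) :=
    D.dsc.xd.comp differentiableOn_fst (fun p hp => hp.1)
  have h1 : DifferentiableOn ℂ (fun p : ℂ × ℂ => S.co (x p.1)) (ball 0 τ ×ˢ ball 0 r₂) :=
    (cod D).comp differentiableOn_fst (fun p hp => hp.1)
  have hk : DifferentiableOn ℂ (fun p : ℂ × ℂ => κ k p.1 * p.2) (ball 0 τ ×ˢ ball 0 r₂) :=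
    ((D.dsc.κd k).comp differentiableOn_fst (fun p hp => hp.1)).mul differentiableOn_snd
  have hω : DifferentiableOn ℂ (fun p : ℂ × ℂ => ω k (x p.1, κ k p.1 * p.2))
      (ball 0 τ ×ˢ ball 0 r₂) := by
    refine (D.lin.ωd k).comp (hx.prodMk hk) ?_
    rintro ⟨t, w⟩ ⟨ht, hw⟩
    exact ⟨D.dsc.xN t ht, mem_ball_zero_iff.mpr (kr D ht k (mem_ball_zero_iff.mp hw))⟩
  have hch : DifferentiableOn ℂ (fun p : ℂ × ℂ => S.cht k (x p.1) (ω k (x p.1, κ k p.1 * p.2)))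
      (ball 0 τ ×ˢ ball 0 r₂) := by
    cases k with
    | none => exact (differentiableOn_const (1 : ℂ)).prodMk hω
    | some k =>
      have hb : DifferentiableOn ℂ (fun p : ℂ × ℂ => S.b k (x p.1)) (ball 0 τ ×ˢ ball 0 r₂) :=
        (S.hb k).comp hx (fun p hp => xU D hp.1)
      exact (hb.add hω).prodMk (differentiableOn_const (1 : ℂ))
  exact (hF_iter_differentiable d l).comp_differentiableOn (h1.prodMk hch)

theorem inf_iter {x₁ : Fin n → ℂ} (hx : x₁ ∈ ball S.xT S.ρ) (j : ℕ) :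
    ∃ a : ℂ, a ≠ 0 ∧ (hF (S.co x₁))^[S.per none * j] (1, 0) = a • ((1, 0) : ℂ × ℂ) := by
  induction j with
  | zero => exact ⟨1, one_ne_zero, by simp⟩
  | succ j ih =>
    obtain ⟨a, ha, h⟩ := ih
    obtain ⟨b, z', hb, hz', h'⟩ := S.contr x₁ hx none 0 (by simpa using S.hr₀)
    have hz0 : z' = 0 := by
      rw [norm_zero, mul_zero] at hz'
      exact norm_le_zero_iff.mp hz'
    rw [hz0] at h'
    have h'' : (hF (S.co x₁))^[S.per none] (1, 0) = b • ((1, 0) : ℂ × ℂ) := h'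
    refine ⟨a ^ (d ^ S.per none) * b, mul_ne_zero (pow_ne_zero _ ha) hb, ?_⟩
    rw [Nat.mul_succ, Nat.add_comm, Function.iterate_add_apply, h, hF_iter_smul, h'', smul_smul]

end MS

theorem MS (hMOT : StMOT) (hCHAIN : StCHAIN) (hPROP : StPROP) (hORB : StORB) : StMS := by
  intro d n s S KK r N ω Nt r₂ τ x κ Sx D
  -- second coordinates of the linearised points
  have hP2 : ∀ t ∈ ball (0 : ℂ) τ, ∀ k, ∀ l < S.per k, ∀ w : ℂ, w ≠ 0 → ‖w‖ < r₂ →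
      (S.pt ω k l (x t) (κ k t * w)).2 ≠ 0 := by
    intro t ht k l hl w hw0 hw
    obtain ⟨-, -, -, h4⟩ := hORB d n s S KK r N ω D.koe D.lin (x t) (D.dsc.xN t ht) k k
      (κ k t * w) (κ k t * w) (MS.kr D ht k hw) (MS.kr D ht k hw) l l
    exact h4 hl (Or.inr (Or.inr (mul_ne_zero (D.dsc.κ0 k t ht) hw0)))
  have hAd : ∀ t ∈ ball (0 : ℂ) τ, ∀ k, ∀ l < S.per k, ∀ w : ℂ, w ≠ 0 → ‖w‖ < r₂ → ∀ z : ℂ,
      (Ad S ω Nt x κ t k l w z ↔ ((S.F (x t))^[Nt] (z, 1)).1 =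
        (S.pt ω k l (x t) (κ k t * w)).1 / (S.pt ω k l (x t) (κ k t * w)).2 *
          ((S.F (x t))^[Nt] (z, 1)).2) := by
    intro t ht k l hl w hw0 hw z
    have h2 := hP2 t ht k l hl w hw0 hw
    unfold Ad cr
    rw [sub_eq_zero, div_mul_eq_mul_div, eq_div_iff h2, mul_comm ((S.F (x t))^[Nt] (z, 1)).2]
  obtain ⟨W, Φ, hW, hWo, hΦd, hΦ0, hΦi, hΦ⟩ := hMOT
    (Sigma (fun k : Option (Fin s) => Fin (S.per k))) τ r₂
    (fun t z => ((S.F (x t))^[Nt] (z, 1)).1) (fun t z => ((S.F (x t))^[Nt] (z, 1)).2)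
    (fun j t w => (S.pt ω j.1 j.2 (x t) (κ j.1 t * w)).1 /
      (S.pt ω j.1 j.2 (x t) (κ j.1 t * w)).2)
    (fun j => Sx j.1 j.2) D.dsc.hτ D.hr₂ (MS.FNd D).fst (MS.FNd D).snd
    (by
      rintro ⟨k, l⟩
      have hs : (ball (0 : ℂ) τ ×ˢ (ball (0 : ℂ) r₂ \ {0})) ⊆ ball (0 : ℂ) τ ×ˢ ball (0 : ℂ) r₂ :=
        prod_mono_right sdiff_subset
      have h1 := (MS.ptd D k l).mono hs
      simp only [div_eq_mul_inv]
      refine DifferentiableOn.mul h1.fst (DifferentiableOn.inv h1.snd ?_)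
      rintro ⟨t, w⟩ ⟨ht, hw, hw0⟩
      exact hP2 t ht k l l.2 w hw0 (mem_ball_zero_iff.mp hw))
    (by
      rintro t ht ⟨k, l⟩ ⟨k', l'⟩ w ⟨hw, hw0⟩ w' ⟨hw', hw0'⟩ h
      have hw := mem_ball_zero_iff.mp hw
      have hw' := mem_ball_zero_iff.mp hw'
      have h1 := hP2 t ht k l l.2 w hw0 hw
      have h2 := hP2 t ht k' l' l'.2 w' hw0' hw'
      obtain ⟨-, -, h3, -⟩ := hORB d n s S KK r N ω D.koe D.lin (x t) (D.dsc.xN t ht) k k'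
        (κ k t * w) (κ k' t * w') (MS.kr D ht k hw) (MS.kr D ht k' hw') l l'
      have h' : (S.pt ω k l (x t) (κ k t * w)).1 / (S.pt ω k l (x t) (κ k t * w)).2 =
        (S.pt ω k' l' (x t) (κ k' t * w')).1 / (S.pt ω k' l' (x t) (κ k' t * w')).2 := h
      rw [div_eq_div_iff h1 h2] at h'
      obtain ⟨h4, h5, h6⟩ := h3 (by unfold cr; rw [h']; ring)
      subst h4
      rw [Nat.mod_eq_of_lt l.2, Nat.mod_eq_of_lt l'.2] at h5
      have h7 : l = l' := Fin.ext h5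
      subst h7
      rw [Nat.div_eq_of_lt l.2] at h6
      rw [pow_zero, one_mul, one_mul] at h6
      exact ⟨rfl, mul_left_cancel₀ (D.dsc.κ0 k t ht) h6⟩)
    (fun j => D.fin _ _)
    (by
      intro K hK hKc M
      obtain ⟨j, hj⟩ := D.div none
      obtain ⟨C, hC⟩ := hPROP d Nt ((fun t => S.co (x t)) '' K) (by have := S.hd; omega)
        (hKc.image_of_continuousOn ((MS.cod D).continuousOn.mono hK)) (by
          rintro _ ⟨t, ht, rfl⟩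
          obtain ⟨a, ha, h⟩ := MS.inf_iter (S := S) (MS.xU D (hK ht)) j
          rw [← hj] at h
          show ((hF (S.co (x t)))^[Nt] (1, 0)).1 ≠ 0 ∧ ((hF (S.co (x t)))^[Nt] (1, 0)).2 = 0
          rw [h]
          exact ⟨by simpa using ha, by simp⟩) M
      refine ⟨C, fun t ht v z hv h => hC _ ⟨t, ht, rfl⟩ v z hv h⟩)
    (by
      intro t ht z hB hA
      exact MS.F_ne D ht z Nt (Prod.ext hA hB))
    (by
      rintro t ht ⟨k, l⟩ w ⟨hw, hw0⟩ hwS z hz hdz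
      have hw := mem_ball_zero_iff.mp hw
      obtain ⟨m, hm, hwr⟩ := hCHAIN d (S.co (x t)) Nt z _ S.hd hz hdz
      refine hwS (D.exc t ht ((S.F (x t))^[m] (z, 1)) (MS.F_ne D ht z m) hwr (Nt - m)
        (Nat.sub_le _ _) k l l.2 w hw0 hw ?_)
      rw [← Function.iterate_add_apply, Nat.sub_add_cancel hm.le]
      exact (hAd t ht k l l.2 w hw0 hw z).mpr hz)
  have h0 : (0 : ℂ) ∈ ball (0 : ℂ) τ := mem_ball_self D.dsc.hτ
  refine ⟨W, Φ, hWo, ?_, hΦd, hΦ0, hΦi, ?_, ?_⟩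
  · intro ζ
    rw [hW]
    constructor
    · rintro ⟨⟨k, l⟩, w, ⟨hw, hw0⟩, hwS, h⟩
      have hw := mem_ball_zero_iff.mp hw
      exact ⟨k, l, l.2, w, hw0, hw, hwS, (hAd 0 h0 k l l.2 w hw0 hw ζ).mpr h⟩
    · rintro ⟨k, l, hl, w, hw0, hw, hwS, h⟩
      exact ⟨⟨k, ⟨l, hl⟩⟩, w, ⟨mem_ball_zero_iff.mpr hw, hw0⟩, hwS,
        (hAd 0 h0 k l hl w hw0 hw ζ).mp h⟩
  · intro k l hl w hw0 hw hwS ζ h t ht
    have h1 := (hΦ ⟨k, ⟨l, hl⟩⟩ w ⟨mem_ball_zero_iff.mpr hw, hw0⟩ hwS ζ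
      ((hAd 0 h0 k l hl w hw0 hw ζ).mp h)).1 t ht
    exact (hAd t ht k l hl w hw0 hw _).mpr h1
  · intro k l hl w hw0 hw hwS ζ h Z' hZc hZ1 hZ t ht
    exact (hΦ ⟨k, ⟨l, hl⟩⟩ w ⟨mem_ball_zero_iff.mpr hw, hw0⟩ hwS ζ
      ((hAd 0 h0 k l hl w hw0 hw ζ).mp h)).2 Z' hZc hZ1
      (fun t ht => (hAd t ht k l hl w hw0 hw _).mp (hZ t ht)) t ht

end Pool.Agent.H790R3.RB
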