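import Mathlib
import Pool.Agent.H790R3.RB.St3

/-! NU: the other critical points are not attracted (helper152) -/

set_option autoImplicit false

open Topology Filter Metric Set MeasureTheory

namespace Pool.Agent.H790R3.RB

theorem NU (hLA : StLA) : StNU := by
  intro d n s l S KK e A ks ls R y hgood hmax i hi k m hInC
  obtain ⟨hadm, sel, col, hdet⟩ := hgood
  have hcard : A.card < (insert i A).card := by
    rw [Finset.card_insert_of_notMem hi]
    exact Nat.lt_succ_self _
  refine hmax (insert i A) (Function.update ks i k) (Function.update ls i (m % S.per k)) hcard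
    ⟨⟨hadm.xU, hadm.lam0, hadm.kap0, hadm.crit, ?_, ?_⟩, ?_⟩
  · intro i' hi'
    by_cases h : i' = i
    · subst h
      rw [Function.update_self, Function.update_self]
      exact Nat.mod_lt _ (S.hper k)
    · rw [Function.update_of_ne h, Function.update_of_ne h]
      exact hadm.lsp i' ((Finset.mem_insert.1 hi').resolve_left h)
  · intro i' hi'
    by_cases h : i' = i
    · subst h
      rw [Function.update_self, Function.update_self]
      refine ⟨hadm.xU, hadm.lam0 k, m / S.per k, ?_⟩
      rw [← Function.iterate_add_apply, Nat.div_add_mod]
      exact hInC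
    · rw [Function.update_of_ne h, Function.update_of_ne h]
      exact hadm.att i' ((Finset.mem_insert.1 hi').resolve_left h)
  · obtain ⟨col', hcol'⟩ := hLA (Ix d n s) (Fin (2 * d - 2)) (Fin R)
      (fun j c => fderiv ℂ (S.Er j) y (Pi.single c 1))
      (fun i c => fderiv ℂ (S.Gr KK e A ks ls (sel i)) y (Pi.single c 1)) col (by
        convert hdet using 2
        ext a c
        rcases a with a | a <;> rfl)
    refine ⟨fun a => a.elim0, Sum.elim col' (fun a => a.elim0), ?_⟩
    have e1 : S.Mx KK e (insert i A) (Function.update ks i k)
        (Function.update ls i (m % S.per k)) (fun a : Fin 0 => a.elim0)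
        (Sum.elim col' (fun a => a.elim0)) y =
        (Matrix.of fun j c : Fin (2 * d - 2) =>
          fderiv ℂ (S.Er j) y (Pi.single (col' c) 1)).submatrix
          (Equiv.sumEmpty (Fin (2 * d - 2)) (Fin 0)) (Equiv.sumEmpty (Fin (2 * d - 2)) (Fin 0)) := by
      ext a c
      rcases a with a | a
      · rcases c with c | c
        · rfl
        · exact c.elim0
      · exact a.elim0
    rw [e1, Matrix.det_submatrix_equiv_self]
    exact hcol'

end Pool.Agent.H790R3.RB
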