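import Mathlib
import Pool.Agent.H790R3.RB.St
import Pool.Agent.H790R3.RB.Basic

/-! Task WR (helper601): homogeneity, polynomial form and determinant formula for the Jacobian. -/

set_option autoImplicit false

open Topology Filter Metric Set MeasureTheory

namespace Pool.Agent.H790R3.RB

namespace WR

/-- `∂/∂u` of a binary form -/
noncomputable def SU {d : ℕ} (c : Fin (d + 1) → ℂ) (p : ℂ × ℂ) : ℂ :=
  ∑ j : Fin (d + 1), c j * (((j : ℕ) : ℂ) * p.1 ^ ((j : ℕ) - 1) * p.2 ^ (d - (j : ℕ)))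

/-- `∂/∂v` of a binary form -/
noncomputable def SV {d : ℕ} (c : Fin (d + 1) → ℂ) (p : ℂ × ℂ) : ℂ :=
  ∑ j : Fin (d + 1), c j * (((d - (j : ℕ) : ℕ) : ℂ) * p.1 ^ (j : ℕ) * p.2 ^ (d - (j : ℕ) - 1))

theorem wr_eq {d : ℕ} (x : CV d) (p : ℂ × ℂ) : wr x p =
    SU (fun j => x (0, j)) p * SV (fun j => x (1, j)) p -
      SV (fun j => x (0, j)) p * SU (fun j => x (1, j)) p := rfl

theorem SU_smul {d : ℕ} (c : Fin (d + 1) → ℂ) (a : ℂ) (p : ℂ × ℂ) :
    SU c (a • p) = a ^ (d - 1) * SU c p := by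
  unfold SU
  rw [Finset.mul_sum]
  refine Finset.sum_congr rfl fun j _ => ?_
  rcases Nat.eq_zero_or_pos (j : ℕ) with h | h
  · rw [h]
    simp
  · have h1 : ((j : ℕ) - 1) + (d - (j : ℕ)) = d - 1 := by
      have := j.2
      omega
    simp only [Prod.smul_fst, Prod.smul_snd, smul_eq_mul, mul_pow]
    rw [← h1, pow_add]
    ring

theorem SV_smul {d : ℕ} (c : Fin (d + 1) → ℂ) (a : ℂ) (p : ℂ × ℂ) :
    SV c (a • p) = a ^ (d - 1) * SV c p := by
  unfold SV
  rw [Finset.mul_sum]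
  refine Finset.sum_congr rfl fun j _ => ?_
  rcases Nat.eq_zero_or_pos (d - (j : ℕ)) with h | h
  · rw [h]
    simp
  · have h1 : (j : ℕ) + (d - (j : ℕ) - 1) = d - 1 := by
      have := j.2
      omega
    simp only [Prod.smul_fst, Prod.smul_snd, smul_eq_mul, mul_pow]
    rw [← h1, pow_add]
    ring

/-- `SU` as a polynomial -/
noncomputable def WU {d : ℕ} (c : Fin (d + 1) → ℂ) : Polynomial ℂ :=
  ∑ j : Fin (d + 1), Polynomial.C (c j * ((j : ℕ) : ℂ)) * Polynomial.X ^ ((j : ℕ) - 1)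

/-- `SV` as a polynomial -/
noncomputable def WV {d : ℕ} (c : Fin (d + 1) → ℂ) : Polynomial ℂ :=
  ∑ j : Fin (d + 1), Polynomial.C (c j * ((d - (j : ℕ) : ℕ) : ℂ)) * Polynomial.X ^ (j : ℕ)

theorem WU_eval {d : ℕ} (c : Fin (d + 1) → ℂ) (ζ : ℂ) : (WU c).eval ζ = SU c (ζ, 1) := by
  unfold WU SU
  rw [Polynomial.eval_finsetSum]
  refine Finset.sum_congr rfl fun j _ => ?_
  simp only [Polynomial.eval_mul, Polynomial.eval_C, Polynomial.eval_pow, Polynomial.eval_X,
    one_pow, mul_one]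
  ring

theorem WV_eval {d : ℕ} (c : Fin (d + 1) → ℂ) (ζ : ℂ) : (WV c).eval ζ = SV c (ζ, 1) := by
  unfold WV SV
  rw [Polynomial.eval_finsetSum]
  refine Finset.sum_congr rfl fun j _ => ?_
  simp only [Polynomial.eval_mul, Polynomial.eval_C, Polynomial.eval_pow, Polynomial.eval_X,
    one_pow, mul_one]
  ring

theorem WU_deg {d : ℕ} (c : Fin (d + 1) → ℂ) : (WU c).natDegree ≤ d - 1 := by
  unfold WU
  apply Polynomial.natDegree_sum_le_of_forall_le
  intro j _
  refine (Polynomial.natDegree_C_mul_X_pow_le _ _).trans ?_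
  have := j.2
  omega

theorem WV_deg {d : ℕ} (c : Fin (d + 1) → ℂ) : (WV c).natDegree ≤ d - 1 := by
  unfold WV
  apply Polynomial.natDegree_sum_le_of_forall_le
  intro j _
  rcases Nat.eq_zero_or_pos (d - (j : ℕ)) with h | h
  · rw [h]
    simp
  · refine (Polynomial.natDegree_C_mul_X_pow_le _ _).trans ?_
    omega

theorem WU_coeff {d : ℕ} (hd : 2 ≤ d) (c : Fin (d + 1) → ℂ) :
    (WU c).coeff (d - 1) = SU c (1, 0) := by
  unfold WU SU
  rw [Polynomial.finsetSum_coeff]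
  refine Finset.sum_congr rfl fun j _ => ?_
  rw [Polynomial.coeff_C_mul_X_pow]
  have hj := j.2
  by_cases h : (j : ℕ) = d
  · rw [h]
    simp
  · have h1 : d - 1 ≠ (j : ℕ) - 1 := by omega
    have h2 : d - (j : ℕ) ≠ 0 := by omega
    rw [if_neg h1, zero_pow h2]
    simp

theorem WV_coeff {d : ℕ} (hd : 2 ≤ d) (c : Fin (d + 1) → ℂ) :
    (WV c).coeff (d - 1) = SV c (1, 0) := by
  unfold WV SV
  rw [Polynomial.finsetSum_coeff]
  refine Finset.sum_congr rfl fun j _ => ?_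
  rw [Polynomial.coeff_C_mul_X_pow]
  have hj := j.2
  by_cases h : (j : ℕ) = d
  · rw [h]
    simp
  · by_cases h1 : d - 1 = (j : ℕ)
    · have h2 : d - (j : ℕ) - 1 = 0 := by omega
      rw [if_pos h1, h2]
      simp
    · have h2 : d - (j : ℕ) - 1 ≠ 0 := by omega
      rw [if_neg h1, zero_pow h2]
      simp

theorem hasFDerivAt_form {d : ℕ} (c : Fin (d + 1) → ℂ) (p : ℂ × ℂ) :
    HasFDerivAt (fun q : ℂ × ℂ => ∑ j : Fin (d + 1), c j * (q.1 ^ (j : ℕ) * q.2 ^ (d - (j : ℕ))))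
      (SU c p • ContinuousLinearMap.fst ℂ ℂ ℂ + SV c p • ContinuousLinearMap.snd ℂ ℂ ℂ) p := by
  have h : ∀ j : Fin (d + 1), HasFDerivAt
      (fun q : ℂ × ℂ => c j * (q.1 ^ (j : ℕ) * q.2 ^ (d - (j : ℕ))))
      ((c j * (((j : ℕ) : ℂ) * p.1 ^ ((j : ℕ) - 1) * p.2 ^ (d - (j : ℕ)))) •
          ContinuousLinearMap.fst ℂ ℂ ℂ +
        (c j * (((d - (j : ℕ) : ℕ) : ℂ) * p.1 ^ (j : ℕ) * p.2 ^ (d - (j : ℕ) - 1))) •
          ContinuousLinearMap.snd ℂ ℂ ℂ) p := by
    intro j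
    have h1 : HasFDerivAt (fun q : ℂ × ℂ => q.1) (ContinuousLinearMap.fst ℂ ℂ ℂ) p :=
      hasFDerivAt_fst
    have h2 : HasFDerivAt (fun q : ℂ × ℂ => q.2) (ContinuousLinearMap.snd ℂ ℂ ℂ) p :=
      hasFDerivAt_snd
    have h3 := ((h1.pow (j : ℕ)).mul (h2.pow (d - (j : ℕ)))).const_mul (c j)
    refine h3.congr_fderiv ?_
    ext
    all_goals
      simp only [_root_.smul_apply, _root_.add_apply,
        ContinuousLinearMap.comp_apply, ContinuousLinearMap.inl_apply,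
        ContinuousLinearMap.inr_apply, ContinuousLinearMap.coe_fst',
        ContinuousLinearMap.coe_snd', smul_eq_mul, nsmul_eq_mul, mul_one, mul_zero, add_zero,
        zero_add]
      ring
  have h4 := HasFDerivAt.fun_sum (u := Finset.univ) (fun j _ => h j)
  refine h4.congr_fderiv ?_
  rw [Finset.sum_add_distrib, ← Finset.sum_smul, ← Finset.sum_smul]
  rfl

theorem fderiv_hF {d : ℕ} (x : CV d) (p v : ℂ × ℂ) : fderiv ℂ (hF x) p v =
    (SU (fun j => x (0, j)) p * v.1 + SV (fun j => x (0, j)) p * v.2,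
     SU (fun j => x (1, j)) p * v.1 + SV (fun j => x (1, j)) p * v.2) := by
  have h := (hasFDerivAt_form (fun j => x (0, j)) p).prodMk
    (hasFDerivAt_form (fun j => x (1, j)) p)
  have h2 : HasFDerivAt (hF x) _ p := h
  rw [h2.fderiv]
  rfl

end WR

open WR in
theorem WR : StWR := by
  intro d x hd
  refine ⟨?_, ?_, ?_⟩
  · intro a p
    rw [wr_eq, wr_eq, SU_smul, SU_smul, SV_smul, SV_smul]
    have h : 2 * d - 2 = (d - 1) + (d - 1) := by omega
    rw [h, pow_add]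
    ring
  · refine ⟨WU (fun j => x (0, j)) * WV (fun j => x (1, j)) -
      WV (fun j => x (0, j)) * WU (fun j => x (1, j)), ?_, ?_, ?_⟩
    · have h : 2 * d - 2 = (d - 1) + (d - 1) := by omega
      rw [h]
      refine (Polynomial.natDegree_sub_le _ _).trans (max_le ?_ ?_)
      · exact Polynomial.natDegree_mul_le_of_le (WU_deg _) (WV_deg _)
      · exact Polynomial.natDegree_mul_le_of_le (WV_deg _) (WU_deg _)
    · intro ζ
      rw [Polynomial.eval_sub, Polynomial.eval_mul, Polynomial.eval_mul, WU_eval, WV_eval,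
        WU_eval, WV_eval, wr_eq]
    · have h : 2 * d - 2 = (d - 1) + (d - 1) := by omega
      rw [h, Polynomial.coeff_sub, Polynomial.coeff_mul_add_eq_of_natDegree_le (WU_deg _) (WV_deg _),
        Polynomial.coeff_mul_add_eq_of_natDegree_le (WV_deg _) (WU_deg _), WU_coeff hd, WV_coeff hd,
        WU_coeff hd, WV_coeff hd, wr_eq]
  · intro p v w
    rw [fderiv_hF, fderiv_hF, wr_eq]
    unfold cr
    ring

end Pool.Agent.H790R3.RB
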