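import Mathlib
import Pool.Agent.H790R3.RB.St2
import Pool.Agent.H790R3.RB.Basic

/-! Task ONE (helper666): every marked cycle attracts a critical point. -/

set_option autoImplicit false

open Topology Filter Metric Set MeasureTheory

namespace Pool.Agent.H790R3.RB

theorem ONE (hFAT : StFAT) (hLAM : StLAM) (hKOE : StKOE) (hLIN : StLIN) : StONE := by
  intro d n s S x hx hlam k
  by_contra hcon
  push Not at hcon
  obtain ⟨KK, hKK⟩ := hKOE d n s S
  obtain ⟨N, r, ω, hKN, hL⟩ := hLIN d n s S KK hKK {x} isCompact_singleton (by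
    intro y hy
    rw [mem_singleton_iff] at hy
    subst hy
    exact ⟨hx, hlam⟩)
  have hxN : x ∈ N := hKN rfl
  have hr := hL.hr
  obtain ⟨-, -, hLAMb, -, -, -⟩ := hLAM d n s S
  have hlt : ‖S.lam (some k) x‖ < 1 := lt_of_le_of_lt (hLAMb (some k) x hx) S.hθ
  set ψ : ℂ → ℂ := fun w => S.b k x + ω (some k) (x, w) with hψ
  have hcht : ∀ w : ℂ, (ψ w, (1 : ℂ)) = S.cht (some k) x (ω (some k) (x, w)) := fun w => rfl
  have hωd : DifferentiableOn ℂ (fun w : ℂ => ω (some k) (x, w)) (ball 0 r) := by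
    refine (hL.ωd (some k)).comp
      ((differentiable_const x).prodMk differentiable_id).differentiableOn ?_
    intro w hw
    exact ⟨hxN, hw⟩
  have hψd : DifferentiableOn ℂ ψ (ball 0 r) := hωd.const_add _
  have hinj : InjOn ψ (ball 0 r) := by
    intro w hw w' hw' h
    have h1 : ω (some k) (x, w) = ω (some k) (x, w') := by
      simpa [hψ] using h
    have e1 := (hL.ωr (some k) x hxN w (by simpa using hw)).2
    have e2 := (hL.ωr (some k) x hxN w' (by simpa using hw')).2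
    rw [← e1, ← e2, h1]
  have hnd : ND (S.co x) := S.nd x hx
  have hfe : ∀ w ∈ ball (0 : ℂ) r, cr ((hF (S.co x))^[S.per (some k)] (ψ w, 1))
      (ψ (S.lam (some k) x * w), 1) = 0 := by
    intro w hw
    obtain ⟨a, -, h1⟩ := hL.fe (some k) x hxN w (by simpa using hw)
    rw [hcht, hcht]
    have h2 : (hF (S.co x))^[S.per (some k)] (S.cht (some k) x (ω (some k) (x, w))) =
        a • S.cht (some k) x (ω (some k) (x, S.lam (some k) x * w)) := h1
    rw [h2, cr_smul_left, cr_self, mul_zero]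
  have h0 : ((hF (S.co x))^[S.per none] (1, 0)).2 = 0 := by
    obtain ⟨a, z', ha, hz', h1⟩ := S.contr x hx none 0 (by simpa using S.hr₀)
    have hz0 : z' = 0 := by
      rw [norm_zero, mul_zero] at hz'
      exact norm_le_zero_iff.1 hz'
    have e1 : ch S.b none x 0 = ((1 : ℂ), (0 : ℂ)) := rfl
    rw [hz0, e1] at h1
    rw [h1]
    simp
  have hcrit : ∀ rF : ℝ, ∀ c : ℂ × ℂ, c ≠ 0 → wr (S.co x) c = 0 → ∀ m : ℕ, ∀ w ∈ ball (0 : ℂ) r,
      w ≠ 0 → cr ((hF (S.co x))^[m] c) (ψ w, 1) = 0 →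
      ‖S.lam (some k) x‖ ^ (m / S.per (some k)) * rF ≤ ‖w‖ := by
    intro rF c hc hwc m w hw _ hcr
    exfalso
    rw [hcht] at hcr
    have hne : (hF (S.co x))^[m] c ≠ 0 := hnd.iter_ne m hc
    obtain ⟨a, ha, h1⟩ := (cr_eq_zero_iff hne (ch_ne_zero S.b (some k) x _)).1 hcr
    exact hcon c hc hwc m ⟨a, ω (some k) (x, w), ha,
      (hL.ωr (some k) x hxN w (by simpa using hw)).1, h1⟩
  have hR : ∀ ζ : ℂ, ∀ m : ℕ, ∀ w ∈ ball (0 : ℂ) r,
      cr ((hF (S.co x))^[m] (ζ, 1)) (ψ w, 1) = 0 → ‖ζ‖ ≤ 1 / S.r₀ := by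
    intro ζ m w hw hcr
    by_contra hlt'
    push Not at hlt'
    have hr₀ := S.hr₀
    have hζ : 0 < ‖ζ‖ := lt_trans (by positivity) hlt'
    have hζ0 : ζ ≠ 0 := norm_pos_iff.1 hζ
    have e1 : ((ζ : ℂ), (1 : ℂ)) = ζ • ch S.b none x (1 / ζ) := by
      apply Prod.ext
      · simp [ch]
      · simp [ch, hζ0]
    have hn1 : ((ζ : ℂ), (1 : ℂ)) ≠ 0 := fun h => one_ne_zero (congrArg Prod.snd h)
    rw [hcht] at hcr
    have hne : (hF (S.co x))^[m] (ζ, 1) ≠ 0 := hnd.iter_ne m hn1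
    obtain ⟨a, ha, h1⟩ := (cr_eq_zero_iff hne (ch_ne_zero S.b (some k) x _)).1 hcr
    rw [e1, hF_iter_smul] at h1
    have hz : ζ ^ d ^ m ≠ 0 := pow_ne_zero _ hζ0
    have h2 : (hF (S.co x))^[m] (ch S.b none x (1 / ζ)) =
        ((ζ ^ d ^ m)⁻¹ * a) • ch S.b (some k) x (ω (some k) (x, w)) := by
      have h3 := congrArg (fun v => (ζ ^ d ^ m)⁻¹ • v) h1
      simp only [smul_smul] at h3
      rw [inv_mul_cancel₀ hz, one_smul] at h3
      exact h3
    have hsm : ‖(1 / ζ : ℂ)‖ < S.r₀ := by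
      rw [norm_div, norm_one, div_lt_iff₀ hζ]
      rw [div_lt_iff₀ hr₀] at hlt'
      linarith
    have h4 := S.sep x hx none (some k) (1 / ζ) (ω (some k) (x, w)) _ m hsm
      (hL.ωr (some k) x hxN w (by simpa using hw)).1 h2
    exact absurd h4.1 (by simp)
  -- the derivative of ψ
  have hder : deriv ψ 0 = 1 := by
    have hb0 : (0 : ℂ) ∈ ball (0 : ℂ) r := by simpa using hr
    have hωa : DifferentiableAt ℂ (fun w : ℂ => ω (some k) (x, w)) 0 :=
      hωd.differentiableAt (isOpen_ball.mem_nhds hb0)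
    have h1 : deriv ψ 0 = deriv (fun w : ℂ => ω (some k) (x, w)) 0 := by
      rw [hψ]
      simp
    rw [h1]
    have hK1 := hKK.der (some k) x hx (hlam (some k))
    have hKd : DifferentiableAt ℂ (fun z => KK (some k) (x, S.cht (some k) x z)) 0 := by
      by_contra hnd'
      rw [deriv_zero_of_not_differentiableAt hnd'] at hK1
      exact zero_ne_one hK1
    have hω0 : ω (some k) (x, 0) = 0 := hL.ω0 (some k) x hxN
    have hKd' : DifferentiableAt ℂ (fun z => KK (some k) (x, S.cht (some k) x z))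
        ((fun w : ℂ => ω (some k) (x, w)) 0) := by
      simp only [hω0]
      exact hKd
    have h2 := deriv_comp (h₂ := fun z => KK (some k) (x, S.cht (some k) x z))
      (h := fun w : ℂ => ω (some k) (x, w)) 0 hKd' hωa
    simp only [hω0] at h2
    rw [hK1, one_mul] at h2
    rw [← h2]
    have h3 : ((fun z => KK (some k) (x, S.cht (some k) x z)) ∘ fun w : ℂ => ω (some k) (x, w))
        =ᶠ[𝓝 0] fun w => w := by
      filter_upwards [isOpen_ball.mem_nhds hb0] with w hw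
      exact (hL.ωr (some k) x hxN w (by simpa using hw)).2
    rw [h3.deriv_eq]
    simp
  have hfin := hFAT d (S.per (some k)) (S.per none) (S.co x) ψ (S.lam (some k) x) r
    (2 * (1 / S.r₀) + 1) (1 / S.r₀) S.hd (S.hper _) (S.hper _) hnd h0 hr
    (by have := S.hr₀; positivity) (hlam (some k)) hlt hψd hinj hfe (hcrit _) hR
  rw [hder, norm_one, one_mul] at hfin
  linarith

end Pool.Agent.H790R3.RB
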