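import Mathlib
import Pool.Agent.H790R3.RB.St
import Pool.Agent.H790R3.RB.Basic

/-! Task POLY (helper409): the iterates of `hF x` are given by polynomials. -/

set_option autoImplicit false

namespace Pool.Agent.H790R3.RB

namespace POLY

open Polynomial

/-- the form with coefficients `c` at a pair of polynomials -/
noncomputable def Q {d : ℕ} (c : Fin (d + 1) → ℂ) (A B : Polynomial ℂ) : Polynomial ℂ :=
  ∑ j : Fin (d + 1), C (c j) * (A ^ (j : ℕ) * B ^ (d - (j : ℕ)))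

theorem term_deg {d D : ℕ} {A B : Polynomial ℂ} (hA : A.natDegree ≤ D) (hB : B.natDegree ≤ D)
    (j : Fin (d + 1)) : (A ^ (j : ℕ) * B ^ (d - (j : ℕ))).natDegree ≤ d * D := by
  have hj : (j : ℕ) ≤ d := Nat.lt_succ_iff.1 j.2
  refine natDegree_mul_le.trans ?_
  have h1 : (A ^ (j : ℕ)).natDegree ≤ (j : ℕ) * D :=
    natDegree_pow_le.trans (Nat.mul_le_mul_left _ hA)
  have h2 : (B ^ (d - (j : ℕ))).natDegree ≤ (d - (j : ℕ)) * D :=
    natDegree_pow_le.trans (Nat.mul_le_mul_left _ hB)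
  calc _ ≤ (j : ℕ) * D + (d - (j : ℕ)) * D := Nat.add_le_add h1 h2
    _ = ((j : ℕ) + (d - (j : ℕ))) * D := by ring
    _ = d * D := by rw [Nat.add_sub_cancel' hj]

theorem term_coeff {d D : ℕ} {A B : Polynomial ℂ} (hA : A.natDegree ≤ D) (hB : B.natDegree ≤ D)
    (j : Fin (d + 1)) : (A ^ (j : ℕ) * B ^ (d - (j : ℕ))).coeff (d * D) =
      (A.coeff D) ^ (j : ℕ) * (B.coeff D) ^ (d - (j : ℕ)) := by
  have hj : (j : ℕ) ≤ d := Nat.lt_succ_iff.1 j.2
  have h1 : (A ^ (j : ℕ)).natDegree ≤ (j : ℕ) * D :=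
    natDegree_pow_le.trans (Nat.mul_le_mul_left _ hA)
  have h2 : (B ^ (d - (j : ℕ))).natDegree ≤ (d - (j : ℕ)) * D :=
    natDegree_pow_le.trans (Nat.mul_le_mul_left _ hB)
  have h3 : d * D = (j : ℕ) * D + (d - (j : ℕ)) * D := by
    rw [← Nat.add_mul, Nat.add_sub_cancel' hj]
  rw [h3, coeff_mul_add_eq_of_natDegree_le h1 h2, coeff_pow_of_natDegree_le hA,
    coeff_pow_of_natDegree_le hB]

theorem Q_deg {d D : ℕ} (c : Fin (d + 1) → ℂ) {A B : Polynomial ℂ} (hA : A.natDegree ≤ D)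
    (hB : B.natDegree ≤ D) : (Q c A B).natDegree ≤ d * D := by
  unfold Q
  refine natDegree_sum_le_of_forall_le _ _ fun j _ => ?_
  exact (natDegree_C_mul_le _ _).trans (term_deg hA hB j)

theorem Q_coeff {d D : ℕ} (c : Fin (d + 1) → ℂ) {A B : Polynomial ℂ} (hA : A.natDegree ≤ D)
    (hB : B.natDegree ≤ D) : (Q c A B).coeff (d * D) =
      ∑ j : Fin (d + 1), c j * ((A.coeff D) ^ (j : ℕ) * (B.coeff D) ^ (d - (j : ℕ))) := by
  unfold Q
  rw [finset_sum_coeff]
  refine Finset.sum_congr rfl fun j _ => ?_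
  rw [coeff_C_mul, term_coeff hA hB]

theorem Q_eval {d : ℕ} (c : Fin (d + 1) → ℂ) (A B : Polynomial ℂ) (ζ : ℂ) :
    (Q c A B).eval ζ =
      ∑ j : Fin (d + 1), c j * ((A.eval ζ) ^ (j : ℕ) * (B.eval ζ) ^ (d - (j : ℕ))) := by
  unfold Q
  rw [eval_finset_sum]
  refine Finset.sum_congr rfl fun j _ => ?_
  rw [eval_mul, eval_C, eval_mul, eval_pow, eval_pow]

end POLY

open POLY in
theorem POLY : StPOLY := by
  intro d x N hd
  induction N with
  | zero =>
    refine ⟨Polynomial.X, 1, ?_, ?_, ?_, ?_, ?_, ?_⟩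
    · simp
    · simp
    · intro ζ; simp
    · intro ζ; simp
    · simp
    · simp [Polynomial.coeff_one]
  | succ N ih =>
    obtain ⟨A, B, hA, hB, eA, eB, cA, cB⟩ := ih
    refine ⟨Q (fun j => x (0, j)) A B, Q (fun j => x (1, j)) A B, ?_, ?_, ?_, ?_, ?_, ?_⟩
    · rw [pow_succ']
      exact Q_deg _ hA hB
    · rw [pow_succ']
      exact Q_deg _ hA hB
    · intro ζ
      rw [Q_eval, Function.iterate_succ_apply', eA, eB]
      rfl
    · intro ζ
      rw [Q_eval, Function.iterate_succ_apply', eA, eB]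
      rfl
    · rw [pow_succ', Q_coeff _ hA hB, Function.iterate_succ_apply', cA, cB]
      rfl
    · rw [pow_succ', Q_coeff _ hA hB, Function.iterate_succ_apply', cA, cB]
      rfl

end Pool.Agent.H790R3.RB
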