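import Mathlib
import Pool.Agent.H790R3.RB.St2
import Pool.Agent.H790R3.RB.Basic

/-! Task PQ (helper771): polynomials and coefficients. -/

set_option autoImplicit false

open Topology Filter Metric Set MeasureTheory
open scoped OnePoint

namespace Pool.Agent.H790R3.RB

namespace PQ

open Polynomial

theorem pol_coeff {d : ℕ} (x : CV d) (i : Fin 2) (j : Fin (d + 1)) :
    (pol x i).coeff (j : ℕ) = x (i, j) := by
  unfold pol
  rw [finsetSum_coeff, Finset.sum_eq_single_of_mem j (Finset.mem_univ _)]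
  · rw [coeff_monomial, if_pos rfl]
  · intro k _ hk
    rw [coeff_monomial, if_neg (fun h => hk (Fin.ext h))]

theorem pol_coeff_gt {d : ℕ} (x : CV d) (i : Fin 2) (j : ℕ) (hj : d < j) :
    (pol x i).coeff j = 0 := by
  unfold pol
  rw [finsetSum_coeff]
  refine Finset.sum_eq_zero fun k _ => ?_
  rw [coeff_monomial, if_neg]
  intro h
  have := k.2
  omega

theorem pol_natDegree {d : ℕ} (x : CV d) (i : Fin 2) : (pol x i).natDegree ≤ d :=
  natDegree_le_iff_coeff_eq_zero.2 fun j hj => pol_coeff_gt x i j hj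

theorem pol_eval {d : ℕ} (x : CV d) (i : Fin 2) (z : ℂ) :
    (pol x i).eval z = ∑ j : Fin (d + 1), x (i, j) * (z ^ (j : ℕ) * 1 ^ (d - (j : ℕ))) := by
  unfold pol
  rw [eval_finsetSum]
  refine Finset.sum_congr rfl fun j _ => ?_
  rw [eval_monomial, one_pow, mul_one]

theorem hF_one {d : ℕ} (x : CV d) (z : ℂ) :
    hF x (z, 1) = ((pol x 0).eval z, (pol x 1).eval z) := by
  unfold hF
  rw [pol_eval, pol_eval]

theorem hF_inf {d : ℕ} (x : CV d) :
    hF x (1, 0) = ((pol x 0).coeff d, (pol x 1).coeff d) := by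
  have h : ∀ i : Fin 2, ∑ j : Fin (d + 1), x (i, j) * ((1 : ℂ) ^ (j : ℕ) * 0 ^ (d - (j : ℕ))) =
      (pol x i).coeff d := by
    intro i
    rw [Finset.sum_eq_single_of_mem (Fin.last d) (Finset.mem_univ _)]
    · have := pol_coeff x i (Fin.last d)
      rw [Fin.val_last] at this
      rw [this]
      simp
    · intro j _ hj
      have h1 : d - (j : ℕ) ≠ 0 := by
        intro h
        apply hj
        apply Fin.ext
        have := j.2
        rw [Fin.val_last]
        omega
      rw [zero_pow h1, mul_zero, mul_zero]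
  unfold hF
  rw [h 0, h 1]

theorem part1 {d : ℕ} (hd : 1 ≤ d) (x : CV d) (hx : ND x) : IsCoprime (pol x 0) (pol x 1) ∧
      max (pol x 0).natDegree (pol x 1).natDegree = d := by
  constructor
  · rw [isCoprime_iff_aeval_ne_zero_of_isAlgClosed ℂ ℂ]
    intro a
    by_contra h
    push Not at h
    rw [coe_aeval_eq_eval] at h
    have h1 : hF x (a, 1) = 0 := by
      rw [hF_one, h.1, h.2]
      rfl
    have h2 := congrArg Prod.snd (hx _ h1)
    simp at h2
  · refine le_antisymm (max_le (pol_natDegree x 0) (pol_natDegree x 1)) ?_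
    by_contra h
    rw [not_le, max_lt_iff] at h
    have h1 : hF x (1, 0) = 0 := by
      rw [hF_inf x, coeff_eq_zero_of_natDegree_lt h.1, coeff_eq_zero_of_natDegree_lt h.2]
      rfl
    have h2 := congrArg Prod.fst (hx _ h1)
    simp at h2

theorem sp_eval {d : ℕ} (x : CV d) (z : ℂ) (hz : (pol x 1).eval z ≠ 0) :
    sp x (z : OnePoint ℂ) = (((pol x 0).eval z / (pol x 1).eval z : ℂ) : OnePoint ℂ) := by
  have h1 : hc (z : OnePoint ℂ) = (z, 1) := rfl
  unfold sp
  rw [h1, hF_one]
  unfold pr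
  rw [if_neg hz]

theorem dense_ne (Q : ℂ[X]) (hQ : Q ≠ 0) :
    Dense ((fun z : ℂ => (z : OnePoint ℂ)) '' {z : ℂ | Q.eval z ≠ 0}) := by
  refine OnePoint.denseRange_coe.dense_image OnePoint.continuous_coe ?_
  have h1 : {z : ℂ | Q.eval z ≠ 0} = (↑(Q.roots.toFinset) : Set ℂ)ᶜ := by
    ext z
    simp [hQ, IsRoot]
  rw [h1]
  exact (Finset.finite_toSet _).countable.dense_compl ℝ

end PQ

open Polynomial in
theorem PQ (hSP : StSP) : StPQ := by
  intro d hd
  refine ⟨fun x hx => ⟨(PQ.part1 hd x hx).1, (PQ.part1 hd x hx).2, PQ.pol_coeff x,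
    PQ.pol_coeff_gt x, PQ.sp_eval x⟩, ?_⟩
  intro P Q hPQ hdeg
  set x : CV d := fun r => if r.1 = 0 then P.coeff (r.2 : ℕ) else Q.coeff (r.2 : ℕ) with hxdef
  have hPd : P.natDegree ≤ d := by rw [← hdeg]; exact le_max_left _ _
  have hQd : Q.natDegree ≤ d := by rw [← hdeg]; exact le_max_right _ _
  have h10 : ¬ ((1 : Fin 2) = 0) := by decide
  have hP : pol x 0 = P := by
    ext j
    rcases le_or_gt j d with h | h
    · have := PQ.pol_coeff x 0 ⟨j, Nat.lt_succ_of_le h⟩
      simp only at this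
      rw [this, hxdef]
      simp
    · rw [PQ.pol_coeff_gt x 0 j h, coeff_eq_zero_of_natDegree_lt (hPd.trans_lt h)]
  have hQ : pol x 1 = Q := by
    ext j
    rcases le_or_gt j d with h | h
    · have := PQ.pol_coeff x 1 ⟨j, Nat.lt_succ_of_le h⟩
      simp only at this
      rw [this, hxdef]
      simp
    · rw [PQ.pol_coeff_gt x 1 j h, coeff_eq_zero_of_natDegree_lt (hQd.trans_lt h)]
  have hQ0 : Q ≠ 0 := by
    intro h
    rw [h, isCoprime_zero_right] at hPQ
    rw [h, natDegree_zero, natDegree_eq_zero_of_isUnit hPQ] at hdeg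
    simp at hdeg
    omega
  have htop : ¬ (P.coeff d = 0 ∧ Q.coeff d = 0) := by
    rintro ⟨h1, h2⟩
    rcases max_choice P.natDegree Q.natDegree with h | h
    · rw [h] at hdeg
      rw [← hdeg] at h1
      have h3 : P = 0 := leadingCoeff_eq_zero.1 h1
      rw [h3, natDegree_zero] at hdeg
      omega
    · rw [h] at hdeg
      rw [← hdeg] at h2
      exact hQ0 (leadingCoeff_eq_zero.1 h2)
  have hND : ND x := by
    rintro ⟨u, v⟩ huv
    by_cases hv : v = 0
    · subst hv
      by_cases hu : u = 0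
      · subst hu
        rfl
      · exfalso
        have h1 : ((u, 0) : ℂ × ℂ) = u • ((1, 0) : ℂ × ℂ) := by
          simp
        rw [h1, hF_smul, PQ.hF_inf x, hP, hQ] at huv
        have h2 := (smul_eq_zero.1 huv).resolve_left (pow_ne_zero d hu)
        exact htop ⟨congrArg Prod.fst h2, congrArg Prod.snd h2⟩
    · exfalso
      have h1 : ((u, v) : ℂ × ℂ) = v • ((u / v, 1) : ℂ × ℂ) := by
        refine Prod.ext ?_ ?_
        · simp only [Prod.smul_fst, smul_eq_mul]
          field_simp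
        · simp
      rw [h1, hF_smul, PQ.hF_one, hP, hQ] at huv
      have h2 := (smul_eq_zero.1 huv).resolve_left (pow_ne_zero d hv)
      have h3 := (isCoprime_iff_aeval_ne_zero_of_isAlgClosed ℂ ℂ P Q).1 hPQ (u / v)
      rw [coe_aeval_eq_eval] at h3
      rcases h3 with h3 | h3
      · exact h3 (congrArg Prod.fst h2)
      · exact h3 (congrArg Prod.snd h2)
  refine ⟨x, hND, hP, hQ, fun f hf hfz => ?_⟩
  refine Continuous.ext_on (PQ.dense_ne Q hQ0) hf (hSP d x hd hND).1 ?_
  rintro _ ⟨z, hz, rfl⟩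
  have hz' : Q.eval z ≠ 0 := hz
  simp only
  rw [hfz z hz', PQ.sp_eval x z (by rw [hQ]; exact hz'), hP, hQ]

end Pool.Agent.H790R3.RB
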