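import Mathlib
import Pool.Agent.H790R3.RB.St
import Pool.Agent.H790R3.RB.Basic

set_option autoImplicit false

open Topology Filter Metric Set MeasureTheory

namespace Pool.Agent.H790R3.RB

theorem PROP : StPROP := by
  intro d N K hd hK h1 M
  rcases K.eq_empty_or_nonempty with hKe | hKne
  · exact ⟨0, fun x hx => by simp [hKe] at hx⟩
  by_cases hM : M < 0
  · exact ⟨0, fun x _ v z hv _ => absurd hv (not_le.mpr (lt_of_lt_of_le hM (norm_nonneg v)))⟩
  push Not at hM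
  -- the function in homogeneous coordinates
  let G : (CV d × ℂ) × ℂ → ℂ := fun q =>
    ((hF q.1.1)^[N] (1, q.2)).1 - q.1.2 * ((hF q.1.1)^[N] (1, q.2)).2
  have hGc : Continuous G := by
    have h2 : Continuous (fun q : (CV d × ℂ) × ℂ => (hF q.1.1)^[N] ((1 : ℂ), q.2)) :=
      (hF_iter_continuous d N).comp
        ((continuous_fst.fst).prodMk (continuous_const.prodMk continuous_snd))
    exact h2.fst.sub ((continuous_fst.snd).mul h2.snd)
  have hKB : IsCompact (K ×ˢ closedBall (0 : ℂ) M) := hK.prod (isCompact_closedBall 0 M)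
  have hne : (K ×ˢ closedBall (0 : ℂ) M).Nonempty := hKne.prod ⟨0, by simpa using hM⟩
  obtain ⟨q0, hq0, hmin⟩ := hKB.exists_isMinOn hne
    ((hGc.comp (continuous_id.prodMk continuous_const : Continuous fun q : CV d × ℂ =>
      (q, (0 : ℂ)))).norm.continuousOn)
  set c : ℝ := ‖G (q0, 0)‖ with hc
  have hG0 : ∀ q ∈ K ×ˢ closedBall (0 : ℂ) M, G (q, 0) ≠ 0 := by
    intro q hq
    obtain ⟨h3, h4⟩ := h1 q.1 hq.1
    simp only [G, h4, mul_zero, sub_zero]
    exact h3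
  have hcpos : 0 < c := norm_pos_iff.mpr (hG0 q0 hq0)
  have hopen : IsOpen {q : (CV d × ℂ) × ℂ | c / 2 < ‖G q‖} := isOpen_lt continuous_const hGc.norm
  obtain ⟨u, v, hu, hv, hKu, h0v, huv⟩ := generalized_tube_lemma hKB
    (isCompact_singleton (x := (0 : ℂ))) hopen (by
      rintro ⟨q, s⟩ ⟨hq, hs⟩
      simp only [mem_singleton_iff] at hs
      subst hs
      have := hmin hq
      simp only [mem_setOf_eq, Function.comp] at this ⊢
      have h5 : c ≤ ‖G (q, 0)‖ := this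
      linarith)
  obtain ⟨s0, hs0, hball⟩ := Metric.isOpen_iff.mp hv 0 (h0v rfl)
  refine ⟨max (max 1 (2 / s0)) (2 * M / c), ?_⟩
  intro x hx w z hw hz
  by_contra hcon
  push Not at hcon
  have hz1 : 1 < ‖z‖ := lt_of_le_of_lt ((le_max_left _ _).trans (le_max_left _ _)) hcon
  have hz2 : 2 / s0 < ‖z‖ := lt_of_le_of_lt ((le_max_right _ _).trans (le_max_left _ _)) hcon
  have hz3 : 2 * M / c < ‖z‖ := lt_of_le_of_lt (le_max_right _ _) hcon
  have hz0 : z ≠ 0 := by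
    intro h0
    rw [h0, norm_zero] at hz1
    linarith
  have hzinv : z⁻¹ ∈ v := by
    apply hball
    rw [mem_ball_zero_iff, norm_inv]
    have h6 : 0 < ‖z‖ := norm_pos_iff.mpr hz0
    rw [inv_lt_comm₀ h6 hs0]
    have : s0⁻¹ ≤ 2 / s0 := by
      rw [div_eq_mul_inv]
      nlinarith [inv_pos.mpr hs0]
    linarith
  have h7 := huv (show ((x, w), z⁻¹) ∈ u ×ˢ v from
    ⟨hKu ⟨hx, by simpa using hw⟩, hzinv⟩)
  simp only [mem_setOf_eq] at h7
  have h8 : (z, (1 : ℂ)) = z • ((1 : ℂ), z⁻¹) := by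
    ext <;> simp [hz0]
  rw [h8, hF_iter_smul] at hz
  simp only [Prod.smul_fst, Prod.smul_snd, smul_eq_mul] at hz
  have h9 : z ^ d ^ N * ((hF x)^[N] (1, z⁻¹)).1 - w * (z ^ d ^ N * ((hF x)^[N] (1, z⁻¹)).2) =
      z ^ d ^ N * G ((x, w), z⁻¹) := by
    simp only [G]; ring
  rw [h9, norm_mul, norm_pow] at hz
  have h10 : ‖z‖ ≤ ‖z‖ ^ d ^ N := by
    have : 1 ≤ d ^ N := Nat.one_le_pow _ _ hd
    calc ‖z‖ = ‖z‖ ^ 1 := (pow_one _).symm
      _ ≤ ‖z‖ ^ d ^ N := pow_le_pow_right₀ hz1.le this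
  have h11 : ‖z‖ * (c / 2) ≤ M := by
    calc ‖z‖ * (c / 2) ≤ ‖z‖ ^ d ^ N * ‖G ((x, w), z⁻¹)‖ :=
          mul_le_mul h10 h7.le (by positivity) (by positivity)
      _ ≤ M := hz
  rw [div_lt_iff₀ hcpos] at hz3
  linarith

end Pool.Agent.H790R3.RB
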