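import Mathlib
import Pool.Agent.H790R3.RB.St2
import Pool.Agent.H790R3.RB.Basic
import Pool.Agent.Helper114.Sph

set_option autoImplicit false

open Topology Filter Metric Set MeasureTheory
open scoped OnePoint

namespace Pool.Agent.H790R3.RB

namespace SP

theorem pr_zero {p : ℂ × ℂ} (h : p.2 = 0) : pr p = ∞ := by
  unfold pr; rw [if_pos h]

theorem pr_ne {p : ℂ × ℂ} (h : p.2 ≠ 0) : pr p = ((p.1 / p.2 : ℂ) : OnePoint ℂ) := by
  unfold pr; rw [if_neg h]

theorem pr_eq (p : ℂ × ℂ) : pr p = Helper114.Herman.pr p.1 p.2 := by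
  by_cases h : p.2 = 0
  · rw [pr_zero h, h, Helper114.Herman.pr_zero]
  · rw [pr_ne h, Helper114.Herman.pr_ne h]

theorem continuousAt_pr {p : ℂ × ℂ} (h : p ≠ 0) : ContinuousAt pr p := by
  have e : (pr : ℂ × ℂ → OnePoint ℂ) = fun p : ℂ × ℂ => Helper114.Herman.pr p.1 p.2 :=
    funext pr_eq
  rw [e]
  have h' : p.1 ≠ 0 ∨ p.2 ≠ 0 := by
    by_contra hc
    push Not at hc
    exact h (Prod.ext hc.1 hc.2)
  exact Helper114.Herman.continuousAt_pr (u := p.1) (v := p.2) h'

theorem pr_eq_iff {p q : ℂ × ℂ} (hp : p ≠ 0) (hq : q ≠ 0) : pr p = pr q ↔ cr p q = 0 := by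
  unfold cr
  by_cases h1 : p.2 = 0
  · have hp1 : p.1 ≠ 0 := fun h => hp (Prod.ext h h1)
    by_cases h2 : q.2 = 0
    · rw [pr_zero h1, pr_zero h2, h1, h2]; simp
    · rw [pr_zero h1, pr_ne h2, h1]
      simp only [zero_mul, sub_zero, mul_eq_zero, hp1, h2, or_self, iff_false]
      exact OnePoint.infty_ne_coe _
  · by_cases h2 : q.2 = 0
    · have hq1 : q.1 ≠ 0 := fun h => hq (Prod.ext h h2)
      rw [pr_ne h1, pr_zero h2, h2]
      simp only [mul_zero, zero_sub, neg_eq_zero, mul_eq_zero, h1, hq1, or_self, iff_false]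
      exact OnePoint.coe_ne_infty _
    · rw [pr_ne h1, pr_ne h2, OnePoint.coe_eq_coe, div_eq_div_iff h1 h2, sub_eq_zero]
      constructor
      · intro h; rw [h]; ring
      · intro h; rw [h]; ring

theorem hc_infty : hc (∞ : OnePoint ℂ) = (1, 0) := rfl

theorem hc_coe (z : ℂ) : hc (z : OnePoint ℂ) = (z, 1) := rfl

theorem pr_hc (z : OnePoint ℂ) : pr (hc z) = z ∧ hc z ≠ 0 := by
  induction z using OnePoint.rec with
  | infty =>
    rw [hc_infty]
    refine ⟨pr_zero rfl, ?_⟩
    intro h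
    exact one_ne_zero (congrArg Prod.fst h)
  | coe z =>
    rw [hc_coe]
    refine ⟨?_, ?_⟩
    · rw [pr_ne (by simp)]; simp
    · intro h
      exact one_ne_zero (congrArg Prod.snd h)

theorem sp_pr {d : ℕ} {x : CV d} (hx : ND x) {p : ℂ × ℂ} (hp : p ≠ 0) :
    sp x (pr p) = pr (hF x p) := by
  unfold sp
  have h1 := pr_hc (pr p)
  have h2 : cr (hc (pr p)) p = 0 := (pr_eq_iff h1.2 hp).1 h1.1
  have h3 := cr_iter x 1 h1.2 hp h2
  simp only [Function.iterate_one] at h3
  exact (pr_eq_iff (fun h => h1.2 (hx _ h)) (fun h => hp (hx _ h))).2 h3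

theorem sp_cont {d : ℕ} {x : CV d} (hx : ND x) : Continuous (sp x) := by
  have hcF : Continuous (hF x) := by
    have := (hF_contDiff d 1).continuous
    exact this.comp (Continuous.prodMk_right x)
  rw [OnePoint.continuous_iff]
  constructor
  · rw [coclosedCompact_eq_cocompact, ← Metric.cobounded_eq_cocompact]
    have h0 : ((1, 0) : ℂ × ℂ) ≠ 0 := fun h => one_ne_zero (congrArg Prod.fst h)
    have h1 : Tendsto (fun z : ℂ => pr (hF x (1, z⁻¹))) (Bornology.cobounded ℂ)
        (𝓝 (pr (hF x (1, 0)))) := by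
      have h2 : ContinuousAt (fun w : ℂ => pr (hF x (1, w))) 0 :=
        ContinuousAt.comp (f := fun w : ℂ => hF x (1, w)) (g := pr) (x := (0 : ℂ))
          (continuousAt_pr (fun h => h0 (hx _ h)))
          ((hcF.comp (Continuous.prodMk_right 1)).continuousAt)
      exact Tendsto.comp (g := fun w : ℂ => pr (hF x (1, w))) h2.tendsto tendsto_inv₀_cobounded
    refine h1.congr' ?_
    filter_upwards [Bornology.eventually_ne_cobounded (0 : ℂ)] with z hz
    have e1 : ((1, z⁻¹) : ℂ × ℂ) ≠ 0 := fun h => one_ne_zero (congrArg Prod.fst h)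
    rw [← sp_pr hx e1]
    congr 1
    rw [pr_ne (inv_ne_zero hz)]
    simp
  · rw [continuous_iff_continuousAt]
    intro z
    have h0 : ((z, 1) : ℂ × ℂ) ≠ 0 := fun h => one_ne_zero (congrArg Prod.snd h)
    exact ContinuousAt.comp (f := fun w : ℂ => hF x (w, 1)) (g := pr) (x := z)
      (continuousAt_pr (fun h => h0 (hx _ h)))
      ((hcF.comp (Continuous.prodMk_left 1)).continuousAt)

end SP

/-- Task SP. -/
theorem SP : StSP := by
  intro d x _ hx
  refine ⟨SP.sp_cont hx, ?_, fun p q hp hq => SP.pr_eq_iff hp hq, SP.pr_hc, ?_⟩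
  · intro p hp N
    induction N generalizing p with
    | zero => rfl
    | succ N ih =>
      rw [Function.iterate_succ_apply, SP.sp_pr hx hp, ih (hF x p) (fun h => hp (hx _ h)),
        Function.iterate_succ_apply]
  · intro p hp
    exact (SP.continuousAt_pr hp).continuousWithinAt

end Pool.Agent.H790R3.RB
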