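import Mathlib
import Pool.Agent.H790R3.RB.St3
import Pool.Agent.H790R3.RB.Basic

/-! Choice of the time. -/

set_option autoImplicit false
set_option linter.unusedVariables false

open Topology Filter Metric Set MeasureTheory

namespace Pool.Agent.H790R3.RB

namespace ST

theorem fsmul {d n s : ℕ} (S : Sys d n s) (x : Fin n → ℂ) (m : ℕ) (a : ℂ) (p : ℂ × ℂ) :
    (S.F x)^[m] (a • p) = a ^ (d ^ m) • (S.F x)^[m] p :=
  hF_iter_smul (S.co x) m a p

theorem arith (Q p N1 N₀ m : ℕ) (hp : 1 ≤ p) (hpQ : p ≤ Q) (hm : m ≤ N₀) :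
    N1 ≤ (Q * (N1 + N₀ + 1) - m) / p ∧ m ≤ Q * (N1 + N₀ + 1) := by
  have hQ : 1 ≤ Q := hp.trans hpQ
  have h1 : N₀ ≤ Q * N₀ := Nat.le_mul_of_pos_left _ hQ
  have h2 : p * (N1 + 1) ≤ Q * (N1 + 1) := Nat.mul_le_mul_right _ hpQ
  have h3 : Q * (N1 + N₀ + 1) = Q * (N1 + 1) + Q * N₀ := by ring
  have h4 : p * N1 ≤ p * (N1 + 1) := Nat.mul_le_mul_left _ (by omega)
  refine ⟨?_, by omega⟩
  rw [Nat.le_div_iff_mul_le hp, mul_comm]
  omega

end ST

theorem ST (hCOV : StCOV) (hLAM : StLAM) : StST := by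
  intro d n s S KK r N ω hK hL r₁ N₀ κ₀ hr₁ hr₁r hκ₀ hκ₀r
  -- lower bound of the scales
  obtain ⟨k0, hk0⟩ := Finite.exists_min (fun k => ‖κ₀ k‖)
  have hc : 0 < ‖κ₀ k0‖ := norm_pos_iff.2 (hκ₀ k0)
  set c := min 1 ‖κ₀ k0‖ with hcdef
  have hc0 : 0 < c := lt_min one_pos hc
  have hr' : 0 < r₁ * c := mul_pos hr₁ hc0
  obtain ⟨N1, hN1⟩ := hCOV d n s S KK r N ω hK hL (r₁ * c) hr'
  set Q : ℕ := ∏ k, S.per k with hQ
  have hQ1 : 1 ≤ Q := Nat.one_le_iff_ne_zero.2 (Finset.prod_ne_zero_iff.2 fun k _ => by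
    have := S.hper k; omega)
  have hdvd : ∀ k, S.per k ∣ Q := fun k => Finset.dvd_prod_of_mem _ (Finset.mem_univ k)
  have hle : ∀ k, S.per k ≤ Q := fun k => Nat.le_of_dvd hQ1 (hdvd k)
  refine ⟨Q * (N1 + N₀ + 1), fun k => (hdvd k).mul_right _, ?_, ?_⟩
  · intro x hx κ hκ ζ hζ
    have hr0 := S.hr₀
    have hζ0 : 0 < ‖ζ‖ := lt_trans (by positivity) hζ
    have hζn : ζ ≠ 0 := norm_pos_iff.1 hζ0
    have hz : ‖(1:ℂ) / ζ‖ < S.r₀ := by
      rw [norm_div, norm_one, div_lt_iff₀ hζ0]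
      rwa [div_lt_iff₀ hr0, mul_comm] at hζ
    have hv : ((ζ, 1) : ℂ × ℂ) = ζ • S.cht none x (1 / ζ) := by
      show ((ζ, 1) : ℂ × ℂ) = ζ • ((1, 1 / ζ) : ℂ × ℂ)
      apply Prod.ext
      · simp
      · simp [hζn]
    obtain ⟨j, hj⟩ : S.per none ∣ Q * (N1 + N₀ + 1) := (hdvd none).mul_right _
    have hj1 : N1 ≤ j := by
      have h1 := (ST.arith Q (S.per none) N1 N₀ 0 (S.hper none) (hle none) (Nat.zero_le _)).1
      rw [Nat.sub_zero, hj, Nat.mul_div_cancel_left _ (S.hper none)] at h1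
      exact h1
    obtain ⟨w, hw1, hw2, hw3⟩ := hN1 x hx none (1 / ζ) hz j hj1
    refine ⟨none, 0, S.hper none, w, ?_, ?_⟩
    · refine hw1.trans ?_
      calc r₁ * c ≤ r₁ * 1 := mul_le_mul_of_nonneg_left (min_le_left _ _) hr₁.le
        _ = r₁ := mul_one _
    · rw [hκ, one_mul, hv, ST.fsmul, cr_smul_left, hj]
      have h5 : cr ((S.F x)^[S.per none * j] (S.cht none x (1 / ζ))) (S.pt ω none 0 x w) = 0 := hw3
      rw [h5, mul_zero]
  · rintro x hx ζ ⟨k, m, hm, a, z, ha, hz, he⟩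
    obtain ⟨hj, hmN⟩ := ST.arith Q (S.per k) N1 N₀ m (S.hper k) (hle k) hm
    set D := Q * (N1 + N₀ + 1) - m with hD
    obtain ⟨w, hw1, hw2, hw3⟩ := hN1 x hx k z hz (D / S.per k) hj
    have hkn : 0 < ‖κ₀ k‖ := norm_pos_iff.2 (hκ₀ k)
    refine ⟨k, D % S.per k, Nat.mod_lt _ (S.hper k), w / κ₀ k, ?_, ?_⟩
    · rw [norm_div, div_le_iff₀ hkn]
      refine hw1.trans ?_
      refine mul_le_mul_of_nonneg_left ?_ hr₁.le
      exact (min_le_right _ _).trans (hk0 k)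
    · rw [mul_div_cancel₀ _ (hκ₀ k)]
      have hsplit : Q * (N1 + N₀ + 1) = D % S.per k + (S.per k * (D / S.per k) + m) := by
        have := Nat.div_add_mod D (S.per k)
        omega
      have hxU : x ∈ ball S.xT S.ρ := hL.NU hx
      have hnd := S.nd x hxU
      rw [hsplit, Function.iterate_add_apply, Function.iterate_add_apply, he, ST.fsmul, ST.fsmul,
        cr_smul_left]
      have hne1 : (S.F x)^[S.per k * (D / S.per k)] (S.cht k x z) ≠ 0 :=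
        hnd.iter_ne _ (ch_ne_zero S.b k x z)
      have hne2 : S.cht k x (ω k (x, w)) ≠ 0 := ch_ne_zero S.b k x _
      have h6 : cr ((S.F x)^[D % S.per k] ((S.F x)^[S.per k * (D / S.per k)] (S.cht k x z)))
          (S.pt ω k (D % S.per k) x w) = 0 :=
        cr_iter (S.co x) (D % S.per k) hne1 hne2 hw3
      rw [h6, mul_zero]

end Pool.Agent.H790R3.RB
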