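import Mathlib
import Pool.Agent.H790R3.RB.St
import Pool.Agent.H713R3.ZA.Mot3
import Pool.Agent.H713R3.ZA.TAVG

/-! Area inequality integrated over a circle of parameters. -/

set_option autoImplicit false

open Topology Filter Metric Set MeasureTheory

namespace Pool.Agent.H790R3.RB

theorem STEP : StSTEP := by
  intro τ r R₁ a W K Φ X Y q g hr0 hrτ hR₁ ha hWo hKm hKW hKb hvol hΦd hΦ0 hinj hqc hgc hq0 hdisj
    hXY hKY hY hgP hqX
  have hpi := Real.pi_pos
  have hcirc : ∀ θ : ℝ, circleMap 0 r θ ∈ ball (0 : ℂ) τ := by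
    intro θ
    rw [mem_ball_zero_iff, norm_circleMap_zero, abs_of_pos hr0]
    exact hrτ
  set P := Real.pi * R₁ ^ 2 with hP
  have hP0 : 0 ≤ P := by positivity
  set h : ℝ → ℝ := fun θ => P - (q θ + g θ) with hh
  have hhc : Continuous h := continuous_const.sub (hqc.add hgc)
  have hbound : ∀ θ : ℝ, 0 ≤ h θ ∧
      ∫⁻ z in K, ENNReal.ofReal (‖deriv (Φ (circleMap 0 r θ)) z‖ ^ 2) ≤ ENNReal.ofReal (h θ) := by
    intro θ
    have ht := hcirc θ
    set t := circleMap 0 r θ with htd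
    have hΦt : DifferentiableOn ℂ (Φ t) W :=
      hΦd.comp (f := fun z : ℂ => ((t, z) : ℂ × ℂ)) (by fun_prop) (fun z hz => ⟨ht, hz⟩)
    have himm : MeasurableSet (Φ t '' K) :=
      hKm.image_of_continuousOn_injOn (hΦt.continuousOn.mono hKW) ((hinj t ht).mono hKW)
    have e0 := Pool.Agent.H713R3.ZA.volume_image_holo hKm hWo hKW hΦt ((hinj t ht).mono hKW)
    have e1 : volume (X t) + volume (Φ t '' K) ≤ volume (Y t) := by
      rw [← measure_union (hdisj θ) himm]
      have hsub : X t ∪ Φ t '' K ⊆ Y t ∪ ((X t \ Y t) ∪ (Φ t '' K \ Y t)) := by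
        intro w hw
        by_cases hwY : w ∈ Y t
        · exact Or.inl hwY
        · rcases hw with hw | hw
          · exact Or.inr (Or.inl ⟨hw, hwY⟩)
          · exact Or.inr (Or.inr ⟨hw, hwY⟩)
      refine (measure_mono hsub).trans ((measure_union_le _ _).trans ?_)
      have e2 : volume ((X t \ Y t) ∪ (Φ t '' K \ Y t)) = 0 := by
        refine le_antisymm ((measure_union_le _ _).trans ?_) zero_le
        rw [hXY θ, hKY θ, add_zero]
      rw [e2, add_zero]
    rw [e0] at e1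
    have e3 : ENNReal.ofReal (q θ) +
        ∫⁻ z in K, ENNReal.ofReal (‖deriv (Φ t) z‖ ^ 2) ≤ ENNReal.ofReal (P - g θ) :=
      (add_le_add_left (hqX θ) _).trans (e1.trans (hY θ))
    have hint_fin : (∫⁻ z in K, ENNReal.ofReal (‖deriv (Φ t) z‖ ^ 2)) ≠ ⊤ := by
      apply ne_top_of_le_ne_top ENNReal.ofReal_ne_top (b := ENNReal.ofReal (P - g θ))
      exact le_add_self.trans e3
    set J := (∫⁻ z in K, ENNReal.ofReal (‖deriv (Φ t) z‖ ^ 2)).toReal with hJ
    have hJe : (∫⁻ z in K, ENNReal.ofReal (‖deriv (Φ t) z‖ ^ 2)) =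
        ENNReal.ofReal J := (ENNReal.ofReal_toReal hint_fin).symm
    have hJ0 : 0 ≤ J := ENNReal.toReal_nonneg
    have e5 : q θ + J ≤ P - g θ := by
      rw [hJe, ← ENNReal.ofReal_add (hq0 θ) hJ0] at e3
      exact (ENNReal.ofReal_le_ofReal_iff (by linarith [hgP θ])).mp e3
    have e6 : J ≤ h θ := by simp only [hh]; linarith
    exact ⟨hJ0.trans e6, by rw [hJe]; exact ENNReal.ofReal_le_ofReal e6⟩
  -- the mean value inequality
  set Ψ : ℂ × ℂ → ℂ := fun p => Φ p.1 p.2 with hΨ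
  have hSo : IsOpen (ball (0 : ℂ) τ ×ˢ W) := isOpen_ball.prod hWo
  have hdd : DifferentiableOn ℂ (fun p => fderiv ℂ Ψ p (0, 1)) (ball (0 : ℂ) τ ×ˢ W) :=
    Pool.Agent.Helper540.differentiableOn_fderiv_apply hSo hΦd (0, 1)
  have hder : ∀ p ∈ ball (0 : ℂ) τ ×ˢ W, deriv (Φ p.1) p.2 = fderiv ℂ Ψ p (0, 1) := by
    rintro ⟨t, z⟩ hp
    have e1 := (hΦd.differentiableAt (hSo.mem_nhds hp)).hasFDerivAt
    have e2 : HasDerivAt (fun w : ℂ => ((t, w) : ℂ × ℂ)) ((0, 1) : ℂ × ℂ) z :=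
      (hasDerivAt_const z t).prodMk (hasDerivAt_id z)
    exact (e1.comp_hasDerivAt z e2).deriv
  have hdd' : DifferentiableOn ℂ (fun p : ℂ × ℂ => deriv (Φ p.1) p.2) (ball (0 : ℂ) τ ×ˢ W) :=
    hdd.congr hder
  have havg := Pool.Agent.H713R3.ZA.avg_holds τ r W K (fun t z => deriv (Φ t) z) hr0 hrτ hWo hKW hKm
    hdd'.continuousOn (fun z hz => hdd'.comp (f := fun s : ℂ => ((s, z) : ℂ × ℂ)) (by fun_prop)
      (fun s hs => ⟨hs, hz⟩)) (by
      intro z hz
      have e1 : Φ 0 =ᶠ[𝓝 z] id := by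
        filter_upwards [hWo.mem_nhds hz] with w hw
        exact hΦ0 w hw
      rw [e1.deriv_eq, deriv_id])
  have hhi : IntervalIntegrable h volume 0 (2 * Real.pi) := hhc.intervalIntegrable _ _
  have hhint : ∫ θ in (0 : ℝ)..(2 * Real.pi), h θ =
      2 * Real.pi * P - ∫ θ in (0 : ℝ)..(2 * Real.pi), (q θ + g θ) := by
    have i1 : IntervalIntegrable (fun _ : ℝ => P) volume 0 (2 * Real.pi) :=
      continuous_const.intervalIntegrable _ _
    have i2 : IntervalIntegrable (fun θ : ℝ => q θ + g θ) volume 0 (2 * Real.pi) :=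
      (hqc.add hgc).intervalIntegrable _ _
    simp only [hh]
    rw [intervalIntegral.integral_sub i1 i2, intervalIntegral.integral_const, smul_eq_mul, sub_zero]
  have e1 : ENNReal.ofReal (2 * Real.pi) * volume K ≤
      ENNReal.ofReal (2 * Real.pi * P - ∫ θ in (0 : ℝ)..(2 * Real.pi), (q θ + g θ)) := by
    refine havg.trans ?_
    rw [← hhint, intervalIntegral.integral_of_le (by positivity),
      ofReal_integral_eq_lintegral_ofReal hhi.1 (Filter.Eventually.of_forall fun θ => (hbound θ).1)]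
    exact lintegral_mono (fun θ => (hbound θ).2)
  have hKfin : volume K ≠ ⊤ :=
    ((measure_mono hKb).trans_lt measure_closedBall_lt_top).ne
  set v := (volume K).toReal with hv
  have hv0 : 0 ≤ v := ENNReal.toReal_nonneg
  have hve : volume K = ENNReal.ofReal v := (ENNReal.ofReal_toReal hKfin).symm
  have hgnn : 0 ≤ 2 * Real.pi * P - ∫ θ in (0 : ℝ)..(2 * Real.pi), (q θ + g θ) := by
    rw [← hhint]
    exact intervalIntegral.integral_nonneg (by positivity) (fun θ _ => (hbound θ).1)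
  have e2 : 2 * Real.pi * v ≤ 2 * Real.pi * P - ∫ θ in (0 : ℝ)..(2 * Real.pi), (q θ + g θ) := by
    rw [hve, ← ENNReal.ofReal_mul (by positivity), ENNReal.ofReal_le_ofReal_iff hgnn] at e1
    exact e1
  have e4 : P ≤ v + a := by
    rw [hve, ← ENNReal.ofReal_add hv0 ha, ENNReal.ofReal_le_ofReal_iff (by linarith)] at hvol
    exact hvol
  nlinarith [mul_le_mul_of_nonneg_left e4 (by positivity : (0 : ℝ) ≤ 2 * Real.pi)]

end Pool.Agent.H790R3.RB
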