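import Mathlib
import Pool.Agent.H790R3.RB.St3
import Pool.Agent.H790R3.RB.Basic

/-! The motion is tangent to the identity at infinity (helper316, task TNI). -/

set_option autoImplicit false

open Topology Filter Metric Set MeasureTheory

namespace Pool.Agent.H790R3.RB

namespace TNI

/-- Taylor expansion to second order. -/
lemma taylor2 {F : ℂ → ℂ} (hF : AnalyticAt ℂ F 0) :
    Tendsto (fun w => (F w - F 0 - deriv F 0 * w) / w ^ 2) (𝓝[≠] 0)
      (𝓝 (deriv (deriv F) 0 / 2)) := by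
  have h1 := hF.hasFPowerSeriesAt.isBigO_sub_partialSum_pow 3
  have e : ∀ y : ℂ, (FormalMultilinearSeries.ofScalars ℂ
      (fun n ↦ iteratedDeriv n F 0 / n.factorial)).partialSum 3 y =
      F 0 + deriv F 0 * y + deriv (deriv F) 0 / 2 * y ^ 2 := by
    intro y
    unfold FormalMultilinearSeries.partialSum
    rw [Finset.sum_range_succ, Finset.sum_range_succ, Finset.sum_range_succ, Finset.sum_range_zero]
    simp [iteratedDeriv_succ, iteratedDeriv_zero, Nat.factorial]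
    ring
  simp only [e, zero_add] at h1
  have h2 : (fun w : ℂ => (F w - F 0 - deriv F 0 * w) / w ^ 2 - deriv (deriv F) 0 / 2)
      =O[𝓝[≠] 0] fun w : ℂ => w := by
    obtain ⟨C, hC⟩ := h1.bound
    refine Asymptotics.IsBigO.of_bound C ?_
    have h3 : ∀ᶠ w : ℂ in 𝓝[≠] 0, ‖F w - (F 0 + deriv F 0 * w + deriv (deriv F) 0 / 2 * w ^ 2)‖ ≤
        C * ‖‖w‖ ^ 3‖ := hC.filter_mono nhdsWithin_le_nhds
    filter_upwards [h3, self_mem_nhdsWithin] with w hw hw0
    have hw0' : w ≠ 0 := hw0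
    have e2 : (F w - F 0 - deriv F 0 * w) / w ^ 2 - deriv (deriv F) 0 / 2 =
        (F w - (F 0 + deriv F 0 * w + deriv (deriv F) 0 / 2 * w ^ 2)) / w ^ 2 := by
      field_simp
      ring
    rw [e2, norm_div, norm_pow, div_le_iff₀ (by positivity)]
    rw [norm_pow, norm_norm] at hw
    calc _ ≤ C * ‖w‖ ^ 3 := hw
      _ = C * ‖w‖ * ‖w‖ ^ 2 := by ring
  have h4 : Tendsto (fun w : ℂ => w) (𝓝[≠] 0) (𝓝 0) := nhdsWithin_le_nhds
  have h5 := h2.trans_tendsto h4
  have h6 := h5.add_const (deriv (deriv F) 0 / 2)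
  simpa using h6

/-- first order version -/
lemma taylor1 {F : ℂ → ℂ} (hF : DifferentiableAt ℂ F 0) (h0 : F 0 = 0) :
    Tendsto (fun w => F w / w) (𝓝[≠] 0) (𝓝 (deriv F 0)) := by
  have h := hF.hasDerivAt.tendsto_slope
  refine h.congr fun w => ?_
  simp [slope, h0, div_eq_inv_mul]

/-- Second derivative of the linearisation. -/
lemma second {f h : ℂ → ℂ} {lam : ℂ} (hf : AnalyticAt ℂ f 0) (hh : AnalyticAt ℂ h 0)
    (f0 : f 0 = 0) (h0 : h 0 = 0) (f1 : deriv f 0 = 1) (h1 : deriv h 0 = lam) (hl : lam ≠ 0)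
    (hl1 : lam ≠ 1) (hfe : ∀ᶠ w in 𝓝 (0 : ℂ), h (f w) = f (lam * w)) :
    deriv (deriv f) 0 = deriv (deriv h) 0 / (lam ^ 2 - lam) := by
  have hne : ∀ᶠ w in 𝓝[≠] (0 : ℂ), f w ≠ 0 := by
    have := hf.differentiableAt.hasDerivAt.eventually_ne (c := 0) (by rw [f1]; exact one_ne_zero)
    exact this
  have ft : Tendsto f (𝓝[≠] 0) (𝓝[≠] 0) := by
    refine tendsto_nhdsWithin_iff.2 ⟨?_, hne⟩
    have := hf.continuousAt.tendsto
    rw [f0] at this
    exact this.mono_left nhdsWithin_le_nhds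
  have a1 := (taylor2 hh).comp ft
  have a2 := taylor1 hf.differentiableAt f0
  rw [f1] at a2
  have a3 := a1.mul (a2.pow 2)
  have a4 := taylor2 hf
  have lt : Tendsto (fun w : ℂ => lam * w) (𝓝[≠] 0) (𝓝[≠] 0) := by
    refine tendsto_nhdsWithin_iff.2 ⟨?_, ?_⟩
    · have : Continuous fun w : ℂ => lam * w := by fun_prop
      have := this.tendsto 0
      rw [mul_zero] at this
      exact this.mono_left nhdsWithin_le_nhds
    · filter_upwards [self_mem_nhdsWithin] with w hw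
      exact mul_ne_zero hl hw
  have a5 := (a4.comp lt).mul_const (lam ^ 2)
  have a6 := a5.sub (a4.const_mul lam)
  have key : (fun w => ((fun w => (h w - h 0 - deriv h 0 * w) / w ^ 2) ∘ f) w * (f w / w) ^ 2)
      =ᶠ[𝓝[≠] 0] fun w => ((fun w => (f w - f 0 - deriv f 0 * w) / w ^ 2) ∘ fun w => lam * w) w *
        lam ^ 2 - lam * ((f w - f 0 - deriv f 0 * w) / w ^ 2) := by
    filter_upwards [hne, self_mem_nhdsWithin, hfe.filter_mono nhdsWithin_le_nhds] with w hw hw0 hw1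
    have hw0' : w ≠ 0 := hw0
    simp only [Function.comp_apply, f0, h0, f1, h1, hw1]
    field_simp
    ring
  have a7 := tendsto_nhds_unique (a3.congr' key) a6
  have hd : lam ^ 2 - lam ≠ 0 := by
    intro h
    have : lam * (lam - 1) = 0 := by linear_combination h
    rcases mul_eq_zero.1 this with h | h
    · exact hl h
    · exact hl1 (sub_eq_zero.1 h)
  rw [eq_div_iff hd]
  linear_combination (-2) * a7

section

variable {d n s : ℕ} {S : Sys d n s} {KK : Option (Fin s) → (Fin n → ℂ) × (ℂ × ℂ) → ℂ}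
    {r : ℝ} {N : Set (Fin n → ℂ)} {ω : Option (Fin s) → (Fin n → ℂ) × ℂ → ℂ}

/-- The inverse of the Koenigs map at infinity: expansion. -/
lemma om_props (hLAM : StLAM) (hK : S.Koe KK) (hL : S.Lin KK N r ω) (X : Fin n → ℂ) (hX : X ∈ N) :
    AnalyticAt ℂ (fun w => ω none (X, w)) 0 ∧ deriv (fun w => ω none (X, w)) 0 = 1 ∧
    deriv (deriv (fun w => ω none (X, w))) 0 = S.bet X / (S.lam none X ^ 2 - S.lam none X) := by
  have hXU : X ∈ S.U := hL.NU hX
  have hl0 : S.lam none X ≠ 0 := hL.lam0 _ hX none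
  obtain ⟨-, -, L3, -, L5, L6⟩ := hLAM d n s S
  have hl1 : ‖S.lam none X‖ < 1 := lt_of_le_of_lt (L3 none X hXU) S.hθ
  have hne1 : S.lam none X ≠ 1 := by
    intro h
    rw [h, norm_one] at hl1
    exact lt_irrefl _ hl1
  have hfd : DifferentiableOn ℂ (fun w => ω none (X, w)) (ball 0 r) := by
    have h1 : DifferentiableOn ℂ (fun w : ℂ => (X, w)) (ball 0 r) := by fun_prop
    have h2 := (hL.ωd none).comp h1 (fun w hw => (⟨hX, hw⟩ : (X, w) ∈ N ×ˢ ball (0 : ℂ) r))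
    exact h2.congr (fun w _ => rfl)
  have hfa : AnalyticAt ℂ (fun w => ω none (X, w)) 0 := hfd.analyticAt (ball_mem_nhds _ hL.hr)
  have hhd : DifferentiableOn ℂ (S.hk none X) (ball 0 S.r₀) := by
    have h1 : DifferentiableOn ℂ (fun w : ℂ => (X, w)) (ball 0 S.r₀) := by fun_prop
    have h2 := (L5 none).comp h1 (fun w hw => (⟨hXU, hw⟩ : (X, w) ∈ S.U ×ˢ ball (0 : ℂ) S.r₀))
    exact h2.congr (fun w _ => rfl)
  have hha : AnalyticAt ℂ (S.hk none X) 0 := hhd.analyticAt (ball_mem_nhds _ S.hr₀)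
  have f0 : ω none (X, 0) = 0 := hL.ω0 none X hX
  have h0 : S.hk none X 0 = 0 := by
    have := (L6 none X hXU 0 (by rw [norm_zero]; exact S.hr₀)).1
    rw [norm_zero, mul_zero] at this
    exact norm_le_zero_iff.1 this
  have hK1 := hK.der none X hXU hl0
  have hKd : DifferentiableAt ℂ (fun z => KK none (X, S.cht none X z)) 0 :=
    differentiableAt_of_deriv_ne_zero (by rw [hK1]; exact one_ne_zero)
  have f1 : deriv (fun w => ω none (X, w)) 0 = 1 := by
    have a1 : HasDerivAt (fun z => KK none (X, S.cht none X z)) 1 (ω none (X, 0)) := by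
      rw [f0, ← hK1]
      exact hKd.hasDerivAt
    have a2 := a1.comp (0 : ℂ) hfa.differentiableAt.hasDerivAt
    have a3 : (fun w : ℂ => w) =ᶠ[𝓝 0]
        (fun z => KK none (X, S.cht none X z)) ∘ (fun w => ω none (X, w)) := by
      filter_upwards [ball_mem_nhds (0 : ℂ) hL.hr] with w hw
      rw [mem_ball_zero_iff] at hw
      exact ((hL.ωr none X hX w hw).2).symm
    have a4 := a2.congr_of_eventuallyEq a3
    have a5 := a4.unique (hasDerivAt_id' (0 : ℂ))
    rwa [one_mul] at a5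
  refine ⟨hfa, f1, ?_⟩
  refine second hfa hha f0 h0 f1 rfl hl0 hne1 ?_
  filter_upwards [ball_mem_nhds (0 : ℂ) hL.hr] with w hw
  rw [mem_ball_zero_iff] at hw
  obtain ⟨a, ha, h⟩ := hL.fe none X hX w hw
  show loc S.b none X ((S.F X)^[S.per none] (S.cht none X (ω none (X, w)))) = _
  rw [h]
  exact loc_smul_ch S.b none X _ ha

lemma orbit (hL : S.Lin KK N r ω) (X : Fin n → ℂ) (hX : X ∈ N) (hl : ‖S.lam none X‖ ≤ 1) (j : ℕ) :
    ∀ w : ℂ, ‖w‖ < r → ∃ a : ℂ, (S.F X)^[S.per none * j] (S.cht none X (ω none (X, w))) =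
      a • S.cht none X (ω none (X, S.lam none X ^ j * w)) := by
  induction j with
  | zero =>
    intro w _
    exact ⟨1, by simp⟩
  | succ j ih =>
    intro w hw
    obtain ⟨a, -, h⟩ := hL.fe none X hX w hw
    have hw' : ‖S.lam none X * w‖ < r := by
      rw [norm_mul]
      calc ‖S.lam none X‖ * ‖w‖ ≤ 1 * ‖w‖ := mul_le_mul_of_nonneg_right hl (norm_nonneg _)
        _ = ‖w‖ := one_mul _
        _ < r := hw
    obtain ⟨b, hb⟩ := ih _ hw'
    refine ⟨a ^ (d ^ (S.per none * j)) * b, ?_⟩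
    rw [Nat.mul_succ, Function.iterate_add_apply, h]
    unfold Sys.F at hb ⊢
    rw [hF_iter_smul, hb, smul_smul, pow_succ, mul_assoc (S.lam none X ^ j)]

end

lemma alg {f g w z : ℂ} (hw : w ≠ 0) (hf : f ≠ 0) (hz : z⁻¹ ≠ 0) (hg : g = z⁻¹) :
    ((g - 0 - 1 * w) / w ^ 2 - (f - 0 - 1 * w) / w ^ 2) / (f / w * (g / w)) = f⁻¹ - z := by
  subst hg
  have hz' : z ≠ 0 := fun h => hz (by rw [h, inv_zero])
  field_simp
  ring

end TNI

open TNI in
theorem TNI (_hORB : StORB) (hLAM : StLAM) (_hAU : StAU) : StTNI := by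
  intro d n s S KK r N ω Nt r₂ τ x κ Sx W Φ hD hM t ht
  obtain ⟨r', r'', hr'', hr''r', -, hinv⟩ := hD.lin.inv
  have h0t : (0 : ℂ) ∈ ball (0 : ℂ) τ := mem_ball_self hD.dsc.hτ
  have hN := hD.dsc.xN
  have hX0 : x 0 ∈ N := hN 0 h0t
  have hXt : x t ∈ N := hN t ht
  have hX0U : x 0 ∈ S.U := hD.lin.NU hX0
  have hlam := hD.dsc.lamc none
  have hl0 : S.lam none (x 0) ≠ 0 := hD.lin.lam0 _ hX0 none
  have hl1 : ‖S.lam none (x 0)‖ < 1 := lt_of_le_of_lt ((hLAM d n s S).2.2.1 none _ hX0U) S.hθ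
  obtain ⟨q, hq⟩ := hD.div none
  have hr := hD.lin.hr
  have K00 : KK none (x 0, S.cht none (x 0) 0) = 0 := hD.koe.zer none _ hX0U hl0
  have hKd : DifferentiableAt ℂ (fun z => KK none (x 0, S.cht none (x 0) z)) 0 :=
    differentiableAt_of_deriv_ne_zero (by rw [hD.koe.der none _ hX0U hl0]; exact one_ne_zero)
  obtain ⟨i1, i2, i3⟩ := hinv none (x 0) hX0
  -- the points `w`
  have hw1 : Tendsto (fun z => KK none (x 0, S.cht none (x 0) z)) (𝓝[≠] 0) (𝓝[≠] 0) := by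
    refine tendsto_nhdsWithin_iff.2 ⟨?_, ?_⟩
    · have := hKd.continuousAt.tendsto
      rw [K00] at this
      exact this.mono_left nhdsWithin_le_nhds
    · have h1 : ∀ᶠ z in 𝓝[≠] (0 : ℂ), ‖z‖ < r'' := by
        have : ball (0 : ℂ) r'' ∈ 𝓝[≠] (0 : ℂ) := nhdsWithin_le_nhds (ball_mem_nhds _ hr'')
        filter_upwards [this] with z hz
        rwa [mem_ball_zero_iff] at hz
      filter_upwards [h1, self_mem_nhdsWithin] with z hz hz0 h
      have h2 := i2 z (lt_of_lt_of_le hz hr''r') (i3 z hz)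
      rw [h, hD.lin.ω0 none _ hX0] at h2
      exact hz0 h2.symm
  have hinvt : Tendsto (fun z : ℂ => z⁻¹) (cocompact ℂ) (𝓝[≠] 0) := by
    rw [← Metric.cobounded_eq_cocompact]
    refine tendsto_nhdsWithin_iff.2 ⟨tendsto_inv₀_cobounded, ?_⟩
    filter_upwards [Bornology.eventually_ne_cobounded (0 : ℂ)] with z hz
    exact inv_ne_zero hz
  have hwt := hw1.comp hinvt
  have hlt : Tendsto (fun w : ℂ => S.lam none (x 0) ^ q * w) (𝓝[≠] 0) (𝓝[≠] 0) := by
    refine tendsto_nhdsWithin_iff.2 ⟨?_, ?_⟩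
    · have : Continuous fun w : ℂ => S.lam none (x 0) ^ q * w := by fun_prop
      have := this.tendsto 0
      rw [mul_zero] at this
      exact this.mono_left nhdsWithin_le_nhds
    · filter_upwards [self_mem_nhdsWithin] with w hw
      exact mul_ne_zero (pow_ne_zero _ hl0) hw
  have hgood : ∀ᶠ w in 𝓝[≠] (0 : ℂ), w ≠ 0 ∧ ‖w‖ < r₂ ∧ w ∉ Sx none 0 := by
    have h1 : ball (0 : ℂ) r₂ ∈ 𝓝[≠] (0 : ℂ) := nhdsWithin_le_nhds (ball_mem_nhds _ hD.hr₂)
    have h2 : ((Sx none 0) \ {0})ᶜ ∈ 𝓝[≠] (0 : ℂ) := by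
      refine nhdsWithin_le_nhds (IsOpen.mem_nhds ?_ ?_)
      · exact ((hD.fin none 0).subset sdiff_subset).isClosed.isOpen_compl
      · simp
    filter_upwards [h1, h2, self_mem_nhdsWithin] with w hw1 hw2 hw3
    refine ⟨hw3, by rwa [mem_ball_zero_iff] at hw1, fun h => hw2 ⟨h, hw3⟩⟩
  have E1 : ∀ᶠ z in cocompact ℂ, z⁻¹ ≠ 0 ∧ ‖z⁻¹‖ < r'' := by
    have h1 : ball (0 : ℂ) r'' ∈ 𝓝[≠] (0 : ℂ) := nhdsWithin_le_nhds (ball_mem_nhds _ hr'')
    filter_upwards [hinvt.eventually h1, hinvt.eventually self_mem_nhdsWithin] with z hz hz0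
    exact ⟨hz0, mem_ball_zero_iff.1 hz⟩
  have E2 := hwt.eventually self_mem_nhdsWithin
  have E3 := (hlt.comp hwt).eventually hgood
  -- the description of the motion
  have main : ∀ᶠ z in cocompact ℂ, z ∈ W ∧ z⁻¹ ≠ 0 ∧
      ω none (x 0, KK none (x 0, S.cht none (x 0) z⁻¹)) = z⁻¹ ∧
      KK none (x 0, S.cht none (x 0) z⁻¹) ≠ 0 ∧
      ω none (x t, KK none (x 0, S.cht none (x 0) z⁻¹)) ≠ 0 ∧
      Φ t z = (ω none (x t, KK none (x 0, S.cht none (x 0) z⁻¹)))⁻¹ := by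
    filter_upwards [E1, E2, E3] with z ⟨hz0, hzr⟩ hw0 ⟨hg1, hg2, hg3⟩
    simp only [Function.comp_apply] at hw0 hg1 hg2 hg3
    have hwr : ‖KK none (x 0, S.cht none (x 0) z⁻¹)‖ < r := i3 _ hzr
    have hωz := i2 _ (lt_of_lt_of_le hzr hr''r') hwr
    set w := KK none (x 0, S.cht none (x 0) z⁻¹) with hw
    have hw0' : w ≠ 0 := hw0
    have hone : ∀ u ∈ ball (0 : ℂ) τ, ω none (x u, w) ≠ 0 := by
      intro u hu h
      have h1 := (hD.lin.ωr none (x u) (hN u hu) w hwr).2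
      have h2 := (hD.lin.ωr none (x u) (hN u hu) 0 (by rwa [norm_zero])).2
      rw [h] at h1
      rw [hD.lin.ω0 none _ (hN u hu)] at h2
      exact hw0' (h1.symm.trans h2)
    have hAd : ∀ u ∈ ball (0 : ℂ) τ, Ad S ω Nt x κ u none 0 (S.lam none (x 0) ^ q * w)
        (ω none (x u, w))⁻¹ := by
      intro u hu
      unfold Ad
      rw [hD.dsc.κn u hu, one_mul]
      have h1 : (((ω none (x u, w))⁻¹, 1) : ℂ × ℂ) =
          (ω none (x u, w))⁻¹ • S.cht none (x u) (ω none (x u, w)) := by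
        show (((ω none (x u, w))⁻¹, 1) : ℂ × ℂ) = (ω none (x u, w))⁻¹ • ((1, ω none (x u, w)) : ℂ × ℂ)
        rw [Prod.smul_mk, smul_eq_mul, smul_eq_mul, mul_one, inv_mul_cancel₀ (hone u hu)]
      obtain ⟨a, ha⟩ := orbit hD.lin (x u) (hN u hu) (by rw [hlam u hu]; exact hl1.le) q w hwr
      rw [hlam u hu] at ha
      have h2 : (S.F (x u))^[Nt] ((ω none (x u, w))⁻¹ • S.cht none (x u) (ω none (x u, w))) =
          ((ω none (x u, w))⁻¹ ^ (d ^ Nt)) • (S.F (x u))^[Nt] (S.cht none (x u) (ω none (x u, w))) :=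
        hF_iter_smul _ _ _ _
      rw [h1, h2, hq, ha, smul_smul, cr_smul_left]
      have h3 : cr (S.cht none (x u) (ω none (x u, S.lam none (x 0) ^ q * w)))
          (S.pt ω none 0 (x u) (S.lam none (x 0) ^ q * w)) = 0 := cr_self _
      rw [h3, mul_zero]
    have hAd0 : Ad S ω Nt x κ 0 none 0 (S.lam none (x 0) ^ q * w) z := by
      have := hAd 0 h0t
      rwa [hωz, inv_inv] at this
    have hzW : z ∈ W := (hM.mem z).2 ⟨none, 0, S.hper none, _, hg1, hg2, hg3, hAd0⟩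
    refine ⟨hzW, hz0, hωz, hw0', hone t ht, ?_⟩
    have hcont : ContinuousOn (fun u => (ω none (x u, w))⁻¹) (ball 0 τ) := by
      refine ContinuousOn.inv₀ ?_ hone
      have h1 : ContinuousOn (fun u => (x u, w)) (ball 0 τ) :=
        hD.dsc.xd.continuousOn.prodMk continuousOn_const
      exact (hD.lin.ωd none).continuousOn.comp h1
        (fun u hu => ⟨hN u hu, by rwa [mem_ball_zero_iff]⟩)
    have := hM.unq none 0 (S.hper none) _ hg1 hg2 hg3 z hAd0 (fun u => (ω none (x u, w))⁻¹) hcont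
      ⟨0, h0t, by
        show (ω none (x 0, w))⁻¹ = Φ 0 z
        rw [hωz, inv_inv, hM.Φ0 z hzW]⟩ hAd t ht
    exact this.symm
  refine ⟨?_, ?_⟩
  · have h1 : {z | z ∈ W} ∈ cocompact ℂ := main.mono fun z hz => hz.1
    rw [← Metric.cobounded_eq_cocompact] at h1
    obtain ⟨R, -, hR⟩ := Filter.hasBasis_cobounded_norm.mem_iff.1 h1
    exact ⟨R, fun z hz => hR (show R ≤ ‖z‖ from hz.le)⟩
  · obtain ⟨A1, A2, A3⟩ := om_props hLAM hD.koe hD.lin (x t) hXt
    obtain ⟨B1, B2, B3⟩ := om_props hLAM hD.koe hD.lin (x 0) hX0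
    have C1 : deriv (deriv (fun w => ω none (x t, w))) 0 =
        deriv (deriv (fun w => ω none (x 0, w))) 0 := by
      rw [A3, B3, hlam t ht, hD.dsc.betc t ht]
    have f0 : ω none (x t, 0) = 0 := hD.lin.ω0 none _ hXt
    have g0 : ω none (x 0, 0) = 0 := hD.lin.ω0 none _ hX0
    have T1 := taylor2 A1
    have T2 := taylor2 B1
    have T3 := taylor1 A1.differentiableAt f0
    have T4 := taylor1 B1.differentiableAt g0
    rw [A2] at T3
    rw [B2] at T4
    have T5 := (T2.sub T1).div (T3.mul T4) (by norm_num)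
    rw [C1, sub_self, zero_div] at T5
    have T6 := T5.comp hwt
    refine T6.congr' ?_
    filter_upwards [main] with z ⟨_, hz0, hz1, hw0, hf, hΦ⟩
    rw [hΦ]
    simp only [Function.comp_apply, Pi.div_apply, f0, g0, A2, B2]
    exact alg hw0 hf hz0 hz1

end Pool.Agent.H790R3.RB
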