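import Mathlib
import Pool.Agent.H790R3.RB.Abs3
import Pool.Agent.H790R3.RB.TADO
import Pool.Agent.H790R3.RB.TALL
import Pool.Agent.H790R3.RB.TALLC
import Pool.Agent.H790R3.RB.TAU
import Pool.Agent.H790R3.RB.TCHAIN
import Pool.Agent.H790R3.RB.TCJ
import Pool.Agent.H790R3.RB.TCNJ
import Pool.Agent.H790R3.RB.TCONT
import Pool.Agent.H790R3.RB.TCOV
import Pool.Agent.H790R3.RB.TCPT
import Pool.Agent.H790R3.RB.TDI
import Pool.Agent.H790R3.RB.TDISC
import Pool.Agent.H790R3.RB.TEMIN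
import Pool.Agent.H790R3.RB.TER
import Pool.Agent.H790R3.RB.TEXC
import Pool.Agent.H790R3.RB.TEXT
import Pool.Agent.H790R3.RB.TFAM
import Pool.Agent.H790R3.RB.TFAT
import Pool.Agent.H790R3.RB.TFKB
import Pool.Agent.H790R3.RB.TGAINA
import Pool.Agent.H790R3.RB.TGAINB
import Pool.Agent.H790R3.RB.TGEN
import Pool.Agent.H790R3.RB.THYP
import Pool.Agent.H790R3.RB.TIN
import Pool.Agent.H790R3.RB.TINF
import Pool.Agent.H790R3.RB.TINJL
import Pool.Agent.H790R3.RB.TINV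
import Pool.Agent.H790R3.RB.TISO
import Pool.Agent.H790R3.RB.TJT
import Pool.Agent.H790R3.RB.TKOE
import Pool.Agent.H790R3.RB.TKOEN
import Pool.Agent.H790R3.RB.TLA
import Pool.Agent.H790R3.RB.TLAM
import Pool.Agent.H790R3.RB.TLF
import Pool.Agent.H790R3.RB.TLIN
import Pool.Agent.H790R3.RB.TLSC
import Pool.Agent.H790R3.RB.TMAXI
import Pool.Agent.H790R3.RB.TMAXV
import Pool.Agent.H790R3.RB.TMOB
import Pool.Agent.H790R3.RB.TMOT
import Pool.Agent.H790R3.RB.TMS
import Pool.Agent.H790R3.RB.TMUL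
import Pool.Agent.H790R3.RB.TNC
import Pool.Agent.H790R3.RB.TNU
import Pool.Agent.H790R3.RB.TNUM
import Pool.Agent.H790R3.RB.TONE
import Pool.Agent.H790R3.RB.TOPN
import Pool.Agent.H790R3.RB.TORB
import Pool.Agent.H790R3.RB.TPOLY
import Pool.Agent.H790R3.RB.TPQ
import Pool.Agent.H790R3.RB.TPROP
import Pool.Agent.H790R3.RB.TSP
import Pool.Agent.H790R3.RB.TST
import Pool.Agent.H790R3.RB.TSTEP
import Pool.Agent.H790R3.RB.TTNI
import Pool.Agent.H790R3.RB.TTOP
import Pool.Agent.H790R3.RB.TUSC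
import Pool.Agent.H790R3.RB.TWR
import Pool.Agent.H790R3.RB.TZZ

/-! Assembly of the project RB. -/

set_option autoImplicit false

open Topology Filter Metric Set MeasureTheory

namespace Pool.Agent.H790R3.RB

theorem t_ER : StER := ER WR
theorem t_LAM : StLAM := LAM WR
theorem t_ORB : StORB := ORB t_LAM
theorem t_CHAIN : StCHAIN := CHAIN WR
theorem t_ADO : StADO := ADO t_LAM
theorem t_AU : StAU := AU t_ORB POLY
theorem t_CNJ : StCNJ := CNJ t_ORB t_LAM t_AU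
theorem t_COV : StCOV := COV t_LAM
theorem t_CPT : StCPT := CPT t_LAM WR t_ER
theorem t_MS : StMS := MS MOT t_CHAIN PROP t_ORB
theorem t_TNI : StTNI := TNI t_ORB t_LAM t_AU
theorem t_DI : StDI := DI t_MS t_AU t_TNI t_CNJ EXT (GAINB GAINA) STEP t_LAM
theorem t_EXC : StEXC := EXC WR t_LAM t_ER t_ORB
theorem t_FAT : StFAT := FAT POLY t_CHAIN PROP
theorem t_FKB : StFKB := FKB t_FAT t_EXC t_LAM t_ORB
theorem t_KOE : StKOE := KOE t_LAM KOEN
theorem t_LIN : StLIN := LIN t_LAM INV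
theorem t_ABS : StABS :=
  ABS t_LAM t_KOE t_LIN t_DI USC DISC t_ADO LF IN t_CPT (OPN t_LAM LF) t_EXC t_FKB LSC
    (MAXV EMIN t_LAM) (NU LA) (ALLC t_LAM t_ER WR) (ZZ POLY) (JT t_LAM t_ADO) (ST t_COV t_LAM)
    (NC t_ER t_LAM) MAXI CONT
theorem t_FAM : StFAM := FAM CJ SP
theorem t_HYP : StHYP := HYP ISO (GEN POLY WR) t_LAM WR
theorem t_NUM : StNUM := NUM (ONE t_FAT t_LAM t_KOE t_LIN)
theorem t_TOP : StTOP := TOP SP (INJL SP WR) t_LAM
theorem t_INF : StINF := INF t_ABS t_FAM t_HYP t_NUM t_TOP (MUL SP) SP (MOB SP)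
/-- Every rational map of degree at least two whose set of non-attracted points has zero area is a
limit of hyperbolic rational maps of the same degree. -/
theorem t_ALL : StALL := ALL t_INF CJ (MOB SP) SP

end Pool.Agent.H790R3.RB
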