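import Mathlib
import Pool.Agent.H790R3.RB.St
import Pool.Agent.H790R3.RB.Basic

set_option autoImplicit false

open Topology Filter Metric Set MeasureTheory

namespace Pool.Agent.H790R3.RB

namespace EMIN

/-- the Lagrange type matrix `∏_{i' ≠ i} (j - c i')` is invertible -/
theorem lag {m : ℕ} (c : Fin m → ℂ) (hc : Function.Injective c) (W : ℂ) (hW : W ≠ 0) :
    (Matrix.of fun j i : Fin m =>
      W * ∏ i' ∈ Finset.univ.erase i, (((j : ℕ) : ℂ) - c i')).det ≠ 0 := by
  intro h0
  obtain ⟨a, ha, hMa⟩ := Matrix.exists_mulVec_eq_zero_iff.2 h0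
  apply ha
  -- the polynomial
  set q : Polynomial ℂ :=
    ∑ i : Fin m, Polynomial.C (a i) *
      ∏ i' ∈ Finset.univ.erase i, (Polynomial.X - Polynomial.C (c i')) with hq
  have hev : ∀ z : ℂ, q.eval z = ∑ i : Fin m, a i * ∏ i' ∈ Finset.univ.erase i, (z - c i') := by
    intro z
    simp [hq, Polynomial.eval_finsetSum, Polynomial.eval_prod]
  rcases Nat.eq_zero_or_pos m with hm | hm
  · subst hm
    funext i
    exact i.elim0
  have hdeg : q.natDegree < Fintype.card (Fin m) := by
    rw [Fintype.card_fin]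
    refine lt_of_le_of_lt (Polynomial.natDegree_sum_le_of_forall_le (n := m - 1) _ _ ?_) (by omega)
    intro i _
    refine le_trans (Polynomial.natDegree_C_mul_le _ _) ?_
    refine le_trans (Polynomial.natDegree_prod_le _ _) ?_
    refine le_trans (Finset.sum_le_sum (g := fun _ => 1) fun i' _ => ?_) ?_
    · exact Polynomial.natDegree_X_sub_C_le _
    · simp [Finset.card_erase_of_mem]
  have hq0 : q = 0 := by
    refine Polynomial.eq_zero_of_natDegree_lt_card_of_eval_eq_zero q
      (f := fun j : Fin m => ((j : ℕ) : ℂ)) ?_ ?_ hdeg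
    · intro j j' hjj
      have hjj' : ((j : ℕ) : ℂ) = ((j' : ℕ) : ℂ) := hjj
      have : (j : ℕ) = (j' : ℕ) := by exact_mod_cast hjj'
      exact Fin.ext this
    · intro j
      have h1 := congrFun hMa j
      simp only [Matrix.mulVec, dotProduct, Matrix.of_apply, Pi.zero_apply] at h1
      rw [hev]
      have h2 : W * ∑ i : Fin m, a i * ∏ i' ∈ Finset.univ.erase i, (((j : ℕ) : ℂ) - c i') = 0 := by
        rw [← h1, Finset.mul_sum]
        refine Finset.sum_congr rfl fun i _ => ?_
        ring
      exact (mul_eq_zero.1 h2).resolve_left hW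
  funext i
  have h3 := hev (c i)
  rw [hq0, Polynomial.eval_zero, Finset.sum_eq_single i] at h3
  · have h4 : ∏ i' ∈ Finset.univ.erase i, (c i - c i') ≠ 0 := by
      refine Finset.prod_ne_zero_iff.2 fun i' hi' => ?_
      rw [Finset.mem_erase] at hi'
      exact sub_ne_zero.2 fun h => hi'.1 (hc h).symm
    exact (mul_eq_zero.1 h3.symm).resolve_right h4
  · intro i₁ _ hi₁
    have : ∏ i' ∈ Finset.univ.erase i₁, (c i - c i') = 0 :=
      Finset.prod_eq_zero (Finset.mem_erase.2 ⟨hi₁.symm, Finset.mem_univ i⟩) (sub_self _)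
    rw [this, mul_zero]
  · intro h
    exact absurd (Finset.mem_univ i) h

end EMIN

theorem EMIN : StEMIN := by
  intro d n s S y hy hW hinj
  classical
  refine ⟨fun i => Sum.inr (Sum.inl i), ?_⟩
  have key : ∀ j i : Fin (2 * d - 2),
      fderiv ℂ (S.Er j) y (Pi.single (Sum.inr (Sum.inl i)) 1) =
        wr (S.co (yx y)) (1, 0) * ∏ i' ∈ Finset.univ.erase i, (((j : ℕ) : ℂ) - yc y i') := by
    intro j i
    -- differentiability
    have hyxd : Differentiable ℂ (fun y : Ix d n s → ℂ => yx y) := by
      unfold yx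
      fun_prop
    have hycd : ∀ i', Differentiable ℂ (fun y : Ix d n s → ℂ => yc y i') := by
      intro i'
      unfold yc
      fun_prop
    have hcod : DifferentiableAt ℂ (fun y : Ix d n s → ℂ => S.co (yx y)) y := by
      have h1 : DifferentiableAt ℂ S.co (yx y) :=
        (S.hco (yx y) hy).differentiableAt (isOpen_ball.mem_nhds hy)
      exact DifferentiableAt.comp y h1 hyxd.differentiableAt
    have hwr : ∀ p : ℂ × ℂ, DifferentiableAt ℂ (fun y : Ix d n s → ℂ => wr (S.co (yx y)) p) y := by
      intro p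
      have h1 : Differentiable ℂ (fun q : CV d × (ℂ × ℂ) => wr q.1 q.2) :=
        (wr_contDiff d 1).differentiable (by norm_num)
      have h2 : DifferentiableAt ℂ (fun y : Ix d n s → ℂ => ((S.co (yx y), p) : CV d × (ℂ × ℂ))) y :=
        hcod.prodMk (differentiableAt_const p)
      exact DifferentiableAt.comp (g := fun q : CV d × (ℂ × ℂ) => wr q.1 q.2)
        (f := fun y : Ix d n s → ℂ => ((S.co (yx y), p) : CV d × (ℂ × ℂ))) y (h1 _) h2
    have hprod : DifferentiableAt ℂ (fun y : Ix d n s → ℂ =>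
        ∏ i' : Fin (2 * d - 2), (((j : ℕ) : ℂ) - yc y i')) y := by
      have h1 : ContDiff ℂ 1 (fun y : Ix d n s → ℂ =>
        ∏ i' : Fin (2 * d - 2), (((j : ℕ) : ℂ) - yc y i')) := by
        refine contDiff_prod fun i' _ => ?_
        exact contDiff_const.sub (contDiff_apply ℂ ℂ (Sum.inr (Sum.inl i') : Ix d n s))
      have this := h1.differentiable (by norm_num)
      exact this.differentiableAt
    have hEr : DifferentiableAt ℂ (S.Er j) y := by
      unfold Sys.Er
      exact (hwr _).sub ((hwr _).mul hprod)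
    -- derivative along the line
    set v : Ix d n s → ℂ := Pi.single (Sum.inr (Sum.inl i)) 1 with hv
    have hline : HasDerivAt (fun t : ℂ => y + t • v) v 0 := by
      have h1 : HasDerivAt (fun t : ℂ => t • v) ((1 : ℂ) • v) 0 :=
        (hasDerivAt_id (0 : ℂ)).smul_const v
      rw [one_smul] at h1
      exact h1.const_add y
    have hcomp : HasDerivAt (fun t : ℂ => S.Er j (y + t • v)) (fderiv ℂ (S.Er j) y v) 0 := by
      have h1 : HasFDerivAt (S.Er j) (fderiv ℂ (S.Er j) y) (y + (0 : ℂ) • v) := by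
        rw [zero_smul, add_zero]
        exact hEr.hasFDerivAt
      exact h1.comp_hasDerivAt (0 : ℂ) hline
    have hyxl : ∀ t : ℂ, yx (y + t • v) = yx y := by
      intro t
      funext k
      simp [yx, hv]
    have hycl : ∀ (t : ℂ) (i' : Fin (2 * d - 2)), yc (y + t • v) i' =
        yc y i' + if i' = i then t else 0 := by
      intro t i'
      by_cases h : i' = i
      · subst h
        simp [yc, hv]
      · simp [yc, hv, h]
    have hform : (fun t : ℂ => S.Er j (y + t • v)) = fun t : ℂ =>
        wr (S.co (yx y)) (((j : ℕ) : ℂ), 1) -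
          wr (S.co (yx y)) (1, 0) * (((((j : ℕ) : ℂ) - yc y i) - t) *
            ∏ i' ∈ Finset.univ.erase i, (((j : ℕ) : ℂ) - yc y i')) := by
      funext t
      unfold Sys.Er
      rw [hyxl]
      congr 2
      rw [← Finset.mul_prod_erase Finset.univ _ (Finset.mem_univ i)]
      congr 1
      · rw [hycl]
        simp
        ring
      · refine Finset.prod_congr rfl fun i' hi' => ?_
        rw [hycl, if_neg (Finset.ne_of_mem_erase hi'), add_zero]
    have hder : HasDerivAt (fun t : ℂ => S.Er j (y + t • v))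
        (wr (S.co (yx y)) (1, 0) * ∏ i' ∈ Finset.univ.erase i, (((j : ℕ) : ℂ) - yc y i')) 0 := by
      rw [hform]
      have h1 : HasDerivAt (fun t : ℂ => (((j : ℕ) : ℂ) - yc y i) - t) (-1) 0 := by
        simpa using (hasDerivAt_id (0 : ℂ)).const_sub (((j : ℕ) : ℂ) - yc y i)
      have h2 := ((h1.mul_const (∏ i' ∈ Finset.univ.erase i, (((j : ℕ) : ℂ) - yc y i'))).const_mul
        (wr (S.co (yx y)) (1, 0))).const_sub (wr (S.co (yx y)) (((j : ℕ) : ℂ), 1))
      exact h2.congr_deriv (by ring)
    exact hcomp.unique hder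
  have hM : (Matrix.of fun j c : Fin (2 * d - 2) =>
      fderiv ℂ (S.Er j) y (Pi.single ((fun i => Sum.inr (Sum.inl i)) c) 1)) =
      Matrix.of fun j i : Fin (2 * d - 2) =>
        wr (S.co (yx y)) (1, 0) * ∏ i' ∈ Finset.univ.erase i, (((j : ℕ) : ℂ) - yc y i') := by
    ext j i
    simp only [Matrix.of_apply]
    exact key j i
  have hdet := EMIN.lag (yc y) hinj (wr (S.co (yx y)) (1, 0)) hW
  rw [← hM] at hdet
  convert hdet using 1

end Pool.Agent.H790R3.RB
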