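import Mathlib
import Pool.Agent.H790R3.RB.St
import Pool.Agent.Helper540.Holo

/-! Inverse functions with parameters, uniform radii on a compact set. -/

set_option autoImplicit false

open Topology Filter Metric Set MeasureTheory

namespace Pool.Agent.H790R3.RB

namespace INV

variable {V : Type} [NormedAddCommGroup V] [NormedSpace ℂ V] [FiniteDimensional ℂ V]

/-- the derivative of the map `(x, z) ↦ (x, L x z)` as an equivalence -/
noncomputable def eqv (A : V →L[ℂ] ℂ) (g : ℂ) (hg : g ≠ 0) : (V × ℂ) ≃L[ℂ] (V × ℂ) :=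
  ContinuousLinearEquiv.equivOfInverse
    ((ContinuousLinearMap.fst ℂ V ℂ).prod
      (A.comp (ContinuousLinearMap.fst ℂ V ℂ) + g • ContinuousLinearMap.snd ℂ V ℂ))
    ((ContinuousLinearMap.fst ℂ V ℂ).prod
      (g⁻¹ • (ContinuousLinearMap.snd ℂ V ℂ - A.comp (ContinuousLinearMap.fst ℂ V ℂ))))
    (by
      intro p
      rcases p with ⟨v, z⟩
      simp [hg])
    (by
      intro p
      rcases p with ⟨v, z⟩
      simp [hg])

omit [FiniteDimensional ℂ V] in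
theorem eqv_coe (A : V →L[ℂ] ℂ) (g : ℂ) (hg : g ≠ 0) :
    ((eqv A g hg : (V × ℂ) ≃L[ℂ] (V × ℂ)) : (V × ℂ) →L[ℂ] (V × ℂ)) =
      (ContinuousLinearMap.fst ℂ V ℂ).prod
      (A.comp (ContinuousLinearMap.fst ℂ V ℂ) + g • ContinuousLinearMap.snd ℂ V ℂ) := by
  ext <;> simp [eqv]

omit [FiniteDimensional ℂ V] in
/-- the derivative in the second variable -/
theorem deriv_snd {f : V × ℂ → ℂ} {x : V} {z : ℂ} (h : DifferentiableAt ℂ f (x, z)) :
    HasDerivAt (fun z => f (x, z)) (fderiv ℂ f (x, z) (0, 1)) z := by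
  have h1 : HasFDerivAt f (fderiv ℂ f (x, z)) (x, z) := h.hasFDerivAt
  have h2 : HasDerivAt (fun z : ℂ => ((x, z) : V × ℂ)) ((0, 1) : V × ℂ) z :=
    (hasDerivAt_const z x).prodMk (hasDerivAt_id z)
  exact h1.comp_hasDerivAt z h2

end INV

open INV in
theorem INV : StINV := by
  intro V _ _ _ B K r₀ L hB hr₀ hK hKB hL hL0
  classical
  set f : V × ℂ → ℂ := fun p => L p.1 p.2 with hf
  have hDo : IsOpen (B ×ˢ ball (0 : ℂ) r₀) := hB.prod isOpen_ball
  have hcd : ContDiffOn ℂ 1 f (B ×ˢ ball (0 : ℂ) r₀) :=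
    Helper540.contDiffOn_of_differentiableOn hDo hL 1
  set g : V × ℂ → ℂ := fun p => fderiv ℂ f p (0, 1) with hg
  have hgc : ContinuousOn g (B ×ˢ ball (0 : ℂ) r₀) := by
    have := hcd.continuousOn_fderiv_of_isOpen hDo le_rfl
    exact this.clm_apply continuousOn_const
  -- the good open set
  have hGo : IsOpen ((B ×ˢ ball (0 : ℂ) r₀) ∩ g ⁻¹' (ball 1 (1 / 2))) :=
    hgc.isOpen_inter_preimage hDo isOpen_ball
  have hKG : K ×ˢ ({0} : Set ℂ) ⊆ (B ×ˢ ball (0 : ℂ) r₀) ∩ g ⁻¹' (ball 1 (1 / 2)) := by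
    rintro ⟨x, z⟩ ⟨hx, hz⟩
    have hz' : z = 0 := hz
    subst hz'
    have hxB : x ∈ B := hKB hx
    have hmem : (x, (0 : ℂ)) ∈ B ×ˢ ball (0 : ℂ) r₀ := ⟨hxB, mem_ball_self hr₀⟩
    refine ⟨hmem, ?_⟩
    have h1 := deriv_snd (hL.differentiableAt (hDo.mem_nhds hmem))
    have h2 : g (x, 0) = 1 := by
      rw [← (hL0 x hxB).2]
      exact h1.deriv.symm
    rw [mem_preimage, h2]
    exact mem_ball_self (by norm_num)
  obtain ⟨N, W, hNo, hWo, hKN, h0W, hNW⟩ := generalized_tube_lemma hK isCompact_singleton hGo hKG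
  obtain ⟨s₀, hs₀, hsW⟩ := Metric.isOpen_iff.1 hWo 0 (h0W rfl)
  set s : ℝ := min s₀ r₀ with hsdef
  have hs : 0 < s := lt_min hs₀ hr₀
  have hsr : s ≤ r₀ := min_le_right _ _
  have hin : ∀ x ∈ N, ∀ z ∈ ball (0 : ℂ) s, (x, z) ∈ B ×ˢ ball (0 : ℂ) r₀ ∧ ‖g (x, z) - 1‖ < 1 / 2 := by
    intro x hx z hz
    have hz' : z ∈ W := hsW (ball_subset_ball (min_le_left _ _) hz)
    have h1 := hNW (show (x, z) ∈ N ×ˢ W from ⟨hx, hz'⟩)
    refine ⟨h1.1, ?_⟩
    have h2 : g (x, z) ∈ ball (1 : ℂ) (1 / 2) := h1.2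
    rwa [mem_ball, dist_eq_norm] at h2
  have hNB : N ⊆ B := fun x hx => (hin x hx 0 (mem_ball_self hs)).1.1
  have hder : ∀ x ∈ N, ∀ z ∈ ball (0 : ℂ) s, HasDerivAt (L x) (g (x, z)) z := by
    intro x hx z hz
    exact deriv_snd (hL.differentiableAt (hDo.mem_nhds (hin x hx z hz).1))
  have hlip : ∀ x ∈ N, ∀ z ∈ ball (0 : ℂ) s, ∀ z' ∈ ball (0 : ℂ) s,
      ‖L x z - L x z' - (z - z')‖ ≤ 1 / 2 * ‖z - z'‖ := by
    intro x hx z hz z' hz'
    have h1 := Convex.norm_image_sub_le_of_norm_hasDerivWithin_le (f := fun z => L x z - z)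
      (f' := fun z => g (x, z) - 1) (C := 1 / 2) (s := ball (0 : ℂ) s) (x := z') (y := z)
      (fun y hy => ((hder x hx y hy).sub (hasDerivAt_id y)).hasDerivWithinAt)
      (fun y hy => (hin x hx y hy).2.le) (convex_ball _ _) hz' hz
    have h2 : L x z - L x z' - (z - z') = (L x z - z) - (L x z' - z') := by ring
    rw [h2]
    exact h1
  have hinj : ∀ x ∈ N, ∀ z ∈ ball (0 : ℂ) s, ∀ z' ∈ ball (0 : ℂ) s, L x z = L x z' → z = z' := by
    intro x hx z hz z' hz' he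
    have h1 := hlip x hx z hz z' hz'
    rw [he, sub_self, zero_sub, norm_neg] at h1
    have h2 : ‖z - z'‖ ≤ 0 := by linarith
    exact sub_eq_zero.1 (norm_le_zero_iff.1 h2)
  have hsurj : ∀ x ∈ N, ∀ w : ℂ, ‖w‖ < s / 4 → ∃ z : ℂ, ‖z‖ < s ∧ L x z = w := by
    intro x hx w hw
    have happ : ApproximatesLinearOn (L x) ((ContinuousLinearEquiv.refl ℂ ℂ : ℂ ≃L[ℂ] ℂ) : ℂ →L[ℂ] ℂ)
        (ball (0 : ℂ) s) (1 / 2) := by
      intro z hz z' hz'
      simpa using hlip x hx z hz z' hz'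
    have h2 := happ.surjOn_closedBall_of_nonlinearRightInverse
      (ContinuousLinearEquiv.refl ℂ ℂ).toNonlinearRightInverse (ε := s / 2) (b := 0) (by positivity)
      (by
        intro z hz
        rw [mem_closedBall_zero_iff] at hz
        rw [mem_ball_zero_iff]
        linarith)
    have h3 : w ∈ closedBall (L x 0)
        ((((ContinuousLinearEquiv.refl ℂ ℂ).toNonlinearRightInverse.nnnorm : ℝ)⁻¹ - ((1 / 2 : NNReal) : ℝ)) * (s / 2)) := by
      rw [(hL0 x (hNB hx)).1, mem_closedBall_zero_iff]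
      have h4 : ((ContinuousLinearEquiv.refl ℂ ℂ).toNonlinearRightInverse.nnnorm : ℝ) = 1 := by
        simp [ContinuousLinearEquiv.toNonlinearRightInverse]
      rw [h4]
      have h5 : ((1 / 2 : NNReal) : ℝ) = 1 / 2 := by norm_num
      rw [h5]
      linarith
    obtain ⟨z, hz, hz2⟩ := h2 h3
    refine ⟨z, ?_, hz2⟩
    rw [mem_closedBall_zero_iff] at hz
    linarith
  choose! ω hω1 hω2 using hsurj
  refine ⟨N, s / 4, s, s / 8, ω, hNo, fun x hx => hKN hx, hNB, by positivity, by positivity,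
    by linarith, hsr, ?_, ?_⟩
  · rintro ⟨x₁, w₁⟩ ⟨hx₁, hw₁⟩
    rw [mem_ball_zero_iff] at hw₁
    set z₁ : ℂ := ω x₁ w₁ with hz₁
    have hz₁s : z₁ ∈ ball (0 : ℂ) s := by
      rw [mem_ball_zero_iff]
      exact hω1 x₁ hx₁ w₁ hw₁
    have hmem := (hin x₁ hx₁ z₁ hz₁s).1
    have hg0 : g (x₁, z₁) ≠ 0 := by
      intro h0
      have := (hin x₁ hx₁ z₁ hz₁s).2
      rw [h0, zero_sub, norm_neg, norm_one] at this
      norm_num at this
    set A : V →L[ℂ] ℂ := (fderiv ℂ f (x₁, z₁)).comp (ContinuousLinearMap.inl ℂ V ℂ) with hA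
    have hG : HasStrictFDerivAt (fun p : V × ℂ => (p.1, f p))
        ((eqv A (g (x₁, z₁)) hg0 : (V × ℂ) ≃L[ℂ] (V × ℂ)) : (V × ℂ) →L[ℂ] (V × ℂ)) (x₁, z₁) := by
      have h1 : HasStrictFDerivAt f (fderiv ℂ f (x₁, z₁)) (x₁, z₁) :=
        (hcd.contDiffAt (hDo.mem_nhds hmem)).hasStrictFDerivAt one_ne_zero
      have h2 := (hasStrictFDerivAt_fst (𝕜 := ℂ) (E := V) (F := ℂ) (p := (x₁, z₁))).prodMk h1
      have h3 : ((eqv A (g (x₁, z₁)) hg0 : (V × ℂ) ≃L[ℂ] (V × ℂ)) : (V × ℂ) →L[ℂ] (V × ℂ)) =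
          (ContinuousLinearMap.fst ℂ V ℂ).prod (fderiv ℂ f (x₁, z₁)) := by
        rw [eqv_coe]
        congr 1
        ext v
        · simp [hA]
        · simp [hg]
      rw [h3]
      exact h2
    have : CompleteSpace (V × ℂ) := FiniteDimensional.complete ℂ (V × ℂ)
    set H := hG.localInverse with hH
    have hev := hG.eventually_right_inverse
    have hHc : ContinuousAt H (x₁, f (x₁, z₁)) := hG.localInverse_continuousAt
    have hHd : HasStrictFDerivAt H _ (x₁, f (x₁, z₁)) := hG.to_localInverse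
    have hfz : f (x₁, z₁) = w₁ := hω2 x₁ hx₁ w₁ hw₁
    rw [hfz] at hHc hHd hev
    have hH1 : H (x₁, w₁) = (x₁, z₁) := by
      have := hG.localInverse_apply_image
      rw [hfz] at this
      exact this
    have hev2 : ∀ᶠ p in 𝓝 (x₁, w₁), (H p).2 ∈ ball (0 : ℂ) s := by
      have h1 : ContinuousAt (fun p => (H p).2) (x₁, w₁) := hHc.snd
      refine h1.eventually_mem (isOpen_ball.mem_nhds ?_)
      show (H (x₁, w₁)).2 ∈ ball (0 : ℂ) s
      rw [hH1]
      exact hz₁s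
    have hev3 : ∀ᶠ p : V × ℂ in 𝓝 (x₁, w₁), p ∈ N ×ˢ ball (0 : ℂ) (s / 4) :=
      (hNo.prod isOpen_ball).mem_nhds ⟨hx₁, by rwa [mem_ball_zero_iff]⟩
    have hev4 : (fun p : V × ℂ => ω p.1 p.2) =ᶠ[𝓝 (x₁, w₁)] fun p => (H p).2 := by
      filter_upwards [hev, hev2, hev3] with p hp1 hp2 hp3
      have hp1' : (((H p).1, L (H p).1 (H p).2) : V × ℂ) = p := hp1
      have hp11 : (H p).1 = p.1 := (Prod.ext_iff.1 hp1').1
      have hp12 : L (H p).1 (H p).2 = p.2 := (Prod.ext_iff.1 hp1').2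
      rw [hp11] at hp12
      have hw : ‖p.2‖ < s / 4 := by
        have := hp3.2
        rwa [mem_ball_zero_iff] at this
      refine hinj p.1 hp3.1 _ ?_ _ hp2 ?_
      · rw [mem_ball_zero_iff]
        exact hω1 p.1 hp3.1 p.2 hw
      · rw [hω2 p.1 hp3.1 p.2 hw, hp12]
    have hdf : DifferentiableAt ℂ (fun p : V × ℂ => (H p).2) (x₁, w₁) :=
      (hHd.hasFDerivAt.differentiableAt).snd
    exact (hdf.congr_of_eventuallyEq hev4).differentiableWithinAt
  · intro x hx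
    have hsz : (0 : ℂ) ∈ ball (0 : ℂ) s := mem_ball_self hs
    refine ⟨?_, ?_, ?_, ?_⟩
    · have h0 : ‖(0 : ℂ)‖ < s / 4 := by
        rw [norm_zero]
        positivity
      refine hinj x hx _ ?_ 0 hsz ?_
      · rw [mem_ball_zero_iff]
        exact hω1 x hx 0 h0
      · rw [hω2 x hx 0 h0, (hL0 x (hNB hx)).1]
    · intro w hw
      exact ⟨hω1 x hx w hw, hω2 x hx w hw⟩
    · intro z hz hw
      refine hinj x hx _ ?_ z (by rwa [mem_ball_zero_iff]) ?_
      · rw [mem_ball_zero_iff]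
        exact hω1 x hx _ hw
      · exact hω2 x hx _ hw
    · intro z hz
      have hz1 : z ∈ ball (0 : ℂ) s := by
        rw [mem_ball_zero_iff]
        linarith
      have h1 := hlip x hx z hz1 0 hsz
      rw [(hL0 x (hNB hx)).1, sub_zero, sub_zero] at h1
      have h2 : ‖L x z‖ ≤ ‖L x z - z‖ + ‖z‖ := by
        calc ‖L x z‖ = ‖(L x z - z) + z‖ := by rw [sub_add_cancel]
          _ ≤ _ := norm_add_le _ _
      linarith

end Pool.Agent.H790R3.RB
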