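import Mathlib
import Pool.Agent.H790R3.RB.St2
import Pool.Agent.H790R3.RB.Basic

/-! MUL: uniform attraction in a chart gives a multiplier of modulus less than one. -/

set_option autoImplicit false

open Topology Filter Metric Set MeasureTheory
open scoped OnePoint

namespace Pool.Agent.H790R3.RB

namespace MUL

/-- the chart on the sphere is open at the base point -/
theorem open_chart {s : ℕ} (β : Fin s → Unit → ℂ) (k : Option (Fin s)) {ε : ℝ} (hε : 0 < ε) :
    (fun z => pr (ch β k () z)) '' ball (0 : ℂ) ε ∈ 𝓝 (pr (ch β k () 0)) := by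
  cases k with
  | none =>
    have h0 : pr (ch β none () 0) = ∞ := by simp [pr, ch]
    rw [h0]
    have hmem : ((↑) '' (closedBall (0 : ℂ) (1 / ε))ᶜ ∪ {∞} : Set (OnePoint ℂ)) ∈
        𝓝 (∞ : OnePoint ℂ) :=
      OnePoint.hasBasis_nhds_infty.mem_of_mem
        ⟨isClosed_closedBall, isCompact_closedBall _ _⟩
    refine mem_of_superset hmem ?_
    rintro y (⟨w, hw, rfl⟩ | hy)
    · have hw' : 1 / ε < ‖w‖ := by
        have : ¬ (‖w‖ ≤ 1 / ε) := by simpa using hw
        exact not_le.mp this
      have hw0 : w ≠ 0 := by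
        intro h
        rw [h, norm_zero] at hw'
        exact absurd hw' (not_lt.mpr (by positivity))
      refine ⟨w⁻¹, ?_, ?_⟩
      · rw [mem_ball_zero_iff, norm_inv]
        rw [inv_lt_comm₀ (norm_pos_iff.mpr hw0) hε]
        simpa using hw'
      · simp [pr, ch, hw0]
    · rw [mem_singleton_iff] at hy
      subst hy
      exact ⟨0, mem_ball_self hε, h0⟩
  | some k =>
    have hg : ∀ z : ℂ, pr (ch β (some k) () z) = ((β k () + z : ℂ) : OnePoint ℂ) := by
      intro z
      simp [pr, ch]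
    rw [hg]
    have hmem : ((↑) '' ball (β k () : ℂ) ε : Set (OnePoint ℂ)) ∈
        𝓝 ((β k () + 0 : ℂ) : OnePoint ℂ) := by
      refine (OnePoint.isOpenEmbedding_coe.isOpenMap _ isOpen_ball).mem_nhds ?_
      exact ⟨β k () + 0, by simpa using hε, rfl⟩
    refine mem_of_superset hmem ?_
    rintro y ⟨w, hw, rfl⟩
    refine ⟨w - β k (), ?_, ?_⟩
    · rw [mem_ball_zero_iff, ← dist_eq_norm]; exact hw
    · show pr (ch β (some k) () (w - β k ())) = _
      rw [hg]
      congr 1
      ring

/-- the denominator of the local coordinate -/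
noncomputable def den {s : ℕ} (k : Option (Fin s)) (p : ℂ × ℂ) : ℂ :=
  match k with
  | none => p.1
  | some _ => p.2

theorem den_cont {s : ℕ} (k : Option (Fin s)) : Continuous (den k) := by
  cases k with
  | none => exact continuous_fst
  | some k => exact continuous_snd

theorem den_smul {s : ℕ} (β : Fin s → Unit → ℂ) (k : Option (Fin s)) (p : ℂ × ℂ)
    (h : den k p ≠ 0) : p = den k p • ch β k () (loc β k () p) := by
  cases k with
  | none =>
    have h' : p.1 ≠ 0 := h
    apply Prod.ext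
    · simp [den, ch]
    · simp only [den, ch, loc, Prod.smul_snd, smul_eq_mul]
      field_simp
  | some k =>
    have h' : p.2 ≠ 0 := h
    apply Prod.ext
    · simp only [den, ch, loc, Prod.smul_fst, smul_eq_mul]
      field_simp
      ring
    · simp [den, ch]

theorem den_ch {s : ℕ} (β : Fin s → Unit → ℂ) (k : Option (Fin s)) (z : ℂ) :
    den k (ch β k () z) = 1 := by
  cases k with
  | none => rfl
  | some k => rfl

theorem den_smul' {s : ℕ} (k : Option (Fin s)) (a : ℂ) (p : ℂ × ℂ) :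
    den k (a • p) = a * den k p := by
  cases k with
  | none => rfl
  | some k => rfl

theorem loc_diff {s : ℕ} (β : Fin s → Unit → ℂ) (k : Option (Fin s)) {p : ℂ × ℂ}
    (h : den k p ≠ 0) : DifferentiableAt ℂ (loc β k ()) p := by
  cases k with
  | none =>
    have h' : p.1 ≠ 0 := h
    have h1 : DifferentiableAt ℂ (fun q : ℂ × ℂ => q.2 * (q.1)⁻¹) p :=
      (differentiableAt_snd).mul ((differentiableAt_fst (𝕜 := ℂ)).inv h')
    refine h1.congr_of_eventuallyEq (Filter.Eventually.of_forall fun q => ?_)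
    show q.2 / q.1 = q.2 * (q.1)⁻¹
    rw [div_eq_mul_inv]
  | some k =>
    have h' : p.2 ≠ 0 := h
    have h1 : DifferentiableAt ℂ (fun q : ℂ × ℂ => q.1 * (q.2)⁻¹ - β k ()) p :=
      ((differentiableAt_fst).mul ((differentiableAt_snd (𝕜 := ℂ)).inv h')).sub_const _
    refine h1.congr_of_eventuallyEq (Filter.Eventually.of_forall fun q => ?_)
    show q.1 / q.2 - β k () = q.1 * (q.2)⁻¹ - β k ()
    rw [div_eq_mul_inv]

theorem ch_diff {s : ℕ} (β : Fin s → Unit → ℂ) (k : Option (Fin s)) :
    Differentiable ℂ (ch β k ()) := by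
  cases k with
  | none => exact (differentiable_const _).prodMk differentiable_id
  | some k => exact ((differentiable_id).const_add _).prodMk (differentiable_const _)

end MUL

open MUL in
theorem MUL (hSP : StSP) : StMUL := by
  intro d x p s β k hd hx hS
  obtain ⟨hcont, hit, hpr, -, hprc⟩ := hSP d x (by omega) hx
  obtain ⟨hp, hfix, U, hU, hatt⟩ := hS
  set g : ℂ → OnePoint ℂ := fun z => pr (ch β k () z) with hg
  set h : ℂ → ℂ := fun z => loc β k () ((hF x)^[p] (ch β k () z)) with hh
  have hFd : Differentiable ℂ (fun q : ℂ × ℂ => (hF x)^[p] q) := by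
    have h1 := hF_iter_differentiable d p
    exact h1.comp ((differentiable_const x).prodMk differentiable_id)
  have hgc : Continuous g :=
    hprc.comp_continuous (ch_diff β k).continuous (fun z => ch_ne_zero β k () z)
  have hginj : Function.Injective g := by
    intro z z' hzz
    exact cr_ch β k () ((hpr _ _ (ch_ne_zero β k () z) (ch_ne_zero β k () z')).mp hzz)
  have hg0 : g 0 = pr (ch β k () 0) := rfl
  rw [← hg0] at hfix hU hatt
  -- the fixed point
  have hpfix : pr ((hF x)^[p] (ch β k () 0)) = pr (ch β k () 0) := by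
    rw [← hit _ (ch_ne_zero β k () 0)]
    exact hfix
  obtain ⟨a, ha, hFa⟩ := (cr_eq_zero_iff (hx.iter_ne p (ch_ne_zero β k () 0))
    (ch_ne_zero β k () 0)).mp ((hpr _ _ (hx.iter_ne p (ch_ne_zero β k () 0))
      (ch_ne_zero β k () 0)).mp hpfix)
  have hh0 : h 0 = 0 := by
    show loc β k () ((hF x)^[p] (ch β k () 0)) = 0
    rw [hFa]
    exact loc_smul_ch β k () 0 ha
  -- the good disc
  have hdc : Continuous fun z : ℂ => den k ((hF x)^[p] (ch β k () z)) :=
    (den_cont k).comp (hFd.continuous.comp (ch_diff β k).continuous)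
  have hd0 : den k ((hF x)^[p] (ch β k () 0)) ≠ 0 := by
    rw [hFa, den_smul', den_ch, mul_one]; exact ha
  have hW : {z : ℂ | den k ((hF x)^[p] (ch β k () z)) ≠ 0} ∈ 𝓝 (0 : ℂ) :=
    hdc.continuousAt.eventually_ne hd0
  obtain ⟨ε, hε, hεW⟩ := Metric.mem_nhds_iff.mp hW
  have hgh : ∀ z ∈ ball (0 : ℂ) ε, g (h z) = (sp x)^[p] (g z) := by
    intro z hz
    have h1 : den k ((hF x)^[p] (ch β k () z)) ≠ 0 := hεW hz
    have h2 := den_smul β k _ h1
    have h3 : (sp x)^[p] (g z) = pr ((hF x)^[p] (ch β k () z)) :=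
      hit _ (ch_ne_zero β k () z) p
    rw [h3]
    show pr (ch β k () (h z)) = _
    rw [hpr _ _ (ch_ne_zero β k () _) (hx.iter_ne p (ch_ne_zero β k () z)), h2, cr_smul_right]
    show _ * cr (ch β k () (loc β k () ((hF x)^[p] (ch β k () z)))) _ = 0
    rw [cr_self, mul_zero]
  have hhd : ∀ z ∈ ball (0 : ℂ) ε, DifferentiableAt ℂ h z := by
    intro z hz
    have h1 : den k ((hF x)^[p] (ch β k () z)) ≠ 0 := hεW hz
    exact (loc_diff β k h1).comp z ((hFd _).comp z (ch_diff β k z))
  -- the small disc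
  obtain ⟨j0, hj0⟩ := Filter.eventually_atTop.mp (hatt _ (open_chart β k hε))
  have hfixj : ∀ j : ℕ, (sp x)^[p * j] (g 0) = g 0 := by
    intro j
    rw [Function.iterate_mul]
    exact Function.iterate_fixed hfix j
  have hsmall : ∀ᶠ z in 𝓝 (0 : ℂ), z ∈ ball (0 : ℂ) ε ∧ g z ∈ U ∧
      ∀ j ∈ Finset.range j0, (sp x)^[p * j] (g z) ∈ g '' ball (0 : ℂ) ε := by
    have hb1 : ∀ᶠ z in 𝓝 (0 : ℂ), z ∈ ball (0 : ℂ) ε := ball_mem_nhds (0 : ℂ) hε
    refine hb1.and ((hgc.continuousAt.eventually hU).and ?_)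
    rw [Filter.eventually_all_finset]
    intro j _
    have hc : ContinuousAt (fun z => (sp x)^[p * j] (g z)) 0 :=
      ((hcont.iterate _).comp hgc).continuousAt
    refine hc.eventually ?_
    show g '' ball (0 : ℂ) ε ∈ 𝓝 ((sp x)^[p * j] (g 0))
    rw [hfixj]
    exact open_chart β k hε
  obtain ⟨δ, hδ, hδs⟩ := Metric.mem_nhds_iff.mp hsmall
  have hiter : ∀ j : ℕ, ∀ z ∈ ball (0 : ℂ) δ, h^[j] z ∈ ball (0 : ℂ) ε ∧
      g (h^[j] z) = (sp x)^[p * j] (g z) := by
    intro j
    induction j with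
    | zero =>
      intro z hz
      exact ⟨(hδs hz).1, rfl⟩
    | succ j ih =>
      intro z hz
      obtain ⟨h1, h2⟩ := ih z hz
      have h3 : g (h^[j + 1] z) = (sp x)^[p * (j + 1)] (g z) := by
        rw [Function.iterate_succ_apply', hgh _ h1, h2, ← Function.iterate_add_apply]
        rw [show p + p * j = p * (j + 1) by ring]
      refine ⟨?_, h3⟩
      have h4 : (sp x)^[p * (j + 1)] (g z) ∈ g '' ball (0 : ℂ) ε := by
        by_cases hj : j + 1 < j0
        · exact (hδs hz).2.2 _ (Finset.mem_range.mpr hj)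
        · exact hj0 _ (not_lt.mp hj) _ (hδs hz).2.1
      obtain ⟨y, hy, hy'⟩ := h4
      rw [← h3] at hy'
      rw [← hginj hy']
      exact hy
  have hdiff : ∀ j : ℕ, DifferentiableOn ℂ (h^[j]) (ball (0 : ℂ) δ) := by
    intro j
    induction j with
    | zero => exact differentiableOn_id
    | succ j ih =>
      rw [Function.iterate_succ']
      intro z hz
      exact ((hhd _ (hiter j z hz).1).comp_differentiableWithinAt z (ih z hz))
  -- contraction at some time
  obtain ⟨j1, hj1⟩ := Filter.eventually_atTop.mp (hatt _ (open_chart β k (half_pos hδ)))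
  set j := j1 + 1 with hj
  have hmaps : MapsTo (h^[j]) (ball (0 : ℂ) δ) (ball (h^[j] 0) (δ / 2)) := by
    intro z hz
    have h0 : h^[j] 0 = 0 := Function.iterate_fixed hh0 j
    rw [h0]
    obtain ⟨y, hy, hy'⟩ := hj1 j (by omega) _ (hδs hz).2.1
    have h3 := (hiter j z hz).2
    rw [← h3] at hy'
    rw [← hginj hy']
    exact hy
  have hder := Complex.norm_deriv_le_div_of_mapsTo_ball (hdiff j)
    (hmaps.mono_right ball_subset_closedBall) hδ
  have hder' : deriv (h^[j]) 0 = deriv h 0 ^ j :=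
    (HasDerivAt.iterate _ (hhd 0 (mem_ball_self hε)).hasDerivAt hh0 j).deriv
  rw [hder', norm_pow] at hder
  have h12 : δ / 2 / δ = 1 / 2 := by field_simp
  rw [h12] at hder
  by_contra hcon
  have h1 : 1 ≤ ‖deriv h 0‖ := not_lt.mp hcon
  have h2 : 1 ≤ ‖deriv h 0‖ ^ j := one_le_pow₀ h1
  linarith

end Pool.Agent.H790R3.RB
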