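import Mathlib
import Pool.Agent.H790R3.RB.St
import Pool.Agent.H790R3.RB.Basic

/-! USC: upper semicontinuity of the area of the non-attracted set at parameters of zero area. -/

set_option autoImplicit false

open Topology Filter Metric Set MeasureTheory

namespace Pool.Agent.H790R3.RB

namespace USC

variable {d n s : ℕ} (S : Sys d n s)

theorem inC_none (x : Fin n → ℂ) (p : ℂ × ℂ) :
    S.InC none x p ↔ p.1 ≠ 0 ∧ ‖p.2 / p.1‖ < S.r₀ := by
  constructor
  · rintro ⟨a, z, ha, hz, rfl⟩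
    simp only [Sys.cht, ch, Prod.smul_fst, Prod.smul_snd, smul_eq_mul, mul_one]
    exact ⟨ha, by rwa [mul_div_cancel_left₀ z ha]⟩
  · rintro ⟨h1, h2⟩
    refine ⟨p.1, p.2 / p.1, h1, h2, ?_⟩
    simp only [Sys.cht, ch]
    ext
    · simp
    · simp only [Prod.smul_snd, smul_eq_mul]
      field_simp

theorem inC_some (k : Fin s) (x : Fin n → ℂ) (p : ℂ × ℂ) :
    S.InC (some k) x p ↔ p.2 ≠ 0 ∧ ‖p.1 / p.2 - S.b k x‖ < S.r₀ := by
  constructor
  · rintro ⟨a, z, ha, hz, rfl⟩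
    simp only [Sys.cht, ch, Prod.smul_fst, Prod.smul_snd, smul_eq_mul, mul_one]
    refine ⟨ha, ?_⟩
    rw [mul_div_cancel_left₀ _ ha]
    simpa using hz
  · rintro ⟨h1, h2⟩
    refine ⟨p.2, p.1 / p.2 - S.b k x, h1, h2, ?_⟩
    simp only [Sys.cht, ch]
    ext
    · simp only [Prod.smul_fst, smul_eq_mul]
      field_simp
      ring
    · simp

theorem isOpen_U : IsOpen S.U := isOpen_ball

theorem isOpen_inC (k : Option (Fin s)) :
    IsOpen {q : (Fin n → ℂ) × (ℂ × ℂ) | q.1 ∈ S.U ∧ S.InC k q.1 q.2} := by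
  have hU : IsOpen {q : (Fin n → ℂ) × (ℂ × ℂ) | q.1 ∈ S.U} := (isOpen_U S).preimage continuous_fst
  cases k with
  | none =>
    have hO : IsOpen {q : (Fin n → ℂ) × (ℂ × ℂ) | q.1 ∈ S.U ∧ q.2.1 ≠ 0} :=
      hU.inter (isOpen_ne.preimage (continuous_fst.comp continuous_snd))
    have hf : ContinuousOn (fun q : (Fin n → ℂ) × (ℂ × ℂ) => ‖q.2.2 / q.2.1‖)
        {q : (Fin n → ℂ) × (ℂ × ℂ) | q.1 ∈ S.U ∧ q.2.1 ≠ 0} := by
      apply ContinuousOn.norm
      apply ContinuousOn.div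
      · exact (continuous_snd.comp continuous_snd).continuousOn
      · exact (continuous_fst.comp continuous_snd).continuousOn
      · intro q hq; exact hq.2
    have h := hf.isOpen_inter_preimage hO (isOpen_Iio (a := S.r₀))
    convert h using 1
    ext q
    simp only [mem_setOf_eq, mem_inter_iff, mem_preimage, mem_Iio, inC_none]
    tauto
  | some k =>
    have hO : IsOpen {q : (Fin n → ℂ) × (ℂ × ℂ) | q.1 ∈ S.U ∧ q.2.2 ≠ 0} :=
      hU.inter (isOpen_ne.preimage (continuous_snd.comp continuous_snd))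
    have hf : ContinuousOn (fun q : (Fin n → ℂ) × (ℂ × ℂ) => ‖q.2.1 / q.2.2 - S.b k q.1‖)
        {q : (Fin n → ℂ) × (ℂ × ℂ) | q.1 ∈ S.U ∧ q.2.2 ≠ 0} := by
      apply ContinuousOn.norm
      apply ContinuousOn.sub
      · apply ContinuousOn.div
        · exact (continuous_fst.comp continuous_snd).continuousOn
        · exact (continuous_snd.comp continuous_snd).continuousOn
        · intro q hq; exact hq.2
      · exact (S.hb k).continuousOn.comp continuous_fst.continuousOn (fun q hq => hq.1)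
    have h := hf.isOpen_inter_preimage hO (isOpen_Iio (a := S.r₀))
    convert h using 1
    ext q
    simp only [mem_setOf_eq, mem_inter_iff, mem_preimage, mem_Iio, inC_some]
    tauto

/-- the open set of pairs which are in one of the cones before time `N` -/
def W (N : ℕ) : Set ((Fin n → ℂ) × ℂ) :=
  {q | q.1 ∈ S.U ∧ ∃ k, ∃ m ≤ N, S.InC k q.1 ((S.F q.1)^[m] (q.2, 1))}

theorem isOpen_W (N : ℕ) : IsOpen (W S N) := by
  have h1 : W S N = ⋃ k : Option (Fin s), ⋃ m : ℕ, ⋃ (_ : m ≤ N),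
      {q : (Fin n → ℂ) × ℂ | q.1 ∈ S.U ∧ S.InC k q.1 ((S.F q.1)^[m] (q.2, 1))} := by
    ext q
    simp only [W, mem_setOf_eq, mem_iUnion, exists_prop]
    constructor
    · rintro ⟨h, k, m, hm, h2⟩; exact ⟨k, m, hm, h, h2⟩
    · rintro ⟨k, m, hm, h, h2⟩; exact ⟨h, k, m, hm, h2⟩
  rw [h1]
  refine isOpen_iUnion fun k => isOpen_iUnion fun m => isOpen_iUnion fun _ => ?_
  have hU : IsOpen {q : (Fin n → ℂ) × ℂ | q.1 ∈ S.U} := (isOpen_U S).preimage continuous_fst
  have hf : ContinuousOn (fun q : (Fin n → ℂ) × ℂ => (q.1, (S.F q.1)^[m] (q.2, 1)))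
      {q : (Fin n → ℂ) × ℂ | q.1 ∈ S.U} := by
    apply ContinuousOn.prodMk continuous_fst.continuousOn
    have hco : ContinuousOn (fun q : (Fin n → ℂ) × ℂ => (S.co q.1, ((q.2, 1) : ℂ × ℂ)))
        {q : (Fin n → ℂ) × ℂ | q.1 ∈ S.U} :=
      ContinuousOn.prodMk
        (S.hco.continuousOn.comp continuous_fst.continuousOn (fun q hq => hq))
        (continuous_snd.prodMk continuous_const).continuousOn
    have h2 := (hF_iter_continuous d m).comp_continuousOn hco
    have e : ((fun q : CV d × (ℂ × ℂ) => (hF q.1)^[m] q.2) ∘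
        (fun q : (Fin n → ℂ) × ℂ => (S.co q.1, ((q.2, 1) : ℂ × ℂ)))) =
        (fun q : (Fin n → ℂ) × ℂ => (S.F q.1)^[m] (q.2, 1)) := by
      funext q
      simp only [Function.comp_apply, Sys.F]
    rw [← e]
    exact h2
  have h := hf.isOpen_inter_preimage hU (isOpen_inC S k)
  convert h using 1
  ext q
  simp only [mem_setOf_eq, mem_inter_iff, mem_preimage]
  tauto

/-- points outside of the large disc are in the cone at infinity -/
theorem far (x : Fin n → ℂ) (ζ : ℂ) (h : 1 / S.r₀ < ‖ζ‖) : S.InC none x (ζ, 1) := by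
  have h0 : 0 < ‖ζ‖ := lt_trans (by have := S.hr₀; positivity) h
  rw [inC_none]
  refine ⟨norm_pos_iff.mp h0, ?_⟩
  simp only [norm_div, norm_one]
  rw [div_lt_iff₀ h0]
  rw [div_lt_iff₀ S.hr₀] at h
  linarith

end USC

theorem USC : StUSC := by
  intro d n s S h0 η hη
  obtain ⟨L, hL⟩ : ∃ L : ℕ → Set ℂ, ∀ N ζ, ζ ∈ L N ↔
      ∀ k, ∀ m ≤ N, ¬ S.InC k S.xT ((S.F S.xT)^[m] (ζ, 1)) :=
    ⟨fun N => {ζ | ∀ k, ∀ m ≤ N, ¬ S.InC k S.xT ((S.F S.xT)^[m] (ζ, 1))}, fun N ζ => Iff.rfl⟩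
  have hxT : S.xT ∈ S.U := mem_ball_self S.hρ
  have hmem : ∀ N ζ, ζ ∈ L N ↔ (S.xT, ζ) ∉ USC.W S N := by
    intro N ζ
    rw [hL]
    simp only [USC.W, mem_setOf_eq, hxT, true_and]
    push Not
    rfl
  have hLc : ∀ N, IsClosed (L N) := by
    intro N
    have : L N = ((fun ζ : ℂ => (S.xT, ζ)) ⁻¹' (USC.W S N))ᶜ := by
      ext ζ
      rw [hmem]
      rfl
    rw [this]
    exact ((USC.isOpen_W S N).preimage (by fun_prop)).isClosed_compl
  have hLb : ∀ N, L N ⊆ closedBall 0 (1 / S.r₀) := by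
    intro N ζ hζ
    rw [mem_closedBall_zero_iff]
    by_contra hcon
    push Not at hcon
    exact (hL N ζ).mp hζ none 0 (Nat.zero_le _) (USC.far S S.xT ζ hcon)
  have hLanti : Antitone L := fun N M hNM ζ hζ =>
    (hL N ζ).mpr fun k m hm => (hL M ζ).mp hζ k m (hm.trans hNM)
  have hLinf : ⋂ N, L N ⊆ S.KS S.xT := by
    intro ζ hζ k m
    rw [mem_iInter] at hζ
    exact (hL m ζ).mp (hζ m) k m le_rfl
  have hvol : Tendsto (fun N => volume (L N)) atTop (𝓝 0) := by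
    have h1 : volume (⋂ N, L N) = 0 := measure_mono_null hLinf h0
    rw [← h1]
    refine tendsto_measure_iInter_atTop (fun N => (hLc N).measurableSet.nullMeasurableSet)
      hLanti ⟨0, ?_⟩
    exact ne_top_of_le_ne_top measure_closedBall_lt_top.ne (measure_mono (hLb 0))
  have hη' : (0 : ENNReal) < ENNReal.ofReal η := ENNReal.ofReal_pos.mpr hη
  obtain ⟨N, hN⟩ := ((tendsto_order.mp hvol).2 _ hη').exists
  obtain ⟨V, hLV, hV, hVη⟩ := Set.exists_isOpen_lt_of_lt (L N) _ hN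
  have hev : ∀ᶠ x in 𝓝 S.xT, ∀ ζ ∈ closedBall (0 : ℂ) (1 / S.r₀) \ V, (x, ζ) ∈ USC.W S N := by
    apply IsCompact.eventually_forall_of_forall_eventually
      ((isCompact_closedBall (0 : ℂ) (1 / S.r₀)).diff hV)
    intro ζ hζ
    apply (USC.isOpen_W S N).mem_nhds
    by_contra hcon
    exact hζ.2 (hLV ((hmem N ζ).mpr hcon))
  obtain ⟨σ, hσ, hσ'⟩ := Metric.eventually_nhds_iff.mp hev
  refine ⟨σ, N, hσ, fun x hxU hx => ?_⟩
  have hx' := hσ' (y := x) (by rwa [dist_eq_norm])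
  refine le_trans (measure_mono ?_) hVη.le
  intro ζ hζ
  by_contra hcon
  by_cases hb : ‖ζ‖ ≤ 1 / S.r₀
  · obtain ⟨_, k, m, hm, h2⟩ := hx' ζ ⟨by rwa [mem_closedBall_zero_iff], hcon⟩
    exact hζ k m hm h2
  · push Not at hb
    exact hζ none 0 (Nat.zero_le _) (USC.far S x ζ hb)

end Pool.Agent.H790R3.RB
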